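import Pool.Agent.KGU.Defs
import Pool.Agent.KGC.Exists

/-! Bounds for bilinear sums of integrals.

* `bound_sup`: exchange sum and integral; pointwise `le_beta` with `p_i = f_i(x)`,
  `q_j = conj (g_j(x))`.
* `bound_scaled`: homogeneity (if `N = 0` or `M = 0` all vectors vanish).
* `bound_L2`: apply `bound_scaled` in the Hilbert space `Lp ℂ 2 μ` to the vectors `conj X_i`,
  `conj Y_j` (`MeasureTheory.L2.inner_def`, `MemLp.coeFn_toLp`), whose norms are
  `(∫ ‖X_i‖²)^(1/2) ≤ N`. -/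

open MeasureTheory
open scoped ComplexConjugate

namespace Pool.Agent.KGU

lemma beta_nonneg {m n : ℕ} (A : Matrix (Fin m) (Fin n) ℂ) : 0 ≤ KGC.beta A := by
  have h := KGC.le_beta A (fun _ => 0) (fun _ => 0) (by simp) (by simp)
  exact (norm_nonneg _).trans h

lemma bound_sup {Ω : Type} [MeasurableSpace Ω] (μ : Measure Ω) [IsProbabilityMeasure μ] {m n : ℕ}
    (A : Matrix (Fin m) (Fin n) ℂ) (f : Fin m → Ω → ℂ) (g : Fin n → Ω → ℂ)
    (hf : ∀ i, Measurable (f i)) (hg : ∀ j, Measurable (g j)) (hf1 : ∀ i x, ‖f i x‖ ≤ 1)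
    (hg1 : ∀ j x, ‖g j x‖ ≤ 1) :
    ‖∑ i, ∑ j, A i j * ∫ x, f i x * conj (g j x) ∂μ‖ ≤ KGC.beta A := by
  have hint : ∀ i j, Integrable (fun x => f i x * conj (g j x)) μ := by
    intro i j
    have hm : Measurable (fun x => f i x * conj (g j x)) :=
      (hf i).mul (Complex.continuous_conj.measurable.comp (hg j))
    refine Integrable.of_bound (C := 1) hm.aestronglyMeasurable (Filter.Eventually.of_forall ?_)
    intro x
    rw [norm_mul, RCLike.norm_conj]
    exact mul_le_one₀ (hf1 i x) (norm_nonneg _) (hg1 j x)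
  have e : ∑ i, ∑ j, A i j * ∫ x, f i x * conj (g j x) ∂μ =
      ∫ x, ∑ i, ∑ j, A i j * f i x * conj (g j x) ∂μ := by
    rw [integral_finsetSum]
    · refine Finset.sum_congr rfl fun i _ => ?_
      rw [integral_finsetSum]
      · refine Finset.sum_congr rfl fun j _ => ?_
        rw [← integral_const_mul]
        refine integral_congr_ae (Filter.Eventually.of_forall fun x => ?_)
        simp only
        ring
      · intro j _
        have := (hint i j).const_mul (A i j)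
        refine this.congr (Filter.Eventually.of_forall fun x => ?_)
        simp only
        ring
    · intro i _
      refine integrable_finsetSum _ fun j _ => ?_
      have := (hint i j).const_mul (A i j)
      refine this.congr (Filter.Eventually.of_forall fun x => ?_)
      simp only
      ring
  rw [e]
  have h := norm_integral_le_of_norm_le_const (μ := μ) (C := KGC.beta A)
    (f := fun x => ∑ i, ∑ j, A i j * f i x * conj (g j x))
    (Filter.Eventually.of_forall fun x => KGC.le_beta A (fun i => f i x)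
      (fun j => conj (g j x)) (fun i => hf1 i x)
      (fun j => by rw [RCLike.norm_conj]; exact hg1 j x))
  simpa using h

lemma bound_scaled {K : ℝ} (hK : KGC.IsGrothendieckBound K) {m n : ℕ}
    (A : Matrix (Fin m) (Fin n) ℂ) {H : Type} [NormedAddCommGroup H] [InnerProductSpace ℂ H]
    [CompleteSpace H] (u : Fin m → H) (v : Fin n → H) {N M : ℝ} (hN : 0 ≤ N) (hM : 0 ≤ M)
    (hu : ∀ i, ‖u i‖ ≤ N) (hv : ∀ j, ‖v j‖ ≤ M) :
    ‖∑ i, ∑ j, A i j * (inner ℂ (u i) (v j) : ℂ)‖ ≤ K * (N * M) * KGC.beta A := by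
  rcases hN.eq_or_lt with h0 | hN0
  · have hu0 : ∀ i, u i = 0 := fun i => by
      rw [← norm_le_zero_iff, h0]
      exact hu i
    simp [hu0, ← h0]
  rcases hM.eq_or_lt with h0 | hM0
  · have hv0 : ∀ i, v i = 0 := fun i => by
      rw [← norm_le_zero_iff, h0]
      exact hv i
    simp [hv0, ← h0]
  have hNc : (N : ℂ) ≠ 0 := by exact_mod_cast hN0.ne'
  have hMc : (M : ℂ) ≠ 0 := by exact_mod_cast hM0.ne'
  have h := hK m n A H (fun i => ((N : ℂ)⁻¹) • u i) (fun j => ((M : ℂ)⁻¹) • v j)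
    (fun i => by
      rw [norm_smul, norm_inv, Complex.norm_real, Real.norm_of_nonneg hN]
      rw [inv_mul_le_iff₀ hN0, mul_one]
      exact hu i)
    (fun i => by
      rw [norm_smul, norm_inv, Complex.norm_real, Real.norm_of_nonneg hM]
      rw [inv_mul_le_iff₀ hM0, mul_one]
      exact hv i)
  have e : ∑ i, ∑ j, A i j * (inner ℂ (u i) (v j) : ℂ) =
      ((N * M : ℝ) : ℂ) * ∑ i, ∑ j, A i j *
        (inner ℂ (((N : ℂ)⁻¹) • u i) (((M : ℂ)⁻¹) • v j) : ℂ) := by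
    rw [Finset.mul_sum]
    refine Finset.sum_congr rfl fun i _ => ?_
    rw [Finset.mul_sum]
    refine Finset.sum_congr rfl fun j _ => ?_
    rw [inner_smul_left, inner_smul_right]
    have hc : (starRingEnd ℂ) ((N : ℂ)⁻¹) = (N : ℂ)⁻¹ := by
      rw [map_inv₀, Complex.conj_ofReal]
    rw [hc]
    push_cast
    field_simp
  rw [e, norm_mul, Complex.norm_real, Real.norm_of_nonneg (mul_nonneg hN hM)]
  calc N * M * ‖∑ i, ∑ j, A i j * (inner ℂ (((N : ℂ)⁻¹) • u i) (((M : ℂ)⁻¹) • v j) : ℂ)‖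
      ≤ N * M * (K * KGC.beta A) := by
        refine mul_le_mul_of_nonneg_left h (mul_nonneg hN hM)
    _ = K * (N * M) * KGC.beta A := by ring

lemma bound_L2 {K : ℝ} (hK : KGC.IsGrothendieckBound K) {Ω : Type} [MeasurableSpace Ω]
    (μ : Measure Ω) {m n : ℕ} (A : Matrix (Fin m) (Fin n) ℂ) (X : Fin m → Ω → ℂ)
    (Y : Fin n → Ω → ℂ) (hX : ∀ i, MemLp (X i) 2 μ) (hY : ∀ j, MemLp (Y j) 2 μ) {N M : ℝ}
    (hN : 0 ≤ N) (hM : 0 ≤ M) (hXN : ∀ i, ∫ x, ‖X i x‖ ^ 2 ∂μ ≤ N ^ 2)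
    (hYM : ∀ j, ∫ x, ‖Y j x‖ ^ 2 ∂μ ≤ M ^ 2) :
    ‖∑ i, ∑ j, A i j * ∫ x, X i x * conj (Y j x) ∂μ‖ ≤ K * (N * M) * KGC.beta A := by
  have hX' : ∀ i, MemLp (fun x => conj (X i x)) 2 μ := fun i => (hX i).star
  have hY' : ∀ j, MemLp (fun x => conj (Y j x)) 2 μ := fun j => (hY j).star
  -- norms
  have hnorm : ∀ (Z : Ω → ℂ) (hZ : MemLp Z 2 μ) (R : ℝ), 0 ≤ R → ∫ x, ‖Z x‖ ^ 2 ∂μ ≤ R ^ 2 →
      ‖hZ.toLp‖ ≤ R := by
    intro Z hZ R hR h
    have h1 : ‖hZ.toLp‖ ^ 2 = ∫ x, ‖Z x‖ ^ 2 ∂μ := by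
      obtain ⟨z, hz⟩ : ∃ z : Lp ℂ 2 μ, z = hZ.toLp := ⟨_, rfl⟩
      have hz' : z =ᵐ[μ] Z := by rw [hz]; exact hZ.coeFn_toLp
      rw [← hz]
      have h2 := inner_self_eq_norm_sq_to_K (𝕜 := ℂ) z
      rw [MeasureTheory.L2.inner_def] at h2
      have h3 : ∫ x, inner ℂ (z x) (z x) ∂μ = ((∫ x, ‖Z x‖ ^ 2 ∂μ : ℝ) : ℂ) := by
        rw [← integral_complex_ofReal]
        refine integral_congr_ae ?_
        filter_upwards [hz'] with x hx
        rw [hx]
        rw [inner_self_eq_norm_sq_to_K]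
        simp
      rw [h3] at h2
      have h4 : (((∫ x, ‖Z x‖ ^ 2 ∂μ : ℝ)) : ℂ) = ((‖z‖ ^ 2 : ℝ) : ℂ) := by
        rw [h2]
        push_cast
        rfl
      exact_mod_cast h4.symm
    have h5 : ‖hZ.toLp‖ ^ 2 ≤ R ^ 2 := by rw [h1]; exact h
    exact (pow_le_pow_iff_left₀ (norm_nonneg _) hR (by norm_num)).1 h5
  have hb := bound_scaled hK A (fun i => (hX' i).toLp) (fun j => (hY' j).toLp) hN hM
    (fun i => hnorm _ (hX' i) N hN (by simpa only [RCLike.norm_conj] using hXN i))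
    (fun j => hnorm _ (hY' j) M hM (by simpa only [RCLike.norm_conj] using hYM j))
  have e : ∀ i j, (inner ℂ ((hX' i).toLp) ((hY' j).toLp) : ℂ) =
      ∫ x, X i x * conj (Y j x) ∂μ := by
    intro i j
    rw [MeasureTheory.L2.inner_def]
    refine integral_congr_ae ?_
    filter_upwards [(hX' i).coeFn_toLp, (hY' j).coeFn_toLp] with x hx hy
    rw [hx, hy]
    simp [mul_comm]
  simp only [e] at hb
  exact hb

end Pool.Agent.KGU
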