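import Pool.Agent.KGU.GramA

/-! The vectors used in the rounding.

* `exists_unit_gram`: for vectors `u, v` in the unit ball and `0 < t < 1` the matrix
  `t • gram + diagonal (1 - t ‖.‖²)`.
* `exists_round`: `z` realises `G`, `ζ` realises `G(x,y)^2 conj(G x y)` (`exists_gram`,
  `pow_kernel` with `p = q = 1`; index `Fin m ⊕ Fin n`),
  in the direct sum (index type doubled) `a_i = (α z_i, β ζ_i)`, `b_i = (-β z_i, α ζ_i)`,
  `a'_j = (α z_j, -β ζ_j)`, `b'_j = (-β z_j, -α ζ_j)`, `α = √(9/10)`, `β = √(1/10)`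
  (`inner (a i) (a' j) = (9/10) G - (1/10) G² conj G = e (9r - r³)/10`). -/

open scoped ComplexConjugate ComplexOrder

namespace Pool.Agent.KGU

lemma exists_unit_gram {m n : ℕ} {H : Type} [NormedAddCommGroup H] [InnerProductSpace ℂ H]
    (u : Fin m → H) (v : Fin n → H) (hu : ∀ i, ‖u i‖ ≤ 1) (hv : ∀ j, ‖v j‖ ≤ 1) (t : ℝ)
    (ht0 : 0 < t) (ht1 : t < 1) :
    ∃ G : Matrix (Fin m ⊕ Fin n) (Fin m ⊕ Fin n) ℂ, G.PosSemidef ∧ (∀ x, G x x = 1) ∧
      ∀ i j, G (Sum.inl i) (Sum.inr j) = (t : ℂ) * inner ℂ (u i) (v j) := by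
  classical
  set w : Fin m ⊕ Fin n → H := Sum.elim u v with hw
  have hw1 : ∀ x, ‖w x‖ ≤ 1 := by
    rintro (i | j)
    · exact hu i
    · exact hv j
  refine ⟨(t : ℂ) • Matrix.gram ℂ w
    + Matrix.diagonal (fun x => ((1 - t * ‖w x‖ ^ 2 : ℝ) : ℂ)), ?_, ?_, ?_⟩
  · refine Matrix.PosSemidef.add ?_ ?_
    · have h1 : (Matrix.gram ℂ w).PosSemidef := Matrix.posSemidef_gram ℂ w
      have h2 : (0 : ℂ) ≤ (t : ℂ) := by exact_mod_cast ht0.le
      exact h1.smul h2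
    · refine Matrix.PosSemidef.diagonal ?_
      intro x
      have h3 : 0 ≤ 1 - t * ‖w x‖ ^ 2 := by
        have h4 : ‖w x‖ ^ 2 ≤ 1 := by
          have := hw1 x
          have h0 := norm_nonneg (w x)
          nlinarith
        nlinarith [sq_nonneg ‖w x‖]
      simp only [Pi.zero_apply]
      exact_mod_cast h3
  · intro x
    rw [Matrix.add_apply, Matrix.smul_apply, Matrix.gram_apply, Matrix.diagonal_apply_eq,
      inner_self_eq_norm_sq_to_K, smul_eq_mul]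
    push_cast
    simp
  · intro i j
    rw [Matrix.add_apply, Matrix.smul_apply, Matrix.gram_apply,
      Matrix.diagonal_apply_ne _ (by simp), smul_eq_mul, add_zero]
    simp [hw]

/-- the vector with two blocks -/
private noncomputable def blk {κ : Type} (p q : EuclideanSpace ℂ κ) :
    EuclideanSpace ℂ (κ ⊕ κ) :=
  WithLp.toLp 2 (Sum.elim (fun x => p x) (fun x => q x))

private lemma inner_blk {κ : Type} [Fintype κ] (p q p' q' : EuclideanSpace ℂ κ) :
    inner ℂ (blk p q) (blk p' q') = inner ℂ p p' + inner ℂ q q' := by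
  rw [PiLp.inner_apply, PiLp.inner_apply, PiLp.inner_apply, Fintype.sum_sum_type]
  rfl

lemma exists_round {m n : ℕ} (G : Matrix (Fin m ⊕ Fin n) (Fin m ⊕ Fin n) ℂ)
    (hG : G.PosSemidef) (hG1 : ∀ x, G x x = 1) :
    ∃ (ι : Type) (_ : Fintype ι) (a b : Fin m → EuclideanSpace ℂ ι)
      (a' b' : Fin n → EuclideanSpace ℂ ι),
      (∀ i, inner ℂ (a i) (a i) = (1 : ℂ) ∧ inner ℂ (b i) (b i) = (1 : ℂ) ∧
        inner ℂ (a i) (b i) = (0 : ℂ)) ∧
      (∀ j, inner ℂ (a' j) (a' j) = (1 : ℂ) ∧ inner ℂ (b' j) (b' j) = (1 : ℂ) ∧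
        inner ℂ (a' j) (b' j) = (0 : ℂ)) ∧
      ∀ i j, ∀ (r : ℝ) (e : ℂ), ‖e‖ = 1 → G (Sum.inl i) (Sum.inr j) = r * e →
        inner ℂ (a i) (a' j) = (hh r : ℂ) * e ∧ inner ℂ (a i) (b' j) = (th r : ℂ) * e ∧
        inner ℂ (b i) (a' j) = (th r : ℂ) * e ∧ inner ℂ (b i) (b' j) = (kk r : ℂ) * e := by
  obtain ⟨z, hz⟩ := exists_gram G hG
  obtain ⟨y, hy⟩ := exists_gram _ (pow_kernel G hG 1 1)
  simp only [Matrix.of_apply] at hy
  obtain ⟨α, β, hα, hβ, hαβ⟩ : ∃ α β : ℝ, α * α = 9 / 10 ∧ β * β = 1 / 10 ∧ α * β = 3 / 10 := by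
    refine ⟨√(9 / 10), √(1 / 10), Real.mul_self_sqrt (by norm_num),
      Real.mul_self_sqrt (by norm_num), ?_⟩
    rw [← Real.sqrt_mul (by norm_num)]
    rw [show (9 / 10 * (1 / 10) : ℝ) = (3 / 10) ^ 2 by norm_num]
    exact Real.sqrt_sq (by norm_num)
  have hα' : (α : ℂ) * α = 9 / 10 := by
    rw [← Complex.ofReal_mul, hα]; push_cast; ring
  have hβ' : (β : ℂ) * β = 1 / 10 := by
    rw [← Complex.ofReal_mul, hβ]; push_cast; ring
  have hαβ' : (α : ℂ) * β = 3 / 10 := by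
    rw [← Complex.ofReal_mul, hαβ]; push_cast; ring
  have hin : ∀ (c d : ℝ) (p q : EuclideanSpace ℂ (Fin m ⊕ Fin n)),
      inner ℂ ((c : ℂ) • p) ((d : ℂ) • q) = (c : ℂ) * d * inner ℂ p q := by
    intro c d p q
    rw [inner_smul_left, inner_smul_right, Complex.conj_ofReal]
    ring
  have hdiag : ∀ x, inner ℂ (z x) (z x) = (1 : ℂ) := fun x => by rw [hz, hG1]
  have hdiag' : ∀ x, inner ℂ (y x) (y x) = (1 : ℂ) := fun x => by rw [hy, hG1]; simp
  refine ⟨(Fin m ⊕ Fin n) ⊕ (Fin m ⊕ Fin n), inferInstance,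
    fun i => blk ((α : ℂ) • z (Sum.inl i)) ((β : ℂ) • y (Sum.inl i)),
    fun i => blk (((-β : ℝ) : ℂ) • z (Sum.inl i)) ((α : ℂ) • y (Sum.inl i)),
    fun j => blk ((α : ℂ) • z (Sum.inr j)) (((-β : ℝ) : ℂ) • y (Sum.inr j)),
    fun j => blk (((-β : ℝ) : ℂ) • z (Sum.inr j)) (((-α : ℝ) : ℂ) • y (Sum.inr j)), ?_, ?_, ?_⟩
  · intro i
    refine ⟨?_, ?_, ?_⟩
    · rw [inner_blk, hin, hin, hdiag, hdiag']
      push_cast
      linear_combination hα' + hβ'
    · rw [inner_blk, hin, hin, hdiag, hdiag']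
      push_cast
      linear_combination hα' + hβ'
    · rw [inner_blk, hin, hin, hdiag, hdiag']
      push_cast
      ring
  · intro j
    refine ⟨?_, ?_, ?_⟩
    · rw [inner_blk, hin, hin, hdiag, hdiag']
      push_cast
      linear_combination hα' + hβ'
    · rw [inner_blk, hin, hin, hdiag, hdiag']
      push_cast
      linear_combination hα' + hβ'
    · rw [inner_blk, hin, hin, hdiag, hdiag']
      push_cast
      ring
  · intro i j r e he hGe
    have h1 : inner ℂ (z (Sum.inl i)) (z (Sum.inr j)) = (r : ℂ) * e := by rw [hz, hGe]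
    have hee : e * conj e = 1 := by
      rw [Complex.mul_conj, Complex.normSq_eq_norm_sq, he]; simp
    have h2 : inner ℂ (y (Sum.inl i)) (y (Sum.inr j)) = (r : ℂ) ^ 3 * e := by
      rw [hy, hGe, map_mul, Complex.conj_ofReal]
      linear_combination ((r : ℂ) ^ 3 * e) * hee
    refine ⟨?_, ?_, ?_, ?_⟩
    · rw [inner_blk, hin, hin, h1, h2, hh]
      push_cast
      linear_combination ((r : ℂ) * e) * hα' - ((r : ℂ) ^ 3 * e) * hβ'
    · rw [inner_blk, hin, hin, h1, h2, th]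
      push_cast
      linear_combination (-((r : ℂ) * e) - (r : ℂ) ^ 3 * e) * hαβ'
    · rw [inner_blk, hin, hin, h1, h2, th]
      push_cast
      linear_combination (-((r : ℂ) * e) - (r : ℂ) ^ 3 * e) * hαβ'
    · rw [inner_blk, hin, hin, h1, h2, kk]
      push_cast
      linear_combination ((r : ℂ) * e) * hβ' - ((r : ℂ) ^ 3 * e) * hα'

end Pool.Agent.KGU
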