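import Pool.Agent.KGU.Seq

/-! The first 41 coefficients.

Numerical values: `psi 0 = 0.7124120562`, `Σ_{n=1}^{40} |psi n| = 0.00054169583`,
`psi 1 = 0.00012078495`, `psi 2 = -0.00040328717`, `psi 3 = 1.649e-6`, `psi 4 = 2.257e-6`, ...

`psi n = (π/4)(q_n - π r_n)` with rational `q_n = qs n`, `r_n = rs n`. Compute lists of `q_n`, `r_n`
(`n ≤ 40`) in the kernel (`decide +kernel` on rational arithmetic, or with integers after
clearing denominators, or outward rounded): compute the truncated coefficient lists of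
`LL m` by Horner's scheme `acc ↦ m_l + X * acc` (or by the table of `xc l n`), prove by a relation
(list entry `n` = value of the function) that the lists are right, and conclude with
`Real.pi_gt_d20`, `Real.pi_lt_d20` (or `pi_gt_d6` type bounds). The exact definition of `xc` is
exponential when unfolded, so it must be replaced by a list based computation (table of rows). -/

open Real

namespace Pool.Agent.KGU

/-! ### lists and functions -/

/-- the entries of the list are the first values of the function -/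
def IsL : List ℚ → (ℕ → ℚ) → Prop
  | [], _ => True
  | x :: xs, f => x = f 0 ∧ IsL xs (fun n => f (n + 1))

theorem IsL.congr : ∀ {L : List ℚ} {f g : ℕ → ℚ}, IsL L f → (∀ n < L.length, f n = g n) → IsL L g
  | [], _, _, _, _ => trivial
  | x :: xs, f, g, h, he => by
    refine ⟨h.1.trans (he 0 (by simp)), h.2.congr fun n hn => he (n + 1) ?_⟩
    simpa using hn

/-- multiplication by `X` -/
def goL : ℚ → ℚ → ℚ → List ℚ → List ℚ
  | _, _, _, [] => []
  | a, b, c, x :: xs => (81 / 100 * a - 18 / 100 * b + 1 / 100 * c) :: goL x a b xs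

theorem length_goL : ∀ (L : List ℚ) (a b c : ℚ), (goL a b c L).length = L.length
  | [], _, _, _ => rfl
  | x :: xs, a, b, c => by
    rw [goL, List.length_cons, List.length_cons, length_goL xs]

theorem isL_goL : ∀ (L : List ℚ) (f : ℕ → ℚ), IsL L (fun n => f (n + 3)) →
    IsL (goL (f 2) (f 1) (f 0) L)
      (fun n => 81 / 100 * f (n + 2) - 18 / 100 * f (n + 1) + 1 / 100 * f n)
  | [], _, _ => trivial
  | x :: xs, f, h => by
    have hx : x = f 3 := h.1
    refine ⟨rfl, ?_⟩
    have h2 := isL_goL xs (fun n => f (n + 1)) h.2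
    subst hx
    exact h2

/-- the sequence with three zeros in front -/
def pad (f : ℕ → ℚ) : ℕ → ℚ
  | 0 => 0
  | 1 => 0
  | 2 => 0
  | (n + 3) => f n

theorem isL_next {L : List ℚ} {l : ℕ} (h : IsL L (xc l)) : IsL (goL 0 0 0 L) (xc (l + 1)) := by
  have h1 := isL_goL L (pad (xc l)) h
  refine h1.congr fun n _ => ?_
  match n with
  | 0 => simp [pad, xc]
  | 1 => simp [pad, xc]
  | 2 => simp [pad, xc]
  | (n + 3) => simp [pad, xc]

/-- `Y + c X` -/
def addL (c : ℚ) : List ℚ → List ℚ → List ℚ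
  | x :: xs, y :: ys => (y + c * x) :: addL c xs ys
  | _, _ => []

theorem length_addL (c : ℚ) : ∀ X Y : List ℚ, X.length = Y.length → (addL c X Y).length = Y.length
  | [], [], _ => rfl
  | x :: xs, [], h => by simp at h
  | [], y :: ys, h => by simp at h
  | x :: xs, y :: ys, h => by
    rw [addL, List.length_cons, List.length_cons, length_addL c xs ys (by simpa using h)]

theorem isL_addL (c : ℚ) : ∀ {X Y : List ℚ} {f g : ℕ → ℚ}, IsL X f → IsL Y g →
    IsL (addL c X Y) (fun n => g n + c * f n)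
  | [], _, _, _, _, _ => by unfold addL; trivial
  | x :: xs, [], _, _, _, _ => by unfold addL; trivial
  | x :: xs, y :: ys, f, g, h1, h2 => by
    refine ⟨?_, isL_addL c h1.2 h2.2⟩
    rw [h1.1, h2.1]

theorem isL_zero : ∀ N : ℕ, IsL (List.replicate N 0) (fun _ => 0)
  | 0 => trivial
  | N + 1 => ⟨rfl, isL_zero N⟩

/-- summation of the rows -/
def accL (m : ℕ → ℚ) : ℕ → ℕ → List ℚ → List ℚ → List ℚ
  | 0, _, _, A => A
  | k + 1, l, R, A => accL m k (l + 1) (goL 0 0 0 R) (addL (m l) R A)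

theorem isL_accL (m : ℕ → ℚ) : ∀ (k l : ℕ) (R A : List ℚ), IsL R (xc l) →
    IsL A (fun n => ∑ j ∈ Finset.range l, m j * xc j n) →
    IsL (accL m k l R A) (fun n => ∑ j ∈ Finset.range (l + k), m j * xc j n)
  | 0, _, _, _, _, h2 => h2
  | k + 1, l, R, A, h1, h2 => by
    have h3 := isL_accL m k (l + 1) (goL 0 0 0 R) (addL (m l) R A) (isL_next h1)
      ((isL_addL (m l) h1 h2).congr fun n _ => by rw [Finset.sum_range_succ])
    rw [accL]
    refine h3.congr fun n _ => ?_
    rw [show l + 1 + k = l + (k + 1) by omega]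

theorem length_accL (m : ℕ → ℚ) : ∀ (k l : ℕ) (R A : List ℚ), R.length = A.length →
    (accL m k l R A).length = A.length
  | 0, _, _, _, _ => rfl
  | k + 1, l, R, A, h => by
    rw [accL, length_accL m k (l + 1) _ _ (by rw [length_goL, length_addL _ _ _ h, h]),
      length_addL _ _ _ h]

/-- the first coefficients of `∑ m_l X^l` -/
def LLs (m : ℕ → ℚ) (N : ℕ) : List ℚ :=
  accL m (N + 1) 0 (1 :: List.replicate N 0) (0 :: List.replicate N 0)

theorem length_LLs (m : ℕ → ℚ) (N : ℕ) : (LLs m N).length = N + 1 := by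
  rw [LLs, length_accL]
  · simp
  · simp

theorem xc_zero_of_lt : ∀ {l n : ℕ}, n < l → xc l n = 0
  | 0, _, h => absurd h (Nat.not_lt_zero _)
  | l + 1, 0, _ => by rw [xc]
  | l + 1, 1, h => by
    rw [xc, xc_zero_of_lt (show 0 < l by omega), mul_zero]
  | l + 1, 2, h => by
    rw [xc, xc_zero_of_lt (show 1 < l by omega), xc_zero_of_lt (show 0 < l by omega)]; ring
  | l + 1, n + 3, h => by
    rw [xc, xc_zero_of_lt (show n + 2 < l by omega), xc_zero_of_lt (show n + 1 < l by omega),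
      xc_zero_of_lt (show n < l by omega)]; ring

theorem isL_LLs (m : ℕ → ℚ) (N : ℕ) : IsL (LLs m N) (LL m) := by
  have h0 : IsL (1 :: List.replicate N 0) (xc 0) := by
    refine ⟨by rw [xc], (isL_zero N).congr fun n _ => by rw [xc]⟩
  have h1 := isL_accL m (N + 1) 0 (1 :: List.replicate N 0) (0 :: List.replicate N 0) h0
    ⟨by simp, (isL_zero N).congr fun n _ => by simp⟩
  refine h1.congr fun n hn => ?_
  have hn' : n < N + 1 := by rwa [← LLs, length_LLs] at hn
  rw [LL, Nat.zero_add]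
  symm
  refine Finset.sum_subset (Finset.range_subset_range.2 (by omega)) fun j _ hj => ?_
  rw [Finset.mem_range, not_lt] at hj
  rw [xc_zero_of_lt (by omega), mul_zero]

/-- product with a polynomial -/
def cvL : List ℚ → List ℚ → List ℚ
  | [], L => L.map fun _ => 0
  | c :: A, L => addL c L (0 :: cvL A L)

theorem isL_map_zero : ∀ L : List ℚ, IsL (L.map fun _ => 0) (fun _ => 0)
  | [] => trivial
  | _ :: xs => ⟨rfl, isL_map_zero xs⟩

theorem isL_cvL : ∀ (A : List ℚ) {L : List ℚ} {f : ℕ → ℚ}, IsL L f → IsL (cvL A L) (cv A f)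
  | [], L, f, _ => by
    refine (isL_map_zero L).congr fun n _ => ?_
    rw [cv]
  | c :: A, L, f, h => by
    have h1 : IsL (0 :: cvL A L) (fun n => match n with | 0 => 0 | (n + 1) => cv A f n) :=
      ⟨rfl, isL_cvL A h⟩
    refine (isL_addL c h h1).congr fun n _ => ?_
    match n with
    | 0 => simp [cv]
    | (n + 1) => simp only [cv]; ring

/-- the list of the numbers `qs n` -/
def qL (N : ℕ) : List ℚ :=
  addL 1 (cvL A7 (LLs m7 N)) (addL 1 (cvL A6 (LLs m6 N)) (addL 1 (cvL A5 (LLs m5 N))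
    (addL 1 (cvL A4 (LLs m4 N)) (addL 1 (cvL A3 (LLs m3 N)) (addL 1 (cvL A2 (LLs m2 N))
      (cvL A1 (LLs m1 N)))))))

/-- the list of the numbers `rs n` -/
def rL (N : ℕ) : List ℚ := addL 1 (cvL A9 (LLs m9 N)) (cvL A8 (LLs m8 N))

theorem isL_qL (N : ℕ) : IsL (qL N) qs := by
  have h := isL_addL 1 (isL_cvL A7 (isL_LLs m7 N)) (isL_addL 1 (isL_cvL A6 (isL_LLs m6 N))
    (isL_addL 1 (isL_cvL A5 (isL_LLs m5 N)) (isL_addL 1 (isL_cvL A4 (isL_LLs m4 N))
      (isL_addL 1 (isL_cvL A3 (isL_LLs m3 N)) (isL_addL 1 (isL_cvL A2 (isL_LLs m2 N))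
        (isL_cvL A1 (isL_LLs m1 N)))))))
  refine IsL.congr h fun n _ => ?_
  simp only [one_mul, qs]

theorem isL_rL (N : ℕ) : IsL (rL N) rs := by
  have h := isL_addL 1 (isL_cvL A9 (isL_LLs m9 N)) (isL_cvL A8 (isL_LLs m8 N))
  refine IsL.congr h fun n _ => ?_
  simp only [one_mul, rs]

attribute [irreducible] qL rL

/-! ### the sum -/

def piLo : ℚ := 314159265358979323846 / 10 ^ 20
def piHi : ℚ := 314159265358979323847 / 10 ^ 20

/-- bound for `|q - pi r|` -/
def mx (q r : ℚ) : ℚ := max |q - piLo * r| |q - piHi * r|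

/-- the sum over the lists -/
def sumL : List ℚ → List ℚ → ℚ
  | q :: Q, r :: R => mx q r + sumL Q R
  | _, _ => 0

theorem sumL_eq : ∀ (N : ℕ) (Q R : List ℚ) (f g : ℕ → ℚ), Q.length = N → R.length = N → IsL Q f →
    IsL R g → sumL Q R = ∑ i ∈ Finset.range N, mx (f i) (g i)
  | 0, [], _, f, g, _, _, _, _ => by simp [sumL]
  | N + 1, q :: Q, r :: R, f, g, hQ, hR, h1, h2 => by
    rw [sumL, sumL_eq N Q R _ _ (by simpa using hQ) (by simpa using hR) h1.2 h2.2,
      Finset.sum_range_succ', h1.1, h2.1, add_comm]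

theorem piLo_le : (piLo : ℝ) ≤ π := by
  have := Real.pi_gt_d20
  rw [piLo]
  push_cast
  norm_num at this ⊢
  linarith

theorem le_piHi : π ≤ (piHi : ℝ) := by
  have := Real.pi_lt_d20
  rw [piHi]
  push_cast
  norm_num at this ⊢
  linarith

theorem abs_le_mx (q r : ℚ) : |(q : ℝ) - π * r| ≤ mx q r := by
  have h1 := piLo_le
  have h2 := le_piHi
  rw [mx]
  push_cast
  rcases le_total (0 : ℝ) r with h | h
  · have h3 : (piLo : ℝ) * r ≤ π * r := mul_le_mul_of_nonneg_right h1 h
    have h4 : π * r ≤ (piHi : ℝ) * r := mul_le_mul_of_nonneg_right h2 h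
    refine abs_le.2 ⟨?_, ?_⟩
    · have := neg_abs_le ((q : ℝ) - piHi * r)
      have h5 := le_max_right |(q : ℝ) - piLo * r| |(q : ℝ) - piHi * r|
      linarith
    · have := le_abs_self ((q : ℝ) - piLo * r)
      have h5 := le_max_left |(q : ℝ) - piLo * r| |(q : ℝ) - piHi * r|
      linarith
  · have h3 : π * r ≤ (piLo : ℝ) * r := mul_le_mul_of_nonpos_right h1 h
    have h4 : (piHi : ℝ) * r ≤ π * r := mul_le_mul_of_nonpos_right h2 h
    refine abs_le.2 ⟨?_, ?_⟩
    · have := neg_abs_le ((q : ℝ) - piLo * r)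
      have h5 := le_max_left |(q : ℝ) - piLo * r| |(q : ℝ) - piHi * r|
      linarith
    · have := le_abs_self ((q : ℝ) - piHi * r)
      have h5 := le_max_right |(q : ℝ) - piLo * r| |(q : ℝ) - piHi * r|
      linarith

theorem psi_eq (n : ℕ) : psi n = π / 4 * (qs n - π * rs n) := by
  rw [psi]; ring

theorem abs_psi_le (n : ℕ) : |psi n| ≤ π / 4 * (mx (qs n) (rs n) : ℚ) := by
  rw [psi_eq, abs_mul, abs_of_pos (by positivity)]
  exact mul_le_mul_of_nonneg_left (abs_le_mx _ _) (by positivity)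

set_option maxRecDepth 100000 in
theorem kernel_check : (piHi / 4 * sumL (qL 40).tail (rL 40).tail ≤ 5417 / 10 ^ 7 ∧
    (qL 40).length = 41 ∧ (rL 40).length = 41) := by
  decide +kernel

theorem isL_tail {L : List ℚ} {f : ℕ → ℚ} (h : IsL L f) : IsL L.tail (fun n => f (n + 1)) := by
  cases L with
  | nil => trivial
  | cons x xs => exact h.2

theorem psi_zero_ge : 712412 / 1000000 ≤ psi 0 := by
  have hq : qs 0 = 9 / 10 + 552 / 75625 + 16928 / 1143828125 - 2116 / 18984375 := by
    norm_num [qs, cv, LL, xc, m1, m2, m3, m4, m5, m6, m7, mh, A1, A2, A3, A4, A5, A6, A7]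
  have hr : rs 0 = 529 / 12656250 := by
    norm_num [rs, cv, LL, xc, m8, m9, mh, A8, A9]
  have h1 := Real.pi_gt_d20
  have h2 := Real.pi_lt_d20
  rw [psi_eq, hq, hr]
  push_cast
  have h3 : π * (529 / 12656250) ≤ 3.14159265358979323847 * (529 / 12656250) :=
    mul_le_mul_of_nonneg_right h2.le (by norm_num)
  have h4 : (9 / 10 + 552 / 75625 + 16928 / 1143828125 - 2116 / 18984375 -
      3.14159265358979323847 * (529 / 12656250) : ℝ) ≤
      9 / 10 + 552 / 75625 + 16928 / 1143828125 - 2116 / 18984375 - π * (529 / 12656250) := by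
    linarith
  have h5 : (3.14159265358979323846 / 4 : ℝ) * (9 / 10 + 552 / 75625 + 16928 / 1143828125 -
      2116 / 18984375 - 3.14159265358979323847 * (529 / 12656250)) ≤
      π / 4 * (9 / 10 + 552 / 75625 + 16928 / 1143828125 - 2116 / 18984375 -
        π * (529 / 12656250)) :=
    mul_le_mul (by linarith) h4 (by norm_num) (by positivity)
  refine le_trans ?_ h5
  norm_num

theorem psi_sum_aux {Q R : List ℚ} (hQ : IsL Q qs) (hR : IsL R rs)
    (h1 : piHi / 4 * sumL Q.tail R.tail ≤ 5417 / 10 ^ 7) (h2 : Q.length = 41)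
    (h3 : R.length = 41) : ∑ n ∈ Finset.Icc 1 40, |psi n| ≤ 5417 / 10 ^ 7 := by
  have h4 : sumL Q.tail R.tail = ∑ i ∈ Finset.range 40, mx (qs (i + 1)) (rs (i + 1)) :=
    sumL_eq 40 _ _ _ _ (by rw [List.length_tail, h2]) (by rw [List.length_tail, h3])
      (isL_tail hQ) (isL_tail hR)
  have h5 : ∑ n ∈ Finset.Icc 1 40, |psi n| = ∑ i ∈ Finset.range 40, |psi (i + 1)| := by
    rw [Finset.range_eq_Ico, Finset.sum_Ico_add' (fun n => |psi n|) 0 40 1]
    rfl
  have h6 : ∑ i ∈ Finset.range 40, |psi (i + 1)| ≤ π / 4 * ((sumL Q.tail R.tail : ℚ) : ℝ) := by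
    rw [h4]
    push_cast
    rw [Finset.mul_sum]
    exact Finset.sum_le_sum fun i _ => by
      exact abs_psi_le (i + 1)
  have h7 : (0 : ℝ) ≤ ((sumL Q.tail R.tail : ℚ) : ℝ) := by
    rw [h4]
    push_cast
    refine Finset.sum_nonneg fun i _ => ?_
    rw [mx]
    push_cast
    exact (abs_nonneg _).trans (le_max_left _ _)
  have h8 : ((piHi / 4 * sumL Q.tail R.tail : ℚ) : ℝ) ≤ ((5417 / 10 ^ 7 : ℚ) : ℝ) := by
    exact_mod_cast h1
  rw [h5]
  refine h6.trans ?_
  have h9 : π / 4 * ((sumL Q.tail R.tail : ℚ) : ℝ) ≤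
      (piHi : ℝ) / 4 * ((sumL Q.tail R.tail : ℚ) : ℝ) :=
    mul_le_mul_of_nonneg_right (by linarith [le_piHi]) h7
  refine h9.trans ?_
  push_cast at h8
  exact h8

theorem psi_sum_le : ∑ n ∈ Finset.Icc 1 40, |psi n| ≤ 5417 / 10 ^ 7 :=
  psi_sum_aux (isL_qL 40) (isL_rL 40) kernel_check.1 kernel_check.2.1 kernel_check.2.2

end Pool.Agent.KGU
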