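import Pool.Agent.KGU.Seq

/-! The power series of `Psi`.

* `xc l` are the coefficients of `X^l`, `X = (81x - 18x^2 + x^3)/100`: finitely many
  (`xc l n = 0` for `n < l` and for `n > 3l`), `Σ_n |xc l n| ≤ 1` (induction:
  `(81+18+1)/100 = 1`).
* `LL_hasSum`: `Σ_l Σ_n |m_l| |xc l n| x^n ≤ Σ_l |m_l| < ∞` for `0 ≤ x ≤ 1`, so the order of
  summation can be exchanged.
* `cv_hasSum`: induction on the list. -/

open Real

namespace Pool.Agent.KGU

/-- the shifted sequence -/
private def shf (a : ℕ → ℝ) : ℕ → ℝ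
  | 0 => 0
  | (n + 1) => a n

private lemma shf_hasSum {a : ℕ → ℝ} {v : ℝ} (h : HasSum a v) : HasSum (shf a) v := by
  have h1 := (hasSum_nat_add_iff (f := shf a) 1 (g := v)).1 h
  rwa [Finset.sum_range_one, show shf a 0 = 0 from rfl, add_zero] at h1

private lemma xc_zero_zero : xc 0 0 = 1 := rfl
private lemma xc_zero_succ (n : ℕ) : xc 0 (n + 1) = 0 := rfl
private lemma xc_succ_zero (l : ℕ) : xc (l + 1) 0 = 0 := rfl
private lemma xc_succ_one (l : ℕ) : xc (l + 1) 1 = 81 / 100 * xc l 0 := rfl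
private lemma xc_succ_two (l : ℕ) : xc (l + 1) 2 = 81 / 100 * xc l 1 - 18 / 100 * xc l 0 := rfl
private lemma xc_succ_three (l n : ℕ) : xc (l + 1) (n + 3) =
    81 / 100 * xc l (n + 2) - 18 / 100 * xc l (n + 1) + 1 / 100 * xc l n := rfl

lemma xc_zero {l n : ℕ} (h : n < l) : xc l n = 0 := by
  induction l generalizing n with
  | zero => exact absurd h (Nat.not_lt_zero n)
  | succ l ih =>
    match n, h with
    | 0, _ => rfl
    | 1, h => rw [xc_succ_one, ih (by omega), mul_zero]
    | 2, h => rw [xc_succ_two, ih (by omega), ih (by omega), mul_zero, mul_zero, sub_zero]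
    | n + 3, h =>
      rw [xc_succ_three, ih (by omega), ih (by omega), ih (by omega)]
      ring

private lemma xc_abs_aux (l : ℕ) :
    (Summable fun n => |(xc l n : ℝ)|) ∧ ∑' n, |(xc l n : ℝ)| ≤ 1 := by
  induction l with
  | zero =>
    have h : HasSum (fun n => |(xc 0 n : ℝ)|) 1 := by
      have h1 := hasSum_single (f := fun n => |(xc 0 n : ℝ)|) 0 (fun n hn => by
        obtain ⟨k, rfl⟩ := Nat.exists_eq_succ_of_ne_zero hn
        rw [Nat.succ_eq_add_one, xc_zero_succ]
        simp)
      rwa [xc_zero_zero, Rat.cast_one, abs_one] at h1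
    exact ⟨h.summable, h.tsum_eq.le⟩
  | succ l ih =>
    obtain ⟨h1, h2⟩ := ih
    have h3 := shf_hasSum h1.hasSum
    have h4 := shf_hasSum h3
    have h5 := shf_hasSum h4
    have h6 := ((h3.mul_left (81 / 100)).add (h4.mul_left (18 / 100))).add (h5.mul_left (1 / 100))
    have h7 : ∀ n, |(xc (l + 1) n : ℝ)| ≤ 81 / 100 * shf (fun n => |(xc l n : ℝ)|) n +
        18 / 100 * shf (shf fun n => |(xc l n : ℝ)|) n +
        1 / 100 * shf (shf (shf fun n => |(xc l n : ℝ)|)) n := by
      intro n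
      match n with
      | 0 =>
        rw [xc_succ_zero]
        simp [shf]
      | 1 =>
        rw [xc_succ_one]
        push_cast
        rw [abs_mul]
        simp only [shf]
        rw [abs_of_nonneg (by norm_num : (0 : ℝ) ≤ 81 / 100)]
        linarith
      | 2 =>
        rw [xc_succ_two]
        push_cast
        simp only [shf]
        refine (abs_sub _ _).trans ?_
        rw [abs_mul, abs_mul, abs_of_nonneg (by norm_num : (0 : ℝ) ≤ 81 / 100),
          abs_of_nonneg (by norm_num : (0 : ℝ) ≤ 18 / 100)]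
        linarith
      | n + 3 =>
        rw [xc_succ_three]
        push_cast
        simp only [shf]
        refine (abs_add_le _ _).trans (add_le_add ((abs_sub _ _).trans ?_) ?_)
        · rw [abs_mul, abs_mul, abs_of_nonneg (by norm_num : (0 : ℝ) ≤ 81 / 100),
            abs_of_nonneg (by norm_num : (0 : ℝ) ≤ 18 / 100)]
        · rw [abs_mul, abs_of_nonneg (by norm_num : (0 : ℝ) ≤ 1 / 100)]
    have h8 : Summable fun n => |(xc (l + 1) n : ℝ)| :=
      Summable.of_nonneg_of_le (fun n => abs_nonneg _) h7 h6.summable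
    refine ⟨h8, (hasSum_le h7 h8.hasSum h6).trans ?_⟩
    linarith

lemma xc_summable_abs (l : ℕ) : Summable fun n => |(xc l n : ℝ)| := by
  exact (xc_abs_aux l).1

lemma xc_abs_le (l : ℕ) : ∑' n, |(xc l n : ℝ)| ≤ 1 := by
  exact (xc_abs_aux l).2

lemma xc_hasSum (l : ℕ) (x : ℝ) :
    HasSum (fun n => (xc l n : ℝ) * x ^ n) (((81 * x - 18 * x ^ 2 + x ^ 3) / 100) ^ l) := by
  induction l with
  | zero =>
    have h1 := hasSum_single (f := fun n => (xc 0 n : ℝ) * x ^ n) 0 (fun n hn => by
      obtain ⟨k, rfl⟩ := Nat.exists_eq_succ_of_ne_zero hn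
      rw [Nat.succ_eq_add_one, xc_zero_succ]
      simp)
    rw [xc_zero_zero, Rat.cast_one, pow_zero, mul_one] at h1
    rwa [pow_zero]
  | succ l ih =>
    have h3 := shf_hasSum ih
    have h4 := shf_hasSum h3
    have h5 := shf_hasSum h4
    have h6 := ((h3.mul_left (81 / 100 * x)).sub (h4.mul_left (18 / 100 * x ^ 2))).add
      (h5.mul_left (1 / 100 * x ^ 3))
    have e : 81 / 100 * x * ((81 * x - 18 * x ^ 2 + x ^ 3) / 100) ^ l -
        18 / 100 * x ^ 2 * ((81 * x - 18 * x ^ 2 + x ^ 3) / 100) ^ l +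
        1 / 100 * x ^ 3 * ((81 * x - 18 * x ^ 2 + x ^ 3) / 100) ^ l =
        ((81 * x - 18 * x ^ 2 + x ^ 3) / 100) ^ (l + 1) := by
      rw [pow_succ]
      ring
    rw [e] at h6
    refine h6.congr_fun fun n => ?_
    match n with
    | 0 =>
      rw [xc_succ_zero]
      simp [shf]
    | 1 =>
      rw [xc_succ_one]
      simp only [shf]
      push_cast
      ring
    | 2 =>
      rw [xc_succ_two]
      simp only [shf]
      push_cast
      ring
    | n + 3 =>
      rw [xc_succ_three]
      simp only [shf]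
      push_cast
      ring

theorem LL_hasSum (m : ℕ → ℚ) (hm : Summable fun l => |(m l : ℝ)|) {x : ℝ} (h0 : 0 ≤ x)
    (h1 : x ≤ 1) :
    HasSum (fun n => (LL m n : ℝ) * x ^ n) (V m ((81 * x - 18 * x ^ 2 + x ^ 3) / 100)) := by
  set X : ℝ := (81 * x - 18 * x ^ 2 + x ^ 3) / 100 with hX
  let G : ℕ × ℕ → ℝ := fun p => (m p.1 : ℝ) * ((xc p.1 p.2 : ℝ) * x ^ p.2)
  have hG : Summable G := by
    have hB : Summable fun p : ℕ × ℕ => |(m p.1 : ℝ)| * |(xc p.1 p.2 : ℝ)| := by
      have hnn : ∀ p : ℕ × ℕ, 0 ≤ |(m p.1 : ℝ)| * |(xc p.1 p.2 : ℝ)| := fun p =>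
        mul_nonneg (abs_nonneg _) (abs_nonneg _)
      refine (summable_prod_of_nonneg hnn).2 ⟨fun l => ?_, ?_⟩
      · have h2 : Summable fun n => |(m l : ℝ)| * |(xc l n : ℝ)| := (xc_summable_abs l).mul_left _
        exact h2
      · have h2 : Summable fun l => ∑' n, |(m l : ℝ)| * |(xc l n : ℝ)| := by
          refine Summable.of_nonneg_of_le (fun l => tsum_nonneg fun n =>
            mul_nonneg (abs_nonneg _) (abs_nonneg _)) (fun l => ?_) hm
          rw [tsum_mul_left]
          exact mul_le_of_le_one_right (abs_nonneg _) (xc_abs_le l)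
        exact h2
    refine Summable.of_norm_bounded hB fun p => ?_
    simp only [G]
    rw [Real.norm_eq_abs, abs_mul, abs_mul]
    refine mul_le_mul_of_nonneg_left (mul_le_of_le_one_right (abs_nonneg _) ?_) (abs_nonneg _)
    rw [abs_of_nonneg (pow_nonneg h0 _)]
    exact pow_le_one₀ h0 h1
  obtain ⟨S, hS⟩ := hG
  have h2 : HasSum (fun l => (m l : ℝ) * X ^ l) S :=
    hS.prod_fiberwise fun l => (xc_hasSum l x).mul_left _
  have h3 : HasSum (fun p : ℕ × ℕ => G (p.2, p.1)) S :=
    ((Equiv.prodComm ℕ ℕ).hasSum_iff (f := G)).2 hS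
  have h4 : HasSum (fun n => (LL m n : ℝ) * x ^ n) S := by
    refine h3.prod_fiberwise fun n => ?_
    have h5 : HasSum (fun l => (m l : ℝ) * ((xc l n : ℝ) * x ^ n))
        (∑ l ∈ Finset.range (n + 1), (m l : ℝ) * ((xc l n : ℝ) * x ^ n)) := by
      refine hasSum_sum_of_ne_finset_zero fun l hl => ?_
      rw [Finset.mem_range, not_lt] at hl
      rw [xc_zero (by omega)]
      simp
    have e : ∑ l ∈ Finset.range (n + 1), (m l : ℝ) * ((xc l n : ℝ) * x ^ n) =
        (LL m n : ℝ) * x ^ n := by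
      unfold LL
      push_cast
      rw [Finset.sum_mul]
      exact Finset.sum_congr rfl fun l _ => by ring
    rw [e] at h5
    exact h5
  have h5 : V m X = S := h2.tsum_eq
  rw [h5]
  exact h4

lemma cv_hasSum (A : List ℚ) (a : ℕ → ℚ) {x v : ℝ} (h : HasSum (fun n => (a n : ℝ) * x ^ n) v) :
    HasSum (fun n => (cv A a n : ℝ) * x ^ n) (evl A x * v) := by
  induction A with
  | nil =>
    have e : (fun n => (cv [] a n : ℝ) * x ^ n) = fun _ => 0 := by
      funext n
      have : cv [] a n = 0 := by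
        unfold cv
        rfl
      rw [this, Rat.cast_zero, zero_mul]
    rw [e, show evl [] x = 0 from rfl, zero_mul]
    exact hasSum_zero
  | cons c A ih =>
    have h3 := shf_hasSum ih
    have h6 := (h.mul_left (c : ℝ)).add (h3.mul_left x)
    have e : (c : ℝ) * v + x * (evl A x * v) = evl (c :: A) x * v := by
      rw [show evl (c :: A) x = c + x * evl A x from rfl]
      ring
    rw [e] at h6
    refine h6.congr_fun fun n => ?_
    match n with
    | 0 =>
      rw [show cv (c :: A) a 0 = c * a 0 from rfl]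
      simp only [shf]
      push_cast
      ring
    | n + 1 =>
      rw [show cv (c :: A) a (n + 1) = c * a (n + 1) + cv A a n from rfl]
      simp only [shf]
      push_cast
      ring

end Pool.Agent.KGU
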