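import Pool.Agent.KGU.BetaA

/-! Summability of the sequences `m1, ..., m9`.
`mh l ^ 2 ≤ 1/(l+1)^3` gives `m1 l ≤ 1/(l+1)^2`; the others have a geometric factor
`(7/11)^l` or `(7/9)^l` and `0 < mh l ≤ 1` (`summable_pow_mul_geometric_of_norm_lt_one`). -/

open Real

namespace Pool.Agent.KGU

lemma mh_le_one (l : ℕ) : mh l ≤ 1 := by
  have h1 := mh_sq_le l
  have h0 := mh_pos l
  have h2 : 1 / ((l : ℚ) + 1) ^ 3 ≤ 1 := by
    rw [div_le_one (by positivity)]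
    exact one_le_pow₀ (by linarith [Nat.cast_nonneg (α := ℚ) l])
  nlinarith

/-- comparison with a geometric series -/
lemma summable_of_geom {m : ℕ → ℚ} {r : ℚ} (hr0 : 0 < r) (hr1 : r < 1)
    (h0 : ∀ l, 0 ≤ m l) (h : ∀ l, m l ≤ ((l : ℚ) + 1) ^ 3 * r ^ l) :
    Summable fun l => |(m l : ℝ)| := by
  have hr0' : (0 : ℝ) < r := by exact_mod_cast hr0
  have hr1' : (r : ℝ) < 1 := by exact_mod_cast hr1
  have h1 : Summable fun n : ℕ => (n : ℝ) ^ 3 * (r : ℝ) ^ n :=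
    summable_pow_mul_geometric_of_norm_lt_one 3 (by
      rw [Real.norm_eq_abs, abs_of_pos hr0']
      exact hr1')
  have h2 := ((summable_nat_add_iff 1).mpr h1).mul_left (r : ℝ)⁻¹
  refine Summable.of_nonneg_of_le (fun l => abs_nonneg _) (fun l => ?_) h2
  have h3 : (0 : ℝ) ≤ (m l : ℝ) := by exact_mod_cast h0 l
  rw [abs_of_nonneg h3]
  have h4 : (m l : ℝ) ≤ ((l : ℝ) + 1) ^ 3 * (r : ℝ) ^ l := by exact_mod_cast h l
  refine h4.trans (le_of_eq ?_)
  push_cast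
  rw [pow_succ (r : ℝ) l]
  field_simp

/-- all coefficients with a geometric factor -/
lemma coef_le {l : ℕ} {p q t M : ℚ} (hp0 : 0 ≤ p) (hp : p ≤ ((l : ℚ) + 1) ^ 3) (hq0 : 0 ≤ q)
    (hq : q ≤ M) (ht0 : 0 ≤ t) (ht : t ≤ 1) : 0 ≤ p * q * t ∧
      p * q * t ≤ ((l : ℚ) + 1) ^ 3 * M := by
  have h1 : p * q ≤ ((l : ℚ) + 1) ^ 3 * M := mul_le_mul hp hq hq0 (hp0.trans hp)
  have h2 : 0 ≤ p * q := mul_nonneg hp0 hq0
  exact ⟨mul_nonneg h2 ht0, (mul_le_of_le_one_right h2 ht).trans h1⟩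

lemma p1_le (l : ℕ) : ((l : ℚ) + 1) ≤ ((l : ℚ) + 1) ^ 3 := by
  have h0 : (0 : ℚ) ≤ l := Nat.cast_nonneg l
  have h1 : (1 : ℚ) ≤ (l : ℚ) + 1 := by linarith
  exact le_self_pow₀ h1 (by norm_num)

lemma p2_le (l : ℕ) : ((l : ℚ) + 1) * (l + 2) / 2 ≤ ((l : ℚ) + 1) ^ 3 := by
  have h0 : (0 : ℚ) ≤ l := Nat.cast_nonneg l
  nlinarith [mul_nonneg h0 h0, mul_nonneg (mul_nonneg h0 h0) h0]

lemma p3_le (l : ℕ) : ((l : ℚ) + 1) * (l + 2) * (l + 3) / 6 ≤ ((l : ℚ) + 1) ^ 3 := by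
  have h0 : (0 : ℚ) ≤ l := Nat.cast_nonneg l
  nlinarith [mul_nonneg h0 h0, mul_nonneg (mul_nonneg h0 h0) h0]

lemma m1_summable : Summable fun l => |(m1 l : ℝ)| := by
  have h1 : Summable fun n : ℕ => 1 / (n : ℝ) ^ 2 :=
    Real.summable_one_div_nat_pow.mpr (by norm_num)
  have h2 := (summable_nat_add_iff 1).mpr h1
  refine Summable.of_nonneg_of_le (fun l => abs_nonneg _) (fun l => ?_) h2
  have h0 : (0 : ℚ) ≤ l := Nat.cast_nonneg l
  have h3 : 0 ≤ m1 l := by unfold m1; positivity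
  have h4 : m1 l ≤ 1 / ((l : ℚ) + 1) ^ 2 := by
    unfold m1
    have h5 := mul_le_mul_of_nonneg_left (mh_sq_le l) (show (0 : ℚ) ≤ (l : ℚ) + 1 by linarith)
    refine h5.trans (le_of_eq ?_)
    field_simp
  have h6 : (0 : ℝ) ≤ (m1 l : ℝ) := by exact_mod_cast h3
  have h7 : (m1 l : ℝ) ≤ 1 / ((l : ℝ) + 1) ^ 2 := by
    have h8 := (Rat.cast_le (K := ℝ)).mpr h4
    push_cast at h8
    exact h8
  rw [abs_of_nonneg h6]
  push_cast
  exact h7

lemma m2_summable : Summable fun l => |(m2 l : ℝ)| := by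
  have h : ∀ l, 0 ≤ m2 l ∧ m2 l ≤ ((l : ℚ) + 1) ^ 3 * (7 / 11) ^ l := fun l =>
    coef_le (by positivity) (p1_le l) (by positivity) le_rfl (mh_pos l).le (mh_le_one l)
  exact summable_of_geom (by norm_num) (by norm_num) (fun l => (h l).1) fun l => (h l).2

lemma m3_summable : Summable fun l => |(m3 l : ℝ)| := by
  have h : ∀ l, 0 ≤ m3 l ∧ m3 l ≤ ((l : ℚ) + 1) ^ 3 * (7 / 11) ^ l := fun l => by
    have h1 := coef_le (l := l) (p := (l : ℚ) + 1) (q := (7 / 11) ^ (2 * l)) (t := 1)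
      (M := (7 / 11) ^ l) (by positivity) (p1_le l) (by positivity)
      (pow_le_pow_of_le_one (by norm_num) (by norm_num) (by omega)) (by norm_num) le_rfl
    rw [mul_one] at h1
    exact h1
  exact summable_of_geom (by norm_num) (by norm_num) (fun l => (h l).1) fun l => (h l).2

lemma m4_summable : Summable fun l => |(m4 l : ℝ)| := by
  have h : ∀ l, 0 ≤ m4 l ∧ m4 l ≤ ((l : ℚ) + 1) ^ 3 * (7 / 11) ^ l := fun l => by
    have h1 := coef_le (l := l) (p := ((l : ℚ) + 1) * (l + 2) / 2) (q := (7 / 11) ^ (2 * l))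
      (t := 1) (M := (7 / 11) ^ l) (by positivity) (p2_le l) (by positivity)
      (pow_le_pow_of_le_one (by norm_num) (by norm_num) (by omega)) (by norm_num) le_rfl
    rw [mul_one] at h1
    exact h1
  exact summable_of_geom (by norm_num) (by norm_num) (fun l => (h l).1) fun l => (h l).2

lemma m5_summable : Summable fun l => |(m5 l : ℝ)| := by
  have h : ∀ l, 0 ≤ m5 l ∧ m5 l ≤ ((l : ℚ) + 1) ^ 3 * (7 / 9) ^ l := fun l =>
    coef_le (by positivity) (p3_le l) (by positivity) le_rfl (mh_pos l).le (mh_le_one l)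
  exact summable_of_geom (by norm_num) (by norm_num) (fun l => (h l).1) fun l => (h l).2

lemma m6_summable : Summable fun l => |(m6 l : ℝ)| := by
  have h : ∀ l, 0 ≤ m6 l ∧ m6 l ≤ ((l : ℚ) + 1) ^ 3 * (7 / 9) ^ l := fun l =>
    coef_le (by positivity) (p3_le l) (by positivity) le_rfl (mh_pos _).le (mh_le_one _)
  exact summable_of_geom (by norm_num) (by norm_num) (fun l => (h l).1) fun l => (h l).2

lemma m7_summable : Summable fun l => |(m7 l : ℝ)| := by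
  have h : ∀ l, 0 ≤ m7 l ∧ m7 l ≤ ((l : ℚ) + 1) ^ 3 * (7 / 9) ^ l := fun l =>
    coef_le (by positivity) (p3_le l) (by positivity) le_rfl (mh_pos _).le (mh_le_one _)
  exact summable_of_geom (by norm_num) (by norm_num) (fun l => (h l).1) fun l => (h l).2

lemma m8_summable : Summable fun l => |(m8 l : ℝ)| := by
  have h : ∀ l, 0 ≤ m8 l ∧ m8 l ≤ ((l : ℚ) + 1) ^ 3 * (7 / 9) ^ l := fun l =>
    coef_le (by positivity) (p2_le l) (by positivity) le_rfl (mh_pos _).le (mh_le_one _)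
  exact summable_of_geom (by norm_num) (by norm_num) (fun l => (h l).1) fun l => (h l).2

lemma m9_summable : Summable fun l => |(m9 l : ℝ)| := by
  have h : ∀ l, 0 ≤ m9 l ∧ m9 l ≤ ((l : ℚ) + 1) ^ 3 * (7 / 9) ^ l := fun l =>
    coef_le (by positivity) (p2_le l) (by positivity) le_rfl (mh_pos _).le (mh_le_one _)
  exact summable_of_geom (by norm_num) (by norm_num) (fun l => (h l).1) fun l => (h l).2

end Pool.Agent.KGU
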