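import Pool.Agent.KGU.PsiS
import Pool.Agent.KGU.SerA
import Pool.Agent.KGU.SerB

/-! The power series of `Psi`: from `Psi_ser`, `LL_hasSum`, `cv_hasSum` with `x = s^2`;
`hh s ^ 2 = (81x - 18x^2 + x^3)/100`. -/

open Real

namespace Pool.Agent.KGU

theorem psi_hasSum {s : ℝ} (h0 : 0 ≤ s) (h1 : s < 1) :
    HasSum (fun n => psi n * s ^ (2 * n + 1)) (Psi s) := by
  have hx0 : 0 ≤ s ^ 2 := sq_nonneg s
  have hx1 : s ^ 2 ≤ 1 := by nlinarith
  have hX : (81 * s ^ 2 - 18 * (s ^ 2) ^ 2 + (s ^ 2) ^ 3) / 100 = hh s ^ 2 := by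
    unfold hh
    ring
  have key : ∀ (A : List ℚ) (m : ℕ → ℚ), (Summable fun l => |(m l : ℝ)|) →
      HasSum (fun n => (cv A (LL m) n : ℝ) * (s ^ 2) ^ n)
        (evl A (s ^ 2) * V m (hh s ^ 2)) := by
    intro A m hm
    have h2 := LL_hasSum m hm hx0 hx1
    rw [hX] at h2
    exact cv_hasSum A (LL m) h2
  have hq := ((((((key A1 m1 m1_summable).add (key A2 m2 m2_summable)).add
    (key A3 m3 m3_summable)).add (key A4 m4 m4_summable)).add (key A5 m5 m5_summable)).add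
    (key A6 m6 m6_summable)).add (key A7 m7 m7_summable)
  have hr := (key A8 m8 m8_summable).add (key A9 m9 m9_summable)
  have hall := ((hq.mul_left (π / 4)).sub (hr.mul_left (π ^ 2 / 4))).mul_left s
  rw [Psi_ser h0 h1]
  have e : ∀ n, psi n * s ^ (2 * n + 1) = s * (π / 4 *
      (cv A1 (LL m1) n * (s ^ 2) ^ n + cv A2 (LL m2) n * (s ^ 2) ^ n
        + cv A3 (LL m3) n * (s ^ 2) ^ n + cv A4 (LL m4) n * (s ^ 2) ^ n
        + cv A5 (LL m5) n * (s ^ 2) ^ n + cv A6 (LL m6) n * (s ^ 2) ^ n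
        + cv A7 (LL m7) n * (s ^ 2) ^ n)
      - π ^ 2 / 4 * (cv A8 (LL m8) n * (s ^ 2) ^ n + cv A9 (LL m9) n * (s ^ 2) ^ n)) := by
    intro n
    simp only [psi, qs, rs]
    push_cast
    rw [pow_succ s (2 * n), pow_mul s 2 n]
    ring
  rw [funext e]
  exact hall

end Pool.Agent.KGU
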