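import Pool.Agent.KGU.Dec

/-! The tail of the coefficients `psi n`.

`m1 .. m9` are `C(l+j,j) μ_l` with `j = 1,1,1,2,3,3,3,2,2` and `Mo μ`, so `Mo.LL_bound` applies.
If `|a n| ≤ B C(n+j,j)/ω^n` for all `n`, then `|cv A a n| ≤ B C(n+j,j)/ω^n * wA`, with
`wA = Σ |A_k| ω^k` (`ω = 33/20`). Values of `wA` for `A1..A9`:
1.065, 0.019343, 0.00066368, 0.00022697, 0.0001319, 0.00050195, 0.00047744, 0.000049461,
0.000095667.
`|psi n| ≤ (π/4)(sum of A1..A7 parts) + (π^2/4)(A8, A9 parts)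
  ≤ (1.5531 (n+1) + 0.00066 (n+1)(n+2) + 0.000484 (n+1)(n+2)(n+3))/ω^n`. -/

open Real

namespace Pool.Agent.KGU

/-- the weight of a coefficient list -/
def tailW : List ℚ → ℚ
  | [] => 0
  | c :: A => |c| + 33 / 20 * tailW A

lemma tailW_nonneg (A : List ℚ) : 0 ≤ tailW A := by
  induction A with
  | nil => simp [tailW]
  | cons c A ih =>
    rw [tailW]
    positivity

lemma tail_cv (A : List ℚ) (a : ℕ → ℚ) (B : ℝ) (g : ℕ → ℝ) (hg0 : ∀ n, 0 ≤ g n)
    (hg : ∀ n, g n ≤ g (n + 1)) (hB : 0 ≤ B)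
    (h : ∀ n, |(a n : ℝ)| ≤ B * g n / (33 / 20) ^ n) (n : ℕ) :
    |(cv A a n : ℝ)| ≤ B * g n / (33 / 20) ^ n * (tailW A : ℝ) := by
  induction A generalizing n with
  | nil => simp [cv, tailW]
  | cons c A ih =>
    have hw : (0 : ℝ) ≤ (tailW A : ℝ) := by exact_mod_cast tailW_nonneg A
    cases n with
    | zero =>
      rw [cv, tailW]
      push_cast
      rw [abs_mul]
      have h0 := h 0
      have h1 : 0 ≤ B * g 0 / (33 / 20) ^ 0 := by
        have := hg0 0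
        positivity
      have h2 : 0 ≤ |(c : ℝ)| := abs_nonneg _
      nlinarith [mul_le_mul_of_nonneg_left h0 h2, mul_nonneg h1 hw]
    | succ n =>
      rw [cv, tailW]
      push_cast
      have h1 := h (n + 1)
      have h2 := ih n
      have h3 : |(c : ℝ) * (a (n + 1) : ℝ)| ≤ |(c : ℝ)| * (B * g (n + 1) / (33 / 20) ^ (n + 1)) := by
        rw [abs_mul]
        exact mul_le_mul_of_nonneg_left h1 (abs_nonneg _)
      have h4 : B * g n / (33 / 20) ^ n * (tailW A : ℝ) ≤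
          B * g (n + 1) / (33 / 20) ^ (n + 1) * (33 / 20 * (tailW A : ℝ)) := by
        have e : B * g (n + 1) / (33 / 20) ^ (n + 1) * (33 / 20 * (tailW A : ℝ)) =
            B * g (n + 1) / (33 / 20) ^ n * (tailW A : ℝ) := by
          rw [pow_succ]
          field_simp
        rw [e]
        apply mul_le_mul_of_nonneg_right _ hw
        apply div_le_div_of_nonneg_right _ (by positivity)
        exact mul_le_mul_of_nonneg_left (hg n) hB
      calc |(c : ℝ) * (a (n + 1) : ℝ) + (cv A a n : ℝ)|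
          ≤ |(c : ℝ) * (a (n + 1) : ℝ)| + |(cv A a n : ℝ)| := abs_add_le _ _
        _ ≤ |(c : ℝ)| * (B * g (n + 1) / (33 / 20) ^ (n + 1)) +
            B * g (n + 1) / (33 / 20) ^ (n + 1) * (33 / 20 * (tailW A : ℝ)) := by
              linarith
        _ = _ := by ring

lemma tail_ch2 (l : ℕ) : ((l + 2).choose 2 : ℚ) = (l + 1) * (l + 2) / 2 := by
  rw [Nat.cast_choose_two]
  push_cast
  ring

lemma tail_ch3 (l : ℕ) : ((l + 3).choose 3 : ℚ) = (l + 1) * (l + 2) * (l + 3) / 6 := by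
  induction l with
  | zero => norm_num
  | succ l ih =>
    have e : (l + 1 + 3).choose 3 = (l + 3).choose 2 + (l + 3).choose 3 := by
      rw [show l + 1 + 3 = (l + 3) + 1 by ring, Nat.choose_succ_succ']
    rw [e, Nat.cast_add, ih, Nat.cast_choose_two]
    push_cast
    ring

lemma tail_ch2r (l : ℕ) : ((l + 2).choose 2 : ℝ) = (l + 1) * (l + 2) / 2 := by
  have := tail_ch2 l
  have h2 : (((l + 2).choose 2 : ℚ) : ℝ) = (((l + 1) * (l + 2) / 2 : ℚ) : ℝ) := by rw [this]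
  push_cast at h2
  exact h2

lemma tail_ch3r (l : ℕ) : ((l + 3).choose 3 : ℝ) = (l + 1) * (l + 2) * (l + 3) / 6 := by
  have := tail_ch3 l
  have h2 : (((l + 3).choose 3 : ℚ) : ℝ) = (((l + 1) * (l + 2) * (l + 3) / 6 : ℚ) : ℝ) := by
    rw [this]
  push_cast at h2
  exact h2

lemma tail_part (A : List ℚ) (m μ : ℕ → ℚ) (hμ : Mo μ) (j : ℕ)
    (hm : ∀ l, m l = ((l + j).choose j : ℚ) * μ l) (w : ℚ) (hw : tailW A ≤ w) (n : ℕ) :
    |(cv A (LL m) n : ℝ)| ≤
      ((n + j).choose j : ℝ) * ((27 / 20) ^ (j + 1) * (w : ℝ)) / (33 / 20) ^ n := by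
  have e : m = fun l => ((l + j).choose j : ℚ) * μ l := funext hm
  have h := tail_cv A (LL m) ((27 / 20) ^ (j + 1)) (fun n => ((n + j).choose j : ℝ))
    (fun n => by positivity)
    (fun n => by
      have : (n + j).choose j ≤ (n + 1 + j).choose j := Nat.choose_le_choose j (by omega)
      exact_mod_cast this) (by positivity)
    (fun n => by
      rw [e]
      have := hμ.LL_bound j n
      calc _ ≤ _ := this
        _ = _ := by ring) n
  have hw' : (tailW A : ℝ) ≤ (w : ℝ) := by exact_mod_cast hw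
  calc _ ≤ _ := h
    _ ≤ (27 / 20) ^ (j + 1) * ((n + j).choose j : ℝ) / (33 / 20) ^ n * (w : ℝ) := by
        apply mul_le_mul_of_nonneg_left hw' (by positivity)
    _ = _ := by ring

theorem psi_bound (n : ℕ) :
    |psi n| ≤ (2 * (n + 1) + (n + 1) * (n + 2) * (n + 3) / 1000) / (33 / 20) ^ n := by
  have p1 : Mo fun l => (7 / 11 : ℚ) ^ l := Mo.pow _ (by norm_num) (by norm_num)
  have p2 : Mo fun l => (49 / 121 : ℚ) ^ l := Mo.pow _ (by norm_num) (by norm_num)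
  have p3 : Mo fun l => (7 / 9 : ℚ) ^ l := Mo.pow _ (by norm_num) (by norm_num)
  have e49 : ∀ l : ℕ, (7 / 11 : ℚ) ^ (2 * l) = (49 / 121) ^ l := by
    intro l
    rw [pow_mul]
    norm_num
  have h1 := tail_part A1 m1 _ (Mo.mh.mul Mo.mh) 1 (fun l => by
    rw [m1, Nat.choose_one_right]; push_cast; ring) (1065 / 1000) (by decide +kernel) n
  have h2 := tail_part A2 m2 _ (p1.mul Mo.mh) 1 (fun l => by
    rw [m2, Nat.choose_one_right]; push_cast; ring) (194 / 10000) (by decide +kernel) n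
  have h3 := tail_part A3 m3 _ p2 1 (fun l => by
    rw [m3, Nat.choose_one_right, e49]; push_cast; ring) (67 / 100000) (by decide +kernel) n
  have h4 := tail_part A4 m4 _ p2 2 (fun l => by
    rw [m4, tail_ch2, e49]) (23 / 100000) (by decide +kernel) n
  have h5 := tail_part A5 m5 _ (p3.mul Mo.mh) 3 (fun l => by
    rw [m5, tail_ch3]; ring) (14 / 100000) (by decide +kernel) n
  have h6 := tail_part A6 m6 _ (p3.mul Mo.mh.shift) 3 (fun l => by
    rw [m6, tail_ch3]; ring) (51 / 100000) (by decide +kernel) n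
  have h7 := tail_part A7 m7 _ (p3.mul Mo.mh.shift.shift) 3 (fun l => by
    rw [m7, tail_ch3]; ring) (48 / 100000) (by decide +kernel) n
  have h8 := tail_part A8 m8 _ (p3.mul Mo.mh) 2 (fun l => by
    rw [m8, tail_ch2]; ring) (5 / 100000) (by decide +kernel) n
  have h9 := tail_part A9 m9 _ (p3.mul Mo.mh.shift) 2 (fun l => by
    rw [m9, tail_ch2]; ring) (10 / 100000) (by decide +kernel) n
  rw [Nat.choose_one_right] at h1 h2 h3
  rw [tail_ch2r] at h4 h8 h9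
  rw [tail_ch3r] at h5 h6 h7
  have hW : (0 : ℝ) < (33 / 20 : ℝ) ^ n := by positivity
  set W : ℝ := (33 / 20 : ℝ) ^ n with hWdef
  rw [le_div_iff₀ hW] at h1 h2 h3 h4 h5 h6 h7 h8 h9 ⊢
  have hpi : π < 3.15 := Real.pi_lt_d2
  have hpi0 : 0 < π := Real.pi_pos
  have hq : |(qs n : ℝ)| * W ≤ (n + 1) * (1.99 : ℝ) + (n + 1) * (n + 2) / 2 * 0.0006 +
      (n + 1) * (n + 2) * (n + 3) / 6 * 0.0038 := by
    have e : (qs n : ℝ) = (cv A1 (LL m1) n : ℝ) + (cv A2 (LL m2) n : ℝ) + (cv A3 (LL m3) n : ℝ) +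
        (cv A4 (LL m4) n : ℝ) + (cv A5 (LL m5) n : ℝ) + (cv A6 (LL m6) n : ℝ) +
        (cv A7 (LL m7) n : ℝ) := by
      rw [qs]
      push_cast
      rfl
    have habs : |(qs n : ℝ)| ≤ |(cv A1 (LL m1) n : ℝ)| + |(cv A2 (LL m2) n : ℝ)| +
        |(cv A3 (LL m3) n : ℝ)| + |(cv A4 (LL m4) n : ℝ)| + |(cv A5 (LL m5) n : ℝ)| +
        |(cv A6 (LL m6) n : ℝ)| + |(cv A7 (LL m7) n : ℝ)| := by
      rw [e]
      refine (abs_add_le _ _).trans (add_le_add_left ?_ _)
      refine (abs_add_le _ _).trans (add_le_add_left ?_ _)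
      refine (abs_add_le _ _).trans (add_le_add_left ?_ _)
      refine (abs_add_le _ _).trans (add_le_add_left ?_ _)
      refine (abs_add_le _ _).trans (add_le_add_left ?_ _)
      exact abs_add_le _ _
    have hn : (0 : ℝ) ≤ n := Nat.cast_nonneg n
    have hn1 : (0 : ℝ) ≤ (n : ℝ) + 1 := by positivity
    have hn2 : (0 : ℝ) ≤ ((n : ℝ) + 1) * (n + 2) := by positivity
    have hn3 : (0 : ℝ) ≤ ((n : ℝ) + 1) * (n + 2) * (n + 3) := by positivity
    push_cast at h1 h2 h3 h4 h5 h6 h7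
    norm_num at h1 h2 h3 h4 h5 h6 h7
    have := mul_le_mul_of_nonneg_right habs hW.le
    nlinarith
  have hr : |(rs n : ℝ)| * W ≤ (n + 1) * (n + 2) / 2 * (0.0004 : ℝ) := by
    have e : (rs n : ℝ) = (cv A8 (LL m8) n : ℝ) + (cv A9 (LL m9) n : ℝ) := by
      rw [rs]
      push_cast
      rfl
    have habs : |(rs n : ℝ)| ≤ |(cv A8 (LL m8) n : ℝ)| + |(cv A9 (LL m9) n : ℝ)| := by
      rw [e]
      exact abs_add_le _ _
    have hn2 : (0 : ℝ) ≤ ((n : ℝ) + 1) * (n + 2) := by positivity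
    push_cast at h8 h9
    norm_num at h8 h9
    have := mul_le_mul_of_nonneg_right habs hW.le
    nlinarith
  have hpsi : |psi n| ≤ π / 4 * |(qs n : ℝ)| + π ^ 2 / 4 * |(rs n : ℝ)| := by
    rw [psi]
    refine (abs_sub _ _).trans ?_
    rw [abs_mul, abs_mul, abs_of_pos (by positivity : 0 < π / 4),
      abs_of_pos (by positivity : 0 < π ^ 2 / 4)]
  have hpi4 : π / 4 ≤ 0.7875 := by linarith
  have hpi24 : π ^ 2 / 4 ≤ 2.481 := by nlinarith
  have hQ0 : 0 ≤ |(qs n : ℝ)| * W := by positivity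
  have hR0 : 0 ≤ |(rs n : ℝ)| * W := by positivity
  have hn : (0 : ℝ) ≤ n := Nat.cast_nonneg n
  have hn1 : (0 : ℝ) ≤ (n : ℝ) + 1 := by positivity
  have hn2 : (0 : ℝ) ≤ ((n : ℝ) + 1) * (n + 2) := by positivity
  have hn3 : (0 : ℝ) ≤ ((n : ℝ) + 1) * (n + 2) * n := by positivity
  calc |psi n| * W ≤ (π / 4 * |(qs n : ℝ)| + π ^ 2 / 4 * |(rs n : ℝ)|) * W :=
        mul_le_mul_of_nonneg_right hpsi hW.le
    _ = π / 4 * (|(qs n : ℝ)| * W) + π ^ 2 / 4 * (|(rs n : ℝ)| * W) := by ring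
    _ ≤ 0.7875 * (|(qs n : ℝ)| * W) + 2.481 * (|(rs n : ℝ)| * W) := by
        have a1 := mul_le_mul_of_nonneg_right hpi4 hQ0
        have a2 := mul_le_mul_of_nonneg_right hpi24 hR0
        linarith
    _ ≤ 0.7875 * ((n + 1) * (1.99 : ℝ) + (n + 1) * (n + 2) / 2 * 0.0006 +
      (n + 1) * (n + 2) * (n + 3) / 6 * 0.0038) + 2.481 * ((n + 1) * (n + 2) / 2 * (0.0004 : ℝ)) := by
        linarith
    _ ≤ _ := by nlinarith

lemma tail_r (n : ℕ) : 1 / (33 / 20 : ℝ) ^ n = (20 / 33 : ℝ) ^ n := by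
  rw [one_div, ← inv_pow]
  norm_num

theorem psi_summable : Summable fun n => |psi n| := by
  have hr : ‖(20 / 33 : ℝ)‖ < 1 := by
    rw [Real.norm_eq_abs, abs_of_pos (by norm_num)]
    norm_num
  have s0 := summable_pow_mul_geometric_of_norm_lt_one 0 hr
  have s1 := summable_pow_mul_geometric_of_norm_lt_one 1 hr
  have s2 := summable_pow_mul_geometric_of_norm_lt_one 2 hr
  have s3 := summable_pow_mul_geometric_of_norm_lt_one 3 hr
  have hs := (((s0.mul_left (2 + 6 / 1000)).add (s1.mul_left (2 + 11 / 1000))).add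
    (s2.mul_left (6 / 1000))).add (s3.mul_left (1 / 1000))
  refine Summable.of_nonneg_of_le (fun n => abs_nonneg _) (fun n => ?_) hs
  refine (psi_bound n).trans (le_of_eq ?_)
  rw [div_eq_mul_one_div, tail_r]
  ring

lemma tail_geo (n : ℕ) : |psi (n + 41)| ≤
    (2 * (41 + 1) + (41 + 1) * (41 + 2) * (41 + 3) / 1000) * (20 / 33 : ℝ) ^ 41 * (2 / 3) ^ n := by
  refine (psi_bound (n + 41)).trans ?_
  rw [div_eq_mul_one_div, tail_r]
  induction n with
  | zero => norm_num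
  | succ n ih =>
    have hp : (0 : ℝ) < (20 / 33 : ℝ) ^ (n + 41) := by positivity
    have hn : (0 : ℝ) ≤ n := Nat.cast_nonneg n
    have key : (2 * (((n + 1 + 41 : ℕ) : ℝ) + 1) + (((n + 1 + 41 : ℕ) : ℝ) + 1) *
        (((n + 1 + 41 : ℕ) : ℝ) + 2) * (((n + 1 + 41 : ℕ) : ℝ) + 3) / 1000) * (20 / 33) ≤
        (2 / 3) * (2 * (((n + 41 : ℕ) : ℝ) + 1) + (((n + 41 : ℕ) : ℝ) + 1) *
        (((n + 41 : ℕ) : ℝ) + 2) * (((n + 41 : ℕ) : ℝ) + 3) / 1000) := by
      push_cast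
      have h2 : (0 : ℝ) ≤ (n : ℝ) ^ 2 := by positivity
      have h3 : (0 : ℝ) ≤ (n : ℝ) ^ 3 := by positivity
      nlinarith
    have e1 : (20 / 33 : ℝ) ^ (n + 1 + 41) = (20 / 33) * (20 / 33 : ℝ) ^ (n + 41) := by
      rw [show n + 1 + 41 = (n + 41) + 1 by ring, pow_succ]
      ring
    rw [e1]
    have k2 := mul_le_mul_of_nonneg_right key hp.le
    calc _ = _ := by ring
      _ ≤ _ := k2
      _ = (2 / 3) * ((2 * (((n + 41 : ℕ) : ℝ) + 1) + (((n + 41 : ℕ) : ℝ) + 1) *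
        (((n + 41 : ℕ) : ℝ) + 2) * (((n + 41 : ℕ) : ℝ) + 3) / 1000) * (20 / 33 : ℝ) ^ (n + 41)) := by
          ring
      _ ≤ (2 / 3) * ((2 * (41 + 1) + (41 + 1) * (41 + 2) * (41 + 3) / 1000) *
          (20 / 33 : ℝ) ^ 41 * (2 / 3) ^ n) := by
          apply mul_le_mul_of_nonneg_left ih (by norm_num)
      _ = _ := by rw [pow_succ]; ring

/-- numerical value of the bound: about `5.5e-7` -/
theorem psi_tail : ∑' n, |psi (n + 41)| ≤ 1 / 10 ^ 6 := by
  have hg : HasSum (fun n : ℕ => (2 * (41 + 1) + (41 + 1) * (41 + 2) * (41 + 3) / 1000) *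
      (20 / 33 : ℝ) ^ 41 * (2 / 3) ^ n) ((2 * (41 + 1) + (41 + 1) * (41 + 2) * (41 + 3) / 1000) *
      (20 / 33 : ℝ) ^ 41 * (1 - 2 / 3)⁻¹) :=
    (hasSum_geometric_of_lt_one (by norm_num) (by norm_num)).mul_left _
  have hs : Summable fun n => |psi (n + 41)| := (summable_nat_add_iff 41).2 psi_summable
  refine (hs.tsum_le_tsum tail_geo hg.summable).trans ?_
  rw [hg.tsum_eq]
  norm_num

end Pool.Agent.KGU
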