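import Pool.Agent.KGU.Pair
import Pool.Agent.KGU.Gram
import Pool.Agent.KGU.Bd
import Pool.Agent.KGU.Ser
import Pool.Agent.KGU.Tail
import Pool.Agent.KGU.Num

/-! Assembly: the bootstrap inequality and the bound for the complex Grothendieck constant. -/

open MeasureTheory Real
open scoped ComplexConjugate ComplexOrder

namespace Pool.Agent.KGU

/-- the sum over `n ≥ 1` of the coefficients -/
lemma psi_sum_succ : ∑' n, |psi (n + 1)| ≤ 5427 / 10 ^ 7 := by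
  have hs : Summable fun n => |psi (n + 1)| :=
    (summable_nat_add_iff 1).2 psi_summable
  have h1 := hs.sum_add_tsum_nat_add 40
  rw [← h1]
  have h2 : ∑ i ∈ Finset.range 40, |psi (i + 1)| = ∑ n ∈ Finset.Icc 1 40, |psi n| := by
    rw [Finset.range_eq_Ico, Finset.sum_Ico_add' (fun n => |psi n|) 0 40 1]
    rfl
  have h3 : (fun i => |psi (i + 40 + 1)|) = fun n => |psi (n + 41)| := by
    funext i
    rfl
  rw [h2, h3]
  have a := psi_sum_le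
  have b := psi_tail
  norm_num at a b ⊢
  linarith

/-- polar form -/
lemma polar (s : ℂ) : ∃ e : ℂ, ‖e‖ = 1 ∧ s = (‖s‖ : ℂ) * e := by
  by_cases h : s = 0
  · exact ⟨1, by simp, by simp [h]⟩
  · have h0 : (‖s‖ : ℂ) ≠ 0 := by exact_mod_cast norm_ne_zero_iff.2 h
    refine ⟨s / ‖s‖, ?_, ?_⟩
    · rw [norm_div, Complex.norm_real, norm_norm, div_self (by simpa using h)]
    · field_simp

lemma kernel_hasSum {s e : ℂ} (hs : s = (‖s‖ : ℂ) * e) (h1 : ‖s‖ < 1) :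
    HasSum (fun n => (psi n : ℂ) * (s ^ (n + 1) * conj s ^ n)) (e * (Psi ‖s‖ : ℝ)) := by
  have h := psi_hasSum (norm_nonneg s) h1
  have h2 : HasSum (fun n => ((psi n * ‖s‖ ^ (2 * n + 1) : ℝ) : ℂ)) ((Psi ‖s‖ : ℝ) : ℂ) :=
    Complex.hasSum_ofReal.2 h
  have h3 := h2.mul_left e
  have hss : s * conj s = (‖s‖ : ℂ) ^ 2 := by
    rw [Complex.mul_conj, Complex.normSq_eq_norm_sq]
    push_cast
    ring
  have key : ∀ n : ℕ, e * ((psi n * ‖s‖ ^ (2 * n + 1) : ℝ) : ℂ) =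
      (psi n : ℂ) * (s ^ (n + 1) * conj s ^ n) := by
    intro n
    have e1 : s ^ (n + 1) * conj s ^ n = s * (s * conj s) ^ n := by
      rw [mul_pow]
      ring
    rw [e1, hss]
    nth_rewrite 2 [hs]
    push_cast
    ring
  simpa only [key] using h3

lemma memLp_conjA {Ω : Type} [MeasurableSpace Ω] {μ : Measure Ω} {Y : Ω → ℂ} (hY : MemLp Y 2 μ) :
    MemLp (fun x => conj (Y x)) 2 μ := by
  refine ⟨Complex.continuous_conj.comp_aestronglyMeasurable hY.1, ?_⟩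
  have e1 : eLpNorm (fun x => conj (Y x)) 2 μ = eLpNorm Y 2 μ :=
    eLpNorm_congr_norm_ae (Filter.Eventually.of_forall fun x => by simp)
  rw [e1]
  exact hY.2

lemma int_mul_conj {Ω : Type} [MeasurableSpace Ω] {μ : Measure Ω} {X Y : Ω → ℂ}
    (hX : MemLp X 2 μ) (hY : MemLp Y 2 μ) : Integrable (fun x => X x * conj (Y x)) μ :=
  hX.integrable_mul (memLp_conjA hY)

/-- decomposition of an integral -/
lemma int_dec {Ω : Type} [MeasurableSpace Ω] {μ : Measure Ω} {F f F' f' : Ω → ℂ}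
    (mF : MemLp F 2 μ) (mf : MemLp f 2 μ) (mF' : MemLp F' 2 μ) (mf' : MemLp f' 2 μ) :
    ∫ x, F x * conj (F' x) ∂μ =
      ∫ x, f x * conj (f' x) ∂μ + ∫ x, (F x - f x) * conj (f' x) ∂μ +
      ∫ x, f x * conj (F' x - f' x) ∂μ +
      ∫ x, (F x - f x) * conj (F' x - f' x) ∂μ := by
  have i1 := int_mul_conj mf mf'
  have i2 : Integrable (fun x => (F x - f x) * conj (f' x)) μ := int_mul_conj (mF.sub mf) mf'
  have i3 : Integrable (fun x => f x * conj (F' x - f' x)) μ := int_mul_conj mf (mF'.sub mf')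
  have i4 : Integrable (fun x => (F x - f x) * conj (F' x - f' x)) μ :=
    int_mul_conj (mF.sub mf) (mF'.sub mf')
  have i12 : Integrable (fun x => f x * conj (f' x) + (F x - f x) * conj (f' x)) μ := i1.add i2
  have i123 : Integrable (fun x => f x * conj (f' x) + (F x - f x) * conj (f' x) +
      f x * conj (F' x - f' x)) μ := i12.add i3
  rw [← integral_add i1 i2, ← integral_add i12 i3, ← integral_add i123 i4]
  refine integral_congr_ae (Filter.Eventually.of_forall fun x => ?_)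
  simp only [map_sub]
  ring

/-- the error terms -/
lemma err_bound {K : ℝ} (hK : KGC.IsGrothendieckBound K) {m n : ℕ}
    (A : Matrix (Fin m) (Fin n) ℂ) {Ω : Type} [MeasurableSpace Ω] (μ : Measure Ω)
    [IsProbabilityMeasure μ] (F f N R : Fin m → Ω → ℂ) (F' f' N' R' : Fin n → Ω → ℂ)
    (mF : ∀ i, MemLp (F i) 2 μ) (mF' : ∀ j, MemLp (F' j) 2 μ)
    (mf : ∀ i, MemLp (f i) 2 μ) (mf' : ∀ j, MemLp (f' j) 2 μ)
    (mN : ∀ i, MemLp (N i) 2 μ) (mN' : ∀ j, MemLp (N' j) 2 μ)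
    (mR : ∀ i, MemLp (R i) 2 μ) (mR' : ∀ j, MemLp (R' j) 2 μ)
    (hf : ∀ i, Measurable (f i)) (hf' : ∀ j, Measurable (f' j)) (hf1 : ∀ i x, ‖f i x‖ ≤ 1)
    (hf1' : ∀ j x, ‖f' j x‖ ≤ 1)
    (hN : ∀ i, ∫ x, ‖N i x‖ ^ 2 ∂μ ≤ (171 / 10000 : ℝ) ^ 2)
    (hN' : ∀ j, ∫ x, ‖N' j x‖ ^ 2 ∂μ ≤ (171 / 10000 : ℝ) ^ 2)
    (hR : ∀ i, ∫ x, ‖R i x‖ ^ 2 ∂μ ≤ (326 / 10 ^ 6 : ℝ) ^ 2)
    (hR' : ∀ j, ∫ x, ‖R' j x‖ ^ 2 ∂μ ≤ (326 / 10 ^ 6 : ℝ) ^ 2)
    (hf2 : ∀ i, ∫ x, ‖f i x‖ ^ 2 ∂μ ≤ (1 : ℝ) ^ 2)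
    (hf2' : ∀ j, ∫ x, ‖f' j x‖ ^ 2 ∂μ ≤ (1 : ℝ) ^ 2)
    (hd : ∀ i, ∫ x, ‖F i x - f i x‖ ^ 2 ∂μ ≤ (1 / 10 ^ 6 : ℝ) ^ 2)
    (hd' : ∀ j, ∫ x, ‖F' j x - f' j x‖ ^ 2 ∂μ ≤ (1 / 10 ^ 6 : ℝ) ^ 2) :
    ‖∑ i, ∑ j, A i j * (∫ x, F i x * conj (F' j x) ∂μ - ∫ x, N i x * conj (R' j x) ∂μ -
      ∫ x, R i x * conj (N' j x) ∂μ - ∫ x, R i x * conj (R' j x) ∂μ)‖ ≤
      KGC.beta A + K * (1 / 10 ^ 6 * 1) * KGC.beta A +
      K * (1 * (1 / 10 ^ 6)) * KGC.beta A + K * (1 / 10 ^ 6 * (1 / 10 ^ 6)) * KGC.beta A +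
      K * (171 / 10000 * (326 / 10 ^ 6)) * KGC.beta A +
      K * (326 / 10 ^ 6 * (171 / 10000)) * KGC.beta A +
      K * (326 / 10 ^ 6 * (326 / 10 ^ 6)) * KGC.beta A := by
  have b1 := bound_L2 hK μ A N R' mN mR' (N := 171 / 10000) (M := 326 / 10 ^ 6)
    (by norm_num) (by norm_num) hN hR'
  have b2 := bound_L2 hK μ A R N' mR mN' (N := 326 / 10 ^ 6) (M := 171 / 10000)
    (by norm_num) (by norm_num) hR hN'
  have b3 := bound_L2 hK μ A R R' mR mR' (N := 326 / 10 ^ 6) (M := 326 / 10 ^ 6)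
    (by norm_num) (by norm_num) hR hR'
  have b4 := bound_L2 hK μ A (fun i x => F i x - f i x) f' (fun i => (mF i).sub (mf i)) mf'
    (N := 1 / 10 ^ 6) (M := 1) (by norm_num) (by norm_num) hd hf2'
  have b5 := bound_L2 hK μ A f (fun j x => F' j x - f' j x) mf
    (fun j => (mF' j).sub (mf' j)) (N := 1) (M := 1 / 10 ^ 6)
    (by norm_num) (by norm_num) hf2 hd'
  have b6 := bound_L2 hK μ A (fun i x => F i x - f i x) (fun j x => F' j x - f' j x)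
    (fun i => (mF i).sub (mf i)) (fun j => (mF' j).sub (mf' j)) (N := 1 / 10 ^ 6)
    (M := 1 / 10 ^ 6) (by norm_num) (by norm_num) hd hd'
  have b7 := bound_sup μ A f f' hf hf' hf1 hf1'
  have e1 : ∑ i, ∑ j, A i j * (∫ x, F i x * conj (F' j x) ∂μ - ∫ x, N i x * conj (R' j x) ∂μ -
      ∫ x, R i x * conj (N' j x) ∂μ - ∫ x, R i x * conj (R' j x) ∂μ) =
      ∑ i, ∑ j, A i j * ∫ x, f i x * conj (f' j x) ∂μ
      + ∑ i, ∑ j, A i j * ∫ x, (F i x - f i x) * conj (f' j x) ∂μ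
      + ∑ i, ∑ j, A i j * ∫ x, f i x * conj (F' j x - f' j x) ∂μ
      + ∑ i, ∑ j, A i j * ∫ x, (F i x - f i x) * conj (F' j x - f' j x) ∂μ
      - ∑ i, ∑ j, A i j * ∫ x, N i x * conj (R' j x) ∂μ
      - ∑ i, ∑ j, A i j * ∫ x, R i x * conj (N' j x) ∂μ
      - ∑ i, ∑ j, A i j * ∫ x, R i x * conj (R' j x) ∂μ := by
    simp only [← Finset.sum_add_distrib, ← Finset.sum_sub_distrib]
    refine Finset.sum_congr rfl fun i _ => Finset.sum_congr rfl fun j _ => ?_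
    rw [int_dec (mF i) (mf i) (mF' j) (mf' j)]
    ring
  rw [e1]
  refine (norm_sub_le _ _).trans (add_le_add ?_ b3)
  refine (norm_sub_le _ _).trans (add_le_add ?_ b2)
  refine (norm_sub_le _ _).trans (add_le_add ?_ b1)
  refine (norm_add_le _ _).trans (add_le_add ?_ b6)
  refine (norm_add_le _ _).trans (add_le_add ?_ b5)
  exact (norm_add_le _ _).trans (add_le_add b7 b4)

/-- the series part: from a bound on `W` to a bound on the first term -/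
lemma series_bound {K : ℝ} (hK0 : 0 < K) (hK : KGC.IsGrothendieckBound K) {m n : ℕ}
    (A : Matrix (Fin m) (Fin n) ℂ) (G : Matrix (Fin m ⊕ Fin n) (Fin m ⊕ Fin n) ℂ)
    (hG : G.PosSemidef) (hG1 : ∀ x, G x x = 1)
    (hlt : ∀ i j, ‖G (Sum.inl i) (Sum.inr j)‖ < 1) (e : Fin m → Fin n → ℂ)
    (hse : ∀ i j, G (Sum.inl i) (Sum.inr j) = (‖G (Sum.inl i) (Sum.inr j)‖ : ℂ) * e i j) :
    712412 / 10 ^ 6 * ‖∑ i, ∑ j, A i j * G (Sum.inl i) (Sum.inr j)‖ ≤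
      ‖∑ i, ∑ j, A i j * (e i j * (Psi ‖G (Sum.inl i) (Sum.inr j)‖ : ℝ))‖ +
        5427 / 10 ^ 7 * (K * KGC.beta A) := by
  have hβ := beta_nonneg A
  have hβK : 0 ≤ K * KGC.beta A := mul_nonneg hK0.le hβ
  set Sn : ℕ → ℂ := fun k => ∑ i, ∑ j, A i j * (G (Sum.inl i) (Sum.inr j) ^ (k + 1) *
    conj (G (Sum.inl i) (Sum.inr j)) ^ k) with hSn
  have hSnb : ∀ k, ‖Sn k‖ ≤ K * KGC.beta A := by
    intro k
    have h := bound_gram hK A _ (pow_kernel G hG k k) (fun x => by simp [hG1])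
    simpa [hSn] using h
  have hser : HasSum (fun k => (psi k : ℂ) * Sn k)
      (∑ i, ∑ j, A i j * (e i j * (Psi ‖G (Sum.inl i) (Sum.inr j)‖ : ℝ))) := by
    have h : ∀ i j, HasSum (fun k => A i j * ((psi k : ℂ) *
        (G (Sum.inl i) (Sum.inr j) ^ (k + 1) * conj (G (Sum.inl i) (Sum.inr j)) ^ k)))
        (A i j * (e i j * (Psi ‖G (Sum.inl i) (Sum.inr j)‖ : ℝ))) := fun i j =>
      (kernel_hasSum (hse i j) (hlt i j)).mul_left _
    have h2 := hasSum_sum (s := Finset.univ) fun i _ => hasSum_sum (s := Finset.univ) fun j _ =>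
      h i j
    convert h2 using 2 with k
    simp only [hSn, Finset.mul_sum]
    refine Finset.sum_congr rfl fun i _ => Finset.sum_congr rfl fun j _ => ?_
    ring
  generalize hW : ∑ i, ∑ j, A i j * (e i j * (Psi ‖G (Sum.inl i) (Sum.inr j)‖ : ℝ)) = W
    at hser ⊢
  have hW0 : W = (psi 0 : ℂ) * Sn 0 + ∑' k, (psi (k + 1) : ℂ) * Sn (k + 1) := by
    rw [← hser.tsum_eq]
    exact hser.summable.tsum_eq_zero_add
  have htail : ‖∑' k, (psi (k + 1) : ℂ) * Sn (k + 1)‖ ≤ 5427 / 10 ^ 7 * (K * KGC.beta A) := by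
    have hs : Summable fun n => |psi (n + 1)| := (summable_nat_add_iff 1).2 psi_summable
    have h1 : ∀ k, ‖(psi (k + 1) : ℂ) * Sn (k + 1)‖ ≤ |psi (k + 1)| * (K * KGC.beta A) := by
      intro k
      rw [norm_mul, Complex.norm_real, Real.norm_eq_abs]
      exact mul_le_mul_of_nonneg_left (hSnb _) (abs_nonneg _)
    have h2 := tsum_of_norm_bounded (hs.mul_right (K * KGC.beta A)).hasSum h1
    refine h2.trans ?_
    rw [tsum_mul_right]
    exact mul_le_mul_of_nonneg_right psi_sum_succ hβK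
  have hS0 : Sn 0 = ∑ i, ∑ j, A i j * G (Sum.inl i) (Sum.inr j) := by
    simp [hSn]
  have hfin : ‖(psi 0 : ℂ) * Sn 0‖ ≤ ‖W‖ + 5427 / 10 ^ 7 * (K * KGC.beta A) := by
    have h1 : (psi 0 : ℂ) * Sn 0 = W - ∑' k, (psi (k + 1) : ℂ) * Sn (k + 1) := by
      rw [hW0]
      ring
    rw [h1]
    exact (norm_sub_le _ _).trans (add_le_add le_rfl htail)
  rw [norm_mul, Complex.norm_real, Real.norm_eq_abs, hS0] at hfin
  have h0 := psi_zero_ge
  refine le_trans (mul_le_mul_of_nonneg_right ?_ (norm_nonneg _)) hfin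
  refine le_trans ?_ (le_abs_self _)
  norm_num at h0 ⊢
  linarith

lemma final_arith (K B : ℝ) (hKB : 0 ≤ K * B) :
    B + K * (1 / 10 ^ 6 * 1) * B +
      K * (1 * (1 / 10 ^ 6)) * B + K * (1 / 10 ^ 6 * (1 / 10 ^ 6)) * B +
      K * (171 / 10000 * (326 / 10 ^ 6)) * B +
      K * (326 / 10 ^ 6 * (171 / 10000)) * B +
      K * (326 / 10 ^ 6 * (326 / 10 ^ 6)) * B + 5427 / 10 ^ 7 * (K * B) ≤
      (1 + 56 / 10 ^ 5 * K) * B := by
  nlinarith [hKB]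

lemma measurable_ff_lf {ι : Type} [Fintype ι] (c d : EuclideanSpace ℂ ι) :
    Measurable fun x => ff (lf c x) (lf d x) := by
  have h1 : Measurable fun x : ι → ℂ => (lf c x, lf d x) :=
    (continuous_lf c).measurable.prodMk (continuous_lf d).measurable
  have h2 : Measurable ((fun p : ℂ × ℂ => ff p.1 p.2) ∘ fun x : ι → ℂ => (lf c x, lf d x)) :=
    Measurable.comp measurable_ff h1
  simpa only [Function.comp_def] using h2

/-- the sum of the kernel over the matrix -/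
lemma main_ineq {K : ℝ} (hK0 : 0 < K) (hK : KGC.IsGrothendieckBound K) {m n : ℕ}
    (A : Matrix (Fin m) (Fin n) ℂ) (G : Matrix (Fin m ⊕ Fin n) (Fin m ⊕ Fin n) ℂ)
    (hG : G.PosSemidef) (hG1 : ∀ x, G x x = 1)
    (hlt : ∀ i j, ‖G (Sum.inl i) (Sum.inr j)‖ < 1) :
    712412 / 10 ^ 6 * ‖∑ i, ∑ j, A i j * G (Sum.inl i) (Sum.inr j)‖ ≤
      (1 + 56 / 10 ^ 5 * K) * KGC.beta A := by
  obtain ⟨ι, hι, a, b, a', b', hab, hab', hcr⟩ := exists_round G hG hG1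
  choose e he hse using fun i j => polar (G (Sum.inl i) (Sum.inr j))
  have hcross : ∀ i j, Cross ‖G (Sum.inl i) (Sum.inr j)‖ (e i j) (a i) (b i) (a' j) (b' j) :=
    fun i j => hcr i j _ _ (he i j) (hse i j)
  have hβ := beta_nonneg A
  have hβK : 0 ≤ K * KGC.beta A := mul_nonneg hK0.le hβ
  let F : Fin m → (ι → ℂ) → ℂ := fun i x => FF (lf (a i) x) (lf (b i) x)
  let f : Fin m → (ι → ℂ) → ℂ := fun i x => ff (lf (a i) x) (lf (b i) x)
  let N : Fin m → (ι → ℂ) → ℂ := fun i x => nu (lf (a i) x) (lf (b i) x)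
  let R : Fin m → (ι → ℂ) → ℂ := fun i x => rho (lf (a i) x) (lf (b i) x)
  let F' : Fin n → (ι → ℂ) → ℂ := fun i x => FF (lf (a' i) x) (lf (b' i) x)
  let f' : Fin n → (ι → ℂ) → ℂ := fun i x => ff (lf (a' i) x) (lf (b' i) x)
  let N' : Fin n → (ι → ℂ) → ℂ := fun i x => nu (lf (a' i) x) (lf (b' i) x)
  let R' : Fin n → (ι → ℂ) → ℂ := fun i x => rho (lf (a' i) x) (lf (b' i) x)
  have m1 : ∀ i, MemLp (F i) 2 (GN ι) := fun i => memLp_FF (hab i)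
  have m2 : ∀ i, MemLp (F' i) 2 (GN ι) := fun i => memLp_FF (hab' i)
  have m3 : ∀ i, MemLp (f i) 2 (GN ι) := fun i => memLp_ff (hab i)
  have m4 : ∀ i, MemLp (f' i) 2 (GN ι) := fun i => memLp_ff (hab' i)
  have m5 : ∀ i, MemLp (N i) 2 (GN ι) := fun i => memLp_nu (hab i)
  have m6 : ∀ i, MemLp (N' i) 2 (GN ι) := fun i => memLp_nu (hab' i)
  have m7 : ∀ i, MemLp (R i) 2 (GN ι) := fun i => memLp_rho (hab i)
  have m8 : ∀ i, MemLp (R' i) 2 (GN ι) := fun i => memLp_rho (hab' i)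
  have q1 : ∀ i, Measurable (f i) := fun i => measurable_ff_lf _ _
  have q2 : ∀ i, Measurable (f' i) := fun i => measurable_ff_lf _ _
  have q3 : ∀ i x, ‖f i x‖ ≤ 1 := fun i x => ff_norm (lf (a i) x) (lf (b i) x)
  have q4 : ∀ i x, ‖f' i x‖ ≤ 1 := fun i x => ff_norm (lf (a' i) x) (lf (b' i) x)
  have n1 : ∀ i, ∫ x, ‖N i x‖ ^ 2 ∂(GN ι) ≤ (171 / 10000 : ℝ) ^ 2 := fun i => nu_int_le (hab i)
  have n2 : ∀ i, ∫ x, ‖N' i x‖ ^ 2 ∂(GN ι) ≤ (171 / 10000 : ℝ) ^ 2 := fun i => nu_int_le (hab' i)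
  have n3 : ∀ i, ∫ x, ‖R i x‖ ^ 2 ∂(GN ι) ≤ (326 / 10 ^ 6 : ℝ) ^ 2 := fun i => rho_int_le (hab i)
  have n4 : ∀ i, ∫ x, ‖R' i x‖ ^ 2 ∂(GN ι) ≤ (326 / 10 ^ 6 : ℝ) ^ 2 :=
    fun i => rho_int_le (hab' i)
  have n5 : ∀ i, ∫ x, ‖f i x‖ ^ 2 ∂(GN ι) ≤ (1 : ℝ) ^ 2 := fun i => ff_int_le (hab i)
  have n6 : ∀ i, ∫ x, ‖f' i x‖ ^ 2 ∂(GN ι) ≤ (1 : ℝ) ^ 2 := fun i => ff_int_le (hab' i)
  have n7 : ∀ i, ∫ x, ‖F i x - f i x‖ ^ 2 ∂(GN ι) ≤ (1 / 10 ^ 6 : ℝ) ^ 2 :=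
    fun i => res_int_le (hab i)
  have n8 : ∀ i, ∫ x, ‖F' i x - f' i x‖ ^ 2 ∂(GN ι) ≤ (1 / 10 ^ 6 : ℝ) ^ 2 :=
    fun i => res_int_le (hab' i)
  have hW : ∑ i, ∑ j, A i j * (e i j * (Psi ‖G (Sum.inl i) (Sum.inr j)‖ : ℝ)) =
      ∑ i, ∑ j, A i j * (∫ x, F i x * conj (F' j x) ∂(GN ι) -
        ∫ x, N i x * conj (R' j x) ∂(GN ι) - ∫ x, R i x * conj (N' j x) ∂(GN ι) -
        ∫ x, R i x * conj (R' j x) ∂(GN ι)) := by
    refine Finset.sum_congr rfl fun i _ => Finset.sum_congr rfl fun j _ => ?_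
    have h1 : ∫ x, F i x * conj (F' j x) ∂(GN ι) =
        e i j * (Psi ‖G (Sum.inl i) (Sum.inr j)‖ : ℝ) +
        ∫ x, N i x * conj (R' j x) ∂(GN ι) + ∫ x, R i x * conj (N' j x) ∂(GN ι) +
        ∫ x, R i x * conj (R' j x) ∂(GN ι) :=
      pair_FF (norm_nonneg _) (hlt i j) (he i j) (hab i) (hab' j) (hcross i j)
    rw [h1]
    ring
  clear_value F f N R F' f' N' R'
  have hE := err_bound hK A (GN ι) F f N R F' f' N' R' m1 m2 m3 m4 m5 m6 m7 m8 q1 q2 q3 q4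
    n1 n2 n3 n4 n5 n6 n7 n8
  have hS := series_bound hK0 hK A G hG hG1 hlt e hse
  have h2 : _ ≤ _ := hS.trans (add_le_add ((congrArg norm hW).trans_le hE) le_rfl)
  refine h2.trans ?_
  clear h2 hS hW hE
  generalize KGC.beta A = B at hβ hβK ⊢
  exact final_arith K B hβK

theorem bootstrap {K : ℝ} (hK0 : 0 < K) (hK : KGC.IsGrothendieckBound K) :
    KGC.IsGrothendieckBound ((1 + 56 / 10 ^ 5 * K) / (712412 / 10 ^ 6)) := by
  intro m n A H _ _ _ u v hu hv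
  have hβ := beta_nonneg A
  have key : ∀ t : ℝ, 0 < t → t < 1 →
      712412 / 10 ^ 6 * (t * ‖∑ i, ∑ j, A i j * (inner ℂ (u i) (v j) : ℂ)‖) ≤
      (1 + 56 / 10 ^ 5 * K) * KGC.beta A := by
    intro t ht0 ht1
    obtain ⟨G, hG, hG1, hGe⟩ := exists_unit_gram u v hu hv t ht0 ht1
    have hlt : ∀ i j, ‖G (Sum.inl i) (Sum.inr j)‖ < 1 := by
      intro i j
      rw [hGe, norm_mul, Complex.norm_real, Real.norm_eq_abs, abs_of_pos ht0]
      have h1 : ‖(inner ℂ (u i) (v j) : ℂ)‖ ≤ 1 := by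
        refine (norm_inner_le_norm _ _).trans ?_
        exact mul_le_one₀ (hu i) (norm_nonneg _) (hv j)
      nlinarith [norm_nonneg (inner ℂ (u i) (v j) : ℂ)]
    have h := main_ineq hK0 hK A G hG hG1 hlt
    have e1 : ∑ i, ∑ j, A i j * G (Sum.inl i) (Sum.inr j) =
        (t : ℂ) * ∑ i, ∑ j, A i j * (inner ℂ (u i) (v j) : ℂ) := by
      simp only [hGe, Finset.mul_sum]
      refine Finset.sum_congr rfl fun i _ => Finset.sum_congr rfl fun j _ => ?_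
      ring
    rw [e1, norm_mul, Complex.norm_real, Real.norm_eq_abs, abs_of_pos ht0] at h
    exact h
  set B := ‖∑ i, ∑ j, A i j * (inner ℂ (u i) (v j) : ℂ)‖ with hB
  have hB0 : 0 ≤ B := norm_nonneg _
  have h2 : 712412 / 10 ^ 6 * B ≤ (1 + 56 / 10 ^ 5 * K) * KGC.beta A := by
    refine le_of_forall_pos_le_add fun ε hε => ?_
    -- choose `t` close to one
    have hd : 0 < 1 + B := by linarith
    set d := ε / (2 * (1 + B) + 2 * ε) with hdd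
    have hd0 : 0 < d := by positivity
    have hd1 : d < 1 := by
      rw [hdd, div_lt_one (by positivity)]
      linarith
    have h := key (1 - d) (by linarith) (by linarith)
    have h3 : d * B ≤ ε := by
      rw [hdd, div_mul_eq_mul_div, div_le_iff₀ (by positivity)]
      nlinarith [mul_nonneg hε.le hB0, mul_pos hε hε]
    nlinarith
  have h3 : (0 : ℝ) < 712412 / 10 ^ 6 := by norm_num
  rw [div_mul_eq_mul_div, le_div_iff₀ h3]
  linarith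

/-- the upper bound -/
theorem KG_le : KGC.KGcomplex ≤ 1.4048 := by
  have hne : {K : ℝ | 0 < K ∧ KGC.IsGrothendieckBound K}.Nonempty := KGC.exists_bound
  have hbdd : BddBelow {K : ℝ | 0 < K ∧ KGC.IsGrothendieckBound K} :=
    ⟨0, fun K hK => hK.1.le⟩
  have h0 : 0 ≤ KGC.KGcomplex := le_csInf hne fun K hK => hK.1.le
  have h1 : ∀ K, K ∈ {K : ℝ | 0 < K ∧ KGC.IsGrothendieckBound K} →
      (712412 / 10 ^ 6 * KGC.KGcomplex - 1) / (56 / 10 ^ 5) ≤ K := by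
    intro K hK
    have h2 : KGC.KGcomplex ≤ (1 + 56 / 10 ^ 5 * K) / (712412 / 10 ^ 6) :=
      csInf_le hbdd ⟨by have := hK.1; positivity, bootstrap hK.1 hK.2⟩
    rw [le_div_iff₀ (by norm_num)] at h2
    rw [div_le_iff₀ (by norm_num)]
    linarith
  have h3 : (712412 / 10 ^ 6 * KGC.KGcomplex - 1) / (56 / 10 ^ 5) ≤ KGC.KGcomplex :=
    le_csInf hne h1
  rw [div_le_iff₀ (by norm_num)] at h3
  norm_num at h3 ⊢
  nlinarith

end Pool.Agent.KGU
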