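import Pool.Agent.KGU.BetaA

/-! Generating series of the integrals `int_om`.

* `int_ser`: expand `(1 - z τ X)^(-(j+1)) = Σ C(l+j,j) (z τ X)^l` (`0 ≤ τ < 1`, `0 ≤ zX < 1`),
  exchange sum and integral (`hasSum_integral_of_summable_integral_norm`, or monotone
  convergence; all terms are nonnegative), then `int_om`.
* `int_ser2`: the same twice. -/

open MeasureTheory Real

namespace Pool.Agent.KGU

private lemma bt_om_nonneg (t : ℝ) : 0 ≤ om t := by
  unfold om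
  positivity

private lemma bt_ta_nonneg (t : ℝ) : 0 ≤ ta t := by
  unfold ta
  positivity

private lemma bt_ta_le (t : ℝ) : ta t ≤ 1 := by
  unfold ta
  rw [div_le_one (by positivity)]
  linarith

private lemma bt_mh_le (l : ℕ) : (mh l : ℝ) ≤ 1 := by
  have h1 := mh_sq_le l
  have h2 : (1 : ℚ) / ((l : ℚ) + 1) ^ 3 ≤ 1 := by
    rw [div_le_one (by positivity)]
    have hl : (0 : ℚ) ≤ l := Nat.cast_nonneg l
    nlinarith [sq_nonneg (l : ℚ), mul_nonneg hl (sq_nonneg (l : ℚ))]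
  have h3 : mh l ≤ 1 := by
    by_contra hcon
    have h4 : 1 < mh l := not_le.1 hcon
    nlinarith
  exact_mod_cast h3

private lemma bt_mh_nonneg (l : ℕ) : (0 : ℝ) ≤ (mh l : ℝ) := by
  exact_mod_cast (mh_pos l).le

private lemma bt_x_nonneg {z X : ℝ} (hz0 : 0 ≤ z) (hX0 : 0 ≤ X) (t : ℝ) : 0 ≤ z * ta t * X :=
  mul_nonneg (mul_nonneg hz0 (bt_ta_nonneg t)) hX0

private lemma bt_x_le {z X : ℝ} (hz1 : z ≤ 1) (hX0 : 0 ≤ X) (t : ℝ) :
    z * ta t * X ≤ X := by
  have h1 : z * ta t ≤ 1 := mul_le_one₀ hz1 (bt_ta_nonneg t) (bt_ta_le t)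
  calc z * ta t * X ≤ 1 * X := mul_le_mul_of_nonneg_right h1 hX0
    _ = X := one_mul X

private lemma bt_summ (j : ℕ) {X : ℝ} (hX0 : 0 ≤ X) (hX1 : X < 1) :
    HasSum (fun l : ℕ => ((l + j).choose j : ℝ) * X ^ l) (1 / (1 - X) ^ (j + 1)) := by
  apply hasSum_choose_mul_geometric_of_norm_lt_one
  rw [Real.norm_of_nonneg hX0]
  exact hX1

/-- the general exchange of sum and integral -/
private lemma bt_exch (i j : ℕ) {X : ℝ} (hX0 : 0 ≤ X) (hX1 : X < 1) (c : ℕ → ℝ)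
    (hc0 : ∀ l, 0 ≤ c l) (hc1 : ∀ l, c l ≤ 1) :
    HasSum (fun l : ℕ => ((l + j).choose j : ℝ) * X ^ l * c l * (π / 4 * (mh (l + i) : ℝ)))
      (∫ t in Set.Ioi (0 : ℝ), ∑' l : ℕ, ((l + j).choose j : ℝ) * X ^ l * c l *
        (om t * ta t ^ (l + i))) := by
  have hint : ∀ l : ℕ, IntegrableOn (fun t => ((l + j).choose j : ℝ) * X ^ l * c l *
      (om t * ta t ^ (l + i))) (Set.Ioi (0 : ℝ)) := fun l =>
    Integrable.const_mul (integrable_om (l + i)) _
  have hval : ∀ l : ℕ, ∫ t in Set.Ioi (0 : ℝ), ((l + j).choose j : ℝ) * X ^ l * c l *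
      (om t * ta t ^ (l + i)) =
      ((l + j).choose j : ℝ) * X ^ l * c l * (π / 4 * (mh (l + i) : ℝ)) := by
    intro l
    rw [integral_const_mul, int_om]
  have hcoef : ∀ l : ℕ, (0 : ℝ) ≤ ((l + j).choose j : ℝ) * X ^ l * c l := fun l =>
    mul_nonneg (mul_nonneg (Nat.cast_nonneg _) (pow_nonneg hX0 l)) (hc0 l)
  have hnorm : ∀ l : ℕ, ∫ t in Set.Ioi (0 : ℝ), ‖((l + j).choose j : ℝ) * X ^ l * c l *
      (om t * ta t ^ (l + i))‖ =
      ((l + j).choose j : ℝ) * X ^ l * c l * (π / 4 * (mh (l + i) : ℝ)) := by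
    intro l
    rw [← hval l]
    congr 1
    funext t
    exact Real.norm_of_nonneg (mul_nonneg (hcoef l)
      (mul_nonneg (bt_om_nonneg t) (pow_nonneg (bt_ta_nonneg t) _)))
  have hsum : Summable fun l : ℕ => ∫ t in Set.Ioi (0 : ℝ),
      ‖((l + j).choose j : ℝ) * X ^ l * c l * (om t * ta t ^ (l + i))‖ := by
    simp_rw [hnorm]
    refine Summable.of_nonneg_of_le (fun l => mul_nonneg (hcoef l)
      (mul_nonneg (by positivity) (bt_mh_nonneg _))) (fun l => ?_)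
      ((bt_summ j hX0 hX1).summable.mul_right (π / 4))
    have h1 : ((l + j).choose j : ℝ) * X ^ l * c l ≤ ((l + j).choose j : ℝ) * X ^ l :=
      mul_le_of_le_one_right (mul_nonneg (Nat.cast_nonneg _) (pow_nonneg hX0 l)) (hc1 l)
    have h2 : π / 4 * (mh (l + i) : ℝ) ≤ π / 4 :=
      mul_le_of_le_one_right (by positivity) (bt_mh_le _)
    exact mul_le_mul h1 h2 (mul_nonneg (by positivity) (bt_mh_nonneg _))
      (mul_nonneg (Nat.cast_nonneg _) (pow_nonneg hX0 l))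
  have h := hasSum_integral_of_summable_integral_norm hint hsum
  simp_rw [hval] at h
  exact h

theorem int_ser (i j : ℕ) {z X : ℝ} (hz0 : 0 ≤ z) (hz1 : z ≤ 1) (hX0 : 0 ≤ X) (hX1 : X < 1) :
    ∫ t in Set.Ioi (0 : ℝ), om t * ta t ^ i / (1 - z * ta t * X) ^ (j + 1) =
      π / 4 * ∑' l : ℕ, ((l + j).choose j : ℝ) * z ^ l * (mh (l + i) : ℝ) * X ^ l := by
  have h := bt_exch i j hX0 hX1 (fun l => z ^ l) (fun l => pow_nonneg hz0 l)
    (fun l => pow_le_one₀ hz0 hz1)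
  have e1 : ∀ t : ℝ, om t * ta t ^ i / (1 - z * ta t * X) ^ (j + 1) =
      ∑' l : ℕ, ((l + j).choose j : ℝ) * X ^ l * z ^ l * (om t * ta t ^ (l + i)) := by
    intro t
    have h1 := bt_summ j (bt_x_nonneg hz0 hX0 t) (lt_of_le_of_lt (bt_x_le hz1 hX0 t) hX1)
    have h2 := h1.mul_left (om t * ta t ^ i)
    have h3 : (fun l : ℕ => om t * ta t ^ i * (((l + j).choose j : ℝ) * (z * ta t * X) ^ l)) =
        fun l : ℕ => ((l + j).choose j : ℝ) * X ^ l * z ^ l * (om t * ta t ^ (l + i)) := by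
      funext l
      rw [mul_pow, mul_pow, pow_add]
      ring
    rw [h3] at h2
    rw [h2.tsum_eq]
    ring
  simp_rw [e1]
  rw [← h.tsum_eq, ← tsum_mul_left]
  congr 1
  funext l
  ring

theorem int_ser2 {X : ℝ} (hX0 : 0 ≤ X) (hX1 : X < 1) :
    ∫ t in Set.Ioi (0 : ℝ), ∫ t' in Set.Ioi (0 : ℝ), om t * om t' / (1 - ta t * ta t' * X) ^ 2 =
      (π / 4) ^ 2 * ∑' l : ℕ, ((l : ℝ) + 1) * (mh l : ℝ) ^ 2 * X ^ l := by
  have h := bt_exch 0 1 hX0 hX1 (fun l => (mh l : ℝ)) bt_mh_nonneg bt_mh_le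
  have e1 : ∀ t : ℝ, ∫ t' in Set.Ioi (0 : ℝ), om t * om t' / (1 - ta t * ta t' * X) ^ 2 =
      π / 4 * ∑' l : ℕ, ((l + 1).choose 1 : ℝ) * X ^ l * (mh l : ℝ) * (om t * ta t ^ (l + 0)) := by
    intro t
    have h1 := int_ser 0 1 (bt_ta_nonneg t) (bt_ta_le t) hX0 hX1
    have h2 : ∀ t' : ℝ, om t * om t' / (1 - ta t * ta t' * X) ^ 2 =
        om t * (om t' * ta t' ^ 0 / (1 - ta t * ta t' * X) ^ (1 + 1)) := by
      intro t'
      rw [pow_zero, mul_one]
      ring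
    simp_rw [h2]
    rw [integral_const_mul, h1]
    rw [mul_left_comm, ← tsum_mul_left (a := om t)]
    congr 1
    congr 1
    funext l
    rw [add_zero]
    ring
  simp_rw [e1]
  rw [integral_const_mul, ← h.tsum_eq, ← tsum_mul_left, ← tsum_mul_left]
  congr 1
  funext l
  rw [Nat.choose_one_right, add_zero]
  push_cast
  ring

/-- integrability of the summands of `int_ser` -/
lemma integrable_ser (i j : ℕ) {z X : ℝ} (hz0 : 0 ≤ z) (hz1 : z ≤ 1) (hX0 : 0 ≤ X) (hX1 : X < 1) :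
    IntegrableOn (fun t => om t * ta t ^ i / (1 - z * ta t * X) ^ (j + 1)) (Set.Ioi (0 : ℝ)) := by
  have hpos : ∀ t : ℝ, 0 < 1 - z * ta t * X := fun t => by
    have := bt_x_le hz1 hX0 t
    linarith
  have hcont : Continuous (fun t => om t * ta t ^ i / (1 - z * ta t * X) ^ (j + 1)) := by
    have hom : Continuous om := by
      unfold om
      have h2 : ∀ t : ℝ, (1 + t ^ 2) ^ 2 ≠ 0 := fun t => by positivity
      exact continuous_const.div (by fun_prop) h2
    have hta : Continuous ta := by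
      unfold ta
      have h2 : ∀ t : ℝ, (1 + t ^ 2) ≠ 0 := fun t => by positivity
      exact (continuous_id.pow 2).div (by fun_prop) h2
    exact (hom.mul (hta.pow i)).div (by fun_prop) (fun t => pow_ne_zero _ (hpos t).ne')
  have hg : IntegrableOn (fun t => 1 / (1 - X) ^ (j + 1) * (om t * ta t ^ i))
      (Set.Ioi (0 : ℝ)) := Integrable.const_mul (integrable_om i) _
  refine Integrable.mono' hg hcont.aestronglyMeasurable ?_
  refine Filter.Eventually.of_forall fun t => ?_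
  have h0 : 0 ≤ om t * ta t ^ i := mul_nonneg (bt_om_nonneg t) (pow_nonneg (bt_ta_nonneg t) i)
  rw [Real.norm_of_nonneg (div_nonneg h0 (pow_nonneg (hpos t).le _)), one_div, inv_mul_eq_div]
  have h1X : 0 < 1 - X := by linarith
  have h2 : (1 - X) ^ (j + 1) ≤ (1 - z * ta t * X) ^ (j + 1) := by
    apply pow_le_pow_left₀ h1X.le
    have := bt_x_le hz1 hX0 t
    linarith
  exact div_le_div_of_nonneg_left h0 (pow_pos h1X _) h2

end Pool.Agent.KGU
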