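import Pool.Agent.KGU.Seq

/-! The integrals `∫_0^∞ (1+t^2)^(-2) (t^2/(1+t^2))^l dt = (π/4) mh l` and their generating series.

* `int_om`: `J l = ∫ t^(2l) (1+t^2)^(-(l+2))`; differentiate `t^(2l+1) (1+t^2)^(-(l+2))` to get
  `(2l+1) J l = (2l+4) J (l+1)`; `J 0 = π/4` from `d/dt (t/(2(1+t^2)) + arctan t / 2)`.
* `int_ser`: expand `(1 - z τ X)^(-(j+1)) = Σ C(l+j,j) (z τ X)^l` (`0 ≤ τ < 1`, `0 ≤ zX < 1`),
  exchange sum and integral (`hasSum_integral_of_summable_integral_norm` or monotone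
  convergence; all terms nonnegative).
* `int_ser2`: the same twice. -/

open MeasureTheory Real

namespace Pool.Agent.KGU

/-- weight -/
noncomputable def om (t : ℝ) : ℝ := 1 / (1 + t ^ 2) ^ 2
noncomputable def ta (t : ℝ) : ℝ := t ^ 2 / (1 + t ^ 2)

lemma mh_pos (l : ℕ) : 0 < mh l := by
  induction l with
  | zero => simp [mh]
  | succ l ih =>
    rw [mh]
    exact mul_pos ih (by positivity)

/-- `mh l ≤ 1` and the decay `mh l ^ 2 ≤ 1/(l+1)^3` (induction) -/
lemma mh_sq_le (l : ℕ) : mh l ^ 2 ≤ 1 / ((l : ℚ) + 1) ^ 3 := by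
  induction l with
  | zero => simp [mh]
  | succ l ih =>
    rw [mh, mul_pow]
    have h1 : mh l ^ 2 * ((2 * (l : ℚ) + 1) / (2 * l + 4)) ^ 2 ≤
        1 / ((l : ℚ) + 1) ^ 3 * ((2 * (l : ℚ) + 1) / (2 * l + 4)) ^ 2 :=
      mul_le_mul_of_nonneg_right ih (sq_nonneg _)
    refine h1.trans ?_
    have hl : (0 : ℚ) ≤ l := Nat.cast_nonneg l
    push_cast
    rw [div_pow, div_mul_div_comm, div_le_div_iff₀ (by positivity) (by positivity)]
    have e : (l : ℚ) + 1 + 1 = l + 2 := by ring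
    rw [e]
    have h2 : (2 * (l : ℚ) + 1) ^ 2 * (l + 2) ≤ 4 * (l + 1) ^ 3 := by nlinarith
    have h3 : (2 * (l : ℚ) + 1) ^ 2 * (l + 2) * (l + 2) ^ 2 ≤ 4 * (l + 1) ^ 3 * (l + 2) ^ 2 :=
      mul_le_mul_of_nonneg_right h2 (sq_nonneg _)
    nlinarith [h3]

private lemma ba_om_nonneg (t : ℝ) : 0 ≤ om t := by
  unfold om
  positivity

private lemma ba_ta_nonneg (t : ℝ) : 0 ≤ ta t := by
  unfold ta
  positivity

private lemma ba_ta_le (t : ℝ) : ta t ≤ 1 := by
  unfold ta
  rw [div_le_one (by positivity)]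
  linarith

private lemma ba_om_le (t : ℝ) : om t ≤ (1 + t ^ 2)⁻¹ := by
  unfold om
  rw [inv_eq_one_div]
  apply one_div_le_one_div_of_le (by positivity)
  nlinarith [sq_nonneg t, sq_nonneg (t ^ 2)]

private lemma ba_cont (l : ℕ) : Continuous (fun t => om t * ta t ^ l) := by
  unfold om ta
  have h : ∀ t : ℝ, (1 + t ^ 2) ≠ 0 := fun t => by positivity
  have h2 : ∀ t : ℝ, (1 + t ^ 2) ^ 2 ≠ 0 := fun t => by positivity
  exact ((continuous_const.div (by fun_prop) h2).mul
    (((continuous_id.pow 2).div (by fun_prop) h).pow l))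

private lemma ba_integrable_om (l : ℕ) : Integrable (fun t => om t * ta t ^ l) := by
  refine Integrable.mono' integrable_inv_one_add_sq (ba_cont l).aestronglyMeasurable ?_
  refine Filter.Eventually.of_forall fun t => ?_
  rw [Real.norm_of_nonneg (mul_nonneg (ba_om_nonneg t) (pow_nonneg (ba_ta_nonneg t) l))]
  calc om t * ta t ^ l ≤ om t * 1 :=
        mul_le_mul_of_nonneg_left (pow_le_one₀ (ba_ta_nonneg t) (ba_ta_le t)) (ba_om_nonneg t)
    _ ≤ (1 + t ^ 2)⁻¹ := by
        rw [mul_one]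
        exact ba_om_le t

private lemma ba_base : ∫ t in Set.Ioi (0 : ℝ), om t * ta t ^ 0 = π / 4 := by
  have hd : ∀ t ∈ Set.Ioi (0 : ℝ), HasDerivAt (fun t : ℝ => t / (2 * (1 + t ^ 2)) + arctan t / 2)
      (om t * ta t ^ 0) t := by
    intro t _
    have h0 : (2 * (1 + t ^ 2)) ≠ 0 := by positivity
    have h1 : HasDerivAt (fun t : ℝ => 2 * (1 + t ^ 2)) (2 * (2 * t)) t := by
      have := ((hasDerivAt_pow 2 t).const_add 1).const_mul 2
      simpa using this
    have h2 := (hasDerivAt_id t).div h1 h0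
    have h3 := (hasDerivAt_arctan t).div_const 2
    refine (h2.add h3).congr_deriv ?_
    unfold om
    have h4 : (1 + t ^ 2) ≠ 0 := by positivity
    simp only [id, pow_zero, mul_one, one_mul]
    field_simp
    ring
  have hc : ContinuousWithinAt (fun t : ℝ => t / (2 * (1 + t ^ 2)) + arctan t / 2)
      (Set.Ici 0) 0 := by
    apply Continuous.continuousWithinAt
    have h2 : ∀ t : ℝ, 2 * (1 + t ^ 2) ≠ 0 := fun t => by positivity
    exact (continuous_id.div (by fun_prop) h2).add (continuous_arctan.div_const 2)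
  have ht : Filter.Tendsto (fun t : ℝ => t / (2 * (1 + t ^ 2)) + arctan t / 2) Filter.atTop
      (nhds (0 + π / 2 / 2)) := by
    apply Filter.Tendsto.add
    · refine squeeze_zero' (g := fun t : ℝ => t⁻¹) ?_ ?_ tendsto_inv_atTop_zero
      · filter_upwards [Filter.eventually_gt_atTop 0] with t ht
        positivity
      · filter_upwards [Filter.eventually_gt_atTop 0] with t ht
        rw [div_le_iff₀ (by positivity), inv_mul_eq_div, le_div_iff₀ ht]
        nlinarith
    · exact (tendsto_arctan_atTop.mono_right nhdsWithin_le_nhds).div_const 2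
  have h := integral_Ioi_of_hasDerivAt_of_tendsto hc hd (ba_integrable_om 0).integrableOn ht
  rw [h]
  simp
  ring

private lemma ba_step (l : ℕ) : (2 * (l : ℝ) + 1) * (∫ t in Set.Ioi (0 : ℝ), om t * ta t ^ l) =
    (2 * l + 4) * ∫ t in Set.Ioi (0 : ℝ), om t * ta t ^ (l + 1) := by
  have hd : ∀ t ∈ Set.Ioi (0 : ℝ), HasDerivAt (fun t : ℝ => t ^ (2 * l + 1) / (1 + t ^ 2) ^ (l + 2))
      ((2 * (l : ℝ) + 1) * (om t * ta t ^ l) - (2 * l + 4) * (om t * ta t ^ (l + 1))) t := by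
    intro t _
    have h4 : (1 + t ^ 2) ≠ 0 := by positivity
    have h0 : (1 + t ^ 2) ^ (l + 2) ≠ 0 := pow_ne_zero _ h4
    have h1 : HasDerivAt (fun t : ℝ => (1 + t ^ 2) ^ (l + 2))
        (((l + 2 : ℕ) : ℝ) * (1 + t ^ 2) ^ (l + 1) * (2 * t)) t := by
      have h3 := ((hasDerivAt_pow 2 t).const_add 1).pow (l + 2)
      refine h3.congr_deriv ?_
      simp
    have h2 := (hasDerivAt_pow (2 * l + 1) t).div h1 h0
    refine h2.congr_deriv ?_
    unfold om ta
    rw [div_pow (t ^ 2) (1 + t ^ 2) l, div_pow (t ^ 2) (1 + t ^ 2) (l + 1), ← pow_mul t 2 l,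
      ← pow_mul t 2 (l + 1)]
    simp only [Nat.add_sub_cancel]
    push_cast
    have e1 : (1 + t ^ 2) ^ (l + 2) = (1 + t ^ 2) ^ l * (1 + t ^ 2) ^ 2 := pow_add _ _ _
    have e2 : (1 + t ^ 2) ^ (l + 1) = (1 + t ^ 2) ^ l * (1 + t ^ 2) := pow_succ _ _
    have e3 : t ^ (2 * l + 1) = t ^ (2 * l) * t := pow_succ _ _
    have e4 : t ^ (2 * (l + 1)) = t ^ (2 * l) * t ^ 2 := by
      rw [mul_add, mul_one, pow_add]
    rw [e1, e2, e3, e4]
    have h5 : (1 + t ^ 2) ^ l ≠ 0 := pow_ne_zero _ h4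
    field_simp
    ring
  have hc : ContinuousWithinAt (fun t : ℝ => t ^ (2 * l + 1) / (1 + t ^ 2) ^ (l + 2))
      (Set.Ici 0) 0 := by
    apply Continuous.continuousWithinAt
    have h2 : ∀ t : ℝ, (1 + t ^ 2) ^ (l + 2) ≠ 0 := fun t => by positivity
    exact (continuous_id.pow _).div (by fun_prop) h2
  have ht : Filter.Tendsto (fun t : ℝ => t ^ (2 * l + 1) / (1 + t ^ 2) ^ (l + 2)) Filter.atTop
      (nhds 0) := by
    refine squeeze_zero' (g := fun t : ℝ => t⁻¹) ?_ ?_ tendsto_inv_atTop_zero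
    · filter_upwards [Filter.eventually_gt_atTop 0] with t ht
      positivity
    · filter_upwards [Filter.eventually_gt_atTop 0] with t ht
      rw [div_le_iff₀ (by positivity), inv_mul_eq_div, le_div_iff₀ ht, ← pow_succ]
      have e : t ^ (2 * l + 1 + 1) = (t ^ 2) ^ (l + 1) := by
        rw [← pow_mul]
        congr 1
      rw [e]
      calc (t ^ 2) ^ (l + 1) ≤ (1 + t ^ 2) ^ (l + 1) :=
            pow_le_pow_left₀ (sq_nonneg t) (by linarith) _
        _ ≤ (1 + t ^ 2) ^ (l + 2) :=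
            pow_le_pow_right₀ (by nlinarith [sq_nonneg t]) (by omega)
  have hi1 := ((ba_integrable_om l).integrableOn (s := Set.Ioi (0 : ℝ))).const_mul
    (2 * (l : ℝ) + 1)
  have hi2 := ((ba_integrable_om (l + 1)).integrableOn (s := Set.Ioi (0 : ℝ))).const_mul
    (2 * (l : ℝ) + 4)
  have h := integral_Ioi_of_hasDerivAt_of_tendsto hc hd (hi1.sub hi2) ht
  rw [integral_sub hi1 hi2, integral_const_mul, integral_const_mul] at h
  simp at h
  linarith

theorem int_om (l : ℕ) : ∫ t in Set.Ioi (0 : ℝ), om t * ta t ^ l = π / 4 * (mh l : ℝ) := by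
  induction l with
  | zero => rw [ba_base]; simp [mh]
  | succ l ih =>
    have h := ba_step l
    rw [ih] at h
    rw [mh]
    push_cast
    have h4 : (2 * (l : ℝ) + 4) ≠ 0 := by positivity
    field_simp
    field_simp at h
    linarith

lemma integrable_om (l : ℕ) : IntegrableOn (fun t => om t * ta t ^ l) (Set.Ioi (0 : ℝ)) :=
  (ba_integrable_om l).integrableOn

end Pool.Agent.KGU
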