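import Pool.Agent.KGU.CanS

/-! The expectation `E rho(u,w) conj(ex q u')`.
Notation of `CanS`, `p = 2 κ`, `P = u conj u'`, `A = (1+qσ^2)/D`, `B = (1+pσ^2)/D`, `C = h/D`
(`AB - C^2 = σ^2/D`; these are the covariances of `(u,u')` under the tilted law, total mass `1/D`).

`rho u w = -(c^2/4a) e^{-2κ|u|^2} Im(w conj u)^2 (|u|^2 + a^2) u`.
After averaging the noise, `Im(w conj u)^2` becomes `cb^2 Im(P)^2 + vn |u|^2/2`, and
`Im(P)^2 = (2|P|^2 - P^2 - conj(P)^2)/4`.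

`R0 := <Im(w conj u)^2 P> = (1/D) (cb^2 C σ^2/D + vn A C) = h (1 + q(σ^2-θ^2))/D^3`
 from `<|P|^2P>' = 4ABC+2C^3`, `<P^3>' = 6C^3`, `<|P|^2 conj P>' = 4ABC+2C^3`, `<|u|^2 P>' = 2AC`
 (`< >'` is the average for the tilted probability).
`R1 := <|u|^2 Im(w conj u)^2 P> = (1/D)(3 A C cb^2 σ^2/D + 3 vn A^2 C)
   = 3 h (1+qσ^2)(1+q(σ^2-θ^2))/D^4`
 from `<|u|^2|P|^2P>' = 12(A^2BC + AC^3) = <|u|^2|P|^2 conj P>'`, `<|u|^2 P^3>' = 24AC^3`,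
 `<|u|^4 P>' = 6A^2C`. -/

open MeasureTheory Real
open scoped ComplexConjugate

namespace Pool.Agent.KGU

/-- weighted monomials in `u, conj u, u', conj u'` -/
noncomputable def MoR (p q : ℝ) (i j k l : ℕ) (u _w u' _w' : ℂ) : ℂ :=
  (rexp (-p * ‖u‖ ^ 2) : ℂ) * (rexp (-q * ‖u'‖ ^ 2) : ℂ) *
    (u ^ i * conj u ^ j * (u' ^ k * conj u' ^ l))

lemma PG.congrR {f g : ℂ → ℂ → ℂ → ℂ → ℂ} (hf : PG f)
    (h : ∀ u w u' w', f u w u' w' = g u w u' w') : PG g := by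
  have : f = g := by
    funext u w u' w'
    exact h u w u' w'
  rwa [← this]

lemma PG.moR {p q : ℝ} (hp : 0 ≤ p) (hq : 0 ≤ q) (i j k l : ℕ) : PG (MoR p q i j k l) := by
  refine ⟨?_, 1, i + j + (k + l), zero_le_one, fun u w u' w' => ?_⟩
  · unfold MoR
    fun_prop
  · have h1 : ‖(rexp (-p * ‖u‖ ^ 2) : ℂ)‖ ≤ 1 := by
      rw [Complex.norm_real, Real.norm_eq_abs, Real.abs_exp, Real.exp_le_one_iff]
      have := mul_nonneg hp (sq_nonneg ‖u‖)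
      linarith
    have h2 : ‖(rexp (-q * ‖u'‖ ^ 2) : ℂ)‖ ≤ 1 := by
      rw [Complex.norm_real, Real.norm_eq_abs, Real.abs_exp, Real.exp_le_one_iff]
      have := mul_nonneg hq (sq_nonneg ‖u'‖)
      linarith
    have e0 : ‖MoR p q i j k l u w u' w'‖ = ‖(rexp (-p * ‖u‖ ^ 2) : ℂ)‖ *
        ‖(rexp (-q * ‖u'‖ ^ 2) : ℂ)‖ * (‖u‖ ^ (i + j) * ‖u'‖ ^ (k + l)) := by
      unfold MoR
      simp only [norm_mul, norm_pow, RCLike.norm_conj, pow_add]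
    have h3 : 1 ≤ 1 + ‖u‖ := by linarith [norm_nonneg u]
    have h4 : 1 ≤ 1 + ‖w‖ := by linarith [norm_nonneg w]
    have h5 : 1 ≤ 1 + ‖u'‖ := by linarith [norm_nonneg u']
    have h6 : 1 ≤ 1 + ‖w'‖ := by linarith [norm_nonneg w']
    have h7 : 1 + ‖u‖ ≤ (1 + ‖u‖) * (1 + ‖w‖) * (1 + ‖u'‖) * (1 + ‖w'‖) := by
      have a1 : 1 + ‖u‖ ≤ (1 + ‖u‖) * (1 + ‖w‖) := le_mul_of_one_le_right (by linarith) h4
      have a2 : (1 + ‖u‖) * (1 + ‖w‖) ≤ (1 + ‖u‖) * (1 + ‖w‖) * (1 + ‖u'‖) :=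
        le_mul_of_one_le_right (by positivity) h5
      have a3 : (1 + ‖u‖) * (1 + ‖w‖) * (1 + ‖u'‖) ≤
          (1 + ‖u‖) * (1 + ‖w‖) * (1 + ‖u'‖) * (1 + ‖w'‖) :=
        le_mul_of_one_le_right (by positivity) h6
      linarith
    have h8 : 1 + ‖u'‖ ≤ (1 + ‖u‖) * (1 + ‖w‖) * (1 + ‖u'‖) * (1 + ‖w'‖) := by
      have a1 : 1 ≤ (1 + ‖u‖) * (1 + ‖w‖) := one_le_mul_of_one_le_of_one_le h3 h4
      have a2 : 1 + ‖u'‖ ≤ (1 + ‖u‖) * (1 + ‖w‖) * (1 + ‖u'‖) :=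
        le_mul_of_one_le_left (by linarith) a1
      have a3 : (1 + ‖u‖) * (1 + ‖w‖) * (1 + ‖u'‖) ≤
          (1 + ‖u‖) * (1 + ‖w‖) * (1 + ‖u'‖) * (1 + ‖w'‖) :=
        le_mul_of_one_le_right (by positivity) h6
      linarith
    have h9 : ‖u‖ ^ (i + j) ≤
        ((1 + ‖u‖) * (1 + ‖w‖) * (1 + ‖u'‖) * (1 + ‖w'‖)) ^ (i + j) :=
      pow_le_pow_left₀ (norm_nonneg _) (by linarith) _
    have h10 : ‖u'‖ ^ (k + l) ≤
        ((1 + ‖u‖) * (1 + ‖w‖) * (1 + ‖u'‖) * (1 + ‖w'‖)) ^ (k + l) :=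
      pow_le_pow_left₀ (norm_nonneg _) (by linarith) _
    rw [e0, one_mul, pow_add _ (i + j) (k + l)]
    calc _ ≤ 1 * 1 * (‖u‖ ^ (i + j) * ‖u'‖ ^ (k + l)) := by gcongr
      _ = ‖u‖ ^ (i + j) * ‖u'‖ ^ (k + l) := by ring
      _ ≤ _ := by gcongr

lemma PG.im1R : PG (fun u w _ _ => (((w * conj u).im : ℝ) : ℂ)) := by
  refine ⟨?_, 1, 1, zero_le_one, fun u w u' w' => ?_⟩
  · have : Continuous fun p : Q4 => (((p.2.1 * conj p.1).im : ℝ) : ℂ) := by fun_prop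
    exact this.measurable
  · rw [Complex.norm_real, Real.norm_eq_abs, pow_one, one_mul]
    refine (Complex.abs_im_le_norm _).trans ?_
    rw [norm_mul, RCLike.norm_conj]
    have h3 : 0 ≤ ‖u‖ := norm_nonneg u
    have h4 : 0 ≤ ‖w‖ := norm_nonneg w
    have h5 : 0 ≤ ‖u'‖ := norm_nonneg u'
    have h6 : 0 ≤ ‖w'‖ := norm_nonneg w'
    have a0 : ‖w‖ * ‖u‖ ≤ (1 + ‖u‖) * (1 + ‖w‖) := by nlinarith
    have a2 : (1 + ‖u‖) * (1 + ‖w‖) ≤ (1 + ‖u‖) * (1 + ‖w‖) * (1 + ‖u'‖) :=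
      le_mul_of_one_le_right (by positivity) (by linarith)
    have a3 : (1 + ‖u‖) * (1 + ‖w‖) * (1 + ‖u'‖) ≤
        (1 + ‖u‖) * (1 + ‖w‖) * (1 + ‖u'‖) * (1 + ‖w'‖) :=
      le_mul_of_one_le_right (by positivity) (by linarith)
    linarith

lemma E4_addR {f g : ℂ → ℂ → ℂ → ℂ → ℂ} (hf : PG f) (hg : PG g) (s : ℝ) :
    E4 s (fun u w u' w' => f u w u' w' + g u w u' w') = E4 s f + E4 s g := by
  unfold E4
  exact integral_add (hf.integrable s) (hg.integrable s)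

lemma E4_smulR (c : ℂ) (f : ℂ → ℂ → ℂ → ℂ → ℂ) (s : ℝ) :
    E4 s (fun u w u' w' => c * f u w u' w') = c * E4 s f := by
  unfold E4
  exact integral_const_mul c _

lemma PG.constR (c : ℂ) : PG (fun _ _ _ _ => c) :=
  ⟨measurable_const, ‖c‖, 0, norm_nonneg c, fun _ _ _ _ => by simp⟩

lemma PG.smulR {f : ℂ → ℂ → ℂ → ℂ → ℂ} (c : ℂ) (hf : PG f) :
    PG (fun u w u' w' => c * f u w u' w') := (PG.constR c).mul hf

/-- the moments -/
lemma E4_moR {s : ℝ} (h0 : 0 ≤ s) (h1 : s < 1) {p q : ℝ} (hp : 0 ≤ p) (hq : 0 ≤ q)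
    (i j k l : ℕ) (hijkl : i + k = j + l) :
    E4 s (MoR p q i j k l) =
      ((∑ m ∈ Finset.range (min i j + 1), (m.factorial : ℝ) * (i.choose m) * (j.choose m) *
        (sg2 s) ^ m * (hh s) ^ (i + j - 2 * m) * (i + k - m).factorial *
        ((1 + p * sg2 s) ^ k / (1 + p * sg2 s) ^ j) / (Dl s p q) ^ (i + k - m + 1) : ℝ) : ℂ) := by
  rw [E4_iter (PG.moR hp hq i j k l), ← mom4 h0 h1 hp hq i j k l hijkl]
  congr 1
  funext z1
  congr 1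
  funext z2
  simp only [MoR, cu, cu', integral_const, probReal_univ, one_smul]

/-- the average over the noise -/
lemma noise_imR (a b P Q : ℝ) (u u' W : ℂ) :
    ∫ z3, ∫ z4, ((((((a : ℂ) * u + (b : ℂ) * u' + ((P : ℂ) * z3 + (Q : ℂ) * z4)) *
        conj u).im : ℝ) : ℂ) * (((((a : ℂ) * u + (b : ℂ) * u' + ((P : ℂ) * z3 + (Q : ℂ) * z4)) *
        conj u).im : ℝ) : ℂ)) * W ∂gam ∂gam =
      ((b : ℂ) ^ 2 / 4 * (2 * (u * conj u * (u' * conj u')) - (u * conj u') ^ 2 -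
        (conj u * u') ^ 2) + ((P ^ 2 + Q ^ 2 : ℝ) : ℂ) / 2 * (u * conj u)) * W := by
  have hI : (2 * Complex.I) ≠ 0 := by simp
  have key : ∀ z3 z4 : ℂ, (((((a : ℂ) * u + (b : ℂ) * u' + ((P : ℂ) * z3 + (Q : ℂ) * z4)) *
      conj u).im : ℝ) : ℂ) =
      b * (u' * conj u - conj u' * u) / (2 * Complex.I) +
        conj u / (2 * Complex.I) * (P * z3 + Q * z4) +
        (-u / (2 * Complex.I)) * conj (P * z3 + Q * z4) := by
    intro z3 z4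
    rw [Complex.im_eq_sub_conj]
    simp only [map_mul, map_add, Complex.conj_conj, Complex.conj_ofReal]
    field_simp
    ring
  have key2 : ∀ z3 z4 : ℂ, ((((((a : ℂ) * u + (b : ℂ) * u' + ((P : ℂ) * z3 + (Q : ℂ) * z4)) *
        conj u).im : ℝ) : ℂ) * (((((a : ℂ) * u + (b : ℂ) * u' + ((P : ℂ) * z3 + (Q : ℂ) * z4)) *
        conj u).im : ℝ) : ℂ)) * W =
      (b * (u' * conj u - conj u' * u) / (2 * Complex.I) +
        conj u / (2 * Complex.I) * (P * z3 + Q * z4) +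
        (-u / (2 * Complex.I)) * conj (P * z3 + Q * z4) +
        0 * (P * z3 - Q * z4) + 0 * conj (P * z3 - Q * z4)) *
      (b * (u' * conj u - conj u' * u) / (2 * Complex.I) * W +
        conj u / (2 * Complex.I) * W * (P * z3 + Q * z4) +
        (-u / (2 * Complex.I)) * W * conj (P * z3 + Q * z4) +
        0 * (P * z3 - Q * z4) + 0 * conj (P * z3 - Q * z4)) := by
    intro z3 z4
    rw [key]
    ring
  simp_rw [key2]
  rw [noise2]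
  have hI2 : Complex.I ^ 2 = -1 := Complex.I_sq
  field_simp
  ring_nf
  rw [hI2]
  ring

/-- averaging the noise in `Im(w conj u)^2` -/
lemma E4_imR {s : ℝ} (h0 : 0 ≤ s) (h1 : s < 1) {p q : ℝ} (hp : 0 ≤ p) (hq : 0 ≤ q)
    (i j k l : ℕ) :
    E4 s (fun u w u' w' => ((((w * conj u).im : ℝ) : ℂ) * (((w * conj u).im : ℝ) : ℂ)) *
        MoR p q i j k l u w u' w') =
      (((cb s) ^ 2 / 4 : ℝ) : ℂ) * (2 * E4 s (MoR p q (i + 1) (j + 1) (k + 1) (l + 1)) -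
        E4 s (MoR p q (i + 2) j k (l + 2)) - E4 s (MoR p q i (j + 2) (k + 2) l)) +
      (((1 - th s ^ 2 / sg2 s) / 2 : ℝ) : ℂ) * E4 s (MoR p q (i + 1) (j + 1) k l) := by
  have hvn : cP s ^ 2 + cQ s ^ 2 = 1 - th s ^ 2 / sg2 s := by
    rw [cP_sq h0 h1, cQ_sq h0 h1]
    ring
  have hPG1 : PG (fun u w u' w' => ((((w * conj u).im : ℝ) : ℂ) * (((w * conj u).im : ℝ) : ℂ)) *
      MoR p q i j k l u w u' w') := (PG.im1R.mul PG.im1R).mul (PG.moR hp hq i j k l)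
  have hA := PG.moR hp hq (i + 1) (j + 1) (k + 1) (l + 1)
  have hB := PG.moR hp hq (i + 2) j k (l + 2)
  have hC := PG.moR hp hq i (j + 2) (k + 2) l
  have hD := PG.moR hp hq (i + 1) (j + 1) k l
  have e1 : E4 s (fun u w u' w' => (((cb s) ^ 2 / 4 : ℝ) : ℂ) *
        (2 * MoR p q (i + 1) (j + 1) (k + 1) (l + 1) u w u' w' +
          (-1 * MoR p q (i + 2) j k (l + 2) u w u' w' +
            -1 * MoR p q i (j + 2) (k + 2) l u w u' w')) +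
        (((1 - th s ^ 2 / sg2 s) / 2 : ℝ) : ℂ) * MoR p q (i + 1) (j + 1) k l u w u' w') =
      (((cb s) ^ 2 / 4 : ℝ) : ℂ) * (2 * E4 s (MoR p q (i + 1) (j + 1) (k + 1) (l + 1)) +
        (-1 * E4 s (MoR p q (i + 2) j k (l + 2)) + -1 * E4 s (MoR p q i (j + 2) (k + 2) l))) +
      (((1 - th s ^ 2 / sg2 s) / 2 : ℝ) : ℂ) * E4 s (MoR p q (i + 1) (j + 1) k l) := by
    have g1 := (hB.smulR (-1)).add (hC.smulR (-1))
    have g2 := (hA.smulR 2).add g1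
    rw [E4_addR (g2.smulR _) (hD.smulR _), E4_smulR, E4_addR (hA.smulR 2) g1, E4_smulR,
      E4_addR (hB.smulR (-1)) (hC.smulR (-1)), E4_smulR, E4_smulR, E4_smulR]
  have hPG2 : PG (fun u w u' w' => (((cb s) ^ 2 / 4 : ℝ) : ℂ) *
        (2 * MoR p q (i + 1) (j + 1) (k + 1) (l + 1) u w u' w' +
          (-1 * MoR p q (i + 2) j k (l + 2) u w u' w' +
            -1 * MoR p q i (j + 2) (k + 2) l u w u' w')) +
        (((1 - th s ^ 2 / sg2 s) / 2 : ℝ) : ℂ) * MoR p q (i + 1) (j + 1) k l u w u' w') :=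
    (((hA.smulR 2).add ((hB.smulR (-1)).add (hC.smulR (-1)))).smulR _).add (hD.smulR _)
  have e2 : E4 s (fun u w u' w' => ((((w * conj u).im : ℝ) : ℂ) * (((w * conj u).im : ℝ) : ℂ)) *
        MoR p q i j k l u w u' w') =
      E4 s (fun u w u' w' => (((cb s) ^ 2 / 4 : ℝ) : ℂ) *
        (2 * MoR p q (i + 1) (j + 1) (k + 1) (l + 1) u w u' w' +
          (-1 * MoR p q (i + 2) j k (l + 2) u w u' w' +
            -1 * MoR p q i (j + 2) (k + 2) l u w u' w')) +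
        (((1 - th s ^ 2 / sg2 s) / 2 : ℝ) : ℂ) * MoR p q (i + 1) (j + 1) k l u w u' w') := by
    rw [E4_iter hPG1, E4_iter hPG2]
    congr 1
    funext z1
    congr 1
    funext z2
    have hn := noise_imR (ca s) (cb s) (cP s) (cQ s) ((hh s : ℂ) * z1 + (√(sg2 s) : ℂ) * z2) z1
      (MoR p q i j k l ((hh s : ℂ) * z1 + (√(sg2 s) : ℂ) * z2) 0 z1 0)
    rw [hvn] at hn
    simp only [MoR, cu, cu', cw, integral_const, probReal_univ, one_smul] at hn ⊢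
    rw [hn]
    push_cast
    ring
  rw [e2, e1]
  ring

section values

variable {s : ℝ} (h0 : 0 ≤ s) (h1 : s < 1) {p q : ℝ} (hp : 0 ≤ p) (hq : 0 ≤ q)

include h0 h1 hp in
lemma rr_posR : 0 < 1 + p * sg2 s := by
  have := sg2_pos h0 h1
  positivity

include h0 h1 hp hq

lemma m2112R : E4 s (MoR p q 2 1 1 2) =
    ((6 * hh s ^ 3 / Dl s p q ^ 4 + 4 * sg2 s * hh s / Dl s p q ^ 3 : ℝ) : ℂ) := by
  rw [E4_moR h0 h1 hp hq 2 1 1 2 rfl]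
  congr 1
  have hr := (rr_posR h0 h1 hp).ne'
  simp [Finset.sum_range_succ, Nat.factorial, hr]
  ring

lemma m3003R : E4 s (MoR p q 3 0 0 3) = ((6 * hh s ^ 3 / Dl s p q ^ 4 : ℝ) : ℂ) := by
  rw [E4_moR h0 h1 hp hq 3 0 0 3 rfl]
  congr 1
  simp [Nat.factorial]
  ring

lemma m1221R : E4 s (MoR p q 1 2 2 1) =
    ((6 * hh s ^ 3 / Dl s p q ^ 4 + 4 * sg2 s * hh s / Dl s p q ^ 3 : ℝ) : ℂ) := by
  rw [E4_moR h0 h1 hp hq 1 2 2 1 rfl]
  congr 1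
  have hr := (rr_posR h0 h1 hp).ne'
  simp [Finset.sum_range_succ, Nat.factorial, hr]
  ring

lemma m2101R : E4 s (MoR p q 2 1 0 1) =
    (((2 * hh s ^ 3 / Dl s p q ^ 3 + 2 * sg2 s * hh s / Dl s p q ^ 2) /
      (1 + p * sg2 s) : ℝ) : ℂ) := by
  rw [E4_moR h0 h1 hp hq 2 1 0 1 rfl]
  congr 1
  simp [Finset.sum_range_succ, Nat.factorial]
  ring

lemma m3212R : E4 s (MoR p q 3 2 1 2) =
    (((24 * hh s ^ 5 / Dl s p q ^ 5 + 36 * sg2 s * hh s ^ 3 / Dl s p q ^ 4 +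
      12 * sg2 s ^ 2 * hh s / Dl s p q ^ 3) / (1 + p * sg2 s) : ℝ) : ℂ) := by
  rw [E4_moR h0 h1 hp hq 3 2 1 2 rfl]
  congr 1
  have hr := (rr_posR h0 h1 hp).ne'
  simp [Finset.sum_range_succ, Nat.factorial, Nat.choose]
  field_simp
  ring

lemma m4103R : E4 s (MoR p q 4 1 0 3) =
    (((24 * hh s ^ 5 / Dl s p q ^ 5 + 24 * sg2 s * hh s ^ 3 / Dl s p q ^ 4) /
      (1 + p * sg2 s) : ℝ) : ℂ) := by
  rw [E4_moR h0 h1 hp hq 4 1 0 3 rfl]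
  congr 1
  simp [Finset.sum_range_succ, Nat.factorial]
  ring

lemma m2321R : E4 s (MoR p q 2 3 2 1) =
    (((24 * hh s ^ 5 / Dl s p q ^ 5 + 36 * sg2 s * hh s ^ 3 / Dl s p q ^ 4 +
      12 * sg2 s ^ 2 * hh s / Dl s p q ^ 3) / (1 + p * sg2 s) : ℝ) : ℂ) := by
  rw [E4_moR h0 h1 hp hq 2 3 2 1 rfl]
  congr 1
  have hr := (rr_posR h0 h1 hp).ne'
  simp [Finset.sum_range_succ, Nat.factorial, Nat.choose]
  field_simp
  ring

lemma m3201R : E4 s (MoR p q 3 2 0 1) =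
    (((6 * hh s ^ 5 / Dl s p q ^ 4 + 12 * sg2 s * hh s ^ 3 / Dl s p q ^ 3 +
      6 * sg2 s ^ 2 * hh s / Dl s p q ^ 2) / (1 + p * sg2 s) ^ 2 : ℝ) : ℂ) := by
  rw [E4_moR h0 h1 hp hq 3 2 0 1 rfl]
  congr 1
  simp [Finset.sum_range_succ, Nat.factorial, Nat.choose]
  ring

end values

lemma hsqR (s : ℝ) : hh s ^ 2 = 1 - sg2 s := by
  unfold sg2
  ring

lemma Dl_eqR (s p q : ℝ) : Dl s p q = 1 + p + q + p * q * sg2 s := by
  unfold Dl sg2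
  ring

theorem R0 {s : ℝ} (h0 : 0 ≤ s) (h1 : s < 1) {p q : ℝ} (hp : 0 ≤ p) (hq : 0 ≤ q) :
    E4 s (fun u w u' _ => (((w * conj u).im ^ 2 : ℝ) : ℂ) * (ex p u * conj (ex q u'))) =
      ((hh s * (1 + q * (sg2 s - th s ^ 2)) / Dl s p q ^ 3 : ℝ) : ℂ) := by
  have e : (fun u w u' (_ : ℂ) => (((w * conj u).im ^ 2 : ℝ) : ℂ) * (ex p u * conj (ex q u'))) =
      fun u w u' w' => ((((w * conj u).im : ℝ) : ℂ) * (((w * conj u).im : ℝ) : ℂ)) *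
        MoR p q 1 0 0 1 u w u' w' := by
    funext u w u' w'
    simp only [MoR, ex, map_mul, Complex.conj_ofReal]
    push_cast
    ring
  rw [e, E4_imR h0 h1 hp hq 1 0 0 1, m2112R h0 h1 hp hq, m3003R h0 h1 hp hq, m1221R h0 h1 hp hq,
    m2101R h0 h1 hp hq]
  have hr := (rr_posR h0 h1 hp).ne'
  have hD := (Dl_pos h0 h1 hp hq).ne'
  have hs := (sg2_pos h0 h1).ne'
  norm_cast
  have k1 : (2 * hh s ^ 3 / Dl s p q ^ 3 + 2 * sg2 s * hh s / Dl s p q ^ 2) / (1 + p * sg2 s) =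
      2 * hh s * (1 + q * sg2 s) / Dl s p q ^ 3 := by
    rw [div_eq_div_iff hr (by positivity)]
    field_simp
    rw [hsqR, Dl_eqR]
    ring
  rw [k1]
  unfold cb
  field_simp
  ring

theorem R1 {s : ℝ} (h0 : 0 ≤ s) (h1 : s < 1) {p q : ℝ} (hp : 0 ≤ p) (hq : 0 ≤ q) :
    E4 s (fun u w u' _ => (((w * conj u).im ^ 2 * ‖u‖ ^ 2 : ℝ) : ℂ) *
        (ex p u * conj (ex q u'))) =
      ((3 * hh s * (1 + q * sg2 s) * (1 + q * (sg2 s - th s ^ 2)) / Dl s p q ^ 4 : ℝ) : ℂ) := by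
  have e : (fun u w u' (_ : ℂ) => (((w * conj u).im ^ 2 * ‖u‖ ^ 2 : ℝ) : ℂ) *
        (ex p u * conj (ex q u'))) =
      fun u w u' w' => ((((w * conj u).im : ℝ) : ℂ) * (((w * conj u).im : ℝ) : ℂ)) *
        MoR p q 2 1 0 1 u w u' w' := by
    funext u w u' w'
    have hu : ((‖u‖ ^ 2 : ℝ) : ℂ) = u * conj u := by
      rw [Complex.mul_conj, Complex.normSq_eq_norm_sq]
    rw [Complex.ofReal_mul, hu]
    simp only [MoR, ex, map_mul, Complex.conj_ofReal]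
    push_cast
    ring
  rw [e, E4_imR h0 h1 hp hq 2 1 0 1, m3212R h0 h1 hp hq, m4103R h0 h1 hp hq, m2321R h0 h1 hp hq,
    m3201R h0 h1 hp hq]
  have hr := (rr_posR h0 h1 hp).ne'
  have hD := (Dl_pos h0 h1 hp hq).ne'
  have hs := (sg2_pos h0 h1).ne'
  norm_cast
  have k1 : (6 * hh s ^ 5 / Dl s p q ^ 4 + 12 * sg2 s * hh s ^ 3 / Dl s p q ^ 3 +
      6 * sg2 s ^ 2 * hh s / Dl s p q ^ 2) / (1 + p * sg2 s) ^ 2 =
      6 * hh s * (1 + q * sg2 s) ^ 2 / Dl s p q ^ 4 := by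
    have k2 : hh s ^ 2 + sg2 s * Dl s p q = (1 + p * sg2 s) * (1 + q * sg2 s) := by
      rw [hsqR, Dl_eqR]
      ring
    have k3 : 6 * hh s ^ 5 / Dl s p q ^ 4 + 12 * sg2 s * hh s ^ 3 / Dl s p q ^ 3 +
        6 * sg2 s ^ 2 * hh s / Dl s p q ^ 2 =
        6 * hh s * (hh s ^ 2 + sg2 s * Dl s p q) ^ 2 / Dl s p q ^ 4 := by
      field_simp
      ring
    rw [k3, k2]
    field_simp
  have k4 : 2 * ((24 * hh s ^ 5 / Dl s p q ^ 5 + 36 * sg2 s * hh s ^ 3 / Dl s p q ^ 4 +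
      12 * sg2 s ^ 2 * hh s / Dl s p q ^ 3) / (1 + p * sg2 s)) -
      (24 * hh s ^ 5 / Dl s p q ^ 5 + 24 * sg2 s * hh s ^ 3 / Dl s p q ^ 4) /
      (1 + p * sg2 s) - (24 * hh s ^ 5 / Dl s p q ^ 5 + 36 * sg2 s * hh s ^ 3 / Dl s p q ^ 4 +
      12 * sg2 s ^ 2 * hh s / Dl s p q ^ 3) / (1 + p * sg2 s) =
      12 * sg2 s * hh s * (1 + q * sg2 s) / Dl s p q ^ 4 := by
    have k2 : hh s ^ 2 + sg2 s * Dl s p q = (1 + p * sg2 s) * (1 + q * sg2 s) := by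
      rw [hsqR, Dl_eqR]
      ring
    have k3 : 2 * ((24 * hh s ^ 5 / Dl s p q ^ 5 + 36 * sg2 s * hh s ^ 3 / Dl s p q ^ 4 +
      12 * sg2 s ^ 2 * hh s / Dl s p q ^ 3) / (1 + p * sg2 s)) -
      (24 * hh s ^ 5 / Dl s p q ^ 5 + 24 * sg2 s * hh s ^ 3 / Dl s p q ^ 4) /
      (1 + p * sg2 s) - (24 * hh s ^ 5 / Dl s p q ^ 5 + 36 * sg2 s * hh s ^ 3 / Dl s p q ^ 4 +
      12 * sg2 s ^ 2 * hh s / Dl s p q ^ 3) / (1 + p * sg2 s) =
        12 * sg2 s * hh s * (hh s ^ 2 + sg2 s * Dl s p q) / Dl s p q ^ 4 / (1 + p * sg2 s) := by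
      field_simp
      ring
    rw [k3, k2, div_div, div_eq_div_iff (mul_ne_zero (pow_ne_zero _ hD) hr) (pow_ne_zero _ hD)]
    ring
  rw [k1, k4]
  unfold cb
  field_simp
  ring

theorem F34 {s : ℝ} (h0 : 0 ≤ s) (h1 : s < 1) {q : ℝ} (hq : 0 ≤ q) :
    E4 s (fun u w u' _ => rho u w * conj (ex q u')) =
      ((-(cc ^ 2 / (4 * aa)) *
        (3 * hh s * (1 + q * sg2 s) * (1 + q * (sg2 s - th s ^ 2)) / Dl s (2 * kap) q ^ 4
          + aa ^ 2 * (hh s * (1 + q * (sg2 s - th s ^ 2)) / Dl s (2 * kap) q ^ 3)) : ℝ) : ℂ) := by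
  have hk : (0 : ℝ) ≤ 2 * kap := by unfold kap; norm_num
  have hE1 := R1 h0 h1 hk hq
  have hE0 := R0 h0 h1 hk hq
  have hexP : PG (fun u w u' w' => ex (2 * kap) u * conj (ex q u')) :=
    (PG.moR hk hq 1 0 0 1).congrR fun u w u' w' => by
      simp only [MoR, ex, map_mul, Complex.conj_ofReal]
      ring
  have hn : PG (fun u w u' w' => ((‖u‖ ^ 2 : ℝ) : ℂ) * (ex (2 * kap) u * conj (ex q u'))) :=
    (PG.moR hk hq 2 1 0 1).congrR fun u w u' w' => by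
      have hu : ((‖u‖ ^ 2 : ℝ) : ℂ) = u * conj u := by
        rw [Complex.mul_conj, Complex.normSq_eq_norm_sq]
      rw [hu]
      simp only [MoR, ex, map_mul, Complex.conj_ofReal]
      ring
  have hP1 : PG (fun u w u' w' => (((w * conj u).im ^ 2 * ‖u‖ ^ 2 : ℝ) : ℂ) *
      (ex (2 * kap) u * conj (ex q u'))) :=
    ((PG.im1R.mul PG.im1R).mul hn).congrR fun u w u' w' => by
      push_cast
      ring
  have hP0 : PG (fun u w u' w' => (((w * conj u).im ^ 2 : ℝ) : ℂ) *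
      (ex (2 * kap) u * conj (ex q u'))) :=
    ((PG.im1R.mul PG.im1R).mul hexP).congrR fun u w u' w' => by
      push_cast
      ring
  have e : (fun u w u' (_ : ℂ) => rho u w * conj (ex q u')) =
      fun u w u' w' => ((-(cc ^ 2 / (4 * aa)) : ℝ) : ℂ) *
        ((((w * conj u).im ^ 2 * ‖u‖ ^ 2 : ℝ) : ℂ) * (ex (2 * kap) u * conj (ex q u')) +
        ((aa ^ 2 : ℝ) : ℂ) * ((((w * conj u).im ^ 2 : ℝ) : ℂ) *
          (ex (2 * kap) u * conj (ex q u')))) := by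
    funext u w u' w'
    simp only [rho, ex, map_mul, Complex.conj_ofReal]
    push_cast
    ring
  rw [e, E4_smulR, E4_addR hP1 (hP0.smulR _), E4_smulR, hE1, hE0]
  push_cast
  ring

end Pool.Agent.KGU
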