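import Pool.Agent.KGU.CanS
import Pool.Agent.KGU.CanR

/-! The expectation `E nu(u,w) conj(nu(u',w'))`. Notation of `CanS`, `CanR`; `p = q = κ`,
`D = Dl s kap kap`.

`nu u w = -(c/2) e^{-κ|u|^2} (|u|^2 w - u^2 conj w)`. Put `m = ca u + cb u'`, `m' = ca u' + cb u`,
`w = m + n`, `w' = m' + n'`. Then `|u|^2 m - u^2 conj m = cb u (conj P - P)`,
`conj(|u'|^2 m' - u'^2 conj m') = cb conj(u') (conj P - P)`, the product is
`cb^2 P (conj P - P)^2 = -4 cb^2 P Im(P)^2`; the noise contributes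
`kn (|u|^2|u'|^2 + u^2 conj(u')^2) = kn (|P|^2 + P^2)`.
Averages (tilted probability): `<P Im(P)^2>' = C(AB - C^2) = C σ^2/D`,
`<|P|^2>' = AB + C^2 = σ^2/D + 2 h^2/D^2`, `<P^2>' = 2 C^2`. So the result is
`(c^2/4)(1/D)(-4 cb^2 C σ^2/D + kn (σ^2/D + 4h^2/D^2))
  = (c^2/4)((k σ^2 + h θ^2)/D^2 + 4h(kh - θ^2)/D^3)`. -/

open MeasureTheory Real
open scoped ComplexConjugate

namespace Pool.Agent.KGU

private lemma m1111B {s : ℝ} (h0 : 0 ≤ s) (h1 : s < 1) {p q : ℝ} (hp : 0 ≤ p) (hq : 0 ≤ q) :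
    E4 s (MoR p q 1 1 1 1) =
      ((2 * hh s ^ 2 / Dl s p q ^ 3 + sg2 s / Dl s p q ^ 2 : ℝ) : ℂ) := by
  rw [E4_moR h0 h1 hp hq 1 1 1 1 rfl]
  congr 1
  have hr := (rr_posR h0 h1 hp).ne'
  simp [Finset.sum_range_succ, Nat.factorial, hr]
  ring

private lemma m2002B {s : ℝ} (h0 : 0 ≤ s) (h1 : s < 1) {p q : ℝ} (hp : 0 ≤ p) (hq : 0 ≤ q) :
    E4 s (MoR p q 2 0 0 2) = ((2 * hh s ^ 2 / Dl s p q ^ 3 : ℝ) : ℂ) := by
  rw [E4_moR h0 h1 hp hq 2 0 0 2 rfl]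
  congr 1
  simp [Nat.factorial]
  ring

/-- averaging the noise -/
private lemma noiseB (a b c P Q : ℝ) (u u' W : ℂ) :
    ∫ z3, ∫ z4, ((-((c / 2 : ℝ) : ℂ)) * (u * conj u * ((a : ℂ) * u + (b : ℂ) * u' +
          ((P : ℂ) * z3 + (Q : ℂ) * z4)) -
        u ^ 2 * conj ((a : ℂ) * u + (b : ℂ) * u' + ((P : ℂ) * z3 + (Q : ℂ) * z4)))) *
      ((-((c / 2 : ℝ) : ℂ)) * conj (u' * conj u' * ((a : ℂ) * u' + (b : ℂ) * u +
          ((P : ℂ) * z3 - (Q : ℂ) * z4)) -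
        u' ^ 2 * conj ((a : ℂ) * u' + (b : ℂ) * u + ((P : ℂ) * z3 - (Q : ℂ) * z4)))) * W
        ∂gam ∂gam =
      ((c ^ 2 / 4 : ℝ) : ℂ) * (((b ^ 2 : ℝ) : ℂ) * (u ^ 1 * conj u ^ 2 * (u' ^ 2 * conj u' ^ 1) +
        (-2 * (u ^ 2 * conj u ^ 1 * (u' ^ 1 * conj u' ^ 2)) +
          u ^ 3 * conj u ^ 0 * (u' ^ 0 * conj u' ^ 3))) +
        ((P ^ 2 - Q ^ 2 : ℝ) : ℂ) * (u ^ 1 * conj u ^ 1 * (u' ^ 1 * conj u' ^ 1) +
          u ^ 2 * conj u ^ 0 * (u' ^ 0 * conj u' ^ 2))) * W := by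
  have key : ∀ z3 z4 : ℂ, ((-((c / 2 : ℝ) : ℂ)) * (u * conj u * ((a : ℂ) * u + (b : ℂ) * u' +
          ((P : ℂ) * z3 + (Q : ℂ) * z4)) -
        u ^ 2 * conj ((a : ℂ) * u + (b : ℂ) * u' + ((P : ℂ) * z3 + (Q : ℂ) * z4)))) *
      ((-((c / 2 : ℝ) : ℂ)) * conj (u' * conj u' * ((a : ℂ) * u' + (b : ℂ) * u +
          ((P : ℂ) * z3 - (Q : ℂ) * z4)) -
        u' ^ 2 * conj ((a : ℂ) * u' + (b : ℂ) * u + ((P : ℂ) * z3 - (Q : ℂ) * z4)))) * W =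
      (-((c / 2 : ℝ) : ℂ) * b * (u * conj u * u' - u ^ 2 * conj u') +
        (-((c / 2 : ℝ) : ℂ) * (u * conj u)) * (P * z3 + Q * z4) +
        (((c / 2 : ℝ) : ℂ) * u ^ 2) * conj (P * z3 + Q * z4) +
        0 * (P * z3 - Q * z4) + 0 * conj (P * z3 - Q * z4)) *
      (-((c / 2 : ℝ) : ℂ) * b * (u' * conj u' * conj u - conj u' ^ 2 * u) * W +
        0 * (P * z3 + Q * z4) + 0 * conj (P * z3 + Q * z4) +
        (((c / 2 : ℝ) : ℂ) * conj u' ^ 2 * W) * (P * z3 - Q * z4) +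
        (-((c / 2 : ℝ) : ℂ) * (u' * conj u') * W) * conj (P * z3 - Q * z4)) := by
    intro z3 z4
    simp only [map_mul, map_add, map_sub, map_pow, Complex.conj_conj, Complex.conj_ofReal]
    ring
  simp_rw [key]
  rw [noise2]
  push_cast
  ring

theorem F5 {s : ℝ} (h0 : 0 ≤ s) (h1 : s < 1) :
    E4 s (fun u w u' w' => nu u w * conj (nu u' w')) =
      ((cc ^ 2 / 4 * ((kk s * sg2 s + hh s * th s ^ 2) / Dl s kap kap ^ 2
        + 4 * hh s * (kk s * hh s - th s ^ 2) / Dl s kap kap ^ 3) : ℝ) : ℂ) := by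
  have hk : (0 : ℝ) ≤ kap := by unfold kap; norm_num
  have hkn : cP s ^ 2 - cQ s ^ 2 = kk s + hh s * th s ^ 2 / sg2 s := by
    rw [cP_sq h0 h1, cQ_sq h0 h1]
    ring
  have hPG1 : PG (fun u w u' w' => nu u w * conj (nu u' w')) := PG.nu1.mul (PG.conj PG.nu2)
  have hA := PG.moR hk hk 1 2 2 1
  have hB := PG.moR hk hk 2 1 1 2
  have hC := PG.moR hk hk 3 0 0 3
  have hD := PG.moR hk hk 1 1 1 1
  have hE := PG.moR hk hk 2 0 0 2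
  have g1 := (hB.smulR (-2)).add hC
  have g2 := hA.add g1
  have g3 := hD.add hE
  have g4 := (g2.smulR ((cb s ^ 2 : ℝ) : ℂ)).add
    (g3.smulR ((kk s + hh s * th s ^ 2 / sg2 s : ℝ) : ℂ))
  have hPG2 := g4.smulR ((cc ^ 2 / 4 : ℝ) : ℂ)
  have e1 : E4 s (fun u w u' w' => ((cc ^ 2 / 4 : ℝ) : ℂ) *
      (((cb s ^ 2 : ℝ) : ℂ) * (MoR kap kap 1 2 2 1 u w u' w' +
        (-2 * MoR kap kap 2 1 1 2 u w u' w' + MoR kap kap 3 0 0 3 u w u' w')) +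
      ((kk s + hh s * th s ^ 2 / sg2 s : ℝ) : ℂ) *
        (MoR kap kap 1 1 1 1 u w u' w' + MoR kap kap 2 0 0 2 u w u' w'))) =
      ((cc ^ 2 / 4 : ℝ) : ℂ) * (((cb s ^ 2 : ℝ) : ℂ) * (E4 s (MoR kap kap 1 2 2 1) +
        (-2 * E4 s (MoR kap kap 2 1 1 2) + E4 s (MoR kap kap 3 0 0 3))) +
      ((kk s + hh s * th s ^ 2 / sg2 s : ℝ) : ℂ) *
        (E4 s (MoR kap kap 1 1 1 1) + E4 s (MoR kap kap 2 0 0 2))) := by
    rw [E4_smulR, E4_addR (g2.smulR _) (g3.smulR _), E4_smulR, E4_smulR, E4_addR hA g1,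
      E4_addR (hB.smulR (-2)) hC, E4_smulR, E4_addR hD hE]
  have e2 : E4 s (fun u w u' w' => nu u w * conj (nu u' w')) =
      E4 s (fun u w u' w' => ((cc ^ 2 / 4 : ℝ) : ℂ) *
      (((cb s ^ 2 : ℝ) : ℂ) * (MoR kap kap 1 2 2 1 u w u' w' +
        (-2 * MoR kap kap 2 1 1 2 u w u' w' + MoR kap kap 3 0 0 3 u w u' w')) +
      ((kk s + hh s * th s ^ 2 / sg2 s : ℝ) : ℂ) *
        (MoR kap kap 1 1 1 1 u w u' w' + MoR kap kap 2 0 0 2 u w u' w'))) := by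
    rw [E4_iter hPG1, E4_iter hPG2]
    congr 1
    funext z1
    congr 1
    funext z2
    set u : ℂ := (hh s : ℂ) * z1 + (√(sg2 s) : ℂ) * z2 with hu
    have hn := noiseB (ca s) (cb s) cc (cP s) (cQ s) u z1
      ((rexp (-kap * ‖u‖ ^ 2) : ℂ) * (rexp (-kap * ‖z1‖ ^ 2) : ℂ))
    rw [hkn] at hn
    refine Eq.trans ?_ (hn.trans ?_)
    · congr 1
      funext z3
      congr 1
      funext z4
      simp only [cu, cu', cw, cw', helper23_nu, ← hu]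
      simp only [map_mul, map_neg, Complex.conj_ofReal]
      ring
    · simp only [MoR, cu, cu', ← hu, integral_const, probReal_univ, one_smul]
      ring
  rw [e2, e1, m1221R h0 h1 hk hk, m2112R h0 h1 hk hk, m3003R h0 h1 hk hk, m1111B h0 h1 hk hk,
    m2002B h0 h1 hk hk]
  have hDn := (Dl_pos h0 h1 hk hk).ne'
  have hs := (sg2_pos h0 h1).ne'
  have hr : cc ^ 2 / 4 * (cb s ^ 2 * (6 * hh s ^ 3 / Dl s kap kap ^ 4 +
      4 * sg2 s * hh s / Dl s kap kap ^ 3 +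
      (-2 * (6 * hh s ^ 3 / Dl s kap kap ^ 4 + 4 * sg2 s * hh s / Dl s kap kap ^ 3) +
        6 * hh s ^ 3 / Dl s kap kap ^ 4)) +
      (kk s + hh s * th s ^ 2 / sg2 s) * (2 * hh s ^ 2 / Dl s kap kap ^ 3 +
        sg2 s / Dl s kap kap ^ 2 + 2 * hh s ^ 2 / Dl s kap kap ^ 3)) =
      cc ^ 2 / 4 * ((kk s * sg2 s + hh s * th s ^ 2) / Dl s kap kap ^ 2
        + 4 * hh s * (kk s * hh s - th s ^ 2) / Dl s kap kap ^ 3) := by
    unfold cb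
    field_simp
    linear_combination (4 * cc ^ 2 * th s ^ 2 * hh s * sg2 s * Dl s kap kap) * hsqR s
  rw [← hr]
  push_cast
  ring

end Pool.Agent.KGU
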