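import Pool.Agent.KGU.GamMom

/-! Second moments of the noise `n = P z3 + Q z4`, `n' = P z3 - Q z4`:
`E n = E n' = 0`, `E n^2 = E n n' = E n'^2 = 0`, `E |n|^2 = E |n'|^2 = P^2 + Q^2`,
`E n conj n' = P^2 - Q^2`. Expand in monomials of `z3, conj z3, z4, conj z4` and use `gam_mono`. -/

open MeasureTheory Real
open scoped ComplexConjugate

namespace Pool.Agent.KGU

private lemma cn_add6 {f1 f2 f3 f4 f5 f6 : ℂ → ℂ} (h1 : Integrable f1 gam)
    (h2 : Integrable f2 gam) (h3 : Integrable f3 gam) (h4 : Integrable f4 gam)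
    (h5 : Integrable f5 gam) (h6 : Integrable f6 gam) :
    Integrable (fun z => f1 z + f2 z + f3 z + f4 z + f5 z + f6 z) gam ∧
    ∫ z, (f1 z + f2 z + f3 z + f4 z + f5 z + f6 z) ∂gam =
      ∫ z, f1 z ∂gam + ∫ z, f2 z ∂gam + ∫ z, f3 z ∂gam + ∫ z, f4 z ∂gam + ∫ z, f5 z ∂gam +
        ∫ z, f6 z ∂gam := by
  have k2 : Integrable (fun z => f1 z + f2 z) gam := h1.add h2
  have k3 : Integrable (fun z => f1 z + f2 z + f3 z) gam := k2.add h3
  have k4 : Integrable (fun z => f1 z + f2 z + f3 z + f4 z) gam := k3.add h4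
  have k5 : Integrable (fun z => f1 z + f2 z + f3 z + f4 z + f5 z) gam := k4.add h5
  refine ⟨k5.add h6, ?_⟩
  rw [integral_add k5 h6, integral_add k4 h5, integral_add k3 h4, integral_add k2 h3,
    integral_add h1 h2]

private lemma cn_mono (c : ℂ) (a b : ℕ) :
    Integrable (fun z : ℂ => c * (z ^ a * conj z ^ b)) gam ∧
    ∫ z, c * (z ^ a * conj z ^ b) ∂gam = c * if a = b then (a.factorial : ℂ) else 0 :=
  ⟨(integrable_mono a b).const_mul c, by rw [integral_const_mul, gam_mono]⟩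

private lemma cn_eq (A B C D E F z : ℂ) : (A + B * z + C * conj z) * (D + E * z + F * conj z) =
    A * D * (z ^ 0 * conj z ^ 0) + (A * E + B * D) * (z ^ 1 * conj z ^ 0) +
        (A * F + C * D) * (z ^ 0 * conj z ^ 1) + B * E * (z ^ 2 * conj z ^ 0) +
        C * F * (z ^ 0 * conj z ^ 2) + (B * F + C * E) * (z ^ 1 * conj z ^ 1) := by
  ring

private lemma cn_one (A B C D E F : ℂ) :
    Integrable (fun z : ℂ => (A + B * z + C * conj z) * (D + E * z + F * conj z)) gam ∧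
    ∫ z, (A + B * z + C * conj z) * (D + E * z + F * conj z) ∂gam = A * D + B * F + C * E := by
  have h00 := cn_mono (A * D) 0 0
  have h10 := cn_mono (A * E + B * D) 1 0
  have h01 := cn_mono (A * F + C * D) 0 1
  have h20 := cn_mono (B * E) 2 0
  have h02 := cn_mono (C * F) 0 2
  have h11 := cn_mono (B * F + C * E) 1 1
  have h := cn_add6 h00.1 h10.1 h01.1 h20.1 h02.1 h11.1
  simp only [← cn_eq] at h
  refine ⟨h.1, h.2.trans ?_⟩
  rw [h00.2, h10.2, h01.2, h20.2, h02.2, h11.2, if_pos rfl, if_neg (by decide), if_neg (by decide),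
    if_neg (by decide), if_neg (by decide), if_pos rfl, Nat.factorial_zero, Nat.factorial_one,
    Nat.cast_one]
  ring

/-- second moments of the noise: integrate `(x + a n)(y + b conj n)` and so on. Here
`n = P z3 + Q z4`, `n' = P z3 - Q z4`, and the integrand is a product of two real-affine
functions. -/
lemma noise2 (P Q : ℝ) (x0 x1 x2 x3 x4 y0 y1 y2 y3 y4 : ℂ) :
    ∫ z3, ∫ z4, (x0 + x1 * (P * z3 + Q * z4) + x2 * conj (P * z3 + Q * z4) +
        x3 * (P * z3 - Q * z4) + x4 * conj (P * z3 - Q * z4)) *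
      (y0 + y1 * (P * z3 + Q * z4) + y2 * conj (P * z3 + Q * z4) +
        y3 * (P * z3 - Q * z4) + y4 * conj (P * z3 - Q * z4)) ∂gam ∂gam =
      x0 * y0 + (x1 * y2 + x2 * y1 + x3 * y4 + x4 * y3) * ((P ^ 2 + Q ^ 2 : ℝ) : ℂ) +
        (x1 * y4 + x4 * y1 + x2 * y3 + x3 * y2) * ((P ^ 2 - Q ^ 2 : ℝ) : ℂ) := by
  have hin : ∀ z3 : ℂ, ∫ z4, (x0 + x1 * (P * z3 + Q * z4) + x2 * conj (P * z3 + Q * z4) +
        x3 * (P * z3 - Q * z4) + x4 * conj (P * z3 - Q * z4)) *
      (y0 + y1 * (P * z3 + Q * z4) + y2 * conj (P * z3 + Q * z4) +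
        y3 * (P * z3 - Q * z4) + y4 * conj (P * z3 - Q * z4)) ∂gam =
      (x0 + (x1 + x3) * P * z3 + (x2 + x4) * P * conj z3) *
        (y0 + (y1 + y3) * P * z3 + (y2 + y4) * P * conj z3) +
      (((x1 - x3) * Q) * ((y2 - y4) * Q) + ((x2 - x4) * Q) * ((y1 - y3) * Q)) := by
    intro z3
    have h := cn_one (x0 + (x1 + x3) * P * z3 + (x2 + x4) * P * conj z3) ((x1 - x3) * Q)
      ((x2 - x4) * Q) (y0 + (y1 + y3) * P * z3 + (y2 + y4) * P * conj z3) ((y1 - y3) * Q)
      ((y2 - y4) * Q)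
    rw [← add_assoc, ← h.2]
    apply integral_congr_ae
    refine Filter.Eventually.of_forall fun z => ?_
    simp only [map_add, map_sub, map_mul, Complex.conj_ofReal]
    ring
  simp only [hin]
  have hc := cn_one x0 ((x1 + x3) * P) ((x2 + x4) * P) y0 ((y1 + y3) * P) ((y2 + y4) * P)
  rw [integral_add hc.1 (integrable_const _), hc.2, integral_const]
  simp only [probReal_univ, one_smul]
  push_cast
  ring

end Pool.Agent.KGU
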