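import Pool.Agent.KGU.GamMom

/-! Moments of two correlated Gaussian variables with an exponential tilt.

`u = h z1 + σ z2`, `u' = z1`, `h = hh s`, `σ = √(1-h^2)`, `r = 1 + p σ^2`,
`D = Dl s p q = (1+p)(1+q) - p q h^2`.

`mom4`: by `gam_tilt` in `z2` (with `x = h z1`) and then `gam_affine`, for `u^i conj(u)^j`,
`∫ z2 = r⁻¹ e^{-p h^2|z1|^2/r} Σ_m m! C(i,m) C(j,m) (σ^2/r)^m (h z1/r)^(i-m) conj(h z1/r)^(j-m)`.
Then `gam_mono_exp` with the exponent `λ = q + p h^2/r`, `1 + λ = D/r`, gives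
`(i+k-m)! / (D/r)^(i+k-m+1)` (as `i + k = j + l`) times `(h/r)^(i+j-2m)`.
The exponent of `r` is `-1 - m - (i+j-2m) + (i+k-m+1) = k - j`.
Check: `i=l=1, j=k=0`: `r⁻¹ (h/r) (r/D)^2 = h/D^2`. -/

open MeasureTheory Real
open scoped ComplexConjugate

namespace Pool.Agent.KGU

lemma hh_nonneg {s : ℝ} (h0 : 0 ≤ s) (h1 : s < 1) : 0 ≤ hh s := by
  unfold hh
  nlinarith [mul_nonneg h0 h0, mul_nonneg h0 (sub_nonneg.2 h1.le)]

lemma hh_lt {s : ℝ} (h0 : 0 ≤ s) (h1 : s < 1) : hh s < 1 := by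
  unfold hh
  nlinarith [mul_nonneg h0 h0, mul_nonneg h0 (mul_nonneg h0 h0), pow_nonneg h0 3]

lemma sg2_pos {s : ℝ} (h0 : 0 ≤ s) (h1 : s < 1) : 0 < sg2 s := by
  have a := hh_nonneg h0 h1
  have b := hh_lt h0 h1
  unfold sg2
  nlinarith

lemma Dl_pos {s : ℝ} (h0 : 0 ≤ s) (h1 : s < 1) {p q : ℝ} (hp : 0 ≤ p) (hq : 0 ≤ q) :
    0 < Dl s p q := by
  have a := sg2_pos h0 h1
  have e : Dl s p q = 1 + p + q + p * q * sg2 s := by unfold Dl sg2; ring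
  rw [e]
  positivity

/-- integrability of a monomial with a Gaussian factor -/
lemma integrable_mono_exp (a b : ℕ) (p : ℝ) (hp : 0 ≤ p) :
    Integrable (fun z : ℂ => (rexp (-p * ‖z‖ ^ 2) : ℂ) * (z ^ a * conj z ^ b)) gam := by
  refine (integrable_mono a b).bdd_mul (c := 1) ?_ ?_
  · fun_prop
  · refine Filter.Eventually.of_forall fun z => ?_
    rw [Complex.norm_real, Real.norm_eq_abs, abs_of_pos (Real.exp_pos _), Real.exp_le_one_iff]
    have : 0 ≤ p * ‖z‖ ^ 2 := by positivity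
    linarith

/-- the algebraic identity for one term -/
lemma tilt_term {h g r D : ℝ} (hr : 0 < r) (hD : 0 < D) {i j k m : ℕ} (hi : m ≤ i) (hj : m ≤ j)
    (c : ℝ) :
    r⁻¹ * (c * (g / r) ^ m * (h / r) ^ (i + j - 2 * m)) *
        ((i + k - m).factorial / (D / r) ^ (i + k - m + 1)) =
      c * g ^ m * h ^ (i + j - 2 * m) * (i + k - m).factorial * (r ^ k / r ^ j) /
        D ^ (i + k - m + 1) := by
  obtain ⟨a, rfl⟩ := Nat.exists_eq_add_of_le hi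
  obtain ⟨b, rfl⟩ := Nat.exists_eq_add_of_le hj
  have e1 : m + a + (m + b) - 2 * m = a + b := by omega
  have e2 : m + a + k - m = a + k := by omega
  rw [e1, e2]
  have hr' := hr.ne'
  have hD' := hD.ne'
  simp only [div_pow, pow_add, pow_one]
  field_simp

/-- the integral over the second variable -/
lemma tilt_inner {s : ℝ} (h0 : 0 ≤ s) (h1 : s < 1) {p : ℝ} (hp : 0 ≤ p) (q : ℝ)
    (i j k l : ℕ) (z1 : ℂ) :
    ∫ z2, (rexp (-p * ‖(hh s : ℂ) * z1 + (√(sg2 s) : ℂ) * z2‖ ^ 2) : ℂ) *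
        (rexp (-q * ‖z1‖ ^ 2) : ℂ) *
        (((hh s : ℂ) * z1 + (√(sg2 s) : ℂ) * z2) ^ i *
          conj ((hh s : ℂ) * z1 + (√(sg2 s) : ℂ) * z2) ^ j * (z1 ^ k * conj z1 ^ l)) ∂gam =
      ∑ m ∈ Finset.range (min i j + 1),
        (((1 + p * sg2 s)⁻¹ * ((m.factorial : ℝ) * (i.choose m) * (j.choose m) *
          (sg2 s / (1 + p * sg2 s)) ^ m * (hh s / (1 + p * sg2 s)) ^ (i + j - 2 * m)) : ℝ) : ℂ) *
        ((rexp (-(q + p * hh s ^ 2 / (1 + p * sg2 s)) * ‖z1‖ ^ 2) : ℂ) *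
          (z1 ^ (i + k - m) * conj z1 ^ (j + l - m))) := by
  have hs := sg2_pos h0 h1
  have hsq : √(sg2 s) ^ 2 = sg2 s := Real.sq_sqrt hs.le
  have hr : 0 < 1 + p * sg2 s := by positivity
  have key := gam_tilt p hp ((hh s : ℂ) * z1) (√(sg2 s)) (fun w => w ^ i * conj w ^ j)
  simp only [hsq] at key
  have e1 : (∫ z2, (rexp (-p * ‖(hh s : ℂ) * z1 + (√(sg2 s) : ℂ) * z2‖ ^ 2) : ℂ) *
        (rexp (-q * ‖z1‖ ^ 2) : ℂ) *
        (((hh s : ℂ) * z1 + (√(sg2 s) : ℂ) * z2) ^ i *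
          conj ((hh s : ℂ) * z1 + (√(sg2 s) : ℂ) * z2) ^ j * (z1 ^ k * conj z1 ^ l)) ∂gam) =
      ((rexp (-q * ‖z1‖ ^ 2) : ℂ) * (z1 ^ k * conj z1 ^ l)) *
      ∫ z2, (rexp (-p * ‖(hh s : ℂ) * z1 + (√(sg2 s) : ℂ) * z2‖ ^ 2) : ℂ) *
        (((hh s : ℂ) * z1 + (√(sg2 s) : ℂ) * z2) ^ i *
          conj ((hh s : ℂ) * z1 + (√(sg2 s) : ℂ) * z2) ^ j) ∂gam := by
    rw [← integral_const_mul]
    congr 1
    ext z2
    ring
  rw [e1, key, gam_affine, Finset.mul_sum, Finset.mul_sum]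
  refine Finset.sum_congr rfl fun m hm => ?_
  have hm' : m ≤ min i j := Nat.lt_succ_iff.mp (Finset.mem_range.mp hm)
  have hmi : m ≤ i := le_trans hm' (min_le_left _ _)
  have hmj : m ≤ j := le_trans hm' (min_le_right _ _)
  obtain ⟨a, rfl⟩ := Nat.exists_eq_add_of_le hmi
  obtain ⟨b, rfl⟩ := Nat.exists_eq_add_of_le hmj
  have f1 : m + a + (m + b) - 2 * m = a + b := by omega
  have f2 : m + a + k - m = a + k := by omega
  have f3 : m + b + l - m = b + l := by omega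
  have f4 : m + a - m = a := by omega
  have f5 : m + b - m = b := by omega
  rw [f1, f2, f3, f4, f5]
  have ht : (((√(sg2 s) / √(1 + p * sg2 s) : ℝ) : ℂ)) ^ (2 * m) =
      (((sg2 s / (1 + p * sg2 s)) ^ m : ℝ) : ℂ) := by
    rw [← Complex.ofReal_pow, pow_mul, div_pow, hsq, Real.sq_sqrt hr.le]
  rw [ht]
  have hex : rexp (-(q + p * hh s ^ 2 / (1 + p * sg2 s)) * ‖z1‖ ^ 2) =
      rexp (-q * ‖z1‖ ^ 2) * rexp (-p * ‖(hh s : ℂ) * z1‖ ^ 2 / (1 + p * sg2 s)) := by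
    rw [← Real.exp_add]
    congr 1
    rw [norm_mul, Complex.norm_real, mul_pow, Real.norm_eq_abs, sq_abs]
    field_simp
    ring
  rw [hex]
  simp only [map_div₀, map_mul, Complex.conj_ofReal]
  push_cast
  have hrC : (1 + (p : ℂ) * (sg2 s : ℂ)) ≠ 0 := by
    have : ((1 + p * sg2 s : ℝ) : ℂ) ≠ 0 := by exact_mod_cast hr.ne'
    simpa using this
  field_simp
  ring

theorem mom4 {s : ℝ} (h0 : 0 ≤ s) (h1 : s < 1) {p q : ℝ} (hp : 0 ≤ p) (hq : 0 ≤ q)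
    (i j k l : ℕ) (hijkl : i + k = j + l) :
    ∫ z1, ∫ z2, (rexp (-p * ‖(hh s : ℂ) * z1 + (√(sg2 s) : ℂ) * z2‖ ^ 2) : ℂ) *
        (rexp (-q * ‖z1‖ ^ 2) : ℂ) *
        (((hh s : ℂ) * z1 + (√(sg2 s) : ℂ) * z2) ^ i *
          conj ((hh s : ℂ) * z1 + (√(sg2 s) : ℂ) * z2) ^ j * (z1 ^ k * conj z1 ^ l)) ∂gam ∂gam =
      ((∑ m ∈ Finset.range (min i j + 1), (m.factorial : ℝ) * (i.choose m) * (j.choose m) *
        (sg2 s) ^ m * (hh s) ^ (i + j - 2 * m) * (i + k - m).factorial *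
        ((1 + p * sg2 s) ^ k / (1 + p * sg2 s) ^ j) / (Dl s p q) ^ (i + k - m + 1) : ℝ) : ℂ) := by
  have hs := sg2_pos h0 h1
  have hr : 0 < 1 + p * sg2 s := by positivity
  have hD := Dl_pos h0 h1 hp hq
  have hl : 0 ≤ q + p * hh s ^ 2 / (1 + p * sg2 s) := by positivity
  simp only [tilt_inner h0 h1 hp q i j k l]
  rw [integral_finsetSum]
  · rw [Complex.ofReal_sum]
    refine Finset.sum_congr rfl fun m hm => ?_
    have hm' : m ≤ min i j := Nat.lt_succ_iff.mp (Finset.mem_range.mp hm)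
    have hmi : m ≤ i := le_trans hm' (min_le_left _ _)
    have hmj : m ≤ j := le_trans hm' (min_le_right _ _)
    rw [integral_const_mul, gam_mono_exp _ _ _ hl, if_pos (by omega)]
    have e : (1 : ℝ) + (q + p * hh s ^ 2 / (1 + p * sg2 s)) = Dl s p q / (1 + p * sg2 s) := by
      have : Dl s p q = (1 + q) * (1 + p * sg2 s) + p * hh s ^ 2 := by
        unfold Dl sg2
        ring
      rw [this]
      field_simp
      ring
    have e' : ((1 : ℂ) + ((q + p * hh s ^ 2 / (1 + p * sg2 s) : ℝ) : ℂ)) =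
        ((Dl s p q / (1 + p * sg2 s) : ℝ) : ℂ) := by
      rw [← e]
      push_cast
      ring
    rw [e', ← tilt_term hr hD hmi hmj (((m.factorial : ℝ) * (i.choose m) * (j.choose m)))]
    push_cast
    ring
  · intro m _
    exact (integrable_mono_exp _ _ _ hl).const_mul _

end Pool.Agent.KGU
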