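import Pool.Agent.KGU.Law
import Pool.Agent.KGU.Tilt

/-! Preparations for expectations of the canonical variables.

* continuity and linear growth of `cu, cw, cu', cw'`;
* `E4_noise`: for `f = A(u,u') + B(u,u') n + C(u,u') conj n + ...` one integrates out
  `n = cP g3 + cQ g4` and `n' = cP g3 - cQ g4` first: `E n = E n' = 0`, `E n^2 = E n n' = 0`,
  `E |n|^2 = cP^2 + cQ^2 =: vn`, `E n conj n' = cP^2 - cQ^2 =: kn`.
  The lemmas here do this for general real linear combinations of `1, n, conj n, n'...`. -/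

open MeasureTheory Real
open scoped ComplexConjugate

namespace Pool.Agent.KGU

lemma cu_cont (s : ℝ) : Continuous (cu s) := by
  unfold cu
  fun_prop

lemma cu'_cont : Continuous cu' := by
  unfold cu'
  fun_prop

lemma cw_cont (s : ℝ) : Continuous (cw s) := by
  unfold cw
  have := cu_cont s
  have := cu'_cont
  fun_prop

lemma cw'_cont (s : ℝ) : Continuous (cw' s) := by
  unfold cw'
  have := cu_cont s
  have := cu'_cont
  fun_prop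

/-- a function of `u, w, u', w'` of polynomial growth -/
def PG (f : ℂ → ℂ → ℂ → ℂ → ℂ) : Prop :=
  (Measurable fun p : Q4 => f p.1 p.2.1 p.2.2.1 p.2.2.2) ∧ ∃ (C : ℝ) (k : ℕ), 0 ≤ C ∧
    ∀ u w u' w', ‖f u w u' w'‖ ≤ C * ((1 + ‖u‖) * (1 + ‖w‖) * (1 + ‖u'‖) * (1 + ‖w'‖)) ^ k

private noncomputable def GG (g : Q4) : ℝ :=
  (1 + ‖g.1‖) * (1 + ‖g.2.1‖) * (1 + ‖g.2.2.1‖) * (1 + ‖g.2.2.2‖)

private lemma GG_one (g : Q4) : 1 ≤ GG g := by
  unfold GG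
  have h1 : 1 ≤ 1 + ‖g.1‖ := by linarith [norm_nonneg g.1]
  have h2 : 1 ≤ 1 + ‖g.2.1‖ := by linarith [norm_nonneg g.2.1]
  have h3 : 1 ≤ 1 + ‖g.2.2.1‖ := by linarith [norm_nonneg g.2.2.1]
  have h4 : 1 ≤ 1 + ‖g.2.2.2‖ := by linarith [norm_nonneg g.2.2.2]
  exact one_le_mul_of_one_le_of_one_le (one_le_mul_of_one_le_of_one_le
    (one_le_mul_of_one_le_of_one_le h1 h2) h3) h4

private lemma prod4_le {a b c d : ℝ} (ha : 0 ≤ a) (hb : 0 ≤ b) (hc : 0 ≤ c) (hd : 0 ≤ d) :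
    a ≤ (1 + a) * (1 + b) * (1 + c) * (1 + d) ∧ b ≤ (1 + a) * (1 + b) * (1 + c) * (1 + d) ∧
      c ≤ (1 + a) * (1 + b) * (1 + c) * (1 + d) ∧ d ≤ (1 + a) * (1 + b) * (1 + c) * (1 + d) := by
  have e : (1 + a) * (1 + b) * (1 + c) * (1 + d) =
      1 + a + b + c + d + (a * b + a * c + a * d + b * c + b * d + c * d +
        a * b * c + a * b * d + a * c * d + b * c * d + a * b * c * d) := by ring
  have h : 0 ≤ a * b + a * c + a * d + b * c + b * d + c * d +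
        a * b * c + a * b * d + a * c * d + b * c * d + a * b * c * d := by positivity
  refine ⟨?_, ?_, ?_, ?_⟩ <;> rw [e] <;> linarith

private lemma GG_le (g : Q4) : ‖g.1‖ ≤ GG g ∧ ‖g.2.1‖ ≤ GG g ∧ ‖g.2.2.1‖ ≤ GG g ∧
    ‖g.2.2.2‖ ≤ GG g :=
  prod4_le (norm_nonneg _) (norm_nonneg _) (norm_nonneg _) (norm_nonneg _)

private lemma lin_growth (s : ℝ) : ∃ A : ℝ, 0 ≤ A ∧ ∀ g : Q4, ‖cu s g‖ ≤ A * GG g ∧
    ‖cw s g‖ ≤ A * GG g ∧ ‖cu' g‖ ≤ A * GG g ∧ ‖cw' s g‖ ≤ A * GG g := by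
  set A1 : ℝ := |hh s| + |√(sg2 s)| + 1 with hA1
  have hA1' : 1 ≤ A1 := by
    rw [hA1]
    linarith [abs_nonneg (hh s), abs_nonneg (√(sg2 s))]
  set A2 : ℝ := |ca s| * A1 + |cb s| * A1 + |cP s| + |cQ s| with hA2
  have hA2' : 0 ≤ A2 := by
    rw [hA2]
    positivity
  have hcu : ∀ g : Q4, ‖cu s g‖ ≤ A1 * GG g := by
    intro g
    obtain ⟨h1, h2, -, -⟩ := GG_le g
    have hG := GG_one g
    unfold cu
    refine (norm_add_le _ _).trans ?_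
    rw [norm_mul, norm_mul, Complex.norm_real, Complex.norm_real, Real.norm_eq_abs,
      Real.norm_eq_abs]
    have h3 := mul_le_mul_of_nonneg_left h1 (abs_nonneg (hh s))
    have h4 := mul_le_mul_of_nonneg_left h2 (abs_nonneg (√(sg2 s)))
    rw [hA1]
    nlinarith
  have hcu' : ∀ g : Q4, ‖cu' g‖ ≤ A1 * GG g := by
    intro g
    obtain ⟨h1, -, -, -⟩ := GG_le g
    have hG := GG_one g
    unfold cu'
    nlinarith
  have hgen : ∀ (g : Q4) (x y : ℂ), ‖x‖ ≤ A1 * GG g → ‖y‖ ≤ A1 * GG g →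
      ∀ e : ℂ, (e = 1 ∨ e = -1) →
      ‖(ca s : ℂ) * x + (cb s : ℂ) * y + ((cP s : ℂ) * g.2.2.1 + e * ((cQ s : ℂ) * g.2.2.2))‖ ≤
        A2 * GG g := by
    intro g x y hx hy e he
    obtain ⟨-, -, h3, h4⟩ := GG_le g
    have he1 : ‖e‖ = 1 := by
      rcases he with rfl | rfl
      · exact norm_one
      · rw [norm_neg, norm_one]
    refine (norm_add_le _ _).trans ?_
    have n1 : ‖(ca s : ℂ) * x + (cb s : ℂ) * y‖ ≤ |ca s| * ‖x‖ + |cb s| * ‖y‖ := by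
      refine (norm_add_le _ _).trans ?_
      rw [norm_mul, norm_mul, Complex.norm_real, Complex.norm_real, Real.norm_eq_abs,
        Real.norm_eq_abs]
    have n2 : ‖(cP s : ℂ) * g.2.2.1 + e * ((cQ s : ℂ) * g.2.2.2)‖ ≤
        |cP s| * ‖g.2.2.1‖ + |cQ s| * ‖g.2.2.2‖ := by
      refine (norm_add_le _ _).trans ?_
      rw [norm_mul, norm_mul e, norm_mul, Complex.norm_real, Complex.norm_real, Real.norm_eq_abs,
        Real.norm_eq_abs, he1, one_mul]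
    have m1 := mul_le_mul_of_nonneg_left hx (abs_nonneg (ca s))
    have m2 := mul_le_mul_of_nonneg_left hy (abs_nonneg (cb s))
    have m3 := mul_le_mul_of_nonneg_left h3 (abs_nonneg (cP s))
    have m4 := mul_le_mul_of_nonneg_left h4 (abs_nonneg (cQ s))
    have : A2 * GG g = |ca s| * (A1 * GG g) + |cb s| * (A1 * GG g) + |cP s| * GG g +
        |cQ s| * GG g := by
      rw [hA2]
      ring
    linarith
  refine ⟨A1 + A2, by linarith, fun g => ⟨?_, ?_, ?_, ?_⟩⟩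
  · have hG := GG_one g
    nlinarith [hcu g]
  · have hG := GG_one g
    have h := hgen g (cu s g) (cu' g) (hcu g) (hcu' g) 1 (Or.inl rfl)
    rw [one_mul] at h
    change ‖(ca s : ℂ) * cu s g + (cb s : ℂ) * cu' g +
      ((cP s : ℂ) * g.2.2.1 + (cQ s : ℂ) * g.2.2.2)‖ ≤ _
    nlinarith
  · have hG := GG_one g
    nlinarith [hcu' g]
  · have hG := GG_one g
    have h := hgen g (cu' g) (cu s g) (hcu' g) (hcu g) (-1) (Or.inr rfl)
    rw [neg_one_mul, ← sub_eq_add_neg] at h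
    change ‖(ca s : ℂ) * cu' g + (cb s : ℂ) * cu s g +
      ((cP s : ℂ) * g.2.2.1 - (cQ s : ℂ) * g.2.2.2)‖ ≤ _
    nlinarith

private lemma pow4_aux (C A a b c d : ℝ) (k : ℕ) :
    C * ((A * (a * b * c * d)) * (A * (a * b * c * d)) * (A * (a * b * c * d)) *
      (A * (a * b * c * d))) ^ k =
    C * A ^ (4 * k) * a ^ (4 * k) * b ^ (4 * k) * c ^ (4 * k) * d ^ (4 * k) := by
  have e : (A * (a * b * c * d)) * (A * (a * b * c * d)) * (A * (a * b * c * d)) *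
      (A * (a * b * c * d)) = (A * (a * b * c * d)) ^ 4 := by
    generalize A * (a * b * c * d) = X
    ring
  rw [e, ← pow_mul, mul_pow, mul_pow, mul_pow, mul_pow]
  generalize A ^ (4 * k) = A'
  generalize a ^ (4 * k) = a'
  generalize b ^ (4 * k) = b'
  generalize c ^ (4 * k) = c'
  generalize d ^ (4 * k) = d'
  ring

private lemma XX_one (u w u' w' : ℂ) :
    1 ≤ (1 + ‖u‖) * (1 + ‖w‖) * (1 + ‖u'‖) * (1 + ‖w'‖) := GG_one (u, w, u', w')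

lemma PG.integrable {f : ℂ → ℂ → ℂ → ℂ → ℂ} (hf : PG f) (s : ℝ) :
    Integrable (fun g => f (cu s g) (cw s g) (cu' g) (cw' s g)) g4 := by
  obtain ⟨hm, C, k, hC, hb⟩ := hf
  obtain ⟨A, hA, hl⟩ := lin_growth s
  refine integrable_growth4 ?_ (C * (1 + A) ^ (4 * k)) (4 * k) fun g => ?_
  · exact hm.comp ((cu_cont s).measurable.prodMk ((cw_cont s).measurable.prodMk
      (cu'_cont.measurable.prodMk (cw'_cont s).measurable)))
  · obtain ⟨h1, h2, h3, h4⟩ := hl g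
    have hG := GG_one g
    have hG0 : 0 ≤ GG g := by linarith
    have b1 : 1 + ‖cu s g‖ ≤ (1 + A) * GG g := by nlinarith
    have b2 : 1 + ‖cw s g‖ ≤ (1 + A) * GG g := by nlinarith
    have b3 : 1 + ‖cu' g‖ ≤ (1 + A) * GG g := by nlinarith
    have b4 : 1 + ‖cw' s g‖ ≤ (1 + A) * GG g := by nlinarith
    have hprod : (1 + ‖cu s g‖) * (1 + ‖cw s g‖) * (1 + ‖cu' g‖) * (1 + ‖cw' s g‖) ≤
        ((1 + A) * GG g) * ((1 + A) * GG g) * ((1 + A) * GG g) * ((1 + A) * GG g) := by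
      gcongr
    refine (hb _ _ _ _).trans ((mul_le_mul_of_nonneg_left
      (pow_le_pow_left₀ (by positivity) hprod k) hC).trans (le_of_eq ?_))
    unfold GG
    exact pow4_aux _ _ _ _ _ _ _

lemma PG.add {f g : ℂ → ℂ → ℂ → ℂ → ℂ} (hf : PG f) (hg : PG g) :
    PG (fun u w u' w' => f u w u' w' + g u w u' w') := by
  obtain ⟨hm, C, k, hC, hb⟩ := hf
  obtain ⟨hm', C', k', hC', hb'⟩ := hg
  refine ⟨hm.add hm', C + C', max k k', by positivity, fun u w u' w' => ?_⟩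
  have hX := XX_one u w u' w'
  refine (norm_add_le _ _).trans ?_
  rw [add_mul]
  refine add_le_add ((hb u w u' w').trans ?_) ((hb' u w u' w').trans ?_)
  · exact mul_le_mul_of_nonneg_left (pow_le_pow_right₀ hX (le_max_left _ _)) hC
  · exact mul_le_mul_of_nonneg_left (pow_le_pow_right₀ hX (le_max_right _ _)) hC'

lemma PG.mul {f g : ℂ → ℂ → ℂ → ℂ → ℂ} (hf : PG f) (hg : PG g) :
    PG (fun u w u' w' => f u w u' w' * g u w u' w') := by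
  obtain ⟨hm, C, k, hC, hb⟩ := hf
  obtain ⟨hm', C', k', hC', hb'⟩ := hg
  refine ⟨hm.mul hm', C * C', k + k', by positivity, fun u w u' w' => ?_⟩
  have hX := XX_one u w u' w'
  have hX0 : 0 ≤ (1 + ‖u‖) * (1 + ‖w‖) * (1 + ‖u'‖) * (1 + ‖w'‖) := by linarith
  rw [norm_mul]
  refine (mul_le_mul (hb u w u' w') (hb' u w u' w') (norm_nonneg _) (by positivity)).trans
    (le_of_eq ?_)
  rw [pow_add]
  ring

lemma PG.conj {f : ℂ → ℂ → ℂ → ℂ → ℂ} (hf : PG f) :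
    PG (fun u w u' w' => conj (f u w u' w')) := by
  obtain ⟨hm, C, k, hC, hb⟩ := hf
  refine ⟨Complex.continuous_conj.measurable.comp hm, C, k, hC, fun u w u' w' => ?_⟩
  rw [RCLike.norm_conj]
  exact hb u w u' w'

private lemma PG.swap {f : ℂ → ℂ → ℂ → ℂ → ℂ} (hf : PG f) :
    PG (fun u w u' w' => f u' w' u w) := by
  obtain ⟨hm, C, k, hC, hb⟩ := hf
  refine ⟨?_, C, k, hC, fun u w u' w' => ?_⟩
  · have h : Measurable fun p : Q4 => ((p.2.2.1, p.2.2.2, p.1, p.2.1) : Q4) := by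
      fun_prop
    exact hm.comp h
  · refine (hb u' w' u w).trans (le_of_eq ?_)
    congr 2
    ring

private lemma S_meas : Measurable S := by
  unfold S
  exact measurable_id.div (Complex.measurable_ofReal.comp measurable_norm)

private lemma S_norm (z : ℂ) : ‖S z‖ ≤ 1 := by
  unfold S
  rw [norm_div, Complex.norm_real, norm_norm]
  exact div_self_le_one _

lemma PG.S1 : PG (fun u _ _ _ => S u) := by
  refine ⟨S_meas.comp measurable_fst, 1, 0, zero_le_one, fun u w u' w' => ?_⟩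
  rw [pow_zero, mul_one]
  exact S_norm u

lemma PG.S2 : PG (fun _ _ u' _ => S u') := PG.S1.swap

private lemma exp_le_one' (q : ℝ) (hq : 0 ≤ q) (u : ℂ) : rexp (-q * ‖u‖ ^ 2) ≤ 1 := by
  rw [Real.exp_le_one_iff]
  have : 0 ≤ q * ‖u‖ ^ 2 := by positivity
  linarith

private lemma im_le (u w : ℂ) : |(w * conj u).im| ≤ ‖u‖ * ‖w‖ := by
  refine (Complex.abs_im_le_norm _).trans ?_
  rw [norm_mul, RCLike.norm_conj, mul_comm]

private lemma uw_le (u w u' w' : ℂ) :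
    (1 + ‖u‖) * (1 + ‖w‖) ≤ (1 + ‖u‖) * (1 + ‖w‖) * (1 + ‖u'‖) * (1 + ‖w'‖) := by
  have h1 : 1 ≤ (1 + ‖u'‖) * (1 + ‖w'‖) := by
    nlinarith [norm_nonneg u', norm_nonneg w', mul_nonneg (norm_nonneg u') (norm_nonneg w')]
  have h2 : 0 ≤ (1 + ‖u‖) * (1 + ‖w‖) := by positivity
  rw [mul_assoc ((1 + ‖u‖) * (1 + ‖w‖))]
  nlinarith

lemma PG.nu1 : PG (fun u w _ _ => nu u w) := by
  refine ⟨?_, |cc|, 2, abs_nonneg _, fun u w u' w' => ?_⟩
  · unfold nu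
    fun_prop
  · unfold nu
    rw [norm_mul, norm_neg, norm_mul, Complex.norm_I, one_mul, Complex.norm_real,
      Real.norm_eq_abs, abs_mul, abs_mul, abs_of_pos (Real.exp_pos _)]
    have hk : (0 : ℝ) ≤ kap := by unfold kap; norm_num
    have h1 := exp_le_one' kap hk u
    have h2 := im_le u w
    have h3 : |cc| * rexp (-kap * ‖u‖ ^ 2) * |(w * conj u).im| * ‖u‖ ≤
        |cc| * 1 * (‖u‖ * ‖w‖) * ‖u‖ := by
      gcongr
    refine h3.trans ?_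
    have h4 : ‖u‖ * ‖w‖ * ‖u‖ ≤ ((1 + ‖u‖) * (1 + ‖w‖)) ^ 2 := by
      have a := norm_nonneg u
      have b := norm_nonneg w
      have e : ((1 + ‖u‖) * (1 + ‖w‖)) ^ 2 = ‖u‖ * ‖w‖ * ‖u‖ + (1 + 2 * ‖u‖ + ‖u‖ ^ 2 +
        2 * ‖w‖ + ‖w‖ ^ 2 + 4 * ‖u‖ * ‖w‖ + 2 * ‖u‖ * ‖w‖ ^ 2 + ‖u‖ ^ 2 * ‖w‖ +
        ‖u‖ ^ 2 * ‖w‖ ^ 2) := by ring
      rw [e]
      have : 0 ≤ 1 + 2 * ‖u‖ + ‖u‖ ^ 2 +
        2 * ‖w‖ + ‖w‖ ^ 2 + 4 * ‖u‖ * ‖w‖ + 2 * ‖u‖ * ‖w‖ ^ 2 + ‖u‖ ^ 2 * ‖w‖ +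
        ‖u‖ ^ 2 * ‖w‖ ^ 2 := by positivity
      linarith
    have h5 : ((1 + ‖u‖) * (1 + ‖w‖)) ^ 2 ≤
        ((1 + ‖u‖) * (1 + ‖w‖) * (1 + ‖u'‖) * (1 + ‖w'‖)) ^ 2 :=
      pow_le_pow_left₀ (by positivity) (uw_le u w u' w') 2
    have h6 := mul_le_mul_of_nonneg_left (h4.trans h5) (abs_nonneg cc)
    calc |cc| * 1 * (‖u‖ * ‖w‖) * ‖u‖ = |cc| * (‖u‖ * ‖w‖ * ‖u‖) := by ring
      _ ≤ _ := h6

lemma PG.nu2 : PG (fun _ _ u' w' => nu u' w') := PG.nu1.swap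

lemma PG.rho1 : PG (fun u w _ _ => rho u w) := by
  refine ⟨?_, |cc ^ 2 / (4 * aa)| * (1 + aa ^ 2), 5, by positivity, fun u w u' w' => ?_⟩
  · unfold rho
    fun_prop
  · unfold rho
    rw [norm_mul, norm_neg, Complex.norm_real, Real.norm_eq_abs, abs_mul, abs_mul, abs_mul,
      abs_of_pos (Real.exp_pos _), abs_of_nonneg (sq_nonneg (w * conj u).im),
      abs_of_nonneg (by positivity : 0 ≤ ‖u‖ ^ 2 + aa ^ 2)]
    have hk : (0 : ℝ) ≤ 2 * kap := by unfold kap; norm_num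
    have h1 := exp_le_one' (2 * kap) hk u
    have h2 : (w * conj u).im ^ 2 ≤ (‖u‖ * ‖w‖) ^ 2 := by
      rw [← sq_abs]
      exact pow_le_pow_left₀ (abs_nonneg _) (im_le u w) 2
    have h3 : |cc ^ 2 / (4 * aa)| * rexp (-(2 * kap) * ‖u‖ ^ 2) * (w * conj u).im ^ 2 *
        (‖u‖ ^ 2 + aa ^ 2) * ‖u‖ ≤
        |cc ^ 2 / (4 * aa)| * 1 * (‖u‖ * ‖w‖) ^ 2 * (‖u‖ ^ 2 + aa ^ 2) * ‖u‖ := by
      gcongr
    refine h3.trans ?_
    have a := norm_nonneg u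
    have b := norm_nonneg w
    have h4 : ‖u‖ ^ 2 + aa ^ 2 ≤ (1 + aa ^ 2) * (1 + ‖u‖) ^ 2 := by
      nlinarith [sq_nonneg aa, mul_nonneg (sq_nonneg aa) a, mul_nonneg (sq_nonneg aa) (sq_nonneg ‖u‖)]
    have h5 : (‖u‖ * ‖w‖) ^ 2 * ‖u‖ ≤ (1 + ‖u‖) ^ 3 * (1 + ‖w‖) ^ 2 := by
      have e : (‖u‖ * ‖w‖) ^ 2 * ‖u‖ = ‖u‖ ^ 3 * ‖w‖ ^ 2 := by ring
      rw [e]
      gcongr
      · linarith
      · linarith
    have h6 : (‖u‖ * ‖w‖) ^ 2 * ‖u‖ * (‖u‖ ^ 2 + aa ^ 2) ≤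
        (1 + ‖u‖) ^ 3 * (1 + ‖w‖) ^ 2 * ((1 + aa ^ 2) * (1 + ‖u‖) ^ 2) := by
      gcongr
    have h7 : (1 + ‖u‖) ^ 3 * (1 + ‖w‖) ^ 2 * ((1 + aa ^ 2) * (1 + ‖u‖) ^ 2) ≤
        (1 + aa ^ 2) * ((1 + ‖u‖) * (1 + ‖w‖)) ^ 5 := by
      have e : (1 + aa ^ 2) * ((1 + ‖u‖) * (1 + ‖w‖)) ^ 5 =
        (1 + ‖u‖) ^ 3 * (1 + ‖w‖) ^ 5 * ((1 + aa ^ 2) * (1 + ‖u‖) ^ 2) := by
        generalize 1 + ‖u‖ = x
        generalize 1 + ‖w‖ = y
        generalize 1 + aa ^ 2 = z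
        ring
      rw [e]
      have : (1 + ‖w‖) ^ 2 ≤ (1 + ‖w‖) ^ 5 := pow_le_pow_right₀ (by linarith) (by norm_num)
      gcongr
    have h8 : ((1 + ‖u‖) * (1 + ‖w‖)) ^ 5 ≤
        ((1 + ‖u‖) * (1 + ‖w‖) * (1 + ‖u'‖) * (1 + ‖w'‖)) ^ 5 :=
      pow_le_pow_left₀ (by positivity) (uw_le u w u' w') 5
    have h9 : (1 + aa ^ 2) * ((1 + ‖u‖) * (1 + ‖w‖)) ^ 5 ≤
        (1 + aa ^ 2) * ((1 + ‖u‖) * (1 + ‖w‖) * (1 + ‖u'‖) * (1 + ‖w'‖)) ^ 5 :=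
      mul_le_mul_of_nonneg_left h8 (by positivity)
    have h10 := mul_le_mul_of_nonneg_left ((h6.trans h7).trans h9) (abs_nonneg (cc ^ 2 / (4 * aa)))
    refine le_trans (le_of_eq ?_) (h10.trans (le_of_eq (mul_assoc _ _ _).symm))
    ring

lemma PG.rho2 : PG (fun _ _ u' w' => rho u' w') := PG.rho1.swap

/-- bounded factors `exp(-q|u|^2)` -/
lemma PG.ex1 (q : ℝ) (hq : 0 ≤ q) : PG (fun u _ _ _ => (rexp (-q * ‖u‖ ^ 2) : ℂ) * u) := by
  refine ⟨by fun_prop, 1, 1, zero_le_one, fun u w u' w' => ?_⟩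
  rw [norm_mul, Complex.norm_real, Real.norm_eq_abs, abs_of_pos (Real.exp_pos _), one_mul,
    pow_one]
  have h1 := exp_le_one' q hq u
  have h2 := (prod4_le (norm_nonneg u) (norm_nonneg w) (norm_nonneg u') (norm_nonneg w')).1
  nlinarith [norm_nonneg u]

lemma PG.ex2 (q : ℝ) (hq : 0 ≤ q) : PG (fun _ _ u' _ => (rexp (-q * ‖u'‖ ^ 2) : ℂ) * u') :=
  (PG.ex1 q hq).swap

/-- Fubini for the canonical variables -/
lemma E4_iter {f : ℂ → ℂ → ℂ → ℂ → ℂ} (hf : PG f) (s : ℝ) :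
    E4 s f = ∫ z1, ∫ z2, ∫ z3, ∫ z4, f (cu s (z1, z2, z3, z4)) (cw s (z1, z2, z3, z4))
      (cu' (z1, z2, z3, z4)) (cw' s (z1, z2, z3, z4)) ∂gam ∂gam ∂gam ∂gam := by
  have hF := hf.integrable s
  unfold E4
  unfold g4 at hF ⊢
  rw [integral_prod _ hF]
  refine integral_congr_ae (hF.prod_right_ae.mono fun z1 h1 => ?_)
  simp only
  rw [integral_prod _ h1]
  refine integral_congr_ae (h1.prod_right_ae.mono fun z2 h2 => ?_)
  simp only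
  rw [integral_prod _ h2]

end Pool.Agent.KGU
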