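import Pool.Agent.KGU.CanP
import Pool.Agent.KGU.CanN

/-! The expectations of exponential-polynomial functions of the canonical variables.
`h = hh s`, `θ = th s`, `k = kk s`, `σ^2 = sg2 s = 1 - h^2`, `D = Dl s p q`,
`cb = θ/σ^2`, `vn = cP^2+cQ^2 = 1 - θ^2/σ^2`, `kn = cP^2-cQ^2 = k + h θ^2/σ^2`.

Write `P = u conj u'`. Averages with weight `exp(-p|u|^2-q|u'|^2)` (all from `mom4`, `CanP`):
`<P> = h/D^2`, `<|u|^2|u'|^2> = (σ^2/D + 2 h^2/D^2)/D`, `<P^2> = 2 h^2/D^3`.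

* `F1`: `<P>`.
* `F2`: `nu u w = -(c/2) e^{-κ|u|^2} (|u|^2 w - u^2 conj w)`; after averaging the noise
  `|u|^2 w - u^2 conj w` becomes `cb (|u|^2 u' - u^2 conj u')`; times `conj u'`:
  `cb (|u|^2|u'|^2 - P^2)`, whose average is `cb σ^2/D^2 = θ/D^2`. -/

open MeasureTheory Real
open scoped ComplexConjugate

namespace Pool.Agent.KGU

/-- Gaussian damped variable -/
noncomputable def ex (q : ℝ) (z : ℂ) : ℂ := (rexp (-q * ‖z‖ ^ 2) : ℂ) * z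

theorem F1 {s : ℝ} (h0 : 0 ≤ s) (h1 : s < 1) {p q : ℝ} (hp : 0 ≤ p) (hq : 0 ≤ q) :
    E4 s (fun u _ u' _ => ex p u * conj (ex q u')) = ((hh s / Dl s p q ^ 2 : ℝ) : ℂ) := by
  have hPG : PG (fun u _ u' _ => ex p u * conj (ex q u')) :=
    (PG.ex1 p hp).mul (PG.conj (PG.ex2 q hq))
  rw [E4_iter hPG]
  have e : ∀ z1 z2 : ℂ, (∫ z3, ∫ z4, ex p (cu s (z1, z2, z3, z4)) *
      conj (ex q (cu' (z1, z2, z3, z4))) ∂gam ∂gam) =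
      (rexp (-p * ‖(hh s : ℂ) * z1 + (√(sg2 s) : ℂ) * z2‖ ^ 2) : ℂ) *
        (rexp (-q * ‖z1‖ ^ 2) : ℂ) *
        (((hh s : ℂ) * z1 + (√(sg2 s) : ℂ) * z2) ^ 1 *
          conj ((hh s : ℂ) * z1 + (√(sg2 s) : ℂ) * z2) ^ 0 * (z1 ^ 0 * conj z1 ^ 1)) := by
    intro z1 z2
    simp only [cu, cu', ex, integral_const, probReal_univ, one_smul, map_mul, Complex.conj_ofReal]
    ring
  simp only [e]
  rw [mom4 h0 h1 hp hq 1 0 0 1 rfl]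
  congr 1
  simp

/-- `nu` in terms of `w` and `conj w` -/
theorem helper23_nu (u w : ℂ) :
    nu u w = -((cc / 2 : ℝ) : ℂ) * (rexp (-kap * ‖u‖ ^ 2) : ℂ) *
      (u * conj u * w - u ^ 2 * conj w) := by
  have h1 : (((w * conj u).im : ℝ) : ℂ) = (w * conj u - conj w * u) / (2 * Complex.I) := by
    rw [Complex.im_eq_sub_conj]
    simp [map_mul]
  unfold nu
  rw [Complex.ofReal_mul, h1]
  push_cast
  field_simp

theorem helper23_integrable2 {s : ℝ} (h0 : 0 ≤ s) (h1 : s < 1) {p q : ℝ} (hp : 0 ≤ p)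
    (hq : 0 ≤ q) (i j k l : ℕ) :
    Integrable (fun z : ℂ × ℂ =>
      (rexp (-p * ‖(hh s : ℂ) * z.1 + (√(sg2 s) : ℂ) * z.2‖ ^ 2) : ℂ) *
        (rexp (-q * ‖z.1‖ ^ 2) : ℂ) *
        (((hh s : ℂ) * z.1 + (√(sg2 s) : ℂ) * z.2) ^ i *
          conj ((hh s : ℂ) * z.1 + (√(sg2 s) : ℂ) * z.2) ^ j * (z.1 ^ k * conj z.1 ^ l)))
      (gam.prod gam) := by
  have hh0 := hh_nonneg h0 h1
  have hh1 := (hh_lt h0 h1).le
  have hs0 := (sg2_pos h0 h1).le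
  have hs1 : √(sg2 s) ≤ 1 := by
    rw [Real.sqrt_le_one]
    unfold sg2
    nlinarith
  refine integrable_growth2 ?_ 1 (i + j + (k + l)) fun z => ?_
  · refine Continuous.measurable ?_
    fun_prop
  · have a1 : 0 ≤ ‖z.1‖ := norm_nonneg _
    have a2 : 0 ≤ ‖z.2‖ := norm_nonneg _
    have b1 : ‖(hh s : ℂ) * z.1 + (√(sg2 s) : ℂ) * z.2‖ ≤ (1 + ‖z.1‖) * (1 + ‖z.2‖) := by
      refine (norm_add_le _ _).trans ?_
      rw [norm_mul, norm_mul, Complex.norm_real, Complex.norm_real, Real.norm_eq_abs,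
        Real.norm_eq_abs, abs_of_nonneg hh0, abs_of_nonneg (Real.sqrt_nonneg _)]
      nlinarith [mul_nonneg a1 a2, mul_le_mul_of_nonneg_right hh1 a1,
        mul_le_mul_of_nonneg_right hs1 a2]
    have b2 : ‖z.1‖ ≤ (1 + ‖z.1‖) * (1 + ‖z.2‖) := by nlinarith [mul_nonneg a1 a2]
    have c1 : ‖((rexp (-p * ‖(hh s : ℂ) * z.1 + (√(sg2 s) : ℂ) * z.2‖ ^ 2) : ℝ) : ℂ)‖ ≤ 1 := by
      rw [Complex.norm_real, Real.norm_eq_abs, abs_of_pos (Real.exp_pos _), Real.exp_le_one_iff]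
      nlinarith [mul_nonneg hp (sq_nonneg ‖(hh s : ℂ) * z.1 + (√(sg2 s) : ℂ) * z.2‖)]
    have c2 : ‖((rexp (-q * ‖z.1‖ ^ 2) : ℝ) : ℂ)‖ ≤ 1 := by
      rw [Complex.norm_real, Real.norm_eq_abs, abs_of_pos (Real.exp_pos _), Real.exp_le_one_iff]
      nlinarith [mul_nonneg hq (sq_nonneg ‖z.1‖)]
    rw [norm_mul, norm_mul, norm_mul, norm_mul, norm_mul, norm_pow, norm_pow, norm_pow, norm_pow,
      RCLike.norm_conj, RCLike.norm_conj, ← pow_add, ← pow_add, one_mul, ← mul_pow]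
    have d0 : 0 ≤ (1 + ‖z.1‖) * (1 + ‖z.2‖) := by positivity
    calc _ ≤ (1 * 1) * (((1 + ‖z.1‖) * (1 + ‖z.2‖)) ^ (i + j) *
          ((1 + ‖z.1‖) * (1 + ‖z.2‖)) ^ (k + l)) := by gcongr
      _ = ((1 + ‖z.1‖) * (1 + ‖z.2‖)) ^ (i + j + (k + l)) := by rw [pow_add]; ring

theorem F2 {s : ℝ} (h0 : 0 ≤ s) (h1 : s < 1) {q : ℝ} (hq : 0 ≤ q) :
    E4 s (fun u w u' _ => nu u w * conj (ex q u')) =
      ((-(cc / 2) * (th s / Dl s kap q ^ 2) : ℝ) : ℂ) := by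
  have hk : (0 : ℝ) ≤ kap := by unfold kap; norm_num
  have hPG : PG (fun u w u' _ => nu u w * conj (ex q u')) :=
    PG.nu1.mul (PG.conj (PG.ex2 q hq))
  rw [E4_iter hPG]
  let A : ℕ → ℕ → ℕ → ℕ → ℂ → ℂ → ℂ := fun i j k l z1 z2 =>
    (rexp (-kap * ‖(hh s : ℂ) * z1 + (√(sg2 s) : ℂ) * z2‖ ^ 2) : ℂ) *
        (rexp (-q * ‖z1‖ ^ 2) : ℂ) *
        (((hh s : ℂ) * z1 + (√(sg2 s) : ℂ) * z2) ^ i *
          conj ((hh s : ℂ) * z1 + (√(sg2 s) : ℂ) * z2) ^ j * (z1 ^ k * conj z1 ^ l))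
  have e : ∀ z1 z2 : ℂ, (∫ z3, ∫ z4, nu (cu s (z1, z2, z3, z4)) (cw s (z1, z2, z3, z4)) *
      conj (ex q (cu' (z1, z2, z3, z4))) ∂gam ∂gam) =
      -((cc / 2 * cb s : ℝ) : ℂ) * (A 1 1 1 1 z1 z2 - A 2 0 0 2 z1 z2) := by
    intro z1 z2
    set u : ℂ := (hh s : ℂ) * z1 + (√(sg2 s) : ℂ) * z2 with hu
    have h2 := noise2 (cP s) (cQ s)
      (-((cc / 2 : ℝ) : ℂ) * (rexp (-kap * ‖u‖ ^ 2) : ℂ) *
        (u * conj u * ((ca s : ℂ) * u + (cb s : ℂ) * z1) -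
          u ^ 2 * conj ((ca s : ℂ) * u + (cb s : ℂ) * z1)))
      (-((cc / 2 : ℝ) : ℂ) * (rexp (-kap * ‖u‖ ^ 2) : ℂ) * (u * conj u))
      (((cc / 2 : ℝ) : ℂ) * (rexp (-kap * ‖u‖ ^ 2) : ℂ) * u ^ 2) 0 0
      (conj (ex q z1)) 0 0 0 0
    have h3 : (∫ z3, ∫ z4, nu (cu s (z1, z2, z3, z4)) (cw s (z1, z2, z3, z4)) *
        conj (ex q (cu' (z1, z2, z3, z4))) ∂gam ∂gam) =
        -((cc / 2 : ℝ) : ℂ) * (rexp (-kap * ‖u‖ ^ 2) : ℂ) *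
        (u * conj u * ((ca s : ℂ) * u + (cb s : ℂ) * z1) -
          u ^ 2 * conj ((ca s : ℂ) * u + (cb s : ℂ) * z1)) * conj (ex q z1) := by
      refine Eq.trans ?_ (h2.trans ?_)
      · congr 1
        funext z3
        congr 1
        funext z4
        simp only [cu, cu', cw, helper23_nu, ← hu]
        simp only [map_add, map_mul, Complex.conj_ofReal]
        ring
      · ring
    rw [h3]
    show _ = -((cc / 2 * cb s : ℝ) : ℂ) * ((rexp (-kap * ‖u‖ ^ 2) : ℂ) *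
      (rexp (-q * ‖z1‖ ^ 2) : ℂ) * (u ^ 1 * conj u ^ 1 * (z1 ^ 1 * conj z1 ^ 1)) -
      (rexp (-kap * ‖u‖ ^ 2) : ℂ) * (rexp (-q * ‖z1‖ ^ 2) : ℂ) *
        (u ^ 2 * conj u ^ 0 * (z1 ^ 0 * conj z1 ^ 2)))
    simp only [ex, map_add, map_mul, Complex.conj_ofReal, Complex.ofReal_mul]
    ring
  simp only [e]
  have i1 : Integrable (fun z : ℂ × ℂ => A 1 1 1 1 z.1 z.2) (gam.prod gam) :=
    helper23_integrable2 h0 h1 hk hq 1 1 1 1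
  have i2 : Integrable (fun z : ℂ × ℂ => A 2 0 0 2 z.1 z.2) (gam.prod gam) :=
    helper23_integrable2 h0 h1 hk hq 2 0 0 2
  have m1 : ∫ z1, ∫ z2, A 1 1 1 1 z1 z2 ∂gam ∂gam = _ := mom4 h0 h1 hk hq 1 1 1 1 rfl
  have m2 : ∫ z1, ∫ z2, A 2 0 0 2 z1 z2 ∂gam ∂gam = _ := mom4 h0 h1 hk hq 2 0 0 2 rfl
  have h4 : ∫ z1, ∫ z2, (A 1 1 1 1 z1 z2 - A 2 0 0 2 z1 z2) ∂gam ∂gam =
      (∫ z1, ∫ z2, A 1 1 1 1 z1 z2 ∂gam ∂gam) - ∫ z1, ∫ z2, A 2 0 0 2 z1 z2 ∂gam ∂gam :=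
    integral_integral_sub i1 i2
  simp only [integral_const_mul]
  rw [h4, m1, m2, ← Complex.ofReal_sub, ← Complex.ofReal_neg, ← Complex.ofReal_mul]
  congr 1
  have hs := (sg2_pos h0 h1).ne'
  have hD := (Dl_pos h0 h1 hk hq).ne'
  have hr : 1 + kap * sg2 s ≠ 0 := by
    have := sg2_pos h0 h1
    positivity
  have hr' : (1 + kap * sg2 s) ^ 1 / (1 + kap * sg2 s) ^ 1 = 1 :=
    div_self (pow_ne_zero 1 hr)
  unfold cb
  simp only [hr']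
  simp [Finset.sum_range_succ]
  field_simp

end Pool.Agent.KGU
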