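import Pool.Agent.KGU.DecA

/-! `dc (j+1) z = dc j z * dc 0 z` (Cauchy product; from `xc (l+l') = xc l * xc l'` and
`Σ_{l1≤l} C(l1+j,j) = C(l+j+1,j+1)`), which gives `|dc j z n| ≤ C(n+j,j) m0^(j+1)/ω^n`,
`m0 = 27/20`, `ω = 33/20`.
`xc_add`: the numbers `xc l n` are the coefficients of the polynomial `X^l`,
`X = (81x - 18x^2 + x^3)/100`; induction on `l`, or show `xc l n = ((P : Polynomial ℚ)^l).coeff n`
and use `pow_add`, `Polynomial.coeff_mul`. Terms `l > n` vanish. -/

open Real

namespace Pool.Agent.KGU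

/-- the polynomial `X` -/
noncomputable def xP : Polynomial ℚ :=
  Polynomial.C (81 / 100) * Polynomial.X ^ 1 + Polynomial.C (-18 / 100) * Polynomial.X ^ 2 +
    Polynomial.C (1 / 100) * Polynomial.X ^ 3

lemma xc_coeff (l n : ℕ) : xc l n = (xP ^ l).coeff n := by
  induction l generalizing n with
  | zero =>
    rw [pow_zero, Polynomial.coeff_one]
    cases n with
    | zero => rfl
    | succ n => rw [if_neg (by omega)]; rfl
  | succ l ih =>
    have e : xP ^ (l + 1) = Polynomial.C (81 / 100) * (xP ^ l * Polynomial.X ^ 1) +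
        Polynomial.C (-18 / 100) * (xP ^ l * Polynomial.X ^ 2) +
        Polynomial.C (1 / 100) * (xP ^ l * Polynomial.X ^ 3) := by
      rw [pow_succ]
      conv_lhs => rw [show xP ^ l * xP = xP ^ l * (Polynomial.C (81 / 100) * Polynomial.X ^ 1 +
        Polynomial.C (-18 / 100) * Polynomial.X ^ 2 +
        Polynomial.C (1 / 100) * Polynomial.X ^ 3) from rfl]
      ring
    rw [e]
    simp only [Polynomial.coeff_add, Polynomial.coeff_C_mul, Polynomial.coeff_mul_X_pow']
    match n with
    | 0 => simp [xc]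
    | 1 => simp [xc, ih]
    | 2 => simp [xc, ih]; ring
    | n + 3 =>
      rw [if_pos (by omega), if_pos (by omega), if_pos (by omega)]
      simp only [xc, ih]
      rw [show n + 3 - 1 = n + 2 by omega, show n + 3 - 2 = n + 1 by omega,
        show n + 3 - 3 = n by omega]
      ring

lemma xc_lt {l n : ℕ} (h : n < l) : xc l n = 0 := by
  induction l generalizing n with
  | zero => omega
  | succ l ih =>
    match n with
    | 0 => simp [xc]
    | 1 => simp only [xc]; rw [ih (by omega)]; ring
    | 2 => simp only [xc]; rw [ih (n := 1) (by omega), ih (n := 0) (by omega)]; ring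
    | n + 3 =>
      simp only [xc]
      rw [ih (n := n + 2) (by omega), ih (n := n + 1) (by omega), ih (n := n) (by omega)]
      ring

lemma xc_add (l l' n : ℕ) :
    xc (l + l') n = ∑ k ∈ Finset.range (n + 1), xc l k * xc l' (n - k) := by
  rw [xc_coeff, pow_add, Polynomial.coeff_mul, Finset.Nat.sum_antidiagonal_eq_sum_range_succ
    (fun a b => (xP ^ l).coeff a * (xP ^ l').coeff b)]
  refine Finset.sum_congr rfl fun k _ => ?_
  rw [xc_coeff, xc_coeff]

lemma sum_ch (j n : ℕ) :
    ∑ k ∈ Finset.range (n + 1), ((k + j).choose j : ℝ) = ((n + (j + 1)).choose (j + 1) : ℝ) := by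
  induction n with
  | zero => simp
  | succ n ih =>
    rw [Finset.sum_range_succ, ih]
    have h : (n + 1 + (j + 1)).choose (j + 1) =
        (n + (j + 1)).choose j + (n + (j + 1)).choose (j + 1) := by
      rw [show n + 1 + (j + 1) = (n + (j + 1)) + 1 by ring]
      exact Nat.choose_succ_succ _ _
    rw [h, show n + 1 + j = n + (j + 1) by ring]
    push_cast
    ring

lemma dc_ext (j : ℕ) (z : ℝ) {n N : ℕ} (h : n ≤ N) :
    dc j z n = ∑ l ∈ Finset.range (N + 1), ((l + j).choose j : ℝ) * z ^ l * (xc l n : ℝ) := by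
  unfold dc
  refine Finset.sum_subset (Finset.range_mono (by omega)) fun l _ hl => ?_
  rw [Finset.mem_range] at hl
  rw [xc_lt (by omega)]
  simp

lemma dc_succ (j : ℕ) (z : ℝ) (n : ℕ) :
    dc (j + 1) z n = ∑ k ∈ Finset.range (n + 1), dc j z k * dc 0 z (n - k) := by
  have h1 : dc (j + 1) z n = ∑ l ∈ Finset.range (n + 1), ∑ k ∈ Finset.range (l + 1),
      ((k + j).choose j : ℝ) * z ^ (k + (l - k)) * (xc (k + (l - k)) n : ℝ) := by
    unfold dc
    refine Finset.sum_congr rfl fun l _ => ?_
    rw [← sum_ch, Finset.sum_mul, Finset.sum_mul]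
    refine Finset.sum_congr rfl fun k hk => ?_
    rw [Finset.mem_range] at hk
    rw [show k + (l - k) = l by omega]
  have h2 := Finset.sum_range_diag_flip (n + 1)
    (fun a b => ((a + j).choose j : ℝ) * z ^ (a + b) * (xc (a + b) n : ℝ))
  rw [h1, h2]
  have h3 : ∀ a ∈ Finset.range (n + 1), ∑ b ∈ Finset.range (n + 1 - a),
      ((a + j).choose j : ℝ) * z ^ (a + b) * (xc (a + b) n : ℝ) =
      ∑ b ∈ Finset.range (n + 1), ((a + j).choose j : ℝ) * z ^ (a + b) *
        (xc (a + b) n : ℝ) := by
    intro a _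
    refine Finset.sum_subset (Finset.range_mono (by omega)) fun b _ hb => ?_
    rw [Finset.mem_range] at hb
    rw [xc_lt (by omega)]
    simp
  rw [Finset.sum_congr rfl h3]
  have h4 : ∀ k ∈ Finset.range (n + 1), dc j z k * dc 0 z (n - k) =
      ∑ a ∈ Finset.range (n + 1), ∑ b ∈ Finset.range (n + 1),
        ((a + j).choose j : ℝ) * z ^ (a + b) * ((xc a k : ℝ) * (xc b (n - k) : ℝ)) := by
    intro k hk
    rw [Finset.mem_range] at hk
    rw [dc_ext j z (show k ≤ n by omega), dc_ext 0 z (show n - k ≤ n by omega),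
      Finset.sum_mul_sum]
    refine Finset.sum_congr rfl fun a _ => Finset.sum_congr rfl fun b _ => ?_
    rw [pow_add]
    simp only [Nat.choose_zero_right, Nat.cast_one]
    ring
  rw [Finset.sum_congr rfl h4]
  symm
  rw [Finset.sum_comm]
  refine Finset.sum_congr rfl fun a _ => ?_
  rw [Finset.sum_comm]
  refine Finset.sum_congr rfl fun b _ => ?_
  rw [xc_add a b n]
  push_cast
  rw [Finset.mul_sum]

theorem dc_bound (j : ℕ) {z : ℝ} (h0 : 0 ≤ z) (h1 : z ≤ 1) (n : ℕ) :
    |dc j z n| ≤ ((n + j).choose j : ℝ) * (27 / 20) ^ (j + 1) / (33 / 20) ^ n := by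
  induction j generalizing n with
  | zero =>
    have := dc_zero_bound h0 h1 n
    simpa using this
  | succ j ih =>
    rw [dc_succ]
    refine (Finset.abs_sum_le_sum_abs _ _).trans ?_
    have h2 : ∀ k ∈ Finset.range (n + 1), |dc j z k * dc 0 z (n - k)| ≤
        ((k + j).choose j : ℝ) * ((27 / 20) ^ (j + 1 + 1) / (33 / 20) ^ n) := by
      intro k hk
      rw [Finset.mem_range] at hk
      rw [abs_mul]
      refine (mul_le_mul (ih k) (dc_zero_bound h0 h1 (n - k)) (abs_nonneg _)
        (by positivity)).trans (le_of_eq ?_)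
      have e : ((33 : ℝ) / 20) ^ n = (33 / 20) ^ k * (33 / 20) ^ (n - k) := by
        rw [← pow_add]
        congr 1
        omega
      rw [e]
      have p1 : ((33 : ℝ) / 20) ^ k ≠ 0 := by positivity
      have p2 : ((33 : ℝ) / 20) ^ (n - k) ≠ 0 := by positivity
      field_simp
      ring
    refine (Finset.sum_le_sum h2).trans (le_of_eq ?_)
    rw [← Finset.sum_mul, sum_ch]
    ring

end Pool.Agent.KGU
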