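import Pool.Agent.KGU.BetaA
import Pool.Agent.KGU.DecB

/-! Sequences behaving like the moments of a measure of mass `≤ 1` on `[0,1]`.

* `Mo.mh`: `mh l = ∫ (4/π) om t * (ta t)^l dt` (`int_om`), total mass `mh 0 = 1`, `0 ≤ ta t ≤ 1`.
* `Mo.mul`: for fixed `z ∈ [0,1]` the hypothesis for `w ↦ Σ (a l z^l) w^l = Σ a_l (zw)^l` and `ν`
  gives `|Σ (a_l ν_l) z^l| ≤ B`; then use `μ`.
* `Mo.shift`: apply the hypothesis to `b (l+1) = a l`, `b 0 = 0`.
* `Mo.LL_bound`: `LL m n = Σ_{l≤n} C(l+j,j) μ_l xc l n`; apply `Mo` with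
  `a l = C(l+j,j) xc l n` and `dc_bound`. -/

open Real

namespace Pool.Agent.KGU

/-- moments of a measure of mass at most one on `[0,1]` -/
def Mo (μ : ℕ → ℚ) : Prop :=
  ∀ (N : ℕ) (a : ℕ → ℝ) (B : ℝ),
    (∀ z : ℝ, 0 ≤ z → z ≤ 1 → |∑ l ∈ Finset.range N, a l * z ^ l| ≤ B) →
    |∑ l ∈ Finset.range N, a l * (μ l : ℝ)| ≤ B

lemma Mo.pow (r : ℚ) (h0 : 0 ≤ r) (h1 : r ≤ 1) : Mo fun l => r ^ l := by
  intro N a B h
  have := h (r : ℝ) (by exact_mod_cast h0) (by exact_mod_cast h1)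
  push_cast
  exact this

lemma Mo.mh : Mo Pool.Agent.KGU.mh := by
  intro N a B h
  have key : ∀ l, (Pool.Agent.KGU.mh l : ℝ) =
      4 / π * ∫ t in Set.Ioi (0 : ℝ), om t * ta t ^ l := by
    intro l
    rw [int_om l]
    have := Real.pi_ne_zero
    field_simp
  have e : ∑ l ∈ Finset.range N, a l * (Pool.Agent.KGU.mh l : ℝ) =
      4 / π * ∫ t in Set.Ioi (0 : ℝ), ∑ l ∈ Finset.range N, a l * (om t * ta t ^ l) := by
    rw [MeasureTheory.integral_finsetSum _ (fun l _ => (integrable_om l).const_mul (a l)),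
      Finset.mul_sum]
    refine Finset.sum_congr rfl fun l _ => ?_
    rw [key l, MeasureTheory.integral_const_mul]
    ring
  have hta0 : ∀ t : ℝ, 0 ≤ ta t := fun t => by unfold ta; positivity
  have hta1 : ∀ t : ℝ, ta t ≤ 1 := fun t => by
    unfold ta
    rw [div_le_one (by positivity)]
    linarith
  have hom : ∀ t : ℝ, 0 ≤ om t := fun t => by unfold om; positivity
  have hb : ‖∫ t in Set.Ioi (0 : ℝ), ∑ l ∈ Finset.range N, a l * (om t * ta t ^ l)‖ ≤
      ∫ t in Set.Ioi (0 : ℝ), B * (om t * ta t ^ 0) := by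
    refine MeasureTheory.norm_integral_le_of_norm_le ((integrable_om 0).const_mul B)
      (Filter.Eventually.of_forall fun t => ?_)
    have e1 : ∑ l ∈ Finset.range N, a l * (om t * ta t ^ l) =
        om t * ∑ l ∈ Finset.range N, a l * ta t ^ l := by
      rw [Finset.mul_sum]
      exact Finset.sum_congr rfl fun l _ => by ring
    rw [e1, norm_mul, Real.norm_eq_abs, Real.norm_eq_abs, abs_of_nonneg (hom t), pow_zero, mul_one,
      mul_comm B]
    exact mul_le_mul_of_nonneg_left (h _ (hta0 t) (hta1 t)) (hom t)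
  rw [MeasureTheory.integral_const_mul, int_om 0] at hb
  rw [e, abs_mul, abs_of_pos (by positivity : (0 : ℝ) < 4 / π)]
  rw [Real.norm_eq_abs] at hb
  calc 4 / π * |∫ t in Set.Ioi (0 : ℝ), ∑ l ∈ Finset.range N, a l * (om t * ta t ^ l)|
      ≤ 4 / π * (B * (π / 4 * (Pool.Agent.KGU.mh 0 : ℝ))) :=
        mul_le_mul_of_nonneg_left hb (by positivity)
    _ = B := by
      have h1 : (Pool.Agent.KGU.mh 0 : ℝ) = 1 := by simp [Pool.Agent.KGU.mh]
      have := Real.pi_ne_zero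
      rw [h1]
      field_simp

lemma Mo.mul {μ ν : ℕ → ℚ} (h : Mo μ) (h' : Mo ν) : Mo fun l => μ l * ν l := by
  intro N a B hB
  have h1 : ∀ z : ℝ, 0 ≤ z → z ≤ 1 →
      |∑ l ∈ Finset.range N, (a l * (ν l : ℝ)) * z ^ l| ≤ B := by
    intro z hz0 hz1
    have h2 := h' N (fun l => a l * z ^ l) B (fun w hw0 hw1 => by
      have h3 := hB (z * w) (mul_nonneg hz0 hw0) (mul_le_one₀ hz1 hw0 hw1)
      have e : ∑ l ∈ Finset.range N, a l * z ^ l * w ^ l =
          ∑ l ∈ Finset.range N, a l * (z * w) ^ l :=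
        Finset.sum_congr rfl fun l _ => by rw [mul_pow]; ring
      rw [e]
      exact h3)
    have e : ∑ l ∈ Finset.range N, a l * z ^ l * (ν l : ℝ) =
        ∑ l ∈ Finset.range N, a l * (ν l : ℝ) * z ^ l :=
      Finset.sum_congr rfl fun l _ => by ring
    rw [← e]
    exact h2
  have h2 := h N (fun l => a l * (ν l : ℝ)) B h1
  have e : ∑ l ∈ Finset.range N, a l * (ν l : ℝ) * (μ l : ℝ) =
      ∑ l ∈ Finset.range N, a l * (((μ l * ν l : ℚ)) : ℝ) :=
    Finset.sum_congr rfl fun l _ => by push_cast; ring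
  rw [← e]
  exact h2

lemma Mo.shift {μ : ℕ → ℚ} (h : Mo μ) : Mo fun l => μ (l + 1) := by
  intro N a B hB
  have hB0 : 0 ≤ B := (abs_nonneg _).trans (hB 0 le_rfl zero_le_one)
  have h1 := h (N + 1) (fun l => if l = 0 then 0 else a (l - 1)) B (fun z hz0 hz1 => by
    rw [Finset.sum_range_succ']
    have e : ∑ k ∈ Finset.range N, (if k + 1 = 0 then 0 else a (k + 1 - 1)) * z ^ (k + 1) =
        z * ∑ l ∈ Finset.range N, a l * z ^ l := by
      rw [Finset.mul_sum]
      exact Finset.sum_congr rfl fun l _ => by simp [pow_succ]; ring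
    rw [e]
    simp only [if_true, zero_mul, add_zero]
    rw [abs_mul, abs_of_nonneg hz0]
    calc z * |∑ l ∈ Finset.range N, a l * z ^ l| ≤ 1 * B :=
          mul_le_mul hz1 (hB z hz0 hz1) (abs_nonneg _) zero_le_one
      _ = B := one_mul B)
  rw [Finset.sum_range_succ'] at h1
  simpa using h1

theorem Mo.LL_bound {μ : ℕ → ℚ} (h : Mo μ) (j : ℕ) (n : ℕ) :
    |(LL (fun l => ((l + j).choose j : ℚ) * μ l) n : ℝ)| ≤
      ((n + j).choose j : ℝ) * (27 / 20) ^ (j + 1) / (33 / 20) ^ n := by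
  have h1 := h (n + 1) (fun l => ((l + j).choose j : ℝ) * (xc l n : ℝ)) _ (fun z hz0 hz1 => by
    have h2 := dc_bound j hz0 hz1 n
    have e : ∑ l ∈ Finset.range (n + 1), ((l + j).choose j : ℝ) * (xc l n : ℝ) * z ^ l =
        dc j z n := by
      unfold dc
      exact Finset.sum_congr rfl fun l _ => by ring
    rw [e]
    exact h2)
  have e : (LL (fun l => ((l + j).choose j : ℚ) * μ l) n : ℝ) =
      ∑ l ∈ Finset.range (n + 1), ((l + j).choose j : ℝ) * (xc l n : ℝ) * (μ l : ℝ) := by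
    unfold LL
    push_cast
    exact Finset.sum_congr rfl fun l _ => by ring
  rw [e]
  exact h1

end Pool.Agent.KGU
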