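import Pool.Agent.KGU.Seq

/-! Exponential decay of the coefficients of `(1 - zX)^(-(j+1))`, uniformly for `0 ≤ z ≤ 1`.

`dc j z n = Σ_l C(l+j,j) z^l xc l n` is the coefficient of `x^n`. `c n := dc 0 z n` satisfies
`c 0 = 1`, `c n = z (81 c(n-1) - 18 c(n-2) + c(n-3))/100`. With `ω = 33/20`, `m0 = 27/20`:
`|c n| ≤ m0/ω^n`. For `n ≤ 5` use (on `0 ≤ z ≤ 1`)
`c1 = 81z/100`, `|c1| ≤ 81/100`, `|c2| ≤ .4761`, `|c3| ≤ .24985`, `|c4| ≤ .1248`,
`|c5| ≤ .0609`, `|c6| ≤ .0294`; for `n ≥ 6` (with `c` of negative index `= 0`)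
`c n = c6 c(n-6) + r7 c(n-7) + r8 c(n-8)`, `r7 = z(-18 c5 + c4)/100`, `|r7| ≤ .00972`,
`r8 = z c5/100`, `|r8| ≤ .00061`, and `.0294 ω^6 + .00972 ω^7 + .00061 ω^8 < 1`.
(The general identity is `c n = a_k c(n-k) + b_k c(n-k-1) + d_k c(n-k-2)` with
`a_0=1, b_0=d_0=0`, `a_(k+1) = 81z/100 a_k + b_k`, `b_(k+1) = -18z/100 a_k + d_k`,
`d_(k+1) = z/100 a_k`.) The bounds for the polynomials `c_k(z)` on `[0,1]`: they are attained at
`z = 1`; write `c_k(1) ∓ c_k(z)` in a Bernstein basis, or `nlinarith`, or bound recursively by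
intervals in `z` if more convenient.

Then `dc (j+1) z = dc j z * dc 0 z` (Cauchy product; from `xc (l+l') = xc l * xc l'` and
`Σ_{l1≤l} C(l1+j,j) = C(l+j+1,j+1)`), which gives
`|dc j z n| ≤ C(n+j,j) m0^(j+1)/ω^n`.

`Mo μ`: `μ` behaves like the moments of a measure of mass `≤ 1` on `[0,1]`. -/

open Real

namespace Pool.Agent.KGU

noncomputable def dc (j : ℕ) (z : ℝ) (n : ℕ) : ℝ :=
  ∑ l ∈ Finset.range (n + 1), ((l + j).choose j : ℝ) * z ^ l * (xc l n : ℝ)

/-- `xc l n = 0` for `l > n` -/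
lemma xc_eq_zero_of_lt : ∀ l n : ℕ, n < l → xc l n = 0
  | 0, n, h => absurd h (Nat.not_lt_zero _)
  | (l + 1), 0, _ => by simp [xc]
  | (l + 1), 1, h => by
      have := xc_eq_zero_of_lt l 0 (by omega)
      simp [xc, this]
  | (l + 1), 2, h => by
      have h1 := xc_eq_zero_of_lt l 1 (by omega)
      have h2 := xc_eq_zero_of_lt l 0 (by omega)
      simp [xc, h1, h2]
  | (l + 1), (n + 3), h => by
      have h1 := xc_eq_zero_of_lt l (n + 2) (by omega)
      have h2 := xc_eq_zero_of_lt l (n + 1) (by omega)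
      have h3 := xc_eq_zero_of_lt l n (by omega)
      simp [xc, h1, h2, h3]

lemma dcz_eq (z : ℝ) (n : ℕ) :
    dc 0 z n = ∑ l ∈ Finset.range (n + 1), z ^ l * (xc l n : ℝ) := by
  unfold dc
  apply Finset.sum_congr rfl
  intro l _
  simp

lemma dcz_ext (z : ℝ) (n k : ℕ) :
    ∑ l ∈ Finset.range (n + 1 + k), z ^ l * (xc l n : ℝ) = dc 0 z n := by
  rw [dcz_eq, Finset.sum_range_add]
  have : ∑ x ∈ Finset.range k, z ^ (n + 1 + x) * (xc (n + 1 + x) n : ℝ) = 0 := by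
    apply Finset.sum_eq_zero
    intro x _
    rw [xc_eq_zero_of_lt _ _ (by omega)]
    simp
  rw [this, add_zero]

lemma dcz_rec (z : ℝ) (n : ℕ) :
    dc 0 z (n + 3) = z * (81 / 100 * dc 0 z (n + 2) - 18 / 100 * dc 0 z (n + 1)
      + 1 / 100 * dc 0 z n) := by
  rw [dcz_eq, Finset.sum_range_succ']
  have h0 : z ^ 0 * (xc 0 (n + 3) : ℝ) = 0 := by simp [xc]
  rw [h0, add_zero, ← dcz_ext z (n + 2) 0, ← dcz_ext z (n + 1) 1, ← dcz_ext z n 2]
  have e1 : n + 2 + 1 + 0 = n + 3 := by omega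
  have e2 : n + 1 + 1 + 1 = n + 3 := by omega
  have e3 : n + 1 + 2 = n + 3 := by omega
  rw [e1, e2, e3, Finset.mul_sum, Finset.mul_sum, Finset.mul_sum, ← Finset.sum_sub_distrib,
    ← Finset.sum_add_distrib, Finset.mul_sum]
  apply Finset.sum_congr rfl
  intro l _
  simp only [xc]
  push_cast
  ring

lemma dcz_0 (z : ℝ) : dc 0 z 0 = 1 := by
  simp [dcz_eq, xc]

lemma dcz_1 (z : ℝ) : dc 0 z 1 = 81 / 100 * z := by
  simp [dcz_eq, Finset.sum_range_succ, xc]; ring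

lemma dcz_2 (z : ℝ) : dc 0 z 2 = z * (81 / 100 * (81 / 100 * z) - 18 / 100) := by
  simp [dcz_eq, Finset.sum_range_succ, xc]; ring

private lemma cp1_bd {z y : ℝ} (hz : 0 ≤ z) (hy : 0 ≤ y) (h : y = 1 - z) :
    |(81/100) * z ^ 1| ≤ 81/100 := by
  have e1 : 81/100 + ((81/100) * z ^ 1) =
      (81/100) * z ^ 0 * y ^ 1 + (81/50) * z ^ 1 * y ^ 0 := by
    rw [h]; ring
  have e2 : 81/100 - ((81/100) * z ^ 1) =
      (81/100) * z ^ 0 * y ^ 1 := by
    rw [h]; ring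
  have f1 : (0:ℝ) ≤ 81/100 + ((81/100) * z ^ 1) := by
    rw [e1]; positivity
  have f2 : (0:ℝ) ≤ 81/100 - ((81/100) * z ^ 1) := by
    rw [e2]; positivity
  rw [abs_le]; constructor <;> linarith

private lemma cp2_bd {z y : ℝ} (hz : 0 ≤ z) (hy : 0 ≤ y) (h : y = 1 - z) :
    |(-9/50) * z ^ 1 + (6561/10000) * z ^ 2| ≤ 4761/10000 := by
  have e1 : 4761/10000 + ((-9/50) * z ^ 1 + (6561/10000) * z ^ 2) =
      (4761/10000) * z ^ 0 * y ^ 2 + (3861/5000) * z ^ 1 * y ^ 1 + (4761/5000) * z ^ 2 * y ^ 0 := by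
    rw [h]; ring
  have e2 : 4761/10000 - ((-9/50) * z ^ 1 + (6561/10000) * z ^ 2) =
      (4761/10000) * z ^ 0 * y ^ 2 + (5661/5000) * z ^ 1 * y ^ 1 := by
    rw [h]; ring
  have f1 : (0:ℝ) ≤ 4761/10000 + ((-9/50) * z ^ 1 + (6561/10000) * z ^ 2) := by
    rw [e1]; positivity
  have f2 : (0:ℝ) ≤ 4761/10000 - ((-9/50) * z ^ 1 + (6561/10000) * z ^ 2) := by
    rw [e2]; positivity
  rw [abs_le]; constructor <;> linarith

private lemma cp3_bd {z y : ℝ} (hz : 0 ≤ z) (hy : 0 ≤ y) (h : y = 1 - z) :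
    |(1/100) * z ^ 1 + (-729/2500) * z ^ 2 + (531441/1000000) * z ^ 3| ≤ 4997/20000 := by
  have e1 : 4997/20000 + ((1/100) * z ^ 1 + (-729/2500) * z ^ 2 + (531441/1000000) * z ^ 3) =
      (4997/20000) * z ^ 0 * y ^ 3 + (15191/20000) * z ^ 1 * y ^ 2 + (9559/20000) * z ^ 2 * y ^ 1 + (499691/1000000) * z ^ 3 * y ^ 0 := by
    rw [h]; ring
  have e2 : 4997/20000 - ((1/100) * z ^ 1 + (-729/2500) * z ^ 2 + (531441/1000000) * z ^ 3) =
      (4997/20000) * z ^ 0 * y ^ 3 + (14791/20000) * z ^ 1 * y ^ 2 + (20423/20000) * z ^ 2 * y ^ 1 + (9/1000000) * z ^ 3 * y ^ 0 := by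
    rw [h]; ring
  have f1 : (0:ℝ) ≤ 4997/20000 + ((1/100) * z ^ 1 + (-729/2500) * z ^ 2 + (531441/1000000) * z ^ 3) := by
    rw [e1]; positivity
  have f2 : (0:ℝ) ≤ 4997/20000 - ((1/100) * z ^ 1 + (-729/2500) * z ^ 2 + (531441/1000000) * z ^ 3) := by
    rw [e2]; positivity
  rw [abs_le]; constructor <;> linarith

private lemma cp4_bd {z y : ℝ} (hz : 0 ≤ z) (hy : 0 ≤ y) (h : y = 1 - z) :
    |(243/5000) * z ^ 2 + (-177147/500000) * z ^ 3 + (43046721/100000000) * z ^ 4| ≤ 78/625 := by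
  have e1 : 78/625 + ((243/5000) * z ^ 2 + (-177147/500000) * z ^ 3 + (43046721/100000000) * z ^ 4) =
      (78/625) * z ^ 0 * y ^ 4 + (312/625) * z ^ 1 * y ^ 3 + (3987/5000) * z ^ 2 * y ^ 2 + (121053/500000) * z ^ 3 * y ^ 1 + (24957321/100000000) * z ^ 4 * y ^ 0 := by
    rw [h]; ring
  have e2 : 78/625 - ((243/5000) * z ^ 2 + (-177147/500000) * z ^ 3 + (43046721/100000000) * z ^ 4) =
      (78/625) * z ^ 0 * y ^ 4 + (312/625) * z ^ 1 * y ^ 3 + (3501/5000) * z ^ 2 * y ^ 2 + (378147/500000) * z ^ 3 * y ^ 1 + (2679/100000000) * z ^ 4 * y ^ 0 := by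
    rw [h]; ring
  have f1 : (0:ℝ) ≤ 78/625 + ((243/5000) * z ^ 2 + (-177147/500000) * z ^ 3 + (43046721/100000000) * z ^ 4) := by
    rw [e1]; positivity
  have f2 : (0:ℝ) ≤ 78/625 - ((243/5000) * z ^ 2 + (-177147/500000) * z ^ 3 + (43046721/100000000) * z ^ 4) := by
    rw [e2]; positivity
  rw [abs_le]; constructor <;> linarith

private lemma cp5_bd {z y : ℝ} (hz : 0 ≤ z) (hy : 0 ≤ y) (h : y = 1 - z) :
    |(-9/2500) * z ^ 2 + (19683/200000) * z ^ 3 + (-4782969/12500000) * z ^ 4 + (3486784401/10000000000) * z ^ 5| ≤ 609/10000 := by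
  have e1 : 609/10000 + ((-9/2500) * z ^ 2 + (19683/200000) * z ^ 3 + (-4782969/12500000) * z ^ 4 + (3486784401/10000000000) * z ^ 5) =
      (609/10000) * z ^ 0 * y ^ 5 + (609/2000) * z ^ 1 * y ^ 4 + (3027/5000) * z ^ 2 * y ^ 3 + (139323/200000) * z ^ 3 * y ^ 2 + (84291/781250) * z ^ 4 * y ^ 1 + (1217559201/10000000000) * z ^ 5 * y ^ 0 := by
    rw [h]; ring
  have e2 : 609/10000 - ((-9/2500) * z ^ 2 + (19683/200000) * z ^ 3 + (-4782969/12500000) * z ^ 4 + (3486784401/10000000000) * z ^ 5) =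
      (609/10000) * z ^ 0 * y ^ 5 + (609/2000) * z ^ 1 * y ^ 4 + (3063/5000) * z ^ 2 * y ^ 3 + (104277/200000) * z ^ 3 * y ^ 2 + (1565961/3125000) * z ^ 4 * y ^ 1 + (440799/10000000000) * z ^ 5 * y ^ 0 := by
    rw [h]; ring
  have f1 : (0:ℝ) ≤ 609/10000 + ((-9/2500) * z ^ 2 + (19683/200000) * z ^ 3 + (-4782969/12500000) * z ^ 4 + (3486784401/10000000000) * z ^ 5) := by
    rw [e1]; positivity
  have f2 : (0:ℝ) ≤ 609/10000 - ((-9/2500) * z ^ 2 + (19683/200000) * z ^ 3 + (-4782969/12500000) * z ^ 4 + (3486784401/10000000000) * z ^ 5) := by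
    rw [e2]; positivity
  rw [abs_le]; constructor <;> linarith

private lemma cp6_bd {z y : ℝ} (hz : 0 ≤ z) (hy : 0 ≤ y) (h : y = 1 - z) :
    |(1/10000) * z ^ 2 + (-729/50000) * z ^ 3 + (3720087/25000000) * z ^ 4 + (-387420489/1000000000) * z ^ 5 + (282429536481/1000000000000) * z ^ 6| ≤ 147/5000 := by
  have e1 : 147/5000 + ((1/10000) * z ^ 2 + (-729/50000) * z ^ 3 + (3720087/25000000) * z ^ 4 + (-387420489/1000000000) * z ^ 5 + (282429536481/1000000000000) * z ^ 6) =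
      (147/5000) * z ^ 0 * y ^ 6 + (441/2500) * z ^ 1 * y ^ 5 + (4411/10000) * z ^ 2 * y ^ 4 + (28691/50000) * z ^ 3 * y ^ 3 + (13666587/25000000) * z ^ 4 * y ^ 2 + (43246471/1000000000) * z ^ 5 * y ^ 1 + (58732527481/1000000000000) * z ^ 6 * y ^ 0 := by
    rw [h]; ring
  have e2 : 147/5000 - ((1/10000) * z ^ 2 + (-729/50000) * z ^ 3 + (3720087/25000000) * z ^ 4 + (-387420489/1000000000) * z ^ 5 + (282429536481/1000000000000) * z ^ 6) =
      (147/5000) * z ^ 0 * y ^ 6 + (441/2500) * z ^ 1 * y ^ 5 + (4409/10000) * z ^ 2 * y ^ 4 + (30109/50000) * z ^ 3 * y ^ 3 + (8383413/25000000) * z ^ 4 * y ^ 2 + (309553529/1000000000) * z ^ 5 * y ^ 1 + (67472519/1000000000000) * z ^ 6 * y ^ 0 := by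
    rw [h]; ring
  have f1 : (0:ℝ) ≤ 147/5000 + ((1/10000) * z ^ 2 + (-729/50000) * z ^ 3 + (3720087/25000000) * z ^ 4 + (-387420489/1000000000) * z ^ 5 + (282429536481/1000000000000) * z ^ 6) := by
    rw [e1]; positivity
  have f2 : (0:ℝ) ≤ 147/5000 - ((1/10000) * z ^ 2 + (-729/50000) * z ^ 3 + (3720087/25000000) * z ^ 4 + (-387420489/1000000000) * z ^ 5 + (282429536481/1000000000000) * z ^ 6) := by
    rw [e2]; positivity
  rw [abs_le]; constructor <;> linarith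

private lemma cp7_bd {z y : ℝ} (hz : 0 ≤ z) (hy : 0 ≤ y) (h : y = 1 - z) :
    |(243/200000) * z ^ 3 + (-413343/12500000) * z ^ 4 + (387420489/2000000000) * z ^ 5 + (-94143178827/250000000000) * z ^ 6 + (22876792454961/100000000000000) * z ^ 7| ≤ 1/25 := by
  have e1 : 1/25 + ((243/200000) * z ^ 3 + (-413343/12500000) * z ^ 4 + (387420489/2000000000) * z ^ 5 + (-94143178827/250000000000) * z ^ 6 + (22876792454961/100000000000000) * z ^ 7) =
      (1/25) * z ^ 0 * y ^ 7 + (7/25) * z ^ 1 * y ^ 6 + (21/25) * z ^ 2 * y ^ 5 + (280243/200000) * z ^ 3 * y ^ 4 + (17147407/12500000) * z ^ 4 * y ^ 3 + (1883595849/2000000000) * z ^ 5 * y ^ 2 + (49126363423/250000000000) * z ^ 6 * y ^ 1 + (5405301374161/100000000000000) * z ^ 7 * y ^ 0 := by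
    rw [h]; ring
  have e2 : 1/25 - ((243/200000) * z ^ 3 + (-413343/12500000) * z ^ 4 + (387420489/2000000000) * z ^ 5 + (-94143178827/250000000000) * z ^ 6 + (22876792454961/100000000000000) * z ^ 7) =
      (1/25) * z ^ 0 * y ^ 7 + (7/25) * z ^ 1 * y ^ 6 + (21/25) * z ^ 2 * y ^ 5 + (279757/200000) * z ^ 3 * y ^ 4 + (17852593/12500000) * z ^ 4 * y ^ 3 + (1476404151/2000000000) * z ^ 5 * y ^ 2 + (90873636577/250000000000) * z ^ 6 * y ^ 1 + (2594698625839/100000000000000) * z ^ 7 * y ^ 0 := by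
    rw [h]; ring
  have f1 : (0:ℝ) ≤ 1/25 + ((243/200000) * z ^ 3 + (-413343/12500000) * z ^ 4 + (387420489/2000000000) * z ^ 5 + (-94143178827/250000000000) * z ^ 6 + (22876792454961/100000000000000) * z ^ 7) := by
    rw [e1]; positivity
  have f2 : (0:ℝ) ≤ 1/25 - ((243/200000) * z ^ 3 + (-413343/12500000) * z ^ 4 + (387420489/2000000000) * z ^ 5 + (-94143178827/250000000000) * z ^ 6 + (22876792454961/100000000000000) * z ^ 7) := by
    rw [e2]; positivity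
  rw [abs_le]; constructor <;> linarith

private lemma r7_bd {z y : ℝ} (hz : 0 ≤ z) (hy : 0 ≤ y) (h : y = 1 - z) :
    |(567/500000) * z ^ 3 + (-531441/25000000) * z ^ 4 + (731794257/10000000000) * z ^ 5 + (-31381059609/500000000000) * z ^ 6| ≤ 243/25000 := by
  have e1 : 243/25000 + ((567/500000) * z ^ 3 + (-531441/25000000) * z ^ 4 + (731794257/10000000000) * z ^ 5 + (-31381059609/500000000000) * z ^ 6) =
      (243/25000) * z ^ 0 * y ^ 6 + (729/12500) * z ^ 1 * y ^ 5 + (729/5000) * z ^ 2 * y ^ 4 + (97767/500000) * z ^ 3 * y ^ 3 + (3198609/25000000) * z ^ 4 * y ^ 2 + (923861457/10000000000) * z ^ 5 * y ^ 1 + (6833241/500000000000) * z ^ 6 * y ^ 0 := by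
    rw [h]; ring
  have e2 : 243/25000 - ((567/500000) * z ^ 3 + (-531441/25000000) * z ^ 4 + (731794257/10000000000) * z ^ 5 + (-31381059609/500000000000) * z ^ 6) =
      (243/25000) * z ^ 0 * y ^ 6 + (729/12500) * z ^ 1 * y ^ 5 + (729/5000) * z ^ 2 * y ^ 4 + (96633/500000) * z ^ 3 * y ^ 3 + (4091391/25000000) * z ^ 4 * y ^ 2 + (242538543/10000000000) * z ^ 5 * y ^ 1 + (9713166759/500000000000) * z ^ 6 * y ^ 0 := by
    rw [h]; ring
  have f1 : (0:ℝ) ≤ 243/25000 + ((567/500000) * z ^ 3 + (-531441/25000000) * z ^ 4 + (731794257/10000000000) * z ^ 5 + (-31381059609/500000000000) * z ^ 6) := by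
    rw [e1]; positivity
  have f2 : (0:ℝ) ≤ 243/25000 - ((567/500000) * z ^ 3 + (-531441/25000000) * z ^ 4 + (731794257/10000000000) * z ^ 5 + (-31381059609/500000000000) * z ^ 6) := by
    rw [e2]; positivity
  rw [abs_le]; constructor <;> linarith

private lemma r8_bd {z y : ℝ} (hz : 0 ≤ z) (hy : 0 ≤ y) (h : y = 1 - z) :
    |(-9/250000) * z ^ 3 + (19683/20000000) * z ^ 4 + (-4782969/1250000000) * z ^ 5 + (3486784401/1000000000000) * z ^ 6| ≤ 61/100000 := by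
  have e1 : 61/100000 + ((-9/250000) * z ^ 3 + (19683/20000000) * z ^ 4 + (-4782969/1250000000) * z ^ 5 + (3486784401/1000000000000) * z ^ 6) =
      (61/100000) * z ^ 0 * y ^ 6 + (183/50000) * z ^ 1 * y ^ 5 + (183/20000) * z ^ 2 * y ^ 4 + (3041/250000) * z ^ 3 * y ^ 3 + (200523/20000000) * z ^ 4 * y ^ 2 + (1058703/625000000) * z ^ 5 * y ^ 1 + (1218559201/1000000000000) * z ^ 6 * y ^ 0 := by
    rw [h]; ring
  have e2 : 61/100000 - ((-9/250000) * z ^ 3 + (19683/20000000) * z ^ 4 + (-4782969/1250000000) * z ^ 5 + (3486784401/1000000000000) * z ^ 6) =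
      (61/100000) * z ^ 0 * y ^ 6 + (183/50000) * z ^ 1 * y ^ 5 + (183/20000) * z ^ 2 * y ^ 4 + (3059/250000) * z ^ 3 * y ^ 3 + (165477/20000000) * z ^ 4 * y ^ 2 + (3516297/625000000) * z ^ 5 * y ^ 1 + (1440799/1000000000000) * z ^ 6 * y ^ 0 := by
    rw [h]; ring
  have f1 : (0:ℝ) ≤ 61/100000 + ((-9/250000) * z ^ 3 + (19683/20000000) * z ^ 4 + (-4782969/1250000000) * z ^ 5 + (3486784401/1000000000000) * z ^ 6) := by
    rw [e1]; positivity
  have f2 : (0:ℝ) ≤ 61/100000 - ((-9/250000) * z ^ 3 + (19683/20000000) * z ^ 4 + (-4782969/1250000000) * z ^ 5 + (3486784401/1000000000000) * z ^ 6) := by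
    rw [e2]; positivity
  rw [abs_le]; constructor <;> linarith

theorem dc_zero_bound {z : ℝ} (h0 : 0 ≤ z) (h1 : z ≤ 1) (n : ℕ) :
    |dc 0 z n| ≤ 27 / 20 / (33 / 20) ^ n := by
  obtain ⟨y, hy⟩ : ∃ y : ℝ, y = 1 - z := ⟨_, rfl⟩
  have hy0 : 0 ≤ y := by rw [hy]; linarith
  have E0 := dcz_0 z
  have E1 := dcz_1 z
  have E2 := dcz_2 z
  have E3 : dc 0 z 3 = _ := dcz_rec z 0
  have E4 : dc 0 z 4 = _ := dcz_rec z 1
  have E5 : dc 0 z 5 = _ := dcz_rec z 2
  have E6 : dc 0 z 6 = _ := dcz_rec z 3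
  have E7 : dc 0 z 7 = _ := dcz_rec z 4
  simp only [zero_add, Nat.reduceAdd] at E3 E4 E5 E6 E7
  rw [E0, E1, E2] at E3
  rw [E1, E2, E3] at E4
  rw [E2, E3, E4] at E5
  rw [E3, E4, E5] at E6
  rw [E4, E5, E6] at E7
  induction n using Nat.strong_induction_on with
  | _ n ih =>
    rcases Nat.lt_or_ge n 8 with hn | hn
    · interval_cases n
      · rw [E0]; norm_num
      · rw [E1]
        refine le_trans (le_of_eq ?_) (le_trans (cp1_bd h0 hy0 hy) (by norm_num))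
        congr 1; ring
      · rw [E2]
        refine le_trans (le_of_eq ?_) (le_trans (cp2_bd h0 hy0 hy) (by norm_num))
        congr 1; ring
      · rw [E3]
        refine le_trans (le_of_eq ?_) (le_trans (cp3_bd h0 hy0 hy) (by norm_num))
        congr 1; ring
      · rw [E4]
        refine le_trans (le_of_eq ?_) (le_trans (cp4_bd h0 hy0 hy) (by norm_num))
        congr 1; ring
      · rw [E5]
        refine le_trans (le_of_eq ?_) (le_trans (cp5_bd h0 hy0 hy) (by norm_num))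
        congr 1; ring
      · rw [E6]
        refine le_trans (le_of_eq ?_) (le_trans (cp6_bd h0 hy0 hy) (by norm_num))
        congr 1; ring
      · rw [E7]
        refine le_trans (le_of_eq ?_) (le_trans (cp7_bd h0 hy0 hy) (by norm_num))
        congr 1; ring
    · obtain ⟨m, rfl⟩ : ∃ m, n = m + 8 := ⟨n - 8, by omega⟩
      have i0 := ih m (by omega)
      have i1 := ih (m + 1) (by omega)
      have i2 := ih (m + 2) (by omega)
      have R3 := dcz_rec z m
      have R4 := dcz_rec z (m + 1)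
      have R5 := dcz_rec z (m + 2)
      have R6 := dcz_rec z (m + 3)
      have R7 := dcz_rec z (m + 4)
      have R8 := dcz_rec z (m + 5)
      simp only [add_assoc, Nat.reduceAdd] at R3 R4 R5 R6 R7 R8
      have key : dc 0 z (m + 8) = ((1/10000) * z ^ 2 + (-729/50000) * z ^ 3 + (3720087/25000000) * z ^ 4 + (-387420489/1000000000) * z ^ 5 + (282429536481/1000000000000) * z ^ 6) * dc 0 z (m + 2) + ((567/500000) * z ^ 3 + (-531441/25000000) * z ^ 4 + (731794257/10000000000) * z ^ 5 + (-31381059609/500000000000) * z ^ 6) * dc 0 z (m + 1)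
          + ((-9/250000) * z ^ 3 + (19683/20000000) * z ^ 4 + (-4782969/1250000000) * z ^ 5 + (3486784401/1000000000000) * z ^ 6) * dc 0 z m := by
        rw [R8, R7, R6, R5, R4, R3]
        ring
      have b6 := cp6_bd h0 hy0 hy
      have b7 := r7_bd h0 hy0 hy
      have b8 := r8_bd h0 hy0 hy
      rw [key]
      have t1 : |((1/10000) * z ^ 2 + (-729/50000) * z ^ 3 + (3720087/25000000) * z ^ 4 + (-387420489/1000000000) * z ^ 5 + (282429536481/1000000000000) * z ^ 6) * dc 0 z (m + 2)| ≤ 147 / 5000 * (27 / 20 / (33 / 20) ^ (m + 2)) := by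
        rw [abs_mul]
        exact mul_le_mul b6 i2 (abs_nonneg _) (by norm_num)
      have t2 : |((567/500000) * z ^ 3 + (-531441/25000000) * z ^ 4 + (731794257/10000000000) * z ^ 5 + (-31381059609/500000000000) * z ^ 6) * dc 0 z (m + 1)| ≤ 243 / 25000 * (27 / 20 / (33 / 20) ^ (m + 1)) := by
        rw [abs_mul]
        exact mul_le_mul b7 i1 (abs_nonneg _) (by norm_num)
      have t3 : |((-9/250000) * z ^ 3 + (19683/20000000) * z ^ 4 + (-4782969/1250000000) * z ^ 5 + (3486784401/1000000000000) * z ^ 6) * dc 0 z m| ≤ 61 / 100000 * (27 / 20 / (33 / 20) ^ m) := by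
        rw [abs_mul]
        exact mul_le_mul b8 i0 (abs_nonneg _) (by norm_num)
      refine le_trans (abs_add_le _ _) (le_trans (add_le_add (abs_add_le _ _) le_rfl) ?_)
      refine le_trans (add_le_add (add_le_add t1 t2) t3) ?_
      have hp : (0:ℝ) < (33 / 20) ^ m := by positivity
      rw [pow_add, pow_add, pow_add]
      have e : ∀ a b c : ℝ, a * (27 / 20 / ((33 / 20) ^ m * (33 / 20) ^ 2)) +
          b * (27 / 20 / ((33 / 20) ^ m * (33 / 20) ^ 1)) + c * (27 / 20 / (33 / 20) ^ m)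
          = (a / (33 / 20) ^ 2 + b / (33 / 20) + c) * (27 / 20) / (33 / 20) ^ m := by
        intro a b c
        field_simp
      rw [e, div_mul_eq_div_div_swap]
      rw [div_le_div_iff_of_pos_right hp]
      norm_num

end Pool.Agent.KGU
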