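import Mathlib

/-! An upper bound for the complex Grothendieck constant below Haagerup's: definitions.

For a unimodular rounding function of two complex Gaussian variables `u, w` we use
`F = S + nu + rho`, `S u = u / |u|`,
`nu u w  = - i c exp(-kap |u|^2) Im(w conj u) u`,
`rho u w = - (c^2/4a) exp(-2 kap |u|^2) Im(w conj u)^2 (|u|^2 + a^2) u`,
with `kap = 7/4`, `c = (23/250) sqrt pi`, `a = sqrt pi / 2`.

For vectors `x_i, y_j` with inner product `s` the Gaussian variables `(u, w)`, `(u', w')` have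
covariances `E u conj u' = hh s`, `E u conj w' = E w conj u' = th s`, `E w conj w' = kk s`. -/

open MeasureTheory Real
open scoped ComplexConjugate

namespace Pool.Agent.KGU

/-- the standard complex Gaussian measure -/
noncomputable def gam : Measure ℂ :=
  (volume : Measure ℂ).withDensity fun z => ENNReal.ofReal (π⁻¹ * rexp (-‖z‖ ^ 2))

/-- the sign of a complex number (`0` at `0`) -/
noncomputable def S (z : ℂ) : ℂ := z / (‖z‖ : ℂ)

noncomputable def kap : ℝ := 7 / 4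
noncomputable def cc : ℝ := 23 / 250 * √π
noncomputable def aa : ℝ := √π / 2

/-- the first perturbation -/
noncomputable def nu (u w : ℂ) : ℂ :=
  -(Complex.I * ((cc * rexp (-kap * ‖u‖ ^ 2) * (w * conj u).im : ℝ) : ℂ)) * u

/-- the second perturbation -/
noncomputable def rho (u w : ℂ) : ℂ :=
  -((cc ^ 2 / (4 * aa) * rexp (-(2 * kap) * ‖u‖ ^ 2) * (w * conj u).im ^ 2 *
    (‖u‖ ^ 2 + aa ^ 2) : ℝ) : ℂ) * u

/-- the function used before truncation -/
noncomputable def FF (u w : ℂ) : ℂ := S u + nu u w + rho u w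

/-- the truncated function -/
noncomputable def ff (u w : ℂ) : ℂ := FF u w / ((max 1 ‖FF u w‖ : ℝ) : ℂ)

noncomputable def hh (s : ℝ) : ℝ := (9 * s - s ^ 3) / 10
noncomputable def th (s : ℝ) : ℝ := -(3 / 10) * (s + s ^ 3)
noncomputable def kk (s : ℝ) : ℝ := (s - 9 * s ^ 3) / 10

/-- `1 - h^2` -/
noncomputable def sg2 (s : ℝ) : ℝ := 1 - hh s ^ 2

/-- the determinant `(1+p)(1+q) - p q h^2` -/
noncomputable def Dl (s p q : ℝ) : ℝ := (1 + p) * (1 + q) - p * q * hh s ^ 2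

/-- four complex variables -/
abbrev Q4 := ℂ × ℂ × ℂ × ℂ

/-- four independent standard complex Gaussian variables -/
noncomputable def g4 : Measure Q4 := gam.prod (gam.prod (gam.prod gam))

noncomputable def ca (s : ℝ) : ℝ := -(hh s * th s) / sg2 s
noncomputable def cb (s : ℝ) : ℝ := th s / sg2 s
noncomputable def cP (s : ℝ) : ℝ := √((1 + s) * (1 - s ^ 3) / (1 + hh s) / 2)
noncomputable def cQ (s : ℝ) : ℝ := √((1 - s) * (1 + s ^ 3) / (1 - hh s) / 2)

/-- the canonical variable `u'` -/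
noncomputable def cu' (g : Q4) : ℂ := g.1
/-- the canonical variable `u` -/
noncomputable def cu (s : ℝ) (g : Q4) : ℂ := (hh s : ℂ) * g.1 + (√(sg2 s) : ℂ) * g.2.1
/-- the canonical variable `w` -/
noncomputable def cw (s : ℝ) (g : Q4) : ℂ :=
  (ca s : ℂ) * cu s g + (cb s : ℂ) * cu' g + ((cP s : ℂ) * g.2.2.1 + (cQ s : ℂ) * g.2.2.2)
/-- the canonical variable `w'` -/
noncomputable def cw' (s : ℝ) (g : Q4) : ℂ :=
  (ca s : ℂ) * cu' g + (cb s : ℂ) * cu s g + ((cP s : ℂ) * g.2.2.1 - (cQ s : ℂ) * g.2.2.2)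

/-- expectation of a function of the canonical variables `u, w, u', w'` -/
noncomputable def E4 (s : ℝ) (f : ℂ → ℂ → ℂ → ℂ → ℂ) : ℂ :=
  ∫ g, f (cu s g) (cw s g) (cu' g) (cw' s g) ∂g4

/-- Gaussian measure on `ℂ^ι` -/
noncomputable def GN (ι : Type) [Fintype ι] : Measure (ι → ℂ) := Measure.pi fun _ => gam

/-- the linear form `⟨c, x⟩` -/
noncomputable def lf {ι : Type} [Fintype ι] (c : EuclideanSpace ℂ ι) (x : ι → ℂ) : ℂ :=
  ∑ k, conj (c k) * x k

/-- the explicit part of the rounding kernel at `s` (for real `0 ≤ s < 1`) -/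
noncomputable def Psi (s : ℝ) : ℝ :=
  (4 / π) * (∫ t in Set.Ioi (0 : ℝ), ∫ t' in Set.Ioi (0 : ℝ), hh s / Dl s (t ^ 2) (t' ^ 2) ^ 2)
  + 2 * ((2 / √π) * ∫ t in Set.Ioi (0 : ℝ), -(cc / 2) * (th s / Dl s kap (t ^ 2) ^ 2))
  + cc ^ 2 / 4 * ((kk s * sg2 s + hh s * th s ^ 2) / Dl s kap kap ^ 2
      + 4 * hh s * (kk s * hh s - th s ^ 2) / Dl s kap kap ^ 3)
  + 2 * ((2 / √π) * ∫ t in Set.Ioi (0 : ℝ), -(cc ^ 2 / (4 * aa)) *
      (3 * hh s * (1 + t ^ 2 * sg2 s) * (1 + t ^ 2 * (sg2 s - th s ^ 2)) /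
          Dl s (2 * kap) (t ^ 2) ^ 4
        + aa ^ 2 * (hh s * (1 + t ^ 2 * (sg2 s - th s ^ 2)) / Dl s (2 * kap) (t ^ 2) ^ 3)))

end Pool.Agent.KGU
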