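import Pool.Agent.KGU.Defs

/-! Basic facts on the standard complex Gaussian measure `gam` (density `exp(-|z|^2)/pi`).

* `gam_norm_pow`: `∫ |z|^{2n} e^{-p|z|^2} dgam = n!/(1+p)^{n+1}`
  (Mathlib: `Complex.integral_rpow_mul_exp_neg_mul_rpow`).
* rotation invariance: `gam` has a radial density and Lebesgue measure on `ℂ` is invariant under
  the linear isometry `z ↦ e z`.
* integrability of continuous functions of polynomial growth: dominate by
  `C 2^k (1 + |z|^{2k})` and use the case above. -/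

open MeasureTheory Real
open scoped ComplexConjugate

namespace Pool.Agent.KGU

private lemma gm_meas : Measurable fun z : ℂ => ENNReal.ofReal (π⁻¹ * rexp (-‖z‖ ^ 2)) := by
  fun_prop

private lemma gm_toReal (z : ℂ) :
    (ENNReal.ofReal (π⁻¹ * rexp (-‖z‖ ^ 2))).toReal = π⁻¹ * rexp (-‖z‖ ^ 2) :=
  ENNReal.toReal_ofReal (by positivity)

lemma integral_gam {E : Type*} [NormedAddCommGroup E] [NormedSpace ℝ E] (f : ℂ → E) :
    ∫ z, f z ∂gam = ∫ z : ℂ, (π⁻¹ * rexp (-‖z‖ ^ 2)) • f z := by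
  rw [gam, integral_withDensity_eq_integral_toReal_smul gm_meas
    (Filter.Eventually.of_forall fun _ => ENNReal.ofReal_lt_top)]
  simp only [gm_toReal]

lemma integrable_gam_iff {E : Type*} [NormedAddCommGroup E] [NormedSpace ℝ E] (f : ℂ → E) :
    Integrable f gam ↔ Integrable (fun z : ℂ => (π⁻¹ * rexp (-‖z‖ ^ 2)) • f z) := by
  rw [gam, integrable_withDensity_iff_integrable_smul' gm_meas
    (Filter.Eventually.of_forall fun _ => ENNReal.ofReal_lt_top)]
  simp only [gm_toReal]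

private lemma gm_base (n : ℕ) {b : ℝ} (hb : 0 < b) :
    ∫ z : ℂ, ‖z‖ ^ (2 * n) * rexp (-b * ‖z‖ ^ 2) = π * (n.factorial : ℝ) / b ^ (n + 1) := by
  have h := Complex.integral_rpow_mul_exp_neg_mul_rpow (p := 2) (q := ((2 * n : ℕ) : ℝ)) (b := b)
    (by norm_num) (by have : (0 : ℝ) ≤ ((2 * n : ℕ) : ℝ) := Nat.cast_nonneg _
                      linarith) hb
  have e1 : (((2 * n : ℕ) : ℝ) + 2) / 2 = (n : ℝ) + 1 := by push_cast; ring
  have e2 : -(((2 * n : ℕ) : ℝ) + 2) / 2 = -((n + 1 : ℕ) : ℝ) := by push_cast; ring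
  rw [e1, e2, Real.Gamma_nat_eq_factorial, Real.rpow_neg hb.le, Real.rpow_natCast] at h
  have e3 : ∀ z : ℂ, ‖z‖ ^ (((2 * n : ℕ) : ℝ)) * rexp (-b * ‖z‖ ^ (2 : ℝ)) =
      ‖z‖ ^ (2 * n) * rexp (-b * ‖z‖ ^ 2) := by
    intro z
    rw [Real.rpow_natCast, Real.rpow_two]
  simp only [e3] at h
  rw [h]
  field_simp

private lemma gm_base_int (n : ℕ) {b : ℝ} (hb : 0 < b) :
    Integrable fun z : ℂ => ‖z‖ ^ (2 * n) * rexp (-b * ‖z‖ ^ 2) := by
  by_contra hcon
  have h1 := integral_undef hcon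
  rw [gm_base n hb] at h1
  have : 0 < π * (n.factorial : ℝ) / b ^ (n + 1) := by positivity
  linarith

instance isProb_gam : IsProbabilityMeasure gam := by
  constructor
  rw [gam, withDensity_apply _ MeasurableSet.univ, Measure.restrict_univ]
  have h := gm_base_int 0 (b := 1) one_pos
  have h2 := gm_base 0 (b := 1) one_pos
  simp only [mul_zero, pow_zero, one_mul, neg_mul] at h h2
  rw [← ofReal_integral_eq_lintegral_ofReal (h.const_mul π⁻¹)
    (Filter.Eventually.of_forall fun z => by positivity), integral_const_mul, h2]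
  simp [Real.pi_ne_zero]

lemma gam_norm_pow (n : ℕ) (p : ℝ) (hp : 0 ≤ p) :
    ∫ z, rexp (-p * ‖z‖ ^ 2) * ‖z‖ ^ (2 * n) ∂gam = (n.factorial : ℝ) / (1 + p) ^ (n + 1) := by
  rw [integral_gam]
  have e : ∀ z : ℂ, (π⁻¹ * rexp (-‖z‖ ^ 2)) • (rexp (-p * ‖z‖ ^ 2) * ‖z‖ ^ (2 * n)) =
      π⁻¹ * (‖z‖ ^ (2 * n) * rexp (-(1 + p) * ‖z‖ ^ 2)) := by
    intro z
    have : rexp (-(1 + p) * ‖z‖ ^ 2) = rexp (-‖z‖ ^ 2) * rexp (-p * ‖z‖ ^ 2) := by
      rw [← Real.exp_add]; ring_nf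
    rw [this, smul_eq_mul]
    ring
  simp only [e]
  rw [integral_const_mul, gm_base n (by linarith : 0 < 1 + p)]
  have := Real.pi_ne_zero
  field_simp

lemma integrable_norm_pow_gam (n : ℕ) : Integrable (fun z : ℂ => ‖z‖ ^ n) gam := by
  rw [integrable_gam_iff]
  have h0 := gm_base_int 0 (b := 1) one_pos
  have h1 := gm_base_int n (b := 1) one_pos
  simp only [mul_zero, pow_zero, one_mul, neg_mul] at h0 h1
  refine ((h0.add h1).const_mul π⁻¹).mono' (by fun_prop) (Filter.Eventually.of_forall fun z => ?_)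
  have hx : ‖z‖ ^ n ≤ 1 + ‖z‖ ^ (2 * n) := by
    have : ‖z‖ ^ (2 * n) = (‖z‖ ^ n) ^ 2 := by rw [mul_comm, pow_mul]
    rw [this]
    nlinarith [sq_nonneg (‖z‖ ^ n - 1), sq_nonneg (‖z‖ ^ n)]
  rw [Real.norm_of_nonneg (by positivity), smul_eq_mul, Pi.add_apply]
  have h2 : 0 < rexp (-‖z‖ ^ 2) := Real.exp_pos _
  calc π⁻¹ * rexp (-‖z‖ ^ 2) * ‖z‖ ^ n ≤ π⁻¹ * rexp (-‖z‖ ^ 2) * (1 + ‖z‖ ^ (2 * n)) := by
        apply mul_le_mul_of_nonneg_left hx (by positivity)
    _ = π⁻¹ * (rexp (-‖z‖ ^ 2) + ‖z‖ ^ (2 * n) * rexp (-‖z‖ ^ 2)) := by ring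

private lemma gm_growth (k : ℕ) : Integrable (fun z : ℂ => (1 + ‖z‖) ^ k) gam := by
  have e : (fun z : ℂ => (1 + ‖z‖) ^ k) = fun z : ℂ =>
      ∑ m ∈ Finset.range (k + 1), ‖z‖ ^ m * (k.choose m : ℝ) := by
    funext z
    rw [add_comm, add_pow]
    apply Finset.sum_congr rfl
    intro m _
    rw [one_pow, mul_one]
  rw [e]
  exact integrable_finset_sum _ fun m _ => (integrable_norm_pow_gam m).mul_const _

lemma integrable_growth {f : ℂ → ℂ} (hf : Measurable f) (C : ℝ) (k : ℕ)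
    (h : ∀ z, ‖f z‖ ≤ C * (1 + ‖z‖) ^ k) : Integrable f gam :=
  ((gm_growth k).const_mul C).mono' hf.aestronglyMeasurable (Filter.Eventually.of_forall h)

/-- integrability on a product of two Gaussian variables -/
lemma integrable_growth2 {f : ℂ × ℂ → ℂ} (hf : Measurable f) (C : ℝ) (k : ℕ)
    (h : ∀ z, ‖f z‖ ≤ C * (1 + ‖z.1‖) ^ k * (1 + ‖z.2‖) ^ k) :
    Integrable f (gam.prod gam) := by
  refine (((gm_growth k).mul_prod (gm_growth k)).const_mul C).mono' hf.aestronglyMeasurable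
    (Filter.Eventually.of_forall fun z => ?_)
  rw [← mul_assoc]
  exact h z

/-- integrability on four Gaussian variables -/
lemma integrable_growth4 {f : Q4 → ℂ} (hf : Measurable f) (C : ℝ) (k : ℕ)
    (h : ∀ g : Q4, ‖f g‖ ≤ C * (1 + ‖g.1‖) ^ k * (1 + ‖g.2.1‖) ^ k * (1 + ‖g.2.2.1‖) ^ k *
      (1 + ‖g.2.2.2‖) ^ k) : Integrable f g4 := by
  have h2 := (gm_growth k).mul_prod (gm_growth k)
  have h3 := (gm_growth k).mul_prod h2
  have h4 := (gm_growth k).mul_prod h3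
  rw [g4]
  refine (h4.const_mul C).mono' hf.aestronglyMeasurable (Filter.Eventually.of_forall fun g => ?_)
  refine (h g).trans (le_of_eq ?_)
  ring

instance isProb_g4 : IsProbabilityMeasure g4 := by
  unfold g4
  infer_instance

instance isProb_GN (ι : Type) [Fintype ι] : IsProbabilityMeasure (GN ι) := by
  unfold GN
  infer_instance

lemma gam_rot (e : ℂ) (he : ‖e‖ = 1) : MeasurePreserving (fun z => e * z) gam gam := by
  have h1 : MeasurePreserving (fun z : ℂ => e * z) volume volume := by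
    have := (rotation (⟨e, by simpa [Submonoid.unitSphere] using he⟩ : Circle)).measurePreserving
    exact this
  refine ⟨by fun_prop, ?_⟩
  ext s hs
  rw [Measure.map_apply (by fun_prop) hs, gam, withDensity_apply _ hs,
    withDensity_apply _ (hs.preimage (by fun_prop))]
  rw [← h1.setLIntegral_comp_preimage hs gm_meas]
  simp only [norm_mul, he, one_mul]

/-- no atom at zero -/
lemma gam_ae_ne : ∀ᵐ z ∂gam, z ≠ 0 := by
  have h : gam ≪ volume := withDensity_absolutelyContinuous _ _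
  have h2 : ∀ᵐ z ∂(volume : Measure ℂ), z ≠ 0 := by
    rw [ae_iff]
    simp
  exact h.ae_le h2

end Pool.Agent.KGU
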