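import Pool.Agent.KGU.Gam

/-! Moments of the complex Gaussian measure and the tilting (completing the square) formula.

* `gam_mono`: for `a ≠ b` use rotation invariance `gam_rot` (choose `e` with `e^a conj(e)^b ≠ 1`,
  for example `e = exp(i)`: `e^(a-b) ≠ 1` as `pi` is irrational, or `e = exp(i pi/(a-b))` which
  gives the factor `-1`), for `a = b` it is `gam_norm_pow` with `p = 0`.
* `gam_affine`: binomial theorem for `(y + τ z)^i` and `conj (y + τ z)^j`, then `gam_mono`.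
* `gam_tilt`: `|z|^2 + p|x+σz|^2 = (1+pσ^2)|z + pσx/(1+pσ^2)|^2 + p|x|^2/(1+pσ^2)`; substitute
  `z = z'/√(1+pσ^2) - pσx/(1+pσ^2)` (translation invariance and `Measure.integral_comp_smul`,
  both valid for every `f`; `finrank ℝ ℂ = 2`), then
  `x + σz = x/(1+pσ^2) + σz'/√(1+pσ^2)`. -/

open MeasureTheory Real
open scoped ComplexConjugate

namespace Pool.Agent.KGU

lemma integrable_mono (a b : ℕ) : Integrable (fun z : ℂ => z ^ a * conj z ^ b) gam := by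
  refine integrable_growth (by fun_prop) 1 (a + b) fun z => ?_
  rw [norm_mul, norm_pow, norm_pow, RCLike.norm_conj, ← pow_add, one_mul]
  exact pow_le_pow_left₀ (norm_nonneg z) (by linarith) _

private lemma gmm_rot (a b : ℕ) (hab : a ≠ b) :
    ∃ e : ℂ, ‖e‖ = 1 ∧ e ^ a * conj e ^ b = -1 := by
  have h0 : ((a : ℝ) - b) ≠ 0 := sub_ne_zero.2 (Nat.cast_injective.ne hab)
  refine ⟨Complex.exp ((π / ((a : ℝ) - b) : ℝ) * Complex.I), Complex.norm_exp_ofReal_mul_I _, ?_⟩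
  rw [← Complex.exp_conj, map_mul, Complex.conj_ofReal, Complex.conj_I, ← Complex.exp_nat_mul,
    ← Complex.exp_nat_mul, ← Complex.exp_add]
  have h1 : (a : ℂ) * (((π / ((a : ℝ) - b) : ℝ) : ℂ) * Complex.I) +
      (b : ℂ) * (((π / ((a : ℝ) - b) : ℝ) : ℂ) * -Complex.I) = π * Complex.I := by
    have h2 : ((a : ℂ) - b) ≠ 0 := by exact_mod_cast h0
    push_cast
    field_simp
    ring
  rw [h1, Complex.exp_pi_mul_I]

lemma gam_mono_exp (a b : ℕ) (p : ℝ) (hp : 0 ≤ p) :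
    ∫ z, (rexp (-p * ‖z‖ ^ 2) : ℂ) * (z ^ a * conj z ^ b) ∂gam =
      if a = b then (a.factorial : ℂ) / (1 + p) ^ (a + 1) else 0 := by
  by_cases hab : a = b
  · subst hab
    rw [if_pos rfl]
    have h1 : ∀ z : ℂ, (rexp (-p * ‖z‖ ^ 2) : ℂ) * (z ^ a * conj z ^ a) =
        ((rexp (-p * ‖z‖ ^ 2) * ‖z‖ ^ (2 * a) : ℝ) : ℂ) := by
      intro z
      rw [← mul_pow, Complex.mul_conj, Complex.normSq_eq_norm_sq, pow_mul]
      push_cast
      rfl
    simp only [h1]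
    rw [integral_complex_ofReal, gam_norm_pow a p hp]
    push_cast
    rfl
  · rw [if_neg hab]
    obtain ⟨e, he, he'⟩ := gmm_rot a b hab
    have hne : e ≠ 0 := by
      rintro rfl
      rw [norm_zero] at he
      exact zero_ne_one he
    have h1 := (gam_rot e he).integral_comp
      (MeasurableEquiv.mulLeft₀ e hne).measurableEmbedding
      (fun z : ℂ => (rexp (-p * ‖z‖ ^ 2) : ℂ) * (z ^ a * conj z ^ b))
    have h2 : ∀ z : ℂ, (rexp (-p * ‖e * z‖ ^ 2) : ℂ) * ((e * z) ^ a * conj (e * z) ^ b) =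
        -((rexp (-p * ‖z‖ ^ 2) : ℂ) * (z ^ a * conj z ^ b)) := by
      intro z
      rw [norm_mul, he, one_mul, map_mul, mul_pow, mul_pow]
      calc (rexp (-p * ‖z‖ ^ 2) : ℂ) * (e ^ a * z ^ a * (conj e ^ b * conj z ^ b)) =
          (rexp (-p * ‖z‖ ^ 2) : ℂ) * ((e ^ a * conj e ^ b) * (z ^ a * conj z ^ b)) := by ring
        _ = _ := by rw [he']; ring
    simp only [h2, integral_neg] at h1
    exact self_eq_neg.1 h1.symm

lemma gam_mono (a b : ℕ) :
    ∫ z, z ^ a * conj z ^ b ∂gam = if a = b then (a.factorial : ℂ) else 0 := by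
  have h := gam_mono_exp a b 0 le_rfl
  simpa using h

lemma gam_affine (y : ℂ) (τ : ℝ) (i j : ℕ) :
    ∫ z, (y + τ * z) ^ i * conj (y + τ * z) ^ j ∂gam =
      ∑ m ∈ Finset.range (min i j + 1), (m.factorial : ℂ) * (i.choose m) * (j.choose m) *
        (τ : ℂ) ^ (2 * m) * (y ^ (i - m) * conj y ^ (j - m)) := by
  have h1 : ∀ z : ℂ, (y + τ * z) ^ i * conj (y + τ * z) ^ j =
      ∑ m ∈ Finset.range (i + 1), ∑ n ∈ Finset.range (j + 1),
        ((i.choose m : ℂ) * (j.choose n) * (τ : ℂ) ^ (m + n) * (y ^ (i - m) * conj y ^ (j - n))) *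
          (z ^ m * conj z ^ n) := by
    intro z
    rw [map_add, map_mul, Complex.conj_ofReal, add_comm y, add_comm (conj y), add_pow, add_pow,
      Finset.sum_mul_sum]
    refine Finset.sum_congr rfl fun m _ => Finset.sum_congr rfl fun n _ => ?_
    rw [mul_pow, mul_pow, pow_add]
    ring
  simp only [h1]
  rw [integral_finsetSum _ fun m _ => integrable_finsetSum _ fun n _ =>
    (integrable_mono m n).const_mul _]
  have h2 : ∀ m ∈ Finset.range (i + 1), ∫ z, ∑ n ∈ Finset.range (j + 1),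
        ((i.choose m : ℂ) * (j.choose n) * (τ : ℂ) ^ (m + n) * (y ^ (i - m) * conj y ^ (j - n))) *
          (z ^ m * conj z ^ n) ∂gam =
      if m < j + 1 then (m.factorial : ℂ) * (i.choose m) * (j.choose m) *
        (τ : ℂ) ^ (2 * m) * (y ^ (i - m) * conj y ^ (j - m)) else 0 := by
    intro m _
    rw [integral_finsetSum _ fun n _ => (integrable_mono m n).const_mul _]
    simp only [integral_const_mul, gam_mono]
    by_cases hm : m < j + 1
    · rw [if_pos hm, Finset.sum_eq_single m]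
      · rw [if_pos rfl, two_mul]
        ring
      · intro n _ hn
        rw [if_neg (Ne.symm hn), mul_zero]
      · intro h
        exact absurd (Finset.mem_range.2 hm) h
    · rw [if_neg hm]
      refine Finset.sum_eq_zero fun n hn => ?_
      have := Finset.mem_range.1 hn
      rw [if_neg (by omega), mul_zero]
  rw [Finset.sum_congr rfl h2, ← Finset.sum_filter]
  refine Finset.sum_congr ?_ fun _ _ => rfl
  ext m
  simp only [Finset.mem_filter, Finset.mem_range]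
  omega

private lemma gmm_sq (p : ℝ) (hp : 0 ≤ p) (x z : ℂ) (σ : ℝ) :
    ‖((√(1 + p * σ ^ 2))⁻¹ : ℝ) • z - ((p * σ / (1 + p * σ ^ 2) : ℝ) : ℂ) * x‖ ^ 2 +
      p * ‖x + σ * (((√(1 + p * σ ^ 2))⁻¹ : ℝ) • z - ((p * σ / (1 + p * σ ^ 2) : ℝ) : ℂ) * x)‖ ^ 2
      = ‖z‖ ^ 2 + p * ‖x‖ ^ 2 / (1 + p * σ ^ 2) := by
  have hq : 0 < 1 + p * σ ^ 2 := by positivity
  set q : ℝ := 1 + p * σ ^ 2 with hqdef
  have hs : 0 < √q := Real.sqrt_pos.2 hq
  have hs2 : √q ^ 2 = q := Real.sq_sqrt hq.le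
  set s : ℝ := √q with hsdef
  have e1 : ((s⁻¹ : ℝ) • z : ℂ) = ((s⁻¹ : ℝ) : ℂ) * z := Complex.real_smul
  rw [e1]
  simp only [← Complex.normSq_eq_norm_sq, Complex.normSq_apply, Complex.add_re, Complex.add_im,
    Complex.sub_re, Complex.sub_im, Complex.re_ofReal_mul, Complex.im_ofReal_mul]
  have hsi : s⁻¹ ^ 2 = q⁻¹ := by rw [inv_pow, hs2]
  have hq' : q ≠ 0 := hq.ne'
  set t : ℝ := s⁻¹ with ht
  have ht2 : t ^ 2 * q = 1 := by rw [hsi]; exact inv_mul_cancel₀ hq'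
  have key : ∀ u v : ℝ, (t * u - p * σ / q * v) * (t * u - p * σ / q * v) +
      p * ((v + σ * (t * u - p * σ / q * v)) * (v + σ * (t * u - p * σ / q * v))) =
      u * u + p * (v * v) / q := by
    intro u v
    have h1 : (t * u - p * σ / q * v) * (t * u - p * σ / q * v) +
      p * ((v + σ * (t * u - p * σ / q * v)) * (v + σ * (t * u - p * σ / q * v))) =
      (t ^ 2 * (1 + p * σ ^ 2)) * (u * u) + 2 * t * u * v * (p * σ * (1 - (1 + p * σ ^ 2) / q)) +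
      p * (v * v) * (1 - 2 * (p * σ ^ 2) / q + (p * σ ^ 2) * (1 + p * σ ^ 2) / q ^ 2) := by
      field_simp
      ring
    rw [h1, ← hqdef, ht2, div_self hq']
    have h2 : p * σ ^ 2 = q - 1 := by rw [hqdef]; ring
    rw [h2]
    field_simp
    ring
  have k1 := key z.re x.re
  have k2 := key z.im x.im
  calc _ = ((t * z.re - p * σ / q * x.re) * (t * z.re - p * σ / q * x.re) +
      p * ((x.re + σ * (t * z.re - p * σ / q * x.re)) *
        (x.re + σ * (t * z.re - p * σ / q * x.re)))) +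
      ((t * z.im - p * σ / q * x.im) * (t * z.im - p * σ / q * x.im) +
      p * ((x.im + σ * (t * z.im - p * σ / q * x.im)) *
        (x.im + σ * (t * z.im - p * σ / q * x.im)))) := by ring
    _ = _ := by rw [k1, k2]; ring

lemma gam_tilt (p : ℝ) (hp : 0 ≤ p) (x : ℂ) (σ : ℝ) (f : ℂ → ℂ) :
    ∫ z, (rexp (-p * ‖x + σ * z‖ ^ 2) : ℂ) * f (x + σ * z) ∂gam =
      ((1 + p * σ ^ 2)⁻¹ * rexp (-p * ‖x‖ ^ 2 / (1 + p * σ ^ 2)) : ℝ) *
        ∫ z, f (x / ((1 + p * σ ^ 2 : ℝ) : ℂ) + ((σ / √(1 + p * σ ^ 2) : ℝ) : ℂ) * z) ∂gam := by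
  have hq : 0 < 1 + p * σ ^ 2 := by positivity
  rw [integral_gam, integral_gam]
  have hs : 0 < √(1 + p * σ ^ 2) := Real.sqrt_pos.2 hq
  have hs2 : √(1 + p * σ ^ 2) ^ 2 = 1 + p * σ ^ 2 := Real.sq_sqrt hq.le
  have hsq := fun z => gmm_sq p hp x z σ
  set q : ℝ := 1 + p * σ ^ 2 with hqdef
  set s : ℝ := √q with hsdef
  set g : ℂ → ℂ := fun z => (π⁻¹ * rexp (-‖z‖ ^ 2)) •
    ((rexp (-p * ‖x + σ * z‖ ^ 2) : ℂ) * f (x + σ * z)) with hg
  set c : ℂ := ((p * σ / q : ℝ) : ℂ) * x with hc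
  have h1 : ∫ z, g (z - c) = ∫ z, g z := integral_sub_right_eq_self g c
  have h2 := Measure.integral_comp_smul (μ := (volume : Measure ℂ)) (fun z => g (z - c)) s⁻¹
  have h3 : |((s⁻¹) ^ Module.finrank ℝ ℂ)⁻¹| = q := by
    rw [Complex.finrank_real_complex, inv_pow, inv_inv, hs2, abs_of_pos hq]
  rw [h3, h1] at h2
  have hqc : (q : ℂ) ≠ 0 := Complex.ofReal_ne_zero.2 hq.ne'
  have h4 : ∀ z : ℂ, g ((s⁻¹ : ℝ) • z - c) = ((rexp (-p * ‖x‖ ^ 2 / q) : ℝ) : ℂ) *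
      ((π⁻¹ * rexp (-‖z‖ ^ 2)) • f (x / ((q : ℝ) : ℂ) + ((σ / s : ℝ) : ℂ) * z)) := by
    intro z
    have e1 : x + σ * ((s⁻¹ : ℝ) • z - c) = x / ((q : ℝ) : ℂ) + ((σ / s : ℝ) : ℂ) * z := by
      have hsc : (s : ℂ) ≠ 0 := Complex.ofReal_ne_zero.2 hs.ne'
      have hq2 : (q : ℂ) = 1 + p * σ ^ 2 := by rw [hqdef]; push_cast; rfl
      rw [hc, Complex.real_smul]
      push_cast
      field_simp
      rw [hq2]
      ring
    have e2 := hsq z
    clear_value c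
    generalize hv : (s⁻¹ : ℝ) • z - c = v at e1 e2
    change (π⁻¹ * rexp (-‖v‖ ^ 2)) •
      ((rexp (-p * ‖x + σ * v‖ ^ 2) : ℂ) * f (x + σ * v)) = _
    have e3 : rexp (-‖v‖ ^ 2) * rexp (-p * ‖x + σ * v‖ ^ 2) =
        rexp (-p * ‖x‖ ^ 2 / q) * rexp (-‖z‖ ^ 2) := by
      rw [← Real.exp_add, ← Real.exp_add]
      congr 1
      have : -p * ‖x‖ ^ 2 / q + -‖z‖ ^ 2 = -(‖z‖ ^ 2 + p * ‖x‖ ^ 2 / q) := by ring
      rw [this, ← e2]
      ring
    have e4 : (rexp (-‖v‖ ^ 2) : ℂ) *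
        (rexp (-p * ‖x + σ * v‖ ^ 2) : ℂ) =
        (rexp (-p * ‖x‖ ^ 2 / q) : ℂ) * (rexp (-‖z‖ ^ 2) : ℂ) := by exact_mod_cast e3
    rw [← e1, Complex.real_smul, Complex.real_smul]
    push_cast
    push_cast at e4
    linear_combination (π : ℂ)⁻¹ * f (x + σ * v) * e4
  simp only [h4] at h2
  rw [integral_const_mul] at h2
  have h5 : ∫ z, g z = (q : ℂ)⁻¹ * (((rexp (-p * ‖x‖ ^ 2 / q) : ℝ) : ℂ) *
      ∫ z : ℂ, (π⁻¹ * rexp (-‖z‖ ^ 2)) • f (x / ((q : ℝ) : ℂ) + ((σ / s : ℝ) : ℂ) * z)) := by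
    rw [h2, Complex.real_smul, ← mul_assoc, inv_mul_cancel₀ hqc, one_mul]
  rw [h5]
  push_cast
  ring

end Pool.Agent.KGU
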