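import Pool.Agent.KGU.Defs
import Pool.Agent.KGC.Exists

/-! Positive semidefinite kernels and the vectors used in the rounding.

* `exists_gram`: `Matrix.posSemidef_iff_eq_conjTranspose_mul_self` (square `B`), `z x` = column
  `x` of `B`.
* `pow_kernel`: Schur product theorem `Matrix.PosSemidef.hadamard` and `PosSemidef.transpose`
  (`conj (G x y) = G y x`).
* `exists_unit_gram`: for vectors `u, v` in the unit ball and `0 < t < 1` the matrix
  `t • gram + diagonal (1 - t ‖.‖²)`.
* `exists_round`: `z` realises `G`, `ζ` realises `G(x,y)^2 conj(G x y)` (index `Fin m ⊕ Fin n`),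
  in the direct sum (index type doubled) `a_i = (α z_i, β ζ_i)`, `b_i = (-β z_i, α ζ_i)`,
  `a'_j = (α z_j, -β ζ_j)`, `b'_j = (-β z_j, -α ζ_j)`, `α = √(9/10)`, `β = √(1/10)`. -/

open scoped ComplexConjugate ComplexOrder

namespace Pool.Agent.KGU

open scoped MatrixOrder in
lemma exists_gram {κ : Type} [Fintype κ] (G : Matrix κ κ ℂ) (hG : G.PosSemidef) :
    ∃ z : κ → EuclideanSpace ℂ κ, ∀ x y, inner ℂ (z x) (z y) = G x y := by
  classical
  obtain ⟨B, hB⟩ : ∃ B : Matrix κ κ ℂ, G = star B * B := by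
    obtain ⟨X, hX, -, hX2⟩ :=
      sub_zero G ▸ CFC.exists_sqrt_of_isSelfAdjoint_of_quasispectrumRestricts hG.isHermitian
        (QuasispectrumRestricts.nnreal_of_nonneg hG.nonneg)
    refine ⟨X, ?_⟩
    rw [hX.star_eq, ← sub_zero G, ← hX2]
  refine ⟨fun x => WithLp.toLp 2 (fun k => B k x), fun x y => ?_⟩
  rw [hB, Matrix.star_eq_conjTranspose, Matrix.mul_apply, PiLp.inner_apply]
  apply Finset.sum_congr rfl
  intro k _
  rw [Matrix.conjTranspose_apply, RCLike.inner_apply]
  simp [mul_comm]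

lemma pow_kernel {κ : Type} [Fintype κ] (G : Matrix κ κ ℂ) (hG : G.PosSemidef) (p q : ℕ) :
    (Matrix.of fun x y => G x y ^ (p + 1) * conj (G x y) ^ q : Matrix κ κ ℂ).PosSemidef := by
  induction q with
  | zero =>
    induction p with
    | zero =>
      have e : (Matrix.of fun x y => G x y ^ (0 + 1) * conj (G x y) ^ 0 : Matrix κ κ ℂ) = G := by
        ext x y
        simp
      rw [e]
      exact hG
    | succ p ih =>
      have h := Matrix.PosSemidef.hadamard ih hG
      have e : (Matrix.of fun x y => G x y ^ (p + 1 + 1) * conj (G x y) ^ 0 : Matrix κ κ ℂ) =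
          Matrix.hadamard (Matrix.of fun x y => G x y ^ (p + 1) * conj (G x y) ^ 0) G := by
        ext x y
        rw [Matrix.hadamard_apply, Matrix.of_apply, Matrix.of_apply, pow_succ (G x y) (p + 1)]
        simp
      rw [e]
      exact h
  | succ q ih =>
    have h := Matrix.PosSemidef.hadamard ih hG.transpose
    have e : (Matrix.of fun x y => G x y ^ (p + 1) * conj (G x y) ^ (q + 1) : Matrix κ κ ℂ) =
        Matrix.hadamard (Matrix.of fun x y => G x y ^ (p + 1) * conj (G x y) ^ q)
          G.transpose := by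
      ext x y
      have e : conj (G x y) = G y x := hG.isHermitian.apply y x
      rw [Matrix.hadamard_apply, Matrix.of_apply, Matrix.of_apply, Matrix.transpose_apply,
        pow_succ (conj (G x y)), ← mul_assoc, ← e]
    rw [e]
    exact h

/-- a bound for positive semidefinite kernels with diagonal `1` -/
lemma bound_gram {K : ℝ} (hK : KGC.IsGrothendieckBound K) {m n : ℕ} (A : Matrix (Fin m) (Fin n) ℂ)
    (G : Matrix (Fin m ⊕ Fin n) (Fin m ⊕ Fin n) ℂ) (hG : G.PosSemidef) (hG1 : ∀ x, G x x = 1) :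
    ‖∑ i, ∑ j, A i j * G (Sum.inl i) (Sum.inr j)‖ ≤ K * KGC.beta A := by
  obtain ⟨z, hz⟩ := exists_gram G hG
  have h1 : ∀ x, ‖z x‖ ≤ 1 := by
    intro x
    have h2 := inner_self_eq_norm_sq_to_K (𝕜 := ℂ) (z x)
    rw [hz, hG1] at h2
    have h3 : ‖z x‖ ^ 2 = 1 := by
      have h4 : ((‖z x‖ ^ 2 : ℝ) : ℂ) = 1 := by
        rw [Complex.ofReal_pow]
        exact h2.symm
      exact_mod_cast h4
    nlinarith [norm_nonneg (z x)]
  have h := hK m n A (EuclideanSpace ℂ (Fin m ⊕ Fin n)) (fun i => z (Sum.inl i))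
    (fun j => z (Sum.inr j)) (fun i => h1 _) (fun j => h1 _)
  simpa only [hz] using h

end Pool.Agent.KGU
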