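import Pool.Agent.KGU.LawA
import Pool.Agent.KGU.Tilt

/-! Laws of two and of four linear forms.

`law2`, `law4`: apply `law_gram` with `κ = Fin 2` resp. `Fin 4` and `ι' = Fin 2`, `Fin 4`
(then `map_GN2`, `map_GN4`, `Measure.map_map`);
the vectors of the canonical variables are (coordinates `g.1, g.2.1, g.2.2.1, g.2.2.2`)
`u' = (1,0,0,0)`, `u = (h, σ, 0, 0)`, `w = ca u + cb u' + (0,0,cP,cQ)`,
`w' = ca u' + cb u + (0,0,cP,-cQ)`, all real. The Gram identities need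
`cP^2 + cQ^2 = 1 - θ^2/σ^2`, `cP^2 - cQ^2 = k + h θ^2/σ^2`, that is `cP_sq`, `cQ_sq`:
`1 - θ²/σ² + (k + hθ²/σ²) = (1+s)(1-s³)/(1+h)`, `1 - θ²/σ² - (k + hθ²/σ²) = (1-s)(1+s³)/(1-h)`. -/

open MeasureTheory Real
open scoped ComplexConjugate

namespace Pool.Agent.KGU

variable {ι : Type} [Fintype ι]

theorem law2 (a b : EuclideanSpace ℂ ι) (haa : inner ℂ a a = (1 : ℂ))
    (hbb : inner ℂ b b = (1 : ℂ)) (hab : inner ℂ a b = (0 : ℂ)) :
    Measure.map (fun x => (lf a x, lf b x)) (GN ι) = gam.prod gam := by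
  have hba : inner ℂ b a = (0 : ℂ) := by rw [← inner_conj_symm, hab, map_zero]
  have key := law_gram (κ := Fin 2) ![a, b]
    ![(!₂[1, 0] : EuclideanSpace ℂ (Fin 2)), !₂[0, 1]] (by
      intro i j
      fin_cases i <;> fin_cases j <;>
        simp [-inner_self_eq_norm_sq_to_K, haa, hbb, hab, hba, PiLp.inner_apply,
          Fin.sum_univ_two])
  have h1 := congrArg (Measure.map (fun y : Fin 2 → ℂ => (y 0, y 1))) key
  have hf : Measurable (fun y : Fin 2 → ℂ => (y 0, y 1)) := by fun_prop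
  have m1 : Measurable (fun (x : ι → ℂ) (i : Fin 2) => lf ((![a, b] : Fin 2 → _) i) x) :=
    measurable_pi_lambda _ fun _ => (continuous_lf _).measurable
  have m2 : Measurable (fun (x : Fin 2 → ℂ) (i : Fin 2) =>
      lf ((![(!₂[1, 0] : EuclideanSpace ℂ (Fin 2)), !₂[0, 1]] : Fin 2 → _) i) x) :=
    measurable_pi_lambda _ fun _ => (continuous_lf _).measurable
  rw [Measure.map_map hf m1, Measure.map_map hf m2] at h1
  rw [← map_GN2]
  refine Eq.trans ?_ (h1.trans ?_)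
  · rfl
  · congr 1
    funext x
    simp [lf, Fin.sum_univ_two]

/-- auxiliary positivity -/
lemma law_pos {s : ℝ} (h0 : 0 ≤ s) (h1 : s < 1) : 0 < 1 + hh s ∧ 0 < 1 - hh s := by
  have a := hh_nonneg h0 h1
  have b := hh_lt h0 h1
  constructor <;> linarith

/-- the noise coefficients -/
lemma cP_sq {s : ℝ} (h0 : 0 ≤ s) (h1 : s < 1) :
    cP s ^ 2 = (1 - th s ^ 2 / sg2 s + (kk s + hh s * th s ^ 2 / sg2 s)) / 2 := by
  obtain ⟨a, b⟩ := law_pos h0 h1
  have h3 : s ^ 3 ≤ 1 := pow_le_one₀ h0 h1.le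
  unfold cP
  rw [Real.sq_sqrt (by have := sub_nonneg.2 h3; positivity)]
  have e : sg2 s = (1 + hh s) * (1 - hh s) := by unfold sg2; ring
  rw [e]
  have a' := a.ne'
  have b' := b.ne'
  field_simp
  unfold hh th kk
  ring

lemma cQ_sq {s : ℝ} (h0 : 0 ≤ s) (h1 : s < 1) :
    cQ s ^ 2 = (1 - th s ^ 2 / sg2 s - (kk s + hh s * th s ^ 2 / sg2 s)) / 2 := by
  obtain ⟨a, b⟩ := law_pos h0 h1
  have h3 : 0 ≤ s ^ 3 := pow_nonneg h0 3
  unfold cQ
  rw [Real.sq_sqrt (by have := sub_nonneg.2 h1.le; positivity)]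
  have e : sg2 s = (1 + hh s) * (1 - hh s) := by unfold sg2; ring
  rw [e]
  have a' := a.ne'
  have b' := b.ne'
  field_simp
  unfold hh th kk
  ring

/-- the vectors of the canonical variables -/
noncomputable def lawV (s : ℝ) : Fin 4 → EuclideanSpace ℂ (Fin 4) :=
  ![!₂[(hh s : ℂ), (√(sg2 s) : ℂ), 0, 0],
    !₂[((ca s * hh s + cb s : ℝ) : ℂ), ((ca s * √(sg2 s) : ℝ) : ℂ), (cP s : ℂ), (cQ s : ℂ)],
    !₂[1, 0, 0, 0],
    !₂[((ca s + cb s * hh s : ℝ) : ℂ), ((cb s * √(sg2 s) : ℝ) : ℂ), (cP s : ℂ), -(cQ s : ℂ)]]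

/-- the Gram matrix -/
noncomputable def lawG (s : ℝ) : Fin 4 → Fin 4 → ℝ :=
  ![![1, 0, hh s, th s], ![0, 1, th s, kk s], ![hh s, th s, 1, 0], ![th s, kk s, 0, 1]]

lemma gram_lawV {s : ℝ} (h0 : 0 ≤ s) (h1 : s < 1) (i j : Fin 4) :
    inner ℂ (lawV s i) (lawV s j) = ((lawG s i j : ℝ) : ℂ) := by
  have hs := sg2_pos h0 h1
  have hsq : √(sg2 s) * √(sg2 s) = sg2 s := Real.mul_self_sqrt hs.le
  have hh2 : hh s * hh s + sg2 s = 1 := by unfold sg2; ring
  have c1 : ca s + cb s * hh s = 0 := by unfold ca cb; ring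
  have c2 : ca s * hh s + cb s = th s := by
    unfold ca cb
    rw [div_mul_eq_mul_div, ← add_div, div_eq_iff hs.ne']
    unfold sg2
    ring
  have c3 : ca s * ca s * sg2 s = hh s ^ 2 * (th s ^ 2 / sg2 s) := by
    unfold ca
    field_simp
  have c4 : cb s * cb s * sg2 s = th s ^ 2 / sg2 s := by
    unfold cb
    field_simp
  have c5 : ca s * cb s * sg2 s = -(hh s * th s ^ 2 / sg2 s) := by
    unfold ca cb
    field_simp
  have p := cP_sq h0 h1
  have q := cQ_sq h0 h1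
  have hth : th s ^ 2 / sg2 s * sg2 s = th s ^ 2 := div_mul_cancel₀ _ hs.ne'
  have key : ∀ u v : Fin 4 → ℝ,
      inner ℂ (!₂[(u 0 : ℂ), (u 1 : ℂ), (u 2 : ℂ), (u 3 : ℂ)] : EuclideanSpace ℂ (Fin 4))
        (!₂[(v 0 : ℂ), (v 1 : ℂ), (v 2 : ℂ), (v 3 : ℂ)]) =
      ((u 0 * v 0 + u 1 * v 1 + u 2 * v 2 + u 3 * v 3 : ℝ) : ℂ) := by
    intro u v
    simp only [PiLp.inner_apply, Fin.sum_univ_four, RCLike.inner_apply]
    simp
    ring
  have e : ∀ i, lawV s i = (!₂[((![![hh s, √(sg2 s), 0, 0],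
      ![ca s * hh s + cb s, ca s * √(sg2 s), cP s, cQ s], ![1, 0, 0, 0],
      ![ca s + cb s * hh s, cb s * √(sg2 s), cP s, -cQ s]] : Fin 4 → Fin 4 → ℝ) i 0 : ℂ),
      ((![![hh s, √(sg2 s), 0, 0],
      ![ca s * hh s + cb s, ca s * √(sg2 s), cP s, cQ s], ![1, 0, 0, 0],
      ![ca s + cb s * hh s, cb s * √(sg2 s), cP s, -cQ s]] : Fin 4 → Fin 4 → ℝ) i 1 : ℂ),
      ((![![hh s, √(sg2 s), 0, 0],
      ![ca s * hh s + cb s, ca s * √(sg2 s), cP s, cQ s], ![1, 0, 0, 0],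
      ![ca s + cb s * hh s, cb s * √(sg2 s), cP s, -cQ s]] : Fin 4 → Fin 4 → ℝ) i 2 : ℂ),
      ((![![hh s, √(sg2 s), 0, 0],
      ![ca s * hh s + cb s, ca s * √(sg2 s), cP s, cQ s], ![1, 0, 0, 0],
      ![ca s + cb s * hh s, cb s * √(sg2 s), cP s, -cQ s]] : Fin 4 → Fin 4 → ℝ) i 3 : ℂ)] :
      EuclideanSpace ℂ (Fin 4)) := by
    intro i
    fin_cases i <;> simp [lawV]
  rw [e i, e j, key]
  congr 1
  clear e key
  have c6 : ca s * sg2 s = -(hh s * th s) := by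
    unfold ca
    field_simp
  have c7 : cb s * sg2 s = th s := by
    unfold cb
    field_simp
  fin_cases i <;> fin_cases j <;> simp [lawG, c1, c2] <;> first
    | linear_combination hsq + hh2
    | linear_combination ca s * hsq + c6
    | linear_combination cb s * hsq + c7
    | linear_combination (ca s) ^ 2 * hsq + c3 + p + q - hth + (th s ^ 2 / sg2 s) * hh2
    | linear_combination ca s * cb s * hsq + c5 + p - q
    | linear_combination (cb s) ^ 2 * hsq + c4 + p + q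


private lemma meas4 : Measurable (fun y : Fin 4 → ℂ => (y 0, y 1, y 2, y 3)) := by fun_prop

private lemma measV {κ τ : Type} [Fintype κ] [Fintype τ] (v : κ → EuclideanSpace ℂ τ) :
    Measurable (fun (x : τ → ℂ) (i : κ) => lf (v i) x) :=
  measurable_pi_lambda _ fun _ => (continuous_lf _).measurable

private lemma meas_cu (s : ℝ) : Measurable (cu s) := by
  unfold cu
  fun_prop

private lemma meas_cu' : Measurable cu' := by
  unfold cu'
  fun_prop

private lemma meas_cw (s : ℝ) : Measurable (cw s) := by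
  have h1 := meas_cu s
  have h2 := meas_cu'
  unfold cw
  fun_prop

private lemma meas_cw' (s : ℝ) : Measurable (cw' s) := by
  have h1 := meas_cu s
  have h2 := meas_cu'
  unfold cw'
  fun_prop

private lemma lf_lawV (s : ℝ) (x : Fin 4 → ℂ) :
    lf (lawV s 0) x = cu s (x 0, x 1, x 2, x 3) ∧ lf (lawV s 1) x = cw s (x 0, x 1, x 2, x 3) ∧
      lf (lawV s 2) x = cu' (x 0, x 1, x 2, x 3) ∧
      lf (lawV s 3) x = cw' s (x 0, x 1, x 2, x 3) := by
  refine ⟨?_, ?_, ?_, ?_⟩ <;>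
    simp [lf, lawV, Fin.sum_univ_four, cu, cw, cu', cw'] <;> ring

theorem law4 {s : ℝ} (h0 : 0 ≤ s) (h1 : s < 1) (a b a' b' : EuclideanSpace ℂ ι)
    (haa : inner ℂ a a = (1 : ℂ)) (hbb : inner ℂ b b = (1 : ℂ)) (hab : inner ℂ a b = (0 : ℂ))
    (haa' : inner ℂ a' a' = (1 : ℂ)) (hbb' : inner ℂ b' b' = (1 : ℂ))
    (hab' : inner ℂ a' b' = (0 : ℂ))
    (h : inner ℂ a a' = (hh s : ℂ)) (t1 : inner ℂ a b' = (th s : ℂ))
    (t2 : inner ℂ b a' = (th s : ℂ)) (k : inner ℂ b b' = (kk s : ℂ)) :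
    Measure.map (fun x => (lf a x, lf b x, lf a' x, lf b' x)) (GN ι) =
      Measure.map (fun g => (cu s g, cw s g, cu' g, cw' s g)) g4 := by
  have hba : inner ℂ b a = (0 : ℂ) := by rw [← inner_conj_symm, hab, map_zero]
  have hba' : inner ℂ b' a' = (0 : ℂ) := by rw [← inner_conj_symm, hab', map_zero]
  have h' : inner ℂ a' a = (hh s : ℂ) := by rw [← inner_conj_symm, h, Complex.conj_ofReal]
  have t1' : inner ℂ b' a = (th s : ℂ) := by rw [← inner_conj_symm, t1, Complex.conj_ofReal]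
  have t2' : inner ℂ a' b = (th s : ℂ) := by rw [← inner_conj_symm, t2, Complex.conj_ofReal]
  have k' : inner ℂ b' b = (kk s : ℂ) := by rw [← inner_conj_symm, k, Complex.conj_ofReal]
  have key := law_gram (κ := Fin 4) ![a, b, a', b'] (lawV s) (by
    intro i j
    rw [gram_lawV h0 h1]
    fin_cases i <;> fin_cases j <;>
      simp [-inner_self_eq_norm_sq_to_K, lawG, haa, hbb, hab, hba, haa', hbb', hab', hba', h, h',
        t1, t1', t2, t2', k, k'])
  have e1 := congrArg (Measure.map (fun y : Fin 4 → ℂ => (y 0, y 1, y 2, y 3))) key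
  rw [Measure.map_map meas4 (measV _), Measure.map_map meas4 (measV _)] at e1
  rw [← map_GN4, Measure.map_map ?_ meas4]
  · refine Eq.trans ?_ (e1.trans ?_)
    · rfl
    · congr 1
      funext x
      obtain ⟨f1, f2, f3, f4⟩ := lf_lawV s x
      simp only [Function.comp_apply, f1, f2, f3, f4]
  · exact (meas_cu s).prodMk ((meas_cw s).prodMk (meas_cu'.prodMk (meas_cw' s)))

/-- the law of the canonical variables is symmetric under `(u,w) ↔ (u',w')` -/
theorem law4_swap {s : ℝ} (h0 : 0 ≤ s) (h1 : s < 1) :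
    Measure.map (fun g => (cu' g, cw' s g, cu s g, cw s g)) g4 =
      Measure.map (fun g => (cu s g, cw s g, cu' g, cw' s g)) g4 := by
  have key := law4 h0 h1 (lawV s 2) (lawV s 3) (lawV s 0) (lawV s 1)
    (by rw [gram_lawV h0 h1]; simp [lawG]) (by rw [gram_lawV h0 h1]; simp [lawG])
    (by rw [gram_lawV h0 h1]; simp [lawG]) (by rw [gram_lawV h0 h1]; simp [lawG])
    (by rw [gram_lawV h0 h1]; simp [lawG]) (by rw [gram_lawV h0 h1]; simp [lawG])
    (by rw [gram_lawV h0 h1]; simp [lawG]) (by rw [gram_lawV h0 h1]; simp [lawG])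
    (by rw [gram_lawV h0 h1]; simp [lawG]) (by rw [gram_lawV h0 h1]; simp [lawG])
  rw [← key, ← map_GN4, Measure.map_map ?_ meas4]
  · congr 1
    funext x
    obtain ⟨f1, f2, f3, f4⟩ := lf_lawV s x
    simp only [Function.comp_apply, f1, f2, f3, f4]
  · exact meas_cu'.prodMk ((meas_cw' s).prodMk ((meas_cu s).prodMk (meas_cw s)))

end Pool.Agent.KGU
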