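import Pool.Agent.KGU.Gam

/-! Law of linear forms of complex Gaussian vectors.

`law_gram`: both sides are finite measures on `κ → ℂ`; compare characteristic functions
(`Measure.ext_of_charFunDual`, or `Measure.ext_of_charFun` on `EuclideanSpace`). A real linear
functional on `κ → ℂ` is `y ↦ Re (Σ_i conj (c i) * y i)`; composed with `lf` it is
`x ↦ Re (conj-linear form of Σ_i c_i v_i)`: `Σ_i conj(c i) lf (v i) x = lf (Σ_i c i • v i) x`.
`∫ exp(i Re(conj(c) z)) dgam = exp(-|c|^2/4)` (Mathlib: `integral_cexp_neg_mul_sq_norm_add`, or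
product of real Gaussians), so `∫ exp(i Re (lf c x)) dGN = exp(-‖c‖^2/4)` by
`integral_fintype_prod_eq_prod`. Finally `‖Σ c_i v_i‖^2` only depends on the Gram matrix.

`law2`, `law4`: apply `law_gram` with `κ = Fin 2` resp. `Fin 4` and `ι' = Fin 2`, `Fin 4`;
the vectors of the canonical variables are (coordinates `g.1, g.2.1, g.2.2.1, g.2.2.2`)
`u' = (1,0,0,0)`, `u = (h, σ, 0, 0)`, `w = ca u + cb u' + (0,0,cP,cQ)`,
`w' = ca u' + cb u + (0,0,cP,-cQ)`, all real. The Gram identities need
`cP^2 + cQ^2 = 1 - θ^2/σ^2`, `cP^2 - cQ^2 = k + h θ^2/σ^2`. -/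

open MeasureTheory Real
open scoped ComplexConjugate

namespace Pool.Agent.KGU

lemma gam_char (c : ℂ) :
    ∫ z, Complex.exp (Complex.I * ((conj c * z).re : ℂ)) ∂gam = rexp (-‖c‖ ^ 2 / 4) := by
  rw [integral_gam]
  have h := GaussianFourier.integral_cexp_neg_mul_sq_norm_add (V := ℂ) (b := 1) (by simp)
    Complex.I c
  have e : ∀ z : ℂ, (π⁻¹ * rexp (-‖z‖ ^ 2)) •
      Complex.exp (Complex.I * ((conj c * z).re : ℂ)) =
      (π : ℂ)⁻¹ * Complex.exp (-1 * ‖z‖ ^ 2 + Complex.I * (inner ℝ c z : ℝ)) := by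
    intro z
    rw [Complex.exp_add, Complex.real_smul, Complex.inner]
    push_cast
    ring_nf
  simp only [e]
  rw [integral_const_mul, h, Complex.finrank_real_complex]
  have h2 : ((π : ℂ) / 1) ^ (((2 : ℕ) : ℂ) / 2) = (π : ℂ) := by
    norm_num
  rw [h2, ← mul_assoc, inv_mul_cancel₀ (by exact_mod_cast Real.pi_ne_zero), one_mul,
    Complex.I_sq]
  push_cast
  congr 1
  ring

variable {ι : Type} [Fintype ι]

lemma continuous_lf (c : EuclideanSpace ℂ ι) : Continuous (lf c) := by
  unfold lf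
  fun_prop

lemma GN_char (c : EuclideanSpace ℂ ι) :
    ∫ x, Complex.exp (Complex.I * ((lf c x).re : ℂ)) ∂(GN ι) = rexp (-‖c‖ ^ 2 / 4) := by
  have e : ∀ x : ι → ℂ, Complex.exp (Complex.I * ((lf c x).re : ℂ)) =
      ∏ k, Complex.exp (Complex.I * ((conj (c k) * x k).re : ℂ)) := by
    intro x
    rw [← Complex.exp_sum, ← Finset.mul_sum]
    unfold lf
    rw [Complex.re_sum]
    push_cast
    rfl
  simp only [e]
  unfold GN
  rw [integral_fintype_prod_eq_prod (fun k z => Complex.exp (Complex.I * ((conj (c k) * z).re : ℂ)))]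
  simp only [gam_char]
  rw [EuclideanSpace.norm_sq_eq, ← Complex.ofReal_prod, ← Real.exp_sum]
  congr 2
  rw [← Finset.sum_div, Finset.sum_neg_distrib]

theorem law_gram {κ ι' : Type} [Fintype κ] [Fintype ι'] (v : κ → EuclideanSpace ℂ ι)
    (v' : κ → EuclideanSpace ℂ ι')
    (h : ∀ i j, inner ℂ (v i) (v j) = inner ℂ (v' i) (v' j)) :
    Measure.map (fun x i => lf (v i) x) (GN ι) = Measure.map (fun x i => lf (v' i) x) (GN ι') := by
  classical
  have hm : Measurable (fun (x : ι → ℂ) (i : κ) => lf (v i) x) :=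
    measurable_pi_lambda _ fun i => (continuous_lf (v i)).measurable
  have hm' : Measurable (fun (x : ι' → ℂ) (i : κ) => lf (v' i) x) :=
    measurable_pi_lambda _ fun i => (continuous_lf (v' i)).measurable
  have := Measure.isProbabilityMeasure_map (μ := GN ι) hm.aemeasurable
  have := Measure.isProbabilityMeasure_map (μ := GN ι') hm'.aemeasurable
  refine Measure.ext_of_charFunDual (funext fun L => ?_)
  -- the coefficients of `L`
  set c : κ → ℂ := fun i => ((L (Pi.single i 1) : ℝ) : ℂ) +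
    ((L (Pi.single i Complex.I) : ℝ) : ℂ) * Complex.I with hc
  have hL : ∀ y : κ → ℂ, L y = ∑ i, (conj (c i) * y i).re := by
    intro y
    have h1 : y = ∑ i, Pi.single i (y i) := (Finset.univ_sum_single y).symm
    conv_lhs => rw [h1]
    rw [map_sum]
    refine Finset.sum_congr rfl fun i _ => ?_
    have h2 : (Pi.single i (y i) : κ → ℂ) =
        (y i).re • (Pi.single i 1 : κ → ℂ) + (y i).im • (Pi.single i Complex.I : κ → ℂ) := by
      rw [← Pi.single_smul, ← Pi.single_smul, ← Pi.single_add]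
      congr 1
      rw [Complex.real_smul, Complex.real_smul, mul_one, Complex.re_add_im]
    rw [h2, map_add, map_smul, map_smul, smul_eq_mul, smul_eq_mul]
    simp only [hc, map_add, map_mul, Complex.conj_ofReal, Complex.conj_I]
    simp only [Complex.mul_re, Complex.add_re, Complex.add_im, Complex.ofReal_re,
      Complex.ofReal_im, Complex.mul_im, Complex.neg_re, Complex.neg_im, Complex.I_re,
      Complex.I_im]
    ring
  have key : ∀ {τ : Type} [Fintype τ] (u : κ → EuclideanSpace ℂ τ),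
      Measurable (fun (x : τ → ℂ) (i : κ) => lf (u i) x) →
      charFunDual (Measure.map (fun x i => lf (u i) x) (GN τ)) L =
        rexp (-‖∑ i, c i • u i‖ ^ 2 / 4) := by
    intro τ _ u hu
    rw [charFunDual_apply, integral_map hu.aemeasurable (by fun_prop), ← GN_char]
    congr 1
    funext x
    congr 1
    rw [mul_comm]
    congr 2
    rw [hL, ← Complex.re_sum]
    congr 1
    unfold lf
    have hs : ∀ k, (∑ i, c i • u i) k = ∑ i, c i * u i k := by
      intro k
      rw [WithLp.ofLp_sum, Finset.sum_apply]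
      rfl
    simp only [hs, map_sum, map_mul, Finset.sum_mul, Finset.mul_sum]
    rw [Finset.sum_comm]
    refine Finset.sum_congr rfl fun i _ => Finset.sum_congr rfl fun k _ => ?_
    ring
  rw [key v hm, key v' hm']
  have hn : ‖∑ i, c i • v i‖ ^ 2 = ‖∑ i, c i • v' i‖ ^ 2 := by
    have h3 : ∀ {τ : Type} [Fintype τ] (u : κ → EuclideanSpace ℂ τ),
        (((‖∑ i, c i • u i‖ ^ 2 : ℝ)) : ℂ) = ∑ i, ∑ j, conj (c i) * (c j * inner ℂ (u i) (u j)) := by
      intro τ _ u
      have h4 := inner_self_eq_norm_sq_to_K (𝕜 := ℂ) (∑ i, c i • u i)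
      push_cast
      rw [show (((‖∑ i, c i • u i‖ : ℝ) : ℂ)) ^ 2 = inner ℂ (∑ i, c i • u i) (∑ i, c i • u i) from
        h4.symm]
      rw [sum_inner]
      refine Finset.sum_congr rfl fun i _ => ?_
      rw [inner_sum]
      refine Finset.sum_congr rfl fun j _ => ?_
      rw [inner_smul_left, inner_smul_right]
    have h5 : ((‖∑ i, c i • v i‖ ^ 2 : ℝ) : ℂ) = ((‖∑ i, c i • v' i‖ ^ 2 : ℝ) : ℂ) := by
      rw [h3 v, h3 v']
      refine Finset.sum_congr rfl fun i _ => Finset.sum_congr rfl fun j _ => ?_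
      rw [h i j]
    exact_mod_cast h5
  rw [hn]

private lemma mp_succ (n : ℕ) : MeasurePreserving
    (fun x : Fin (n + 1) → ℂ => (x 0, fun j : Fin n => x j.succ)) (GN (Fin (n + 1)))
    (gam.prod (GN (Fin n))) := by
  have h := measurePreserving_piFinSuccAbove (fun _ : Fin (n + 1) => gam) 0
  unfold GN
  refine ⟨?_, ?_⟩
  · exact (measurable_pi_apply 0).prodMk (measurable_pi_lambda _ fun j => measurable_pi_apply _)
  · rw [← h.map_eq]
    rfl

private lemma mp_one : MeasurePreserving (fun x : Fin 1 → ℂ => x 0) (GN (Fin 1)) gam := by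
  unfold GN
  exact measurePreserving_eval (fun _ : Fin 1 => gam) 0

private lemma mp_two : MeasurePreserving (fun x : Fin 2 → ℂ => (x 0, x 1)) (GN (Fin 2))
    (gam.prod gam) :=
  ((MeasurePreserving.id gam).prod mp_one).comp (mp_succ 1)

private lemma mp_three : MeasurePreserving (fun x : Fin 3 → ℂ => (x 0, x 1, x 2)) (GN (Fin 3))
    (gam.prod (gam.prod gam)) :=
  ((MeasurePreserving.id gam).prod mp_two).comp (mp_succ 2)

/-- `g4` is the image of the Gaussian measure on `ℂ^4` -/
lemma map_GN4 : Measure.map (fun x : Fin 4 → ℂ => (x 0, x 1, x 2, x 3)) (GN (Fin 4)) = g4 :=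
  (((MeasurePreserving.id gam).prod mp_three).comp (mp_succ 3)).map_eq

lemma map_GN2 : Measure.map (fun x : Fin 2 → ℂ => (x 0, x 1)) (GN (Fin 2)) = gam.prod gam :=
  mp_two.map_eq

end Pool.Agent.KGU
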