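import Pool.Agent.KGU.Defs

/-! Pointwise facts: `|FF|^2 ≤ 1 + |rho|^2`, the truncated function `ff`, equivariance.

For `u ≠ 0`: `FF = (u/|u|)(1 - iA - B)` with `r = |u|`, `A = c e^{-κr²} Im(w conj u) r`,
`B = |rho| = (c²/4a) e^{-2κr²} Im(w conj u)² (r²+a²) r`; since `r² + a² ≥ 2ar`, `2B ≥ A²`, hence
`|FF|² = (1-B)² + A² ≤ 1 + B²`. For `u = 0` everything vanishes.
`|FF - ff| = max 0 (|FF| - 1) ≤ B²/2` as `√(1+B²) ≤ 1 + B²/2`. -/

open MeasureTheory Real
open scoped ComplexConjugate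

namespace Pool.Agent.KGU

lemma cc_pos : 0 < cc := by
  unfold cc
  positivity

lemma aa_pos : 0 < aa := by
  unfold aa
  positivity

/-- the numbers `A / r` and `B / r` -/
noncomputable def coA (u w : ℂ) : ℝ := cc * rexp (-kap * ‖u‖ ^ 2) * (w * conj u).im
noncomputable def coB (u w : ℂ) : ℝ := cc ^ 2 / (4 * aa) * rexp (-(2 * kap) * ‖u‖ ^ 2) *
  (w * conj u).im ^ 2 * (‖u‖ ^ 2 + aa ^ 2)

lemma coB_nonneg (u w : ℂ) : 0 ≤ coB u w := by
  unfold coB
  have := aa_pos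
  positivity

lemma coA_sq_le (u w : ℂ) : coA u w ^ 2 * ‖u‖ ≤ 2 * coB u w := by
  have h1 : rexp (-kap * ‖u‖ ^ 2) ^ 2 = rexp (-(2 * kap) * ‖u‖ ^ 2) := by
    rw [← Real.exp_nat_mul]
    congr 1
    push_cast
    ring
  have ha := aa_pos
  have h2 : coA u w ^ 2 = cc ^ 2 * rexp (-(2 * kap) * ‖u‖ ^ 2) * (w * conj u).im ^ 2 := by
    unfold coA
    rw [← h1]
    ring
  have h3 : 2 * coB u w = cc ^ 2 * rexp (-(2 * kap) * ‖u‖ ^ 2) * (w * conj u).im ^ 2 *
      ((‖u‖ ^ 2 + aa ^ 2) / (2 * aa)) := by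
    unfold coB
    field_simp
    ring
  rw [h2, h3]
  refine mul_le_mul_of_nonneg_left ?_ (by positivity)
  rw [le_div_iff₀ (by positivity)]
  nlinarith [sq_nonneg (‖u‖ - aa)]

lemma FF_eq {u : ℂ} (hu : u ≠ 0) (w : ℂ) :
    FF u w = u * (⟨1 / ‖u‖ - coB u w, -coA u w⟩ : ℂ) := by
  rw [Complex.mk_eq_add_mul_I]
  unfold FF S nu rho coA coB
  push_cast
  have hr : (‖u‖ : ℂ) ≠ 0 := by
    rw [Complex.ofReal_ne_zero, norm_ne_zero_iff]
    exact hu
  field_simp
  ring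

lemma rho_eq (u w : ℂ) : rho u w = -((coB u w : ℝ) : ℂ) * u := rfl

lemma rho_norm (u w : ℂ) : ‖rho u w‖ = coB u w * ‖u‖ := by
  rw [rho_eq, norm_mul, norm_neg, Complex.norm_real, Real.norm_of_nonneg (coB_nonneg u w)]

lemma norm_mk_sq (x y : ℝ) : ‖(⟨x, y⟩ : ℂ)‖ ^ 2 = x ^ 2 + y ^ 2 := by
  rw [← Complex.normSq_eq_norm_sq, Complex.normSq_mk]
  ring

theorem FF_norm_sq (u w : ℂ) : ‖FF u w‖ ^ 2 ≤ 1 + ‖rho u w‖ ^ 2 := by
  by_cases hu : u = 0
  · subst hu
    have : FF 0 w = 0 := by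
      unfold FF S nu rho
      simp
    rw [this, norm_zero]
    have := sq_nonneg ‖rho 0 w‖
    norm_num
    linarith
  · have hr : 0 < ‖u‖ := norm_pos_iff.2 hu
    have h1 : ‖FF u w‖ ^ 2 = (1 - coB u w * ‖u‖) ^ 2 + (coA u w * ‖u‖) ^ 2 := by
      rw [FF_eq hu, norm_mul, mul_pow, norm_mk_sq (1 / ‖u‖ - coB u w) (-coA u w)]
      field_simp
    rw [h1, rho_norm]
    have h2 := mul_le_mul_of_nonneg_right (coA_sq_le u w) hr.le
    nlinarith [h2]

theorem ff_norm (u w : ℂ) : ‖ff u w‖ ≤ 1 := by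
  unfold ff
  have h1 : (0 : ℝ) < max 1 ‖FF u w‖ := lt_max_of_lt_left one_pos
  rw [norm_div, Complex.norm_real, Real.norm_of_nonneg h1.le, div_le_one h1]
  exact le_max_right _ _

theorem res_le (u w : ℂ) : ‖FF u w - ff u w‖ ≤ ‖rho u w‖ ^ 2 / 2 := by
  have h0 := FF_norm_sq u w
  unfold ff
  rcases le_total ‖FF u w‖ 1 with h | h
  · rw [max_eq_left h, Complex.ofReal_one, div_one, sub_self, norm_zero]
    positivity
  · rw [max_eq_right h]
    have hp : 0 < ‖FF u w‖ := lt_of_lt_of_le one_pos h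
    have e : FF u w - FF u w / ((‖FF u w‖ : ℝ) : ℂ) =
        FF u w * ((1 - 1 / ‖FF u w‖ : ℝ) : ℂ) := by
      push_cast
      ring
    have h1 : 0 ≤ 1 - 1 / ‖FF u w‖ := by
      rw [sub_nonneg, div_le_one hp]
      exact h
    rw [e, norm_mul, Complex.norm_real, Real.norm_of_nonneg h1]
    have h2 : ‖FF u w‖ * (1 - 1 / ‖FF u w‖) = ‖FF u w‖ - 1 := by
      field_simp
    rw [h2]
    nlinarith [sq_nonneg (‖FF u w‖ - 1)]

lemma S_norm_le (u : ℂ) : ‖S u‖ ≤ 1 := by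
  unfold S
  rw [norm_div, Complex.norm_real, norm_norm]
  exact div_self_le_one _

lemma S_rot (e u : ℂ) (he : ‖e‖ = 1) : S (e * u) = e * S u := by
  unfold S
  rw [norm_mul, he, one_mul, mul_div_assoc]

lemma conj_rot (e u w : ℂ) (he : ‖e‖ = 1) : e * w * conj (e * u) = w * conj u := by
  have h : e * conj e = 1 := by
    rw [Complex.mul_conj, Complex.normSq_eq_norm_sq, he]
    norm_num
  rw [map_mul]
  calc e * w * (conj e * conj u) = (e * conj e) * (w * conj u) := by ring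
    _ = w * conj u := by rw [h, one_mul]

lemma nu_rot (e u w : ℂ) (he : ‖e‖ = 1) : nu (e * u) (e * w) = e * nu u w := by
  unfold nu
  rw [conj_rot e u w he, norm_mul, he, one_mul]
  ring

lemma rho_rot (e u w : ℂ) (he : ‖e‖ = 1) : rho (e * u) (e * w) = e * rho u w := by
  unfold rho
  rw [conj_rot e u w he, norm_mul, he, one_mul]
  ring

lemma measurable_S : Measurable S := by
  unfold S
  exact measurable_id.div (Complex.measurable_ofReal.comp measurable_norm)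

lemma continuous_nu : Continuous fun p : ℂ × ℂ => nu p.1 p.2 := by
  unfold nu
  fun_prop

lemma continuous_rho : Continuous fun p : ℂ × ℂ => rho p.1 p.2 := by
  unfold rho
  fun_prop

lemma measurable_FF : Measurable fun p : ℂ × ℂ => FF p.1 p.2 := by
  unfold FF
  exact ((measurable_S.comp measurable_fst).add continuous_nu.measurable).add
    continuous_rho.measurable

lemma measurable_ff : Measurable fun p : ℂ × ℂ => ff p.1 p.2 := by
  unfold ff
  exact measurable_FF.div (Complex.measurable_ofReal.comp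
    (measurable_const.max measurable_FF.norm))

end Pool.Agent.KGU
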