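import Pool.Agent.KGU.NormA
import Pool.Agent.KGU.Trunc

/-! The `L²` norms of `nu`, `rho` and `|rho|²`, from `mom_im`.

`‖nu‖² = cc²/(1+2κ)³ = 2.918e-4`,
`‖rho‖² = (cc²/4a)² (3/4) [120/8⁶ + 2a² 24/8⁵ + a⁴ 6/8⁴] = 1.05997e-7`
(`1 + 4κ = 8`, `a² = π/4`, `cc² = (23/250)² π`; the bound `(326/10^6)² = 1.06276e-7` is tight to
0.26 percent, so use a good bound for `π`),
`∫ |rho|⁴ = (cc²/4a)⁴ (105/16) Σ_k C(4,k) a^(2(4-k)) (6+k)!/15^(7+k) = 2.43e-13`. -/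

open MeasureTheory Real
open scoped ComplexConjugate

namespace Pool.Agent.KGU

/-- the elementary moment function -/
private noncomputable def mf (p : ℝ) (m k : ℕ) (x : ℂ × ℂ) : ℝ :=
  rexp (-p * ‖x.1‖ ^ 2) * ‖x.1‖ ^ (2 * m) * (x.2 * conj x.1).im ^ (2 * k)

private lemma mf_int (p : ℝ) (hp : 0 ≤ p) (m k : ℕ) : Integrable (mf p m k) (gam.prod gam) :=
  integrable_im p hp m k

private lemma mf_val (p : ℝ) (hp : 0 ≤ p) (m k : ℕ) :
    ∫ x, mf p m k x ∂(gam.prod gam) =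
      ((2 * k).factorial : ℝ) / (4 ^ k * k.factorial) * ((m + k).factorial : ℝ) /
        (1 + p) ^ (m + k + 1) := mom_im p hp m k

private lemma nu_sq (x : ℂ × ℂ) : ‖nu x.1 x.2‖ ^ 2 = cc ^ 2 * mf (2 * kap) 1 1 x := by
  have e : rexp (-(2 * kap) * ‖x.1‖ ^ 2) = rexp (-kap * ‖x.1‖ ^ 2) ^ 2 := by
    rw [← Real.exp_nat_mul]
    congr 1
    push_cast
    ring
  unfold nu mf
  rw [e, norm_mul, norm_neg, norm_mul, Complex.norm_I, one_mul, Complex.norm_real,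
    Real.norm_eq_abs, mul_pow, sq_abs]
  ring

private lemma rho_sq (x : ℂ × ℂ) : ‖rho x.1 x.2‖ ^ 2 = (cc ^ 2 / (4 * aa)) ^ 2 *
    (mf (4 * kap) 3 2 x + 2 * aa ^ 2 * mf (4 * kap) 2 2 x + aa ^ 4 * mf (4 * kap) 1 2 x) := by
  have e : rexp (-(4 * kap) * ‖x.1‖ ^ 2) = rexp (-(2 * kap) * ‖x.1‖ ^ 2) ^ 2 := by
    rw [← Real.exp_nat_mul]
    congr 1
    push_cast
    ring
  unfold rho mf
  rw [e, norm_mul, norm_neg, Complex.norm_real, Real.norm_eq_abs, mul_pow, sq_abs]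
  ring

private lemma rho_four (x : ℂ × ℂ) : ‖rho x.1 x.2‖ ^ 4 = (cc ^ 2 / (4 * aa)) ^ 4 *
    (mf (8 * kap) 6 4 x + 4 * aa ^ 2 * mf (8 * kap) 5 4 x + 6 * aa ^ 4 * mf (8 * kap) 4 4 x +
      4 * aa ^ 6 * mf (8 * kap) 3 4 x + aa ^ 8 * mf (8 * kap) 2 4 x) := by
  have e : rexp (-(8 * kap) * ‖x.1‖ ^ 2) = rexp (-(2 * kap) * ‖x.1‖ ^ 2) ^ 4 := by
    rw [← Real.exp_nat_mul]
    congr 1
    push_cast
    ring
  have e2 : ‖rho x.1 x.2‖ ^ 4 = (‖rho x.1 x.2‖ ^ 2) ^ 2 := by ring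
  rw [e2]
  unfold rho mf
  rw [e, norm_mul, norm_neg, Complex.norm_real, Real.norm_eq_abs, mul_pow, sq_abs]
  ring

private lemma kap_nonneg : 0 ≤ kap := by unfold kap; norm_num

lemma integrable_nu_sq : Integrable (fun x : ℂ × ℂ => ‖nu x.1 x.2‖ ^ 2) (gam.prod gam) := by
  simp only [nu_sq]
  exact (mf_int _ (by have := kap_nonneg; linarith) 1 1).const_mul _

lemma integrable_rho_sq : Integrable (fun x : ℂ × ℂ => ‖rho x.1 x.2‖ ^ 2) (gam.prod gam) := by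
  have h : 0 ≤ 4 * kap := by have := kap_nonneg; linarith
  simp only [rho_sq]
  exact (((mf_int _ h 3 2).add ((mf_int _ h 2 2).const_mul _)).add
    ((mf_int _ h 1 2).const_mul _)).const_mul _

lemma integrable_rho_four : Integrable (fun x : ℂ × ℂ => ‖rho x.1 x.2‖ ^ 4) (gam.prod gam) := by
  have h : 0 ≤ 8 * kap := by have := kap_nonneg; linarith
  simp only [rho_four]
  exact (((((mf_int _ h 6 4).add ((mf_int _ h 5 4).const_mul _)).add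
    ((mf_int _ h 4 4).const_mul _)).add ((mf_int _ h 3 4).const_mul _)).add
    ((mf_int _ h 2 4).const_mul _)).const_mul _

private lemma cc_sq : cc ^ 2 = (23 / 250) ^ 2 * π := by
  unfold cc
  rw [mul_pow, Real.sq_sqrt Real.pi_pos.le]

private lemma aa_sq : aa ^ 2 = π / 4 := by
  unfold aa
  rw [div_pow, Real.sq_sqrt Real.pi_pos.le]
  norm_num

private lemma K_sq : (cc ^ 2 / (4 * aa)) ^ 2 = (23 / 250) ^ 4 * π / 4 := by
  rw [div_pow, mul_pow, aa_sq, cc_sq]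
  have := Real.pi_ne_zero
  field_simp

theorem nu_sq_le : ∫ x : ℂ × ℂ, ‖nu x.1 x.2‖ ^ 2 ∂(gam.prod gam) ≤ (171 / 10000 : ℝ) ^ 2 := by
  simp only [nu_sq]
  rw [integral_const_mul, mf_val _ (by have := kap_nonneg; linarith), cc_sq]
  have h := Real.pi_lt_d4
  unfold kap
  norm_num [Nat.factorial]
  linarith

theorem rho_sq_le : ∫ x : ℂ × ℂ, ‖rho x.1 x.2‖ ^ 2 ∂(gam.prod gam) ≤ (326 / 10 ^ 6 : ℝ) ^ 2 := by
  have hk : 0 ≤ 4 * kap := by have := kap_nonneg; linarith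
  simp only [rho_sq]
  have i3 := mf_int _ hk 3 2
  have i2 := (mf_int _ hk 2 2).const_mul (2 * aa ^ 2)
  have i1 := (mf_int _ hk 1 2).const_mul (aa ^ 4)
  have j2 : Integrable (fun x => mf (4 * kap) 3 2 x + 2 * aa ^ 2 * mf (4 * kap) 2 2 x)
    (gam.prod gam) := i3.add i2
  rw [integral_const_mul, integral_add j2 i1, integral_add i3 i2, integral_const_mul,
    integral_const_mul, mf_val _ hk, mf_val _ hk, mf_val _ hk, K_sq]
  have a4 : aa ^ 4 = (π / 4) ^ 2 := by rw [← aa_sq]; ring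
  rw [a4, aa_sq]
  have h := Real.pi_lt_d4
  have h0 := Real.pi_pos
  have h2 : π ^ 2 ≤ 3.1416 ^ 2 := by gcongr
  have h3 : π ^ 3 ≤ 3.1416 ^ 3 := by gcongr
  unfold kap
  norm_num [Nat.factorial]
  nlinarith [h, h2, h3]

theorem rho_four_le : ∫ x : ℂ × ℂ, ‖rho x.1 x.2‖ ^ 4 ∂(gam.prod gam) ≤ 4 / 10 ^ 12 := by
  have hk : 0 ≤ 8 * kap := by have := kap_nonneg; linarith
  have i6 := mf_int _ hk 6 4
  have i5 := (mf_int _ hk 5 4).const_mul (4 * aa ^ 2)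
  have i4 := (mf_int _ hk 4 4).const_mul (6 * aa ^ 4)
  have i3 := (mf_int _ hk 3 4).const_mul (4 * aa ^ 6)
  have i2 := (mf_int _ hk 2 4).const_mul (aa ^ 8)
  have j5 : Integrable (fun x => mf (8 * kap) 6 4 x + 4 * aa ^ 2 * mf (8 * kap) 5 4 x)
    (gam.prod gam) := i6.add i5
  have j4 : Integrable (fun x => mf (8 * kap) 6 4 x + 4 * aa ^ 2 * mf (8 * kap) 5 4 x +
    6 * aa ^ 4 * mf (8 * kap) 4 4 x) (gam.prod gam) := j5.add i4
  have j3 : Integrable (fun x => mf (8 * kap) 6 4 x + 4 * aa ^ 2 * mf (8 * kap) 5 4 x +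
    6 * aa ^ 4 * mf (8 * kap) 4 4 x + 4 * aa ^ 6 * mf (8 * kap) 3 4 x) (gam.prod gam) :=
    j4.add i3
  simp only [rho_four]
  rw [integral_const_mul, integral_add j3 i2, integral_add j4 i3, integral_add j5 i4,
    integral_add i6 i5,
    integral_const_mul, integral_const_mul, integral_const_mul, integral_const_mul,
    mf_val _ hk, mf_val _ hk, mf_val _ hk, mf_val _ hk, mf_val _ hk]
  have a4 : aa ^ 4 = (π / 4) ^ 2 := by rw [← aa_sq]; ring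
  have a6 : aa ^ 6 = (π / 4) ^ 3 := by rw [← aa_sq]; ring
  have a8 : aa ^ 8 = (π / 4) ^ 4 := by rw [← aa_sq]; ring
  have K4 : (cc ^ 2 / (4 * aa)) ^ 4 = ((23 / 250) ^ 4 * π / 4) ^ 2 := by rw [← K_sq]; ring
  rw [a4, a6, a8, aa_sq, K4]
  have h := Real.pi_lt_d4
  have h0 := Real.pi_pos
  have h2 : π ^ 2 ≤ 3.1416 ^ 2 := by gcongr
  have h3 : π ^ 3 ≤ 3.1416 ^ 3 := by gcongr
  have h4 : π ^ 4 ≤ 3.1416 ^ 4 := by gcongr
  have h5 : π ^ 5 ≤ 3.1416 ^ 5 := by gcongr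
  have h6 : π ^ 6 ≤ 3.1416 ^ 6 := by gcongr
  unfold kap
  norm_num [Nat.factorial]
  nlinarith [h, h2, h3, h4, h5, h6]

end Pool.Agent.KGU
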