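import Pool.Agent.KGU.GamMom

/-! The `L²` norms of `nu`, `rho` and `|rho|²`.

`mom_im`: `Im(w conj u)^(2k) = (-1)^k 4^(-k) (w conj u - conj w u)^(2k)`; binomial theorem and
`gam_mono` in `w`: `∫ Im(w conj u)^(2k) dw = (2k)!/(4^k k!) |u|^(2k)` (only the middle term
survives; or: rotate `w` so that `conj u` becomes `|u|`, then it is `|u|^(2k) ∫ (Im w)^(2k)`),
then `gam_norm_pow`.

`‖nu‖² = cc²/(1+2κ)³ = 2.918e-4`,
`‖rho‖² = (cc²/4a)² (3/4) [120/8⁶ + 2a² 24/8⁵ + a⁴ 6/8⁴] = 1.05997e-7`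
(`1 + 4κ = 8`, `a² = π/4`, `cc² = (23/250)² π`),
`∫ |rho|⁴ = (cc²/4a)⁴ (105/16) Σ_k C(4,k) a^(2(4-k)) (6+k)!/15^(7+k) = 2.43e-13`. -/

open MeasureTheory Real
open scoped ComplexConjugate

namespace Pool.Agent.KGU

private lemma nrmA_im_int (u : ℂ) (k : ℕ) :
    ∫ w, (w * conj u).im ^ (2 * k) ∂gam =
      ((2 * k).factorial : ℝ) / (4 ^ k * k.factorial) * ‖u‖ ^ (2 * k) := by
  have key : ∀ w : ℂ, (((w * conj u).im ^ (2 * k) : ℝ) : ℂ) =
      ∑ j ∈ Finset.range (2 * k + 1), (conj u ^ j * (-u) ^ (2 * k - j) * ((2 * k).choose j : ℂ) /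
        (2 * Complex.I) ^ (2 * k)) * (w ^ j * conj w ^ (2 * k - j)) := by
    intro w
    have h1 : (((w * conj u).im : ℝ) : ℂ) = (w * conj u + -u * conj w) / (2 * Complex.I) := by
      rw [Complex.im_eq_sub_conj, map_mul, Complex.conj_conj]
      ring
    rw [Complex.ofReal_pow, h1, div_pow, add_pow, Finset.sum_div]
    refine Finset.sum_congr rfl fun j _ => ?_
    rw [mul_pow, mul_pow]
    ring
  have h2 : ((∫ w, (w * conj u).im ^ (2 * k) ∂gam : ℝ) : ℂ) =
      (((2 * k).factorial : ℝ) / (4 ^ k * k.factorial) * ‖u‖ ^ (2 * k) : ℝ) := by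
    rw [← integral_complex_ofReal]
    simp only [key]
    rw [integral_finsetSum _ fun j _ => (integrable_mono j (2 * k - j)).const_mul _]
    simp only [integral_const_mul, gam_mono]
    rw [Finset.sum_eq_single k]
    · have h3 : 2 * k - k = k := by omega
      rw [h3, if_pos rfl, Nat.choose_eq_factorial_div_factorial (by omega), h3, neg_pow u k]
      have h4 : ((2 * k).factorial / (k.factorial * k.factorial) : ℕ) * (k.factorial : ℂ) =
          ((2 * k).factorial : ℂ) / (k.factorial : ℂ) := by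
        have h5 : k.factorial * k.factorial ∣ (2 * k).factorial := by
          rw [two_mul]
          exact Nat.factorial_mul_factorial_dvd_factorial_add k k
        rw [Nat.cast_div h5 (by exact_mod_cast (mul_pos k.factorial_pos k.factorial_pos).ne')]
        have h6 : (k.factorial : ℂ) ≠ 0 := by exact_mod_cast k.factorial_pos.ne'
        push_cast
        field_simp
      have h7 : (2 * Complex.I) ^ (2 * k) = (-4 : ℂ) ^ k := by
        rw [pow_mul]
        congr 1
        rw [mul_pow, Complex.I_sq]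
        norm_num
      have h8 : conj u ^ k * u ^ k = ((‖u‖ ^ (2 * k) : ℝ) : ℂ) := by
        rw [← mul_pow, mul_comm (conj u) u, Complex.mul_conj, Complex.normSq_eq_norm_sq]
        push_cast
        rw [pow_mul]
      have h9 : (-4 : ℂ) ^ k = (-1) ^ k * 4 ^ k := by rw [← mul_pow]; norm_num
      have h10 : ((-1 : ℂ) ^ k) ≠ 0 := pow_ne_zero _ (by norm_num)
      have h11 : ((4 : ℂ) ^ k) ≠ 0 := pow_ne_zero _ (by norm_num)
      have h12 : (k.factorial : ℂ) ≠ 0 := by exact_mod_cast k.factorial_pos.ne'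
      rw [h7, h9]
      calc conj u ^ k * ((-1) ^ k * u ^ k) *
            (((2 * k).factorial / (k.factorial * k.factorial) : ℕ) : ℂ) /
            ((-1) ^ k * 4 ^ k) * (k.factorial : ℂ) = (conj u ^ k * u ^ k) *
            ((((2 * k).factorial / (k.factorial * k.factorial) : ℕ) : ℂ) * (k.factorial : ℂ)) /
            4 ^ k := by
              field_simp
        _ = _ := by
          rw [h4, h8]
          push_cast
          field_simp
    · intro j hj hjk
      rw [if_neg (by rw [Finset.mem_range] at hj; omega), mul_zero]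
    · intro hk
      exact absurd (Finset.mem_range.mpr (by omega)) hk
  exact_mod_cast h2

lemma integrable_im (p : ℝ) (hp : 0 ≤ p) (m k : ℕ) :
    Integrable (fun x : ℂ × ℂ => rexp (-p * ‖x.1‖ ^ 2) * ‖x.1‖ ^ (2 * m) *
      (x.2 * conj x.1).im ^ (2 * k)) (gam.prod gam) := by
  have h1 : Integrable (fun x : ℂ × ℂ => ((rexp (-p * ‖x.1‖ ^ 2) * ‖x.1‖ ^ (2 * m) *
      (x.2 * conj x.1).im ^ (2 * k) : ℝ) : ℂ)) (gam.prod gam) := by
    refine integrable_growth2 (by fun_prop) 1 (2 * m + 2 * k) fun z => ?_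
    rw [Complex.norm_real, Real.norm_eq_abs, abs_mul, abs_mul, abs_of_pos (Real.exp_pos _),
      abs_of_nonneg (by positivity : (0 : ℝ) ≤ ‖z.1‖ ^ (2 * m)), abs_pow, one_mul]
    have e1 : rexp (-p * ‖z.1‖ ^ 2) ≤ 1 := by
      rw [Real.exp_le_one_iff]
      nlinarith [sq_nonneg ‖z.1‖]
    have e2 : |(z.2 * conj z.1).im| ≤ ‖z.2‖ * ‖z.1‖ := by
      refine (Complex.abs_im_le_norm _).trans (le_of_eq ?_)
      rw [norm_mul, Complex.norm_conj]
    have a1 : 0 ≤ ‖z.1‖ := norm_nonneg _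
    have a2 : 0 ≤ ‖z.2‖ := norm_nonneg _
    calc rexp (-p * ‖z.1‖ ^ 2) * ‖z.1‖ ^ (2 * m) * |(z.2 * conj z.1).im| ^ (2 * k)
        ≤ 1 * ‖z.1‖ ^ (2 * m) * (‖z.2‖ * ‖z.1‖) ^ (2 * k) := by
          refine mul_le_mul (mul_le_mul_of_nonneg_right e1 (by positivity))
            (pow_le_pow_left₀ (abs_nonneg _) e2 _) (by positivity) (by positivity)
      _ = ‖z.1‖ ^ (2 * m + 2 * k) * ‖z.2‖ ^ (2 * k) := by ring
      _ ≤ (1 + ‖z.1‖) ^ (2 * m + 2 * k) * (1 + ‖z.2‖) ^ (2 * m + 2 * k) := by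
          refine mul_le_mul (pow_le_pow_left₀ a1 (by linarith) _)
            ((pow_le_pow_left₀ a2 (by linarith) _).trans
              (pow_le_pow_right₀ (by linarith) (by omega))) (by positivity) (by positivity)
  exact h1.re

theorem mom_im (p : ℝ) (hp : 0 ≤ p) (m k : ℕ) :
    ∫ x : ℂ × ℂ, rexp (-p * ‖x.1‖ ^ 2) * ‖x.1‖ ^ (2 * m) * (x.2 * conj x.1).im ^ (2 * k)
        ∂(gam.prod gam) =
      ((2 * k).factorial : ℝ) / (4 ^ k * k.factorial) * ((m + k).factorial : ℝ) /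
        (1 + p) ^ (m + k + 1) := by
  rw [integral_prod _ (integrable_im p hp m k)]
  have h1 : ∀ u : ℂ, ∫ w, rexp (-p * ‖u‖ ^ 2) * ‖u‖ ^ (2 * m) * (w * conj u).im ^ (2 * k) ∂gam =
      ((2 * k).factorial : ℝ) / (4 ^ k * k.factorial) *
        (rexp (-p * ‖u‖ ^ 2) * ‖u‖ ^ (2 * (m + k))) := by
    intro u
    rw [integral_const_mul, nrmA_im_int]
    ring
  simp only [h1]
  rw [integral_const_mul, gam_norm_pow (m + k) p hp]
  ring

end Pool.Agent.KGU
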