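import Pool.Agent.KGU.CanP

/-! Expectations for a pair of vectors.

* `E4_swap`: `law4_swap`.
* `pair_eq`: replace `a'` by `conj e • a'`, `b'` by `conj e • b'` (so `lf` is multiplied by `e`,
  the cross inner products become real), use `law4` and equivariance:
  `g u' w' = g (conj e * u'') (conj e * w'') = conj e * g u'' w''`.
* `pair_FF`: expand the product of the two sums; all products are integrable (`L²`); use
  `pair_eq` for the six explicit terms, `E4_swap` for `S conj nu` and `S conj rho`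
  (these are complex conjugates of `nu conj S`, real by `E_nuS`), and `Psi_eq`. -/

open MeasureTheory Real
open scoped ComplexConjugate

namespace Pool.Agent.KGU

variable {ι : Type} [Fintype ι]

lemma E4_swap {s : ℝ} (h0 : 0 ≤ s) (h1 : s < 1) (f : ℂ → ℂ → ℂ → ℂ → ℂ)
    (hf : Measurable fun p : Q4 => f p.1 p.2.1 p.2.2.1 p.2.2.2) :
    E4 s (fun u w u' w' => f u' w' u w) = E4 s f := by
  have hm1 : Measurable fun g : Q4 => (cu' g, cw' s g, cu s g, cw s g) :=
    cu'_cont.measurable.prodMk ((cw'_cont s).measurable.prodMk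
      ((cu_cont s).measurable.prodMk (cw_cont s).measurable))
  have hm2 : Measurable fun g : Q4 => (cu s g, cw s g, cu' g, cw' s g) :=
    (cu_cont s).measurable.prodMk ((cw_cont s).measurable.prodMk
      (cu'_cont.measurable.prodMk (cw'_cont s).measurable))
  have e1 : E4 s (fun u w u' w' => f u' w' u w) =
      ∫ p, (fun p : Q4 => f p.1 p.2.1 p.2.2.1 p.2.2.2) p
        ∂(Measure.map (fun g => (cu' g, cw' s g, cu s g, cw s g)) g4) := by
    rw [integral_map hm1.aemeasurable hf.aestronglyMeasurable]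
    rfl
  have e2 : E4 s f =
      ∫ p, (fun p : Q4 => f p.1 p.2.1 p.2.2.1 p.2.2.2) p
        ∂(Measure.map (fun g => (cu s g, cw s g, cu' g, cw' s g)) g4) := by
    rw [integral_map hm2.aemeasurable hf.aestronglyMeasurable]
    rfl
  rw [e1, e2, law4_swap h0 h1]

/-- the Gram conditions for one function -/
def Orth (a b : EuclideanSpace ℂ ι) : Prop :=
  inner ℂ a a = (1 : ℂ) ∧ inner ℂ b b = (1 : ℂ) ∧ inner ℂ a b = (0 : ℂ)

/-- the Gram conditions for a pair -/
def Cross (r : ℝ) (e : ℂ) (a b a' b' : EuclideanSpace ℂ ι) : Prop :=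
  inner ℂ a a' = (hh r : ℂ) * e ∧ inner ℂ a b' = (th r : ℂ) * e ∧
    inner ℂ b a' = (th r : ℂ) * e ∧ inner ℂ b b' = (kk r : ℂ) * e

theorem pair_eq {r : ℝ} (h0 : 0 ≤ r) (h1 : r < 1) {e : ℂ} (he : ‖e‖ = 1)
    {a b a' b' : EuclideanSpace ℂ ι} (hab : Orth a b) (hab' : Orth a' b')
    (hc : Cross r e a b a' b') (f g : ℂ → ℂ → ℂ)
    (hf : Measurable fun p : ℂ × ℂ => f p.1 p.2) (hg : Measurable fun p : ℂ × ℂ => g p.1 p.2)
    (hge : ∀ (e u w : ℂ), ‖e‖ = 1 → g (e * u) (e * w) = e * g u w) :
    ∫ x, f (lf a x) (lf b x) * conj (g (lf a' x) (lf b' x)) ∂(GN ι) =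
      e * E4 r (fun u w u' w' => f u w * conj (g u' w')) := by
  obtain ⟨haa, hbb, hab0⟩ := hab
  obtain ⟨haa', hbb', hab0'⟩ := hab'
  obtain ⟨c1, c2, c3, c4⟩ := hc
  have hee : conj e * e = 1 := by
    rw [← Complex.normSq_eq_conj_mul_self, Complex.normSq_eq_norm_sq, he]
    simp
  have hee' : e * conj e = 1 := by rw [mul_comm]; exact hee
  have hce : ‖conj e‖ = 1 := by rw [Complex.norm_conj, he]
  -- the rotated vectors
  set a2 : EuclideanSpace ℂ ι := conj e • a' with ha2
  set b2 : EuclideanSpace ℂ ι := conj e • b' with hb2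
  have hlf : ∀ (c : EuclideanSpace ℂ ι) (x : ι → ℂ), lf c x = conj e * lf (conj e • c) x := by
    intro c x
    unfold lf
    rw [Finset.mul_sum]
    apply Finset.sum_congr rfl
    intro k _
    rw [PiLp.smul_apply, smul_eq_mul, map_mul, Complex.conj_conj]
    calc conj (c k) * x k = (conj e * e) * (conj (c k) * x k) := by rw [hee, one_mul]
      _ = _ := by ring
  have hlaw := law4 h0 h1 a b a2 b2 haa hbb hab0
    (by rw [ha2, inner_smul_left, inner_smul_right, haa', Complex.conj_conj, mul_one, hee'])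
    (by rw [hb2, inner_smul_left, inner_smul_right, hbb', Complex.conj_conj, mul_one, hee'])
    (by rw [ha2, hb2, inner_smul_left, inner_smul_right, hab0', mul_zero, mul_zero])
    (by rw [ha2, inner_smul_right, c1, mul_left_comm, hee, mul_one])
    (by rw [hb2, inner_smul_right, c2, mul_left_comm, hee, mul_one])
    (by rw [ha2, inner_smul_right, c3, mul_left_comm, hee, mul_one])
    (by rw [hb2, inner_smul_right, c4, mul_left_comm, hee, mul_one])
  have hF : Measurable fun p : Q4 => f p.1 p.2.1 * conj (g p.2.2.1 p.2.2.2) := by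
    have hf' : Measurable fun p : Q4 => f p.1 p.2.1 :=
      hf.comp (measurable_fst.prodMk (measurable_fst.comp measurable_snd))
    have hg' : Measurable fun p : Q4 => g p.2.2.1 p.2.2.2 :=
      hg.comp (measurable_snd.comp measurable_snd)
    exact hf'.mul (Complex.continuous_conj.measurable.comp hg')
  have hm1 : Measurable fun x : ι → ℂ => (lf a x, lf b x, lf a2 x, lf b2 x) :=
    (continuous_lf a).measurable.prodMk ((continuous_lf b).measurable.prodMk
      ((continuous_lf a2).measurable.prodMk (continuous_lf b2).measurable))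
  have hm2 : Measurable fun g : Q4 => (cu r g, cw r g, cu' g, cw' r g) :=
    (cu_cont r).measurable.prodMk ((cw_cont r).measurable.prodMk
      (cu'_cont.measurable.prodMk (cw'_cont r).measurable))
  have e1 : ∀ x : ι → ℂ, f (lf a x) (lf b x) * conj (g (lf a' x) (lf b' x)) =
      e * (f (lf a x) (lf b x) * conj (g (lf a2 x) (lf b2 x))) := by
    intro x
    rw [hlf a' x, hlf b' x, ← ha2, ← hb2, hge _ _ _ hce, map_mul, Complex.conj_conj]
    ring
  simp only [e1]
  rw [integral_const_mul]
  congr 1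
  have e2 : ∫ x, f (lf a x) (lf b x) * conj (g (lf a2 x) (lf b2 x)) ∂(GN ι) =
      ∫ p, (fun p : Q4 => f p.1 p.2.1 * conj (g p.2.2.1 p.2.2.2)) p
        ∂(Measure.map (fun x => (lf a x, lf b x, lf a2 x, lf b2 x)) (GN ι)) := by
    rw [integral_map hm1.aemeasurable hF.aestronglyMeasurable]
  have e3 : E4 r (fun u w u' w' => f u w * conj (g u' w')) =
      ∫ p, (fun p : Q4 => f p.1 p.2.1 * conj (g p.2.2.1 p.2.2.2)) p
        ∂(Measure.map (fun g => (cu r g, cw r g, cu' g, cw' r g)) g4) := by
    rw [integral_map hm2.aemeasurable hF.aestronglyMeasurable]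
    rfl
  rw [e2, e3, hlaw]

end Pool.Agent.KGU
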