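import Pool.Agent.KGU.Sgn
import Pool.Agent.KGU.Norm
import Pool.Agent.KGU.PairA

/-! Norms of the functions, and the main formula for a pair.

* norms: `law2` and `Norm.lean` (`integral_map`).
* `pair_FF`: expand the product of the two sums; all products are integrable (`L²`); use
  `pair_eq` for the six explicit terms, `E4_swap` for `S conj nu` and `S conj rho`
  (these are complex conjugates of `nu conj S`, `rho conj S`, real by `E_nuS`, `E_rhoS`), and
  `Psi_eq`. -/

open MeasureTheory Real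
open scoped ComplexConjugate

namespace Pool.Agent.KGU

variable {ι : Type} [Fintype ι]

lemma measurable_lf2 (a b : EuclideanSpace ℂ ι) :
    Measurable fun x : ι → ℂ => (lf a x, lf b x) :=
  (continuous_lf a).measurable.prodMk (continuous_lf b).measurable

lemma law_orth {a b : EuclideanSpace ℂ ι} (hab : Orth a b) :
    Measure.map (fun x => (lf a x, lf b x)) (GN ι) = gam.prod gam :=
  law2 a b hab.1 hab.2.1 hab.2.2

/-- transfer of integrals -/
lemma int_orth {a b : EuclideanSpace ℂ ι} (hab : Orth a b) {E : Type*} [NormedAddCommGroup E]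
    [NormedSpace ℝ E] {f : ℂ × ℂ → E} (hf : AEStronglyMeasurable f (gam.prod gam)) :
    ∫ x, f (lf a x, lf b x) ∂(GN ι) = ∫ p, f p ∂(gam.prod gam) := by
  rw [← law_orth hab] at hf ⊢
  rw [integral_map (measurable_lf2 a b).aemeasurable hf]

lemma integrable_orth {a b : EuclideanSpace ℂ ι} (hab : Orth a b) {E : Type*}
    [NormedAddCommGroup E] {f : ℂ × ℂ → E} (hf : Integrable f (gam.prod gam)) :
    Integrable (fun x => f (lf a x, lf b x)) (GN ι) := by
  rw [← law_orth hab] at hf
  exact hf.comp_measurable (measurable_lf2 a b)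

lemma memLp_conj {f : (ι → ℂ) → ℂ} (hf : MemLp f 2 (GN ι)) :
    MemLp (fun x => conj (f x)) 2 (GN ι) := by
  refine hf.of_le (Complex.continuous_conj.comp_aestronglyMeasurable hf.1) ?_
  filter_upwards with x
  simp

/-- norms transfer -/
lemma memLp_nu {a b : EuclideanSpace ℂ ι} (hab : Orth a b) :
    MemLp (fun x => nu (lf a x) (lf b x)) 2 (GN ι) := by
  have h : AEStronglyMeasurable (fun x => nu (lf a x) (lf b x)) (GN ι) :=
    (continuous_nu.measurable.comp (measurable_lf2 a b)).aestronglyMeasurable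
  rw [memLp_two_iff_integrable_sq_norm h]
  exact integrable_orth hab integrable_nu_sq

lemma memLp_rho {a b : EuclideanSpace ℂ ι} (hab : Orth a b) :
    MemLp (fun x => rho (lf a x) (lf b x)) 2 (GN ι) := by
  have h : AEStronglyMeasurable (fun x => rho (lf a x) (lf b x)) (GN ι) :=
    (continuous_rho.measurable.comp (measurable_lf2 a b)).aestronglyMeasurable
  rw [memLp_two_iff_integrable_sq_norm h]
  exact integrable_orth hab integrable_rho_sq

lemma memLp_S {a b : EuclideanSpace ℂ ι} (_hab : Orth a b) :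
    MemLp (fun x => S (lf a x)) 2 (GN ι) := by
  refine MemLp.of_bound (measurable_S.comp (continuous_lf a).measurable).aestronglyMeasurable 1 ?_
  filter_upwards with x
  exact S_norm_le _

lemma memLp_FF {a b : EuclideanSpace ℂ ι} (hab : Orth a b) :
    MemLp (fun x => FF (lf a x) (lf b x)) 2 (GN ι) :=
  ((memLp_S hab).add (memLp_nu hab)).add (memLp_rho hab)

lemma memLp_ff {a b : EuclideanSpace ℂ ι} (_hab : Orth a b) :
    MemLp (fun x => ff (lf a x) (lf b x)) 2 (GN ι) := by
  refine MemLp.of_bound (measurable_ff.comp (measurable_lf2 a b)).aestronglyMeasurable 1 ?_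
  filter_upwards with x
  exact ff_norm _ _

lemma nu_int_le {a b : EuclideanSpace ℂ ι} (hab : Orth a b) :
    ∫ x, ‖nu (lf a x) (lf b x)‖ ^ 2 ∂(GN ι) ≤ (171 / 10000 : ℝ) ^ 2 := by
  have h := int_orth hab (f := fun p : ℂ × ℂ => ‖nu p.1 p.2‖ ^ 2) integrable_nu_sq.1
  simp only at h
  rw [h]
  exact nu_sq_le

lemma rho_int_le {a b : EuclideanSpace ℂ ι} (hab : Orth a b) :
    ∫ x, ‖rho (lf a x) (lf b x)‖ ^ 2 ∂(GN ι) ≤ (326 / 10 ^ 6 : ℝ) ^ 2 := by
  have h := int_orth hab (f := fun p : ℂ × ℂ => ‖rho p.1 p.2‖ ^ 2) integrable_rho_sq.1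
  simp only at h
  rw [h]
  exact rho_sq_le

lemma ff_int_le {a b : EuclideanSpace ℂ ι} (_hab : Orth a b) :
    ∫ x, ‖ff (lf a x) (lf b x)‖ ^ 2 ∂(GN ι) ≤ (1 : ℝ) ^ 2 := by
  have h : ∫ x, ‖ff (lf a x) (lf b x)‖ ^ 2 ∂(GN ι) ≤ ∫ _x, (1 : ℝ) ∂(GN ι) := by
    apply integral_mono_of_nonneg
    · filter_upwards with x
      exact sq_nonneg _
    · exact integrable_const _
    · filter_upwards with x
      exact pow_le_one₀ (norm_nonneg _) (ff_norm _ _)
  simpa using h

/-- from `res_le` and `rho_four_le` -/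
lemma res_int_le {a b : EuclideanSpace ℂ ι} (hab : Orth a b) :
    ∫ x, ‖FF (lf a x) (lf b x) - ff (lf a x) (lf b x)‖ ^ 2 ∂(GN ι) ≤ (1 / 10 ^ 6 : ℝ) ^ 2 := by
  have h4 := int_orth hab (f := fun p : ℂ × ℂ => ‖rho p.1 p.2‖ ^ 4) integrable_rho_four.1
  simp only at h4
  have hi := integrable_orth hab integrable_rho_four
  simp only at hi
  have h : ∫ x, ‖FF (lf a x) (lf b x) - ff (lf a x) (lf b x)‖ ^ 2 ∂(GN ι) ≤
      ∫ x, (1 / 4 : ℝ) * ‖rho (lf a x) (lf b x)‖ ^ 4 ∂(GN ι) := by
    apply integral_mono_of_nonneg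
    · filter_upwards with x
      exact sq_nonneg _
    · exact hi.const_mul _
    · filter_upwards with x
      have h1 := res_le (lf a x) (lf b x)
      have h2 := pow_le_pow_left₀ (norm_nonneg _) h1 2
      refine h2.trans (le_of_eq ?_)
      ring
  rw [integral_const_mul, h4] at h
  have h5 := rho_four_le
  refine h.trans ?_
  calc (1 / 4 : ℝ) * ∫ x : ℂ × ℂ, ‖rho x.1 x.2‖ ^ 4 ∂(gam.prod gam)
      ≤ 1 / 4 * (4 / 10 ^ 12) := by gcongr
    _ = (1 / 10 ^ 6 : ℝ) ^ 2 := by norm_num

lemma E4_conj (s : ℝ) (f : ℂ → ℂ → ℂ → ℂ → ℂ) :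
    E4 s (fun u w u' w' => conj (f u w u' w')) = conj (E4 s f) := by
  unfold E4
  exact integral_conj

/-- the integral of a product in the other order -/
lemma E4_S_left {s : ℝ} (h0 : 0 ≤ s) (h1 : s < 1) (g : ℂ → ℂ → ℂ)
    (hg : Measurable fun p : ℂ × ℂ => g p.1 p.2) (c : ℝ)
    (hc : E4 s (fun u w u' _ => g u w * conj (S u')) = (c : ℂ)) :
    E4 s (fun u _ u' w' => S u * conj (g u' w')) = (c : ℂ) := by
  have h := E4_swap h0 h1 (fun u w u' _ => conj (g u w * conj (S u'))) (by
    refine Complex.continuous_conj.measurable.comp (Measurable.mul ?_ ?_)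
    · exact hg.comp (measurable_fst.prodMk (measurable_fst.comp measurable_snd))
    · exact Complex.continuous_conj.measurable.comp (measurable_S.comp
        (measurable_fst.comp (measurable_snd.comp measurable_snd))))
  rw [E4_conj s (fun u w u' _ => g u w * conj (S u')), hc, Complex.conj_ofReal] at h
  rw [← h]
  congr 1
  funext u w u' w'
  simp only [map_mul, Complex.conj_conj]
  ring

theorem pair_FF {r : ℝ} (h0 : 0 ≤ r) (h1 : r < 1) {e : ℂ} (he : ‖e‖ = 1)
    {a b a' b' : EuclideanSpace ℂ ι} (hab : Orth a b) (hab' : Orth a' b')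
    (hc : Cross r e a b a' b') :
    ∫ x, FF (lf a x) (lf b x) * conj (FF (lf a' x) (lf b' x)) ∂(GN ι) =
      e * (Psi r : ℝ) +
      ∫ x, nu (lf a x) (lf b x) * conj (rho (lf a' x) (lf b' x)) ∂(GN ι) +
      ∫ x, rho (lf a x) (lf b x) * conj (nu (lf a' x) (lf b' x)) ∂(GN ι) +
      ∫ x, rho (lf a x) (lf b x) * conj (rho (lf a' x) (lf b' x)) ∂(GN ι) := by
  have mS : Measurable fun p : ℂ × ℂ => (fun (u _ : ℂ) => S u) p.1 p.2 :=
    measurable_S.comp measurable_fst
  have mn : Measurable fun p : ℂ × ℂ => nu p.1 p.2 := continuous_nu.measurable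
  have mr : Measurable fun p : ℂ × ℂ => rho p.1 p.2 := continuous_rho.measurable
  have rS : ∀ e u w : ℂ, ‖e‖ = 1 → (fun (u _ : ℂ) => S u) (e * u) (e * w) =
      e * (fun (u _ : ℂ) => S u) u w := fun e u w he => S_rot e u he
  have rn : ∀ e u w : ℂ, ‖e‖ = 1 → nu (e * u) (e * w) = e * nu u w := nu_rot
  have rr : ∀ e u w : ℂ, ‖e‖ = 1 → rho (e * u) (e * w) = e * rho u w := rho_rot
  have pSS := pair_eq h0 h1 he hab hab' hc (fun (u _ : ℂ) => S u) (fun (u _ : ℂ) => S u) mS mS rS
  have pnS := pair_eq h0 h1 he hab hab' hc nu (fun (u _ : ℂ) => S u) mn mS rS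
  have pSn := pair_eq h0 h1 he hab hab' hc (fun (u _ : ℂ) => S u) nu mS mn rn
  have pnn := pair_eq h0 h1 he hab hab' hc nu nu mn mn rn
  have prS := pair_eq h0 h1 he hab hab' hc rho (fun (u _ : ℂ) => S u) mr mS rS
  have pSr := pair_eq h0 h1 he hab hab' hc (fun (u _ : ℂ) => S u) rho mS mr rr
  have cn := E4_S_left h0 h1 nu mn _ (E_nuS h0 h1)
  have cr := E4_S_left h0 h1 rho mr _ (E_rhoS h0 h1)
  rw [← E_nuS h0 h1] at cn
  rw [← E_rhoS h0 h1] at cr
  have hS := memLp_S hab
  have hn := memLp_nu hab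
  have hr := memLp_rho hab
  have hS' := memLp_conj (memLp_S hab')
  have hn' := memLp_conj (memLp_nu hab')
  have hr' := memLp_conj (memLp_rho hab')
  have iSS := hS.integrable_mul hS'
  have iSn := hS.integrable_mul hn'
  have iSr := hS.integrable_mul hr'
  have inS := hn.integrable_mul hS'
  have inn := hn.integrable_mul hn'
  have inr := hn.integrable_mul hr'
  have irS := hr.integrable_mul hS'
  have irn := hr.integrable_mul hn'
  have irr := hr.integrable_mul hr'
  have hexp : ∫ x, FF (lf a x) (lf b x) * conj (FF (lf a' x) (lf b' x)) ∂(GN ι) =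
      ∫ x, S (lf a x) * conj (S (lf a' x)) ∂(GN ι) +
      ∫ x, S (lf a x) * conj (nu (lf a' x) (lf b' x)) ∂(GN ι) +
      ∫ x, S (lf a x) * conj (rho (lf a' x) (lf b' x)) ∂(GN ι) +
      ∫ x, nu (lf a x) (lf b x) * conj (S (lf a' x)) ∂(GN ι) +
      ∫ x, nu (lf a x) (lf b x) * conj (nu (lf a' x) (lf b' x)) ∂(GN ι) +
      ∫ x, nu (lf a x) (lf b x) * conj (rho (lf a' x) (lf b' x)) ∂(GN ι) +
      ∫ x, rho (lf a x) (lf b x) * conj (S (lf a' x)) ∂(GN ι) +
      ∫ x, rho (lf a x) (lf b x) * conj (nu (lf a' x) (lf b' x)) ∂(GN ι) +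
      ∫ x, rho (lf a x) (lf b x) * conj (rho (lf a' x) (lf b' x)) ∂(GN ι) := by
    have q1 := integral_add iSS iSn
    have q2 := integral_add (iSS.add iSn) iSr
    have q3 := integral_add ((iSS.add iSn).add iSr) inS
    have q4 := integral_add (((iSS.add iSn).add iSr).add inS) inn
    have q5 := integral_add ((((iSS.add iSn).add iSr).add inS).add inn) inr
    have q6 := integral_add (((((iSS.add iSn).add iSr).add inS).add inn).add inr) irS
    have q7 := integral_add ((((((iSS.add iSn).add iSr).add inS).add inn).add inr).add irS) irn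
    have q8 := integral_add (((((((iSS.add iSn).add iSr).add inS).add inn).add inr).add irS).add
      irn) irr
    simp only [Pi.add_apply, Pi.mul_apply] at q1 q2 q3 q4 q5 q6 q7 q8
    rw [← q1, ← q2, ← q3, ← q4, ← q5, ← q6, ← q7, ← q8]
    congr 1
    funext x
    unfold FF
    simp only [map_add]
    ring
  rw [hexp, pSS, pSn, pSr, pnS, pnn, prS, cn, cr, ← Psi_eq h0 h1]
  ring

end Pool.Agent.KGU
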