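import Pool.Agent.KGU.Beta

/-! `Psi s` in terms of the series `V m X = Σ m_l X^l`, `X = hh s ^ 2`, `x = s^2`.

`Dl s (t^2) (t'^2) = (1+t^2)(1+t'^2)(1 - τ τ' X)`,
`Dl s κ (t^2) = (1+κ)(1+t^2)(1 - (κ/(1+κ)) τ X)`, `κ = 7/4`, `κ/(1+κ) = 7/11`;
`Dl s (2κ) (t^2) = (9/2)(1+t^2)(1 - (7/9) τ X)`; `Dl s κ κ = (11/4)^2 (1 - (7/11)^2 X)`;
`1 + t^2 sg2 = (1+t^2)(1 - τ X)`, `1 + t^2 (sg2 - θ^2) = (1+t^2)(1 - τ (X + T))`, `T = θ^2`.
With `x = s^2`: `hh s = s (9-x)/10`, `th s = -(3/10) s (1+x)`, `kk s = s (1-9x)/10`,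
`X = x(9-x)^2/100`, `T = (9/100) x (1+x)^2`. Constants: `cc = c1 √π`, `aa = √π/2`, `c1 = 23/250`.

`Psi s / s = (π/4)[η V m1 + (2 c1 (3/10)(1+x)(4/11)^2) V m2
   + c1^2 (kx (1-X) + η T)(4/11)^4 V m3 + 4 c1^2 η (x kx η - T)(4/11)^6 V m4
   - 6 c1^2 (2/9)^4 η (V m5 - (2X+T) V m6 + X(X+T) V m7)]
   - (π^2/4)(c1^2/2)(2/9)^3 η (V m8 - (X+T) V m9)`,
`η = (9-x)/10`, `kx = (1-9x)/10`; the polynomials are the lists `A1, ..., A9` of `Seq.lean`. -/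

open MeasureTheory Real

namespace Pool.Agent.KGU

lemma psis_hh_nonneg {s : ℝ} (h0 : 0 ≤ s) (h1 : s < 1) : 0 ≤ hh s := by
  unfold hh
  nlinarith [mul_nonneg h0 h0, mul_nonneg h0 (sub_nonneg.2 h1.le)]

lemma psis_hh_lt {s : ℝ} (h0 : 0 ≤ s) (h1 : s < 1) : hh s < 1 := by
  unfold hh
  have h3 : 0 ≤ s ^ 3 := pow_nonneg h0 3
  nlinarith

lemma psis_X_lt {s : ℝ} (h0 : 0 ≤ s) (h1 : s < 1) : hh s ^ 2 < 1 := by
  have := psis_hh_nonneg h0 h1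
  have := psis_hh_lt h0 h1
  nlinarith

lemma psis_ta_nonneg (t : ℝ) : 0 ≤ ta t := by
  unfold ta; positivity

lemma psis_ta_lt (t : ℝ) : ta t < 1 := by
  unfold ta
  rw [div_lt_one (by positivity)]
  linarith

/-- positivity of the denominators -/
lemma psis_den {z X : ℝ} (hz0 : 0 ≤ z) (hz1 : z ≤ 1) (hX0 : 0 ≤ X) (hX1 : X < 1) (t : ℝ) :
    0 < 1 - z * ta t * X := by
  have h1 := psis_ta_nonneg t
  have h2 := psis_ta_lt t
  have h3 : z * ta t ≤ 1 := by nlinarith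
  have h4 : 0 ≤ z * ta t := mul_nonneg hz0 h1
  nlinarith

lemma psis_den2 {X : ℝ} (hX0 : 0 ≤ X) (hX1 : X < 1) (t t' : ℝ) :
    0 < 1 - ta t * ta t' * X :=
  psis_den (psis_ta_nonneg t) (psis_ta_lt t).le hX0 hX1 t'

/-- the double integral -/
lemma psis_part1 {s : ℝ} (h0 : 0 ≤ s) (h1 : s < 1) :
    (∫ t in Set.Ioi (0 : ℝ), ∫ t' in Set.Ioi (0 : ℝ), hh s / Dl s (t ^ 2) (t' ^ 2) ^ 2) =
      hh s * ((π / 4) ^ 2 * V m1 (hh s ^ 2)) := by
  have hX0 : 0 ≤ hh s ^ 2 := sq_nonneg _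
  have hX1 := psis_X_lt h0 h1
  have key : ∀ t t' : ℝ, hh s / Dl s (t ^ 2) (t' ^ 2) ^ 2 =
      hh s * (om t * om t' / (1 - ta t * ta t' * hh s ^ 2) ^ 2) := by
    intro t t'
    have hd := psis_den2 hX0 hX1 t t'
    have h2 : Dl s (t ^ 2) (t' ^ 2) =
        (1 + t ^ 2) * (1 + t' ^ 2) * (1 - ta t * ta t' * hh s ^ 2) := by
      unfold Dl ta
      have : (1 + t ^ 2) ≠ 0 := by positivity
      have : (1 + t' ^ 2) ≠ 0 := by positivity
      field_simp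
    rw [h2]
    unfold om
    have : (1 + t ^ 2) ≠ 0 := by positivity
    have : (1 + t' ^ 2) ≠ 0 := by positivity
    have := hd.ne'
    field_simp
  simp_rw [key, integral_const_mul]
  rw [int_ser2 hX0 hX1]
  unfold V m1
  push_cast
  rfl

lemma psis_choose1 (l : ℕ) : ((l + 1).choose 1 : ℝ) = (l : ℝ) + 1 := by
  simp

lemma psis_choose2 (l : ℕ) : ((l + 2).choose 2 : ℝ) = ((l : ℝ) + 1) * (l + 2) / 2 := by
  rw [Nat.cast_choose_two]
  push_cast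
  ring

lemma psis_choose3 (l : ℕ) :
    ((l + 3).choose 3 : ℝ) = ((l : ℝ) + 1) * (l + 2) * (l + 3) / 6 := by
  have h := Nat.add_one_mul_choose_eq (l + 2) 2
  have h2 : (((l + 2 + 1) * (l + 2).choose 2 : ℕ) : ℝ) =
      (((l + 3).choose 3 * (2 + 1) : ℕ) : ℝ) := by
    rw [h]
  rw [Nat.cast_mul, Nat.cast_mul, psis_choose2] at h2
  push_cast at h2
  linarith

/-- the integral of the second part -/
lemma psis_part2 {s : ℝ} (h0 : 0 ≤ s) (h1 : s < 1) :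
    (∫ t in Set.Ioi (0 : ℝ), -(cc / 2) * (th s / Dl s kap (t ^ 2) ^ 2)) =
      -(cc / 2) * th s * (4 / 11) ^ 2 * (π / 4 * V m2 (hh s ^ 2)) := by
  have hX0 : 0 ≤ hh s ^ 2 := sq_nonneg _
  have hX1 := psis_X_lt h0 h1
  have key : ∀ t : ℝ, -(cc / 2) * (th s / Dl s kap (t ^ 2) ^ 2) =
      -(cc / 2) * th s * (4 / 11) ^ 2 *
        (om t * ta t ^ 0 / (1 - 7 / 11 * ta t * hh s ^ 2) ^ (1 + 1)) := by
    intro t
    have hd := (psis_den (z := 7 / 11) (by norm_num) (by norm_num) hX0 hX1 t).ne'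
    have h2 : Dl s kap (t ^ 2) =
        (11 / 4) * (1 + t ^ 2) * (1 - 7 / 11 * ta t * hh s ^ 2) := by
      unfold Dl ta kap
      have : (1 + t ^ 2) ≠ 0 := by positivity
      field_simp
      ring
    rw [h2]
    unfold om
    have : (1 + t ^ 2) ≠ 0 := by positivity
    generalize 1 - 7 / 11 * ta t * hh s ^ 2 = D at hd ⊢
    field_simp
  simp_rw [key, integral_const_mul]
  rw [int_ser 0 1 (by norm_num) (by norm_num) hX0 hX1]
  have e : ∑' l : ℕ, ((l + 1).choose 1 : ℝ) * (7 / 11) ^ l * (mh (l + 0) : ℝ) * (hh s ^ 2) ^ l =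
      V m2 (hh s ^ 2) := by
    unfold V m2
    refine tsum_congr fun l => ?_
    rw [psis_choose1]
    push_cast
    simp
  rw [e]

/-- the coefficient functions of the last part -/
lemma psis_ser5 (X : ℝ) :
    ∑' l : ℕ, ((l + 3).choose 3 : ℝ) * (7 / 9) ^ l * (mh (l + 0) : ℝ) * X ^ l = V m5 X := by
  unfold V m5
  refine tsum_congr fun l => ?_
  rw [psis_choose3]
  push_cast
  simp

lemma psis_ser6 (X : ℝ) :
    ∑' l : ℕ, ((l + 3).choose 3 : ℝ) * (7 / 9) ^ l * (mh (l + 1) : ℝ) * X ^ l = V m6 X := by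
  unfold V m6
  refine tsum_congr fun l => ?_
  rw [psis_choose3]
  push_cast
  ring

lemma psis_ser7 (X : ℝ) :
    ∑' l : ℕ, ((l + 3).choose 3 : ℝ) * (7 / 9) ^ l * (mh (l + 2) : ℝ) * X ^ l = V m7 X := by
  unfold V m7
  refine tsum_congr fun l => ?_
  rw [psis_choose3]
  push_cast
  ring

lemma psis_ser8 (X : ℝ) :
    ∑' l : ℕ, ((l + 2).choose 2 : ℝ) * (7 / 9) ^ l * (mh (l + 0) : ℝ) * X ^ l = V m8 X := by
  unfold V m8
  refine tsum_congr fun l => ?_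
  rw [psis_choose2]
  push_cast
  simp

lemma psis_ser9 (X : ℝ) :
    ∑' l : ℕ, ((l + 2).choose 2 : ℝ) * (7 / 9) ^ l * (mh (l + 1) : ℝ) * X ^ l = V m9 X := by
  unfold V m9
  refine tsum_congr fun l => ?_
  rw [psis_choose2]
  push_cast
  ring

/-- the algebraic parts -/
lemma psis_V3 {X : ℝ} (hX0 : 0 ≤ X) (hX1 : X < 1) : V m3 X = 1 / (1 - (7 / 11) ^ 2 * X) ^ 2 := by
  have hz : ‖(7 / 11 : ℝ) ^ 2 * X‖ < 1 := by
    rw [Real.norm_eq_abs, abs_of_nonneg (by positivity)]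
    nlinarith
  have h := (hasSum_choose_mul_geometric_of_norm_lt_one 1 hz).tsum_eq
  rw [← h]
  unfold V m3
  refine tsum_congr fun l => ?_
  rw [psis_choose1, mul_pow, ← pow_mul]
  push_cast
  ring

lemma psis_V4 {X : ℝ} (hX0 : 0 ≤ X) (hX1 : X < 1) : V m4 X = 1 / (1 - (7 / 11) ^ 2 * X) ^ 3 := by
  have hz : ‖(7 / 11 : ℝ) ^ 2 * X‖ < 1 := by
    rw [Real.norm_eq_abs, abs_of_nonneg (by positivity)]
    nlinarith
  have h := (hasSum_choose_mul_geometric_of_norm_lt_one 2 hz).tsum_eq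
  rw [← h]
  unfold V m4
  refine tsum_congr fun l => ?_
  rw [psis_choose2, mul_pow, ← pow_mul]
  push_cast
  ring

/-- the integral of the last part -/
lemma psis_part4 {s : ℝ} (h0 : 0 ≤ s) (h1 : s < 1) :
    (∫ t in Set.Ioi (0 : ℝ), -(cc ^ 2 / (4 * aa)) *
      (3 * hh s * (1 + t ^ 2 * sg2 s) * (1 + t ^ 2 * (sg2 s - th s ^ 2)) /
          Dl s (2 * kap) (t ^ 2) ^ 4
        + aa ^ 2 * (hh s * (1 + t ^ 2 * (sg2 s - th s ^ 2)) / Dl s (2 * kap) (t ^ 2) ^ 3))) =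
      -(cc ^ 2 / (4 * aa)) * (
        3 * hh s * (2 / 9) ^ 4 * (π / 4 * V m5 (hh s ^ 2)
          - (2 * hh s ^ 2 + th s ^ 2) * (π / 4 * V m6 (hh s ^ 2))
          + hh s ^ 2 * (hh s ^ 2 + th s ^ 2) * (π / 4 * V m7 (hh s ^ 2)))
        + aa ^ 2 * hh s * (2 / 9) ^ 3 * (π / 4 * V m8 (hh s ^ 2)
          - (hh s ^ 2 + th s ^ 2) * (π / 4 * V m9 (hh s ^ 2)))) := by
  have hX0 : 0 ≤ hh s ^ 2 := sq_nonneg _
  have hX1 := psis_X_lt h0 h1
  set f : ℕ → ℕ → ℝ → ℝ := fun i j t =>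
    om t * ta t ^ i / (1 - 7 / 9 * ta t * hh s ^ 2) ^ (j + 1) with hf
  have hint : ∀ i j, Integrable (f i j) (volume.restrict (Set.Ioi (0 : ℝ))) := fun i j =>
    integrable_ser i j (by norm_num) (by norm_num) hX0 hX1
  have hval : ∀ i j, ∫ t in Set.Ioi (0 : ℝ), f i j t =
      π / 4 * ∑' l : ℕ, ((l + j).choose j : ℝ) * (7 / 9) ^ l * (mh (l + i) : ℝ) * (hh s ^ 2) ^ l :=
    fun i j => int_ser i j (by norm_num) (by norm_num) hX0 hX1
  have key : ∀ t : ℝ, -(cc ^ 2 / (4 * aa)) *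
      (3 * hh s * (1 + t ^ 2 * sg2 s) * (1 + t ^ 2 * (sg2 s - th s ^ 2)) /
          Dl s (2 * kap) (t ^ 2) ^ 4
        + aa ^ 2 * (hh s * (1 + t ^ 2 * (sg2 s - th s ^ 2)) / Dl s (2 * kap) (t ^ 2) ^ 3)) =
      -(cc ^ 2 / (4 * aa)) * (
        3 * hh s * (2 / 9) ^ 4 * (f 0 3 t
          - (2 * hh s ^ 2 + th s ^ 2) * f 1 3 t
          + hh s ^ 2 * (hh s ^ 2 + th s ^ 2) * f 2 3 t)
        + aa ^ 2 * hh s * (2 / 9) ^ 3 * (f 0 2 t
          - (hh s ^ 2 + th s ^ 2) * f 1 2 t)) := by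
    intro t
    have hd := (psis_den (z := 7 / 9) (by norm_num) (by norm_num) hX0 hX1 t).ne'
    have ht : (1 + t ^ 2) ≠ 0 := by positivity
    have h2 : Dl s (2 * kap) (t ^ 2) =
        (9 / 2) * (1 + t ^ 2) * (1 - 7 / 9 * ta t * hh s ^ 2) := by
      unfold Dl ta kap
      field_simp
      ring
    have h3 : 1 + t ^ 2 * sg2 s = (1 + t ^ 2) * (1 - ta t * hh s ^ 2) := by
      unfold sg2 ta
      field_simp
      ring
    have h4 : 1 + t ^ 2 * (sg2 s - th s ^ 2) =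
        (1 + t ^ 2) * (1 - ta t * (hh s ^ 2 + th s ^ 2)) := by
      unfold sg2 ta
      field_simp
      ring
    congr 1
    rw [h2, h3, h4, hf]
    simp only
    have ho : om t = 1 / (1 + t ^ 2) ^ 2 := rfl
    rw [ho]
    generalize 1 - 7 / 9 * ta t * hh s ^ 2 = D at hd ⊢
    generalize ta t = τ
    field_simp
    ring
  simp_rw [key]
  rw [integral_const_mul, integral_add, integral_const_mul, integral_const_mul, integral_add,
    integral_sub, integral_sub, integral_const_mul, integral_const_mul, integral_const_mul,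
    hval 0 3, hval 1 3, hval 2 3, hval 0 2, hval 1 2, psis_ser5, psis_ser6, psis_ser7, psis_ser8,
    psis_ser9]
  · exact hint 0 2
  · exact (hint 1 2).const_mul _
  · exact hint 0 3
  · exact (hint 1 3).const_mul _
  · exact (hint 0 3).sub ((hint 1 3).const_mul _)
  · exact (hint 2 3).const_mul _
  · exact (((hint 0 3).sub ((hint 1 3).const_mul _)).add ((hint 2 3).const_mul _)).const_mul _
  · exact ((hint 0 2).sub ((hint 1 2).const_mul _)).const_mul _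

theorem Psi_ser {s : ℝ} (h0 : 0 ≤ s) (h1 : s < 1) :
    Psi s = s * (π / 4 * (evl A1 (s ^ 2) * V m1 (hh s ^ 2) + evl A2 (s ^ 2) * V m2 (hh s ^ 2)
      + evl A3 (s ^ 2) * V m3 (hh s ^ 2) + evl A4 (s ^ 2) * V m4 (hh s ^ 2)
      + evl A5 (s ^ 2) * V m5 (hh s ^ 2) + evl A6 (s ^ 2) * V m6 (hh s ^ 2)
      + evl A7 (s ^ 2) * V m7 (hh s ^ 2))
      - π ^ 2 / 4 * (evl A8 (s ^ 2) * V m8 (hh s ^ 2) + evl A9 (s ^ 2) * V m9 (hh s ^ 2))) := by
  have hX0 : 0 ≤ hh s ^ 2 := sq_nonneg _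
  have hX1 := psis_X_lt h0 h1
  unfold Psi
  rw [psis_part1 h0 h1, psis_part2 h0 h1, psis_part4 h0 h1]
  have hD : Dl s kap kap = (11 / 4) ^ 2 * (1 - (7 / 11) ^ 2 * hh s ^ 2) := by
    unfold Dl kap
    ring
  have hden : (1 - (7 / 11) ^ 2 * hh s ^ 2) ≠ 0 := by
    have : 0 < 1 - (7 / 11) ^ 2 * hh s ^ 2 := by nlinarith
    exact this.ne'
  have e3 : ∀ a : ℝ, a / Dl s kap kap ^ 2 = a * (4 / 11) ^ 4 * V m3 (hh s ^ 2) := by
    intro a
    rw [psis_V3 hX0 hX1, hD]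
    generalize 1 - (7 / 11) ^ 2 * hh s ^ 2 = D at hden ⊢
    field_simp
  have e4 : ∀ a : ℝ, a / Dl s kap kap ^ 3 = a * (4 / 11) ^ 6 * V m4 (hh s ^ 2) := by
    intro a
    rw [psis_V4 hX0 hX1, hD]
    generalize 1 - (7 / 11) ^ 2 * hh s ^ 2 = D at hden ⊢
    field_simp
  rw [e3, e4]
  generalize V m1 (hh s ^ 2) = v1
  generalize V m2 (hh s ^ 2) = v2
  generalize V m3 (hh s ^ 2) = v3
  generalize V m4 (hh s ^ 2) = v4
  generalize V m5 (hh s ^ 2) = v5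
  generalize V m6 (hh s ^ 2) = v6
  generalize V m7 (hh s ^ 2) = v7
  generalize V m8 (hh s ^ 2) = v8
  generalize V m9 (hh s ^ 2) = v9
  have hr : √π ≠ 0 := (Real.sqrt_pos.2 Real.pi_pos).ne'
  have hr2 : √π ^ 2 = π := Real.sq_sqrt Real.pi_pos.le
  have hpi : π ≠ 0 := Real.pi_ne_zero
  have a1 : 4 / π * (hh s * ((π / 4) ^ 2 * v1)) = π / 4 * (hh s * v1) := by
    field_simp
  have a2 : 2 * (2 / √π * (-(cc / 2) * th s * (4 / 11) ^ 2 * (π / 4 * v2))) =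
      π / 4 * (-(2 * (23 / 250)) * (4 / 11) ^ 2 * th s * v2) := by
    unfold cc
    field_simp
  have a3 : cc ^ 2 / 4 = π / 4 * (23 / 250) ^ 2 := by
    unfold cc
    rw [mul_pow, hr2]
    ring
  have a4 : ∀ a : ℝ, 2 * (2 / √π * (-(cc ^ 2 / (4 * aa)) * a)) = -(2 * (23 / 250) ^ 2) * a := by
    intro a
    unfold cc aa
    field_simp
    ring
  have a5 : aa ^ 2 = π / 4 := by
    unfold aa
    rw [div_pow, hr2]
    norm_num
  rw [a1, a2, a3, a4, a5]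
  unfold A1 A2 A3 A4 A5 A6 A7 A8 A9
  simp only [evl]
  unfold sg2 hh th kk
  push_cast
  ring

end Pool.Agent.KGU
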