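import Pool.Agent.KGU.Defs

/-! The power series coefficients of the explicit part `Psi s = s * sum psi n * s^(2n)`.

With `x = s^2`: `hh s = s * eta`, `eta = (9-x)/10`, `hh s ^2 = X := x(9-x)^2/100`,
`th s ^ 2 = T := (9/100) x (1+x)^2`, `th s = -(3/10) s (1+x)`, `kk s = s * (1-9x)/10`.
`LL m n` is the coefficient of `x^n` in `sum_l (m l) X^l`. -/

open Real

namespace Pool.Agent.KGU

/-- `mh l = (4/pi) int_0^oo (1+t^2)^(-2) (t^2/(1+t^2))^l dt` -/
def mh : ℕ → ℚ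
  | 0 => 1
  | (l + 1) => mh l * ((2 * l + 1) / (2 * l + 4))

/-- coefficients of `X^l`, `X = (81 x - 18 x^2 + x^3)/100` -/
def xc : ℕ → ℕ → ℚ
  | 0, 0 => 1
  | 0, (_ + 1) => 0
  | (_ + 1), 0 => 0
  | (l + 1), 1 => 81 / 100 * xc l 0
  | (l + 1), 2 => 81 / 100 * xc l 1 - 18 / 100 * xc l 0
  | (l + 1), (n + 3) => 81 / 100 * xc l (n + 2) - 18 / 100 * xc l (n + 1) + 1 / 100 * xc l n

/-- coefficient of `x^n` in `sum_l (m l) X^l` -/
def LL (m : ℕ → ℚ) (n : ℕ) : ℚ := ∑ l ∈ Finset.range (n + 1), m l * xc l n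

/-- coefficient of `x^n` in `A(x) * sum a n x^n` for a polynomial given by its coefficient list -/
def cv : List ℚ → (ℕ → ℚ) → ℕ → ℚ
  | [], _, _ => 0
  | c :: _, a, 0 => c * a 0
  | c :: A, a, (n + 1) => c * a (n + 1) + cv A a n

/-- evaluation of a polynomial given by its coefficient list -/
noncomputable def evl : List ℚ → ℝ → ℝ
  | [], _ => 0
  | c :: A, x => c + x * evl A x

def m1 (l : ℕ) : ℚ := (l + 1) * mh l ^ 2
def m2 (l : ℕ) : ℚ := (l + 1) * (7 / 11) ^ l * mh l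
def m3 (l : ℕ) : ℚ := (l + 1) * (7 / 11) ^ (2 * l)
def m4 (l : ℕ) : ℚ := (l + 1) * (l + 2) / 2 * (7 / 11) ^ (2 * l)
def m5 (l : ℕ) : ℚ := (l + 1) * (l + 2) * (l + 3) / 6 * (7 / 9) ^ l * mh l
def m6 (l : ℕ) : ℚ := (l + 1) * (l + 2) * (l + 3) / 6 * (7 / 9) ^ l * mh (l + 1)
def m7 (l : ℕ) : ℚ := (l + 1) * (l + 2) * (l + 3) / 6 * (7 / 9) ^ l * mh (l + 2)
def m8 (l : ℕ) : ℚ := (l + 1) * (l + 2) / 2 * (7 / 9) ^ l * mh l
def m9 (l : ℕ) : ℚ := (l + 1) * (l + 2) / 2 * (7 / 9) ^ l * mh (l + 1)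

def A1 : List ℚ := [9/10, -1/10]
def A2 : List ℚ := [552/75625, 552/75625]
def A3 : List ℚ := [16928/1143828125, -152352/1143828125, 152352/1143828125, -16928/1143828125]
def A4 : List ℚ := [0, 0, -9750528/138403203125, 1083392/138403203125]
def A5 : List ℚ := [-2116/18984375, 2116/170859375]
def A6 : List ℚ := [0, 10051/52734375, -19573/474609375, 6877/474609375, -5819/4271484375]
def A7 : List ℚ := [0, 0, -1587/19531250, 529/19531250, -1058/87890625, 7406/2373046875,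
  -529/1582031250, 529/42714843750]
def A8 : List ℚ := [529/12656250, -529/113906250]
def A9 : List ℚ := [0, -529/14062500, 529/126562500, -529/126562500, 529/1139062500]

/-- the rational part of the coefficients, times `pi/4` -/
def qs (n : ℕ) : ℚ := cv A1 (LL m1) n + cv A2 (LL m2) n + cv A3 (LL m3) n + cv A4 (LL m4) n +
  cv A5 (LL m5) n + cv A6 (LL m6) n + cv A7 (LL m7) n

/-- the part of the coefficients with `-pi^2/4` -/
def rs (n : ℕ) : ℚ := cv A8 (LL m8) n + cv A9 (LL m9) n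

/-- the coefficients of the explicit part of the kernel -/
noncomputable def psi (n : ℕ) : ℝ := π / 4 * qs n - π ^ 2 / 4 * rs n

/-- the series `Σ m_l X^l` -/
noncomputable def V (m : ℕ → ℚ) (X : ℝ) : ℝ := ∑' l : ℕ, (m l : ℝ) * X ^ l

end Pool.Agent.KGU
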