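import Pool.Agent.KGU.CanR
import Pool.Agent.KGU.CanB

/-! `S z = (2/√π) ∫_{t>0} z e^{-t^2|z|^2} dt` and the expectations with the sign function.

* `S_eq`: `integral_gaussian_Ioi`; for `z = 0` both sides are `0`.
* `E_SS`, `E_nuS`, `E_rhoS`: insert `S_eq` and exchange the integrals
  (`integral_integral_swap`/`integrable_prod_iff`; absolute values are integrable since
  `(2/√π) ∫ |z| e^{-t^2|z|^2} dt = |S z| ≤ 1` and `nu, rho` have polynomial growth), then use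
  `F1, F2, F34`. -/

open MeasureTheory Real
open scoped ComplexConjugate

namespace Pool.Agent.KGU

lemma S_eq (z : ℂ) : S z = ((2 / √π : ℝ) : ℂ) * ∫ t in Set.Ioi (0 : ℝ), ex (t ^ 2) z := by
  have hpi : √π ≠ 0 := (Real.sqrt_pos.2 Real.pi_pos).ne'
  unfold S ex
  rw [integral_mul_const]
  have h1 : (∫ t in Set.Ioi (0 : ℝ), ((rexp (-t ^ 2 * ‖z‖ ^ 2) : ℝ) : ℂ)) =
      ((∫ t in Set.Ioi (0 : ℝ), rexp (-‖z‖ ^ 2 * t ^ 2) : ℝ) : ℂ) := by
    rw [← integral_complex_ofReal]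
    congr 1
    funext t
    congr 2
    ring
  rw [h1, integral_gaussian_Ioi]
  by_cases hz : z = 0
  · simp [hz]
  · have hn : ‖z‖ ≠ 0 := norm_ne_zero_iff.2 hz
    rw [Real.sqrt_div Real.pi_pos.le, Real.sqrt_sq (norm_nonneg z)]
    have h2 : ((2 / √π : ℝ) : ℂ) * (((√π / ‖z‖ / 2 : ℝ) : ℂ) * z) =
        ((2 / √π * (√π / ‖z‖ / 2) : ℝ) : ℂ) * z := by
      push_cast
      ring
    have h3 : 2 / √π * (√π / ‖z‖ / 2) = 1 / ‖z‖ := by
      field_simp
    rw [h2, h3]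
    push_cast
    ring

private lemma sg_ex_meas : Measurable fun p : ℂ × ℝ => ex (p.2 ^ 2) p.1 := by
  unfold ex
  fun_prop

private lemma sg_ex_int (z : ℂ) :
    Integrable (fun t : ℝ => ex (t ^ 2) z) (volume.restrict (Set.Ioi (0 : ℝ))) := by
  by_cases hz : z = 0
  · have : (fun t : ℝ => ex (t ^ 2) z) = fun _ => 0 := by
      funext t
      simp [ex, hz]
    rw [this]
    exact integrable_zero _ _ _
  · have hn : 0 < ‖z‖ := norm_pos_iff.2 hz
    have h := ((integrable_exp_neg_mul_sq (by positivity : 0 < ‖z‖ ^ 2)).integrableOn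
      (s := Set.Ioi (0 : ℝ))).ofReal (𝕜 := ℂ)
    have h2 := h.mul_const z
    refine h2.congr (Filter.Eventually.of_forall fun t => ?_)
    have e : -‖z‖ ^ 2 * t ^ 2 = -t ^ 2 * ‖z‖ ^ 2 := by ring
    show ((rexp (-‖z‖ ^ 2 * t ^ 2) : ℝ) : ℂ) * z = ((rexp (-t ^ 2 * ‖z‖ ^ 2) : ℝ) : ℂ) * z
    rw [e]

private lemma sg_ex_norm (z : ℂ) (t : ℝ) : ‖ex (t ^ 2) z‖ = rexp (-‖z‖ ^ 2 * t ^ 2) * ‖z‖ := by
  unfold ex
  rw [norm_mul, Complex.norm_real, Real.norm_eq_abs, Real.abs_exp]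
  congr 2
  ring

private lemma sg_norm_int (z : ℂ) : ∫ t in Set.Ioi (0 : ℝ), ‖ex (t ^ 2) z‖ ≤ √π / 2 := by
  simp only [sg_ex_norm]
  rw [integral_mul_const, integral_gaussian_Ioi]
  by_cases hz : z = 0
  · rw [hz, norm_zero, mul_zero]
    positivity
  · have hn : ‖z‖ ≠ 0 := norm_ne_zero_iff.2 hz
    rw [Real.sqrt_div Real.pi_pos.le, Real.sqrt_sq (norm_nonneg z)]
    refine le_of_eq ?_
    field_simp

private lemma sg_swap {X : Type} [MeasurableSpace X] (μ : Measure X) [SFinite μ] (φ v : X → ℂ)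
    (hφ : Integrable φ μ) (hv : Measurable v) :
    ∫ g, φ g * S (v g) ∂μ =
      ((2 / √π : ℝ) : ℂ) * ∫ t in Set.Ioi (0 : ℝ), ∫ g, φ g * ex (t ^ 2) (v g) ∂μ := by
  have hK : AEStronglyMeasurable (fun p : X × ℝ => φ p.1 * ex (p.2 ^ 2) (v p.1))
      (μ.prod (volume.restrict (Set.Ioi (0 : ℝ)))) := by
    have h1 : AEStronglyMeasurable (fun p : X × ℝ => φ p.1)
        (μ.prod (volume.restrict (Set.Ioi (0 : ℝ)))) := hφ.aestronglyMeasurable.comp_fst
    have h2 : Measurable fun p : X × ℝ => ex (p.2 ^ 2) (v p.1) :=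
      sg_ex_meas.comp ((hv.comp measurable_fst).prodMk measurable_snd)
    exact h1.mul h2.aestronglyMeasurable
  have hI : Integrable (fun p : X × ℝ => φ p.1 * ex (p.2 ^ 2) (v p.1))
      (μ.prod (volume.restrict (Set.Ioi (0 : ℝ)))) := by
    rw [integrable_prod_iff hK]
    refine ⟨Filter.Eventually.of_forall fun g => (sg_ex_int (v g)).const_mul (φ g), ?_⟩
    refine Integrable.mono' (hφ.norm.mul_const (√π / 2)) hK.norm.integral_prod_right'
      (Filter.Eventually.of_forall fun g => ?_)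
    simp only [norm_mul]
    rw [integral_const_mul, norm_mul, norm_norm, Real.norm_eq_abs,
      abs_of_nonneg (integral_nonneg fun t => norm_nonneg _)]
    exact mul_le_mul_of_nonneg_left (sg_norm_int (v g)) (norm_nonneg _)
  rw [← integral_integral_swap hI, ← integral_const_mul]
  congr 1
  funext g
  rw [integral_const_mul, S_eq]
  ring

private lemma sg_conj_S (z : ℂ) : conj (S z) = S (conj z) := by
  unfold S
  rw [map_div₀, Complex.conj_ofReal, RCLike.norm_conj]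

private lemma sg_conj_ex (q : ℝ) (z : ℂ) : conj (ex q z) = ex q (conj z) := by
  unfold ex
  rw [map_mul, Complex.conj_ofReal, RCLike.norm_conj]

/-- expectation against `conj (S u')` -/
private lemma sg_E4 {f : ℂ → ℂ → ℂ → ℂ → ℂ} (hf : PG f) (s : ℝ) :
    E4 s (fun u w u' w' => f u w u' w' * conj (S u')) =
      ((2 / √π : ℝ) : ℂ) * ∫ t in Set.Ioi (0 : ℝ),
        E4 s (fun u w u' w' => f u w u' w' * conj (ex (t ^ 2) u')) := by
  unfold E4
  simp only [sg_conj_S, sg_conj_ex]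
  exact sg_swap g4 _ (fun g => conj (cu' g)) (hf.integrable s)
    (Complex.continuous_conj.comp cu'_cont).measurable

/-- expectation against `S u` -/
private lemma sg_E4' {f : ℂ → ℂ → ℂ → ℂ → ℂ} (hf : PG f) (s : ℝ) :
    E4 s (fun u w u' w' => S u * f u w u' w') =
      ((2 / √π : ℝ) : ℂ) * ∫ t in Set.Ioi (0 : ℝ),
        E4 s (fun u w u' w' => ex (t ^ 2) u * f u w u' w') := by
  unfold E4
  simp only [mul_comm (S _), mul_comm (ex _ _)]
  exact sg_swap g4 _ (cu s) (hf.integrable s) (cu_cont s).measurable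

theorem E_SS {s : ℝ} (h0 : 0 ≤ s) (h1 : s < 1) :
    E4 s (fun u _ u' _ => S u * conj (S u')) =
      (((4 / π) * (∫ t in Set.Ioi (0 : ℝ), ∫ t' in Set.Ioi (0 : ℝ),
        hh s / Dl s (t ^ 2) (t' ^ 2) ^ 2) : ℝ) : ℂ) := by
  rw [sg_E4 PG.S1 s]
  have h2 : ∀ t : ℝ, E4 s (fun u w u' w' => S u * conj (ex (t ^ 2) u')) =
      (((2 / √π) * ∫ t' in Set.Ioi (0 : ℝ), hh s / Dl s (t ^ 2) (t' ^ 2) ^ 2 : ℝ) : ℂ) := by
    intro t
    have hPG : PG (fun (_ _ u' _ : ℂ) => conj (ex (t ^ 2) u')) := PG.conj (PG.ex2 _ (sq_nonneg t))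
    rw [sg_E4' hPG s, Complex.ofReal_mul, ← integral_complex_ofReal]
    congr 2
    funext t'
    rw [F1 h0 h1 (sq_nonneg t') (sq_nonneg t)]
    congr 3
    unfold Dl
    ring
  simp only [h2]
  rw [integral_complex_ofReal, integral_const_mul, ← Complex.ofReal_mul, ← mul_assoc]
  congr 2
  rw [div_mul_div_comm, Real.mul_self_sqrt Real.pi_pos.le]
  norm_num

theorem E_nuS {s : ℝ} (h0 : 0 ≤ s) (h1 : s < 1) :
    E4 s (fun u w u' _ => nu u w * conj (S u')) =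
      (((2 / √π) * ∫ t in Set.Ioi (0 : ℝ), -(cc / 2) * (th s / Dl s kap (t ^ 2) ^ 2) : ℝ) : ℂ) := by
  rw [sg_E4 PG.nu1 s, Complex.ofReal_mul, ← integral_complex_ofReal]
  congr 2
  funext t
  exact F2 h0 h1 (sq_nonneg t)

theorem E_rhoS {s : ℝ} (h0 : 0 ≤ s) (h1 : s < 1) :
    E4 s (fun u w u' _ => rho u w * conj (S u')) =
      (((2 / √π) * ∫ t in Set.Ioi (0 : ℝ), -(cc ^ 2 / (4 * aa)) *
        (3 * hh s * (1 + t ^ 2 * sg2 s) * (1 + t ^ 2 * (sg2 s - th s ^ 2)) /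
            Dl s (2 * kap) (t ^ 2) ^ 4
          + aa ^ 2 * (hh s * (1 + t ^ 2 * (sg2 s - th s ^ 2)) /
            Dl s (2 * kap) (t ^ 2) ^ 3)) : ℝ) : ℂ) := by
  rw [sg_E4 PG.rho1 s, Complex.ofReal_mul, ← integral_complex_ofReal]
  congr 2
  funext t
  exact F34 h0 h1 (sq_nonneg t)

theorem Psi_eq {s : ℝ} (h0 : 0 ≤ s) (h1 : s < 1) :
    E4 s (fun u _ u' _ => S u * conj (S u')) + 2 * E4 s (fun u w u' _ => nu u w * conj (S u')) +
      E4 s (fun u w u' w' => nu u w * conj (nu u' w')) +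
      2 * E4 s (fun u w u' _ => rho u w * conj (S u')) = ((Psi s : ℝ) : ℂ) := by
  rw [E_SS h0 h1, E_nuS h0 h1, E_rhoS h0 h1, F5 h0 h1]
  unfold Psi
  push_cast
  ring

end Pool.Agent.KGU
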